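import Pool.Agent.L0h43.TA.Var
import Pool.Agent.H488R2.PPM.Mer
import Pool.Agent.H325R2.PPWtx
import Pool.Agent.Helper22K9.Trp.Gall

/-!
# Almost all short windows contain at most `(4 + δ) H / log N` primes
-/

set_option autoImplicit false

namespace Pool.Agent.L0h43.TA

open Finset Filter Topology Pool.Agent.H387R2
open Pool.Agent.H410R2.AC (wt GG)
open Pool.Agent.H361R2.PP (P2 JJ)

/-- the number of primes in the window `[n, n + H)` -/
def NH (H n : ℕ) : ℕ := ((range H).filter (fun t => (n + t).Prime)).card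

lemma P2_prs (J z : ℕ) : Prs (P2 J z) := fun _ hp => (mem_filter.1 hp).2.1

lemma P2_big (J z : ℕ) : Big J (P2 J z) := fun _ hp => (mem_filter.1 hp).2.2

/-- the majorant is one at the large primes -/
lemma nu_prime {J X Y p : ℕ} (hp : p.Prime) (hY : 1 ≤ Y) (hYp : Y < p) (hJ : 2 ^ 2 ^ J ≤ Y) :
    nu J (P2 J X) Y p = 1 := by
  classical
  have hR : Ro J p := by
    intro q hq hd
    have h1 := mem_filter.1 hq
    have h2 := mem_range.1 h1.1
    rw [Nat.prime_dvd_prime_iff_eq h1.2 hp] at hd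
    omega
  unfold nu
  rw [if_pos hR]
  have hL : Lam (P2 J X) Y p = 1 := by
    unfold Lam
    rw [← sum_filter]
    have : (Fm (P2 J X) Y).filter (fun D => ∀ q ∈ D, q ∣ p) = {∅} := by
      ext D
      rw [mem_filter, mem_singleton]
      constructor
      · rintro ⟨hD, h⟩
        by_contra hne
        obtain ⟨q, hq⟩ := nonempty_iff_ne_empty.2 hne
        have hqp := Fm_prs (P2_prs J X) hD q hq
        have h1 := h q hq
        rw [Nat.prime_dvd_prime_iff_eq hqp hp] at h1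
        have h2 : ∏ r ∈ D, r ≤ Y := by
          unfold Fm at hD
          exact (mem_filter.1 hD).2
        have h3 : q ≤ ∏ r ∈ D, r := Nat.le_of_dvd (prod_pos' (Fm_prs (P2_prs J X) hD)) (dvd_prod_of_mem _ hq)
        omega
      · rintro rfl
        exact ⟨empty_mem_Fm _ hY, fun q hq => absurd hq (notMem_empty q)⟩
    rw [this, sum_singleton]
    exact rho_empty (P2_prs J X) hY
  rw [hL, one_pow]

lemma NH_le {J X Y H n : ℕ} (hY : 1 ≤ Y) (hJ : 2 ^ 2 ^ J ≤ Y) (hn : Y < n) :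
    (NH H n : ℝ) ≤ Yw J (P2 J X) Y H n := by
  classical
  unfold NH Yw
  rw [card_filter]
  push_cast
  apply sum_le_sum
  intro t _
  by_cases h : (n + t).Prime
  · rw [if_pos h, nu_prime h hY (by omega) hJ]
  · rw [if_neg h]
    exact nu_nonneg _ _ _ _

/-- choice of the parameters -/
lemma params (C1 : ℝ) (C2 C : ℕ) (hC1 : 1 ≤ C1) (hC2 : 1 ≤ C2) (hC : 1 ≤ C) (δ ε : ℝ) (hδ : 0 < δ)
    (hδ1 : δ ≤ 1) (hε : 0 < ε) : ∃ (b : ℕ) (d : ℝ), 3 * C ≤ b ∧ 0 < d ∧ d ≤ 1 / 8 ∧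
      2 * (C * b * d) ≤ δ / 128 ∧ (C1 / d) ^ 2 * (((C2 : ℝ) / d) ^ C2) ^ 2 * (1 / 2) ^ b ≤ ε := by
  have hc0 : 0 < (256 * C * (C1 + C2) / δ : ℝ) := by positivity
  set c : ℝ := 256 * C * (C1 + C2) / δ with hc
  set m : ℕ := 2 + C2 * 2 with hm
  have t1 := tendsto_pow_const_mul_const_pow_of_abs_lt_one m (r := (1 / 2 : ℝ))
    (by rw [abs_of_pos (by norm_num)]; norm_num)
  have hev := t1.eventually_lt_const (show (0 : ℝ) < ε / c ^ m by positivity)
  obtain ⟨b, hb1, hb2⟩ := (hev.and (eventually_ge_atTop (3 * C))).exists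
  have hb0 : (0 : ℝ) < b := by
    have : 0 < b := by omega
    exact_mod_cast this
  have hb3 : (3 : ℝ) * C ≤ b := by exact_mod_cast hb2
  have hCR : (1 : ℝ) ≤ C := by exact_mod_cast hC
  have hC2R : (1 : ℝ) ≤ C2 := by exact_mod_cast hC2
  have hd0 : 0 < δ / (256 * C * b) := by positivity
  refine ⟨b, δ / (256 * C * b), hb2, hd0, ?_, ?_, ?_⟩
  · rw [div_le_div_iff₀ (by positivity) (by norm_num)]
    nlinarith
  · have : 2 * (C * b * (δ / (256 * C * b))) = δ / 128 := by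
      field_simp
      norm_num
    rw [this]
  · have e1 : C1 / (δ / (256 * C * b)) ≤ c * b := by
      rw [hc, div_div_eq_mul_div, div_mul_eq_mul_div]
      apply div_le_div_of_nonneg_right _ hδ.le
      have : C1 * (256 * C * b) ≤ (C1 + C2) * (256 * C * b) :=
        mul_le_mul_of_nonneg_right (by linarith) (by positivity)
      linarith
    have e2 : (C2 : ℝ) / (δ / (256 * C * b)) ≤ c * b := by
      rw [hc, div_div_eq_mul_div, div_mul_eq_mul_div]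
      apply div_le_div_of_nonneg_right _ hδ.le
      have : (C2 : ℝ) * (256 * C * b) ≤ (C1 + C2) * (256 * C * b) :=
        mul_le_mul_of_nonneg_right (by linarith) (by positivity)
      linarith
    have hC10 : 0 ≤ C1 := by linarith
    calc (C1 / (δ / (256 * C * b))) ^ 2 * (((C2 : ℝ) / (δ / (256 * C * b))) ^ C2) ^ 2 * (1 / 2) ^ b ≤
        (c * b) ^ 2 * ((c * b) ^ C2) ^ 2 * (1 / 2) ^ b := by
          apply mul_le_mul_of_nonneg_right _ (by positivity)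
          apply mul_le_mul
          · exact pow_le_pow_left₀ (by positivity) e1 2
          · apply pow_le_pow_left₀ (by positivity)
            exact pow_le_pow_left₀ (by positivity) e2 C2
          · positivity
          · positivity
      _ = c ^ m * ((b : ℝ) ^ m * (1 / 2) ^ b) := by
          rw [← pow_mul, ← pow_add, ← hm, mul_pow]; ring
      _ ≤ c ^ m * (ε / c ^ m) := mul_le_mul_of_nonneg_left hb1.le (by positivity)
      _ = ε := by field_simp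

lemma hS_alg {H ε x y : ℝ} (hH : 0 ≤ H) (hε : 0 ≤ ε) (hε1 : ε ≤ 1) (hx : x ≤ ε / 4 * H) (hx0 : 0 ≤ x)
    (hy : y ≤ ε / 4) (hy0 : 0 ≤ y) : H * (H + x) * (1 + y) ≤ H ^ 2 * (1 + ε) := by
  calc H * (H + x) * (1 + y) ≤ H * (H + ε / 4 * H) * (1 + ε / 4) := by gcongr
    _ = H ^ 2 * (1 + ε / 4) ^ 2 := by ring
    _ ≤ H ^ 2 * (1 + ε) := by
        apply mul_le_mul_of_nonneg_left _ (by positivity)
        nlinarith

lemma alg_a {δ L : ℝ} (hδ : 0 < δ) (hδ1 : δ ≤ 1) (hL : 0 ≤ L) :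
    L ≤ (4 + δ / 4) * ((1 / 4 - δ / 128) * L) := by
  have e : (4 + δ / 4) * ((1 / 4 - δ / 128) * L) = (1 + δ / 32 - δ ^ 2 / 512) * L := by ring
  rw [e]
  have : 1 ≤ 1 + δ / 32 - δ ^ 2 / 512 := by nlinarith
  exact le_mul_of_one_le_left hL this

lemma alg_b {x : ℝ} (hx : 1 ≤ x) : x ≤ x * x := le_mul_of_one_le_left (by linarith) hx

lemma alg_c {N H : ℝ} (hN : 16 ≤ N) (hH : H ≤ N) : N + H < N ^ 2 := by nlinarith

lemma alg_d {η δ N B ε : ℝ} (hη : 0 < η) (hδ : 0 < δ) (hN : 0 ≤ N) (hε : ε = η * δ ^ 2 / 160)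
    (h : B * (9 / 16 * δ ^ 2) ≤ 40 * ε * N) : B ≤ η / 2 * N := by
  have h9 : 0 < 9 / 16 * δ ^ 2 := by positivity
  rw [← le_div_iff₀ h9] at h
  refine h.trans ?_
  rw [div_le_iff₀ h9, hε]
  have h10 : 0 ≤ η * δ ^ 2 * N := by positivity
  linarith

/-- the final algebra -/
lemma fin_alg {N H L V g U e1 S ε b2 E4 E2 D K1 : ℝ} (hN : 0 ≤ N) (hH : 0 < H) (hL : 10 ≤ L) (hV : 0 ≤ V)
    (hg : 0 ≤ g) (hVg : V * g ≤ 5 / L) (_hS0 : 0 ≤ S) (hS : S ≤ ε) (hε : 0 < ε) (hε1 : ε ≤ 1)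
    (he : V ^ 2 * e1 ≤ ε / L ^ 2) (hU : V * (b2 * U) ≤ ε / L) (hU0 : 0 ≤ b2 * U)
    (hE4 : E4 ≤ ε * N / L ^ 2) (hE2 : E2 ≤ ε * N / L ^ 2) (hE20 : 0 ≤ E2)
    (hD : D ≤ K1 * N / L) (hK : K1 / ε * L ≤ H) (he0 : 0 ≤ e1) :
    N * (H * V) ^ 2 * (S * g ^ 2 + (1 + S) * e1 + 2 * g * (b2 * U)) + H ^ 2 * E4 + H * D +
      2 * (H * V * g) * (H * E2) ≤ 40 * ε * N * (H / L) ^ 2 := by
  have hL0 : 0 < L := by linarith
  have hVg0 : 0 ≤ V * g := mul_nonneg hV hg
  have h1 : (V * g) ^ 2 ≤ 25 / L ^ 2 := by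
    calc (V * g) ^ 2 ≤ (5 / L) ^ 2 := pow_le_pow_left₀ hVg0 hVg 2
      _ = 25 / L ^ 2 := by rw [div_pow]; norm_num
  have a1 : N * (H * V) ^ 2 * (S * g ^ 2) ≤ N * H ^ 2 * (ε * (25 / L ^ 2)) := by
    calc N * (H * V) ^ 2 * (S * g ^ 2) = N * H ^ 2 * (S * (V * g) ^ 2) := by ring
      _ ≤ N * H ^ 2 * (ε * (25 / L ^ 2)) := by
          apply mul_le_mul_of_nonneg_left _ (by positivity)
          exact mul_le_mul hS h1 (by positivity) hε.le
  have a2 : N * (H * V) ^ 2 * ((1 + S) * e1) ≤ N * H ^ 2 * (2 * (ε / L ^ 2)) := by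
    calc N * (H * V) ^ 2 * ((1 + S) * e1) = N * H ^ 2 * ((1 + S) * (V ^ 2 * e1)) := by ring
      _ ≤ _ := by
          apply mul_le_mul_of_nonneg_left _ (by positivity)
          exact mul_le_mul (by linarith) he (by positivity) (by norm_num)
  have a3 : N * (H * V) ^ 2 * (2 * g * (b2 * U)) ≤ N * H ^ 2 * (2 * (5 / L * (ε / L))) := by
    calc N * (H * V) ^ 2 * (2 * g * (b2 * U)) = N * H ^ 2 * (2 * ((V * g) * (V * (b2 * U)))) := by ring
      _ ≤ _ := by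
          apply mul_le_mul_of_nonneg_left _ (by positivity)
          apply mul_le_mul_of_nonneg_left _ (by norm_num)
          exact mul_le_mul hVg hU (by positivity) (by positivity)
  have a4 : H ^ 2 * E4 ≤ H ^ 2 * (ε * N / L ^ 2) := mul_le_mul_of_nonneg_left hE4 (by positivity)
  have a5 : H * D ≤ ε * N * (H / L) ^ 2 := by
    have hK' : K1 * L ≤ ε * H := by
      rw [div_mul_eq_mul_div, div_le_iff₀ hε] at hK
      linarith
    calc H * D ≤ H * (K1 * N / L) := mul_le_mul_of_nonneg_left hD hH.le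
      _ = (K1 * L) * (N * H / L ^ 2) := by field_simp
      _ ≤ (ε * H) * (N * H / L ^ 2) := mul_le_mul_of_nonneg_right hK' (by positivity)
      _ = _ := by rw [div_pow]; ring
  have a6 : 2 * (H * V * g) * (H * E2) ≤ H ^ 2 * (ε * N / L ^ 2) := by
    calc 2 * (H * V * g) * (H * E2) = H ^ 2 * (2 * (V * g) * E2) := by ring
      _ ≤ H ^ 2 * (ε * N / L ^ 2) := by
          apply mul_le_mul_of_nonneg_left _ (by positivity)
          have b1 : 2 * (V * g) ≤ 1 := by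
            have : 5 / L ≤ 1 / 2 := by
              rw [div_le_div_iff₀ hL0 (by norm_num)]; linarith
            linarith
          calc 2 * (V * g) * E2 ≤ 1 * E2 := mul_le_mul_of_nonneg_right b1 hE20
            _ ≤ _ := by rw [one_mul]; exact hE2
  have e0 : N * (H * V) ^ 2 * (S * g ^ 2 + (1 + S) * e1 + 2 * g * (b2 * U)) =
      N * (H * V) ^ 2 * (S * g ^ 2) + N * (H * V) ^ 2 * ((1 + S) * e1) + N * (H * V) ^ 2 * (2 * g * (b2 * U)) := by
    ring
  have e2 : 40 * ε * N * (H / L) ^ 2 = N * H ^ 2 * (ε * (25 / L ^ 2)) + N * H ^ 2 * (2 * (ε / L ^ 2)) +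
      N * H ^ 2 * (2 * (5 / L * (ε / L))) + H ^ 2 * (ε * N / L ^ 2) + ε * N * (H / L) ^ 2 +
      H ^ 2 * (ε * N / L ^ 2) := by
    field_simp
    ring
  rw [e0, e2]
  linarith

open Classical in
/-- **almost all windows of length `H ≥ K log N` contain at most `(4 + δ) H / log N` primes** -/
theorem ae4 (δ η : ℝ) (hδ0 : 0 < δ) (hη : 0 < η) : ∃ K κ : ℝ, 0 < K ∧ 0 < κ ∧ ∃ N₀ : ℕ, ∀ N : ℕ, N₀ ≤ N →
    ∀ H : ℕ, K * Real.log N ≤ H → (H : ℝ) ≤ (N : ℝ) ^ κ →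
      (((Ioc 0 N).filter (fun n => (4 + δ) * H / Real.log N < (NH H n : ℝ))).card : ℝ) ≤ η * N := by
  wlog hδ1 : δ ≤ 1 generalizing δ with hw
  · obtain ⟨K, κ, hK, hκ, N₀, h⟩ := hw 1 one_pos le_rfl
    refine ⟨K, κ, hK, hκ, max N₀ 3, fun N hN H hKH hHκ => le_trans ?_ (h N (le_trans (le_max_left _ _) hN) H hKH hHκ)⟩
    have hN3 : (3 : ℝ) ≤ N := by exact_mod_cast le_trans (le_max_right _ _) hN
    have hL : 0 < Real.log N := Real.log_pos (by linarith)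
    have : (((Ioc 0 N).filter (fun n => (4 + δ) * H / Real.log N < (NH H n : ℝ))).card) ≤
        ((Ioc 0 N).filter (fun n => (4 + 1) * H / Real.log N < (NH H n : ℝ))).card := by
      apply card_le_card
      intro n hn
      rw [mem_filter] at hn ⊢
      refine ⟨hn.1, lt_of_le_of_lt ?_ hn.2⟩
      apply div_le_div_of_nonneg_right _ hL.le
      apply mul_le_mul_of_nonneg_right _ (Nat.cast_nonneg _)
      linarith
    exact_mod_cast this
  wlog hη1 : η ≤ 1 generalizing η with hw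
  · obtain ⟨K, κ, hK, hκ, N₀, h⟩ := hw 1 one_pos le_rfl
    refine ⟨K, κ, hK, hκ, N₀, fun N hN H hKH hHκ => le_trans (h N hN H hKH hHκ) ?_⟩
    exact mul_le_mul_of_nonneg_right (by linarith) (Nat.cast_nonneg _)
  -- the constants
  obtain ⟨C, hC, hCT⟩ := cnt_two
  have hCT2 : CT2 C := hCT
  obtain ⟨C1, hC1, hMer⟩ := Pool.Agent.H488R2.mer Pool.Agent.H325R2.wtx
  obtain ⟨C2, hC2, hGbd⟩ := Pool.Agent.H488R2.gbd Pool.Agent.H325R2.wtx 8
  obtain ⟨C3, hC3, hS2⟩ := S2_le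
  obtain ⟨ε, hεdef⟩ : ∃ ε : ℝ, ε = η * δ ^ 2 / 160 := ⟨_, rfl⟩
  have hε : 0 < ε := by rw [hεdef]; positivity
  have hε1 : ε ≤ 1 := by
    rw [hεdef, div_le_one (by norm_num)]
    have : δ ^ 2 ≤ 1 := pow_le_one₀ hδ0.le hδ1
    nlinarith
  obtain ⟨b, d, hb, hd, hd8, hdb, hpar⟩ := params C1 C2 C hC1 hC2 hC δ (ε / 2) hδ0 hδ1 (by positivity)
  obtain ⟨k, hk⟩ : ∃ k : ℕ, k = ⌈4 / d⌉₊ := ⟨_, rfl⟩
  obtain ⟨U0, hU0⟩ : ∃ U0 : ℝ, U0 = ((C2 : ℝ) / d) ^ C2 := ⟨_, rfl⟩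
  have hU00 : 0 < U0 := by rw [hU0]; positivity
  obtain ⟨K1, hK1⟩ : ∃ K1 : ℝ, K1 = (3 ^ k) ^ 4 * (2 * (C1 / d) + 1) := ⟨_, rfl⟩
  have hK10 : 0 < K1 := by rw [hK1]; positivity
  obtain ⟨H₀, hH₀⟩ : ∃ H₀ : ℝ, ∀ x : ℝ, H₀ ≤ x → C3 * x ^ (1 / 4 : ℝ) ≤ ε / 4 * x := by
    refine ⟨max 1 ((4 * C3 / ε) ^ 2), fun x hx => ?_⟩
    have h1 : 1 ≤ x := (le_max_left _ _).trans hx
    have h2 : (4 * C3 / ε) ^ 2 ≤ x := (le_max_right _ _).trans hx
    have h3 : 4 * C3 / ε ≤ Real.sqrt x := Real.le_sqrt_of_sq_le h2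
    have h4 : x ^ (1 / 4 : ℝ) ≤ Real.sqrt x := by
      rw [Real.sqrt_eq_rpow]
      exact Real.rpow_le_rpow_of_exponent_le h1 (by norm_num)
    rw [div_le_iff₀ hε] at h3
    have h5 : Real.sqrt x * Real.sqrt x = x := Real.mul_self_sqrt (by linarith)
    calc C3 * x ^ (1 / 4 : ℝ) ≤ C3 * Real.sqrt x := mul_le_mul_of_nonneg_left h4 hC3.le
      _ ≤ (Real.sqrt x * ε / 4) * Real.sqrt x :=
          mul_le_mul_of_nonneg_right (by linarith) (Real.sqrt_nonneg x)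
      _ = ε / 4 * (Real.sqrt x * Real.sqrt x) := by ring
      _ = ε / 4 * x := by rw [h5]
  obtain ⟨cE, hcE⟩ : ∃ cE : ℝ, cE = ((3 * C : ℕ) : ℝ) ^ (3 * C) * 4 * (2 ^ k) ^ 4 := ⟨_, rfl⟩
  have hcE0 : 0 < cE := by rw [hcE]; positivity
  have hWtx := Pool.Agent.H325R2.wtx.2 d hd (by linarith)
  obtain ⟨X1, hX1⟩ := hWtx
  obtain ⟨X2, hX2⟩ := hMer d hd (by linarith)
  obtain ⟨X3, hX3⟩ := hGbd d hd hd8
  -- limits
  have tN : Tendsto (fun N : ℕ => (N : ℝ)) atTop atTop := tendsto_natCast_atTop_atTop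
  have tL : Tendsto (fun N : ℕ => Real.log (N : ℝ)) atTop atTop := Real.tendsto_log_atTop.comp tN
  have tp : ∀ s : ℝ, 0 < s → Tendsto (fun N : ℕ => (N : ℝ) ^ s) atTop atTop :=
    fun s hs => (tendsto_rpow_atTop hs).comp tN
  have hsmall : ∀ᶠ N : ℕ in atTop, cE * Real.log N ^ 3 ≤ ε * (N : ℝ) ^ (δ / 128) := by
    have h := (isLittleO_log_rpow_rpow_atTop 3 (s := δ / 128) (by positivity)).def
      (show 0 < ε / cE by positivity)
    filter_upwards [tN.eventually h, tL.eventually_ge_atTop 0, eventually_ge_atTop 1] with N h1 h2 h3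
    rw [Real.norm_of_nonneg (by positivity), Real.norm_of_nonneg (by positivity)] at h1
    have h4 : Real.log (N : ℝ) ^ (3 : ℝ) = Real.log (N : ℝ) ^ 3 := by
      rw [← Real.rpow_natCast]; norm_num
    rw [h4] at h1
    calc cE * Real.log N ^ 3 ≤ cE * (ε / cE * (N : ℝ) ^ (δ / 128)) := mul_le_mul_of_nonneg_left h1 hcE0.le
      _ = _ := by field_simp
  refine ⟨K1 / ε, d / 2, by positivity, by positivity, ?_⟩
  obtain ⟨N₀, hN₀⟩ := eventually_atTop.1 (hsmall.and ((tL.eventually_ge_atTop (max 10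
    (max (H₀ * ε / K1) (256 * Real.log 2 / δ)))).and (((tp (d / 2) (by positivity)).eventually_ge_atTop
    (max 20 (max (1 + 32 / ε) (1 + 256 * U0 ^ 2 * (C1 / d) ^ 2 / ε)))).and
    (((tp (3 / 4 + δ / 256) (by positivity)).eventually_ge_atTop (2 / η)).and
    (eventually_ge_atTop (max X1 (max X2 (max X3 16))))))))
  refine ⟨N₀, fun N hN H hKH hHκ => ?_⟩
  obtain ⟨h1, h2, h3, h4, h5⟩ := hN₀ N hN
  have hN16 : 16 ≤ N := le_trans (le_trans (le_max_right _ _) (le_trans (le_max_right _ _) (le_max_right _ _))) h5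
  have hNX1 : X1 ≤ N := le_trans (le_max_left _ _) h5
  have hNX2 : X2 ≤ N := le_trans (le_trans (le_max_left _ _) (le_max_right _ _)) h5
  have hNX3 : X3 ≤ N := le_trans (le_trans (le_max_left _ _) (le_trans (le_max_right _ _) (le_max_right _ _))) h5
  have hN0 : (0 : ℝ) < N := by
    have : (16 : ℝ) ≤ N := by exact_mod_cast hN16
    linarith
  have hN1 : (1 : ℝ) ≤ N := by
    have : (16 : ℝ) ≤ N := by exact_mod_cast hN16
    linarith
  set L := Real.log (N : ℝ) with hL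
  have hL10 : 10 ≤ L := (le_max_left _ _).trans h2
  have hLH₀ : H₀ * ε / K1 ≤ L := ((le_max_left _ _).trans (le_max_right _ _)).trans h2
  have hLlog : 256 * Real.log 2 / δ ≤ L := ((le_max_right _ _).trans (le_max_right _ _)).trans h2
  have hL0 : 0 < L := by linarith
  have hz20 : 20 ≤ (N : ℝ) ^ (d / 2) := (le_max_left _ _).trans h3
  have hzε : 1 + 32 / ε ≤ (N : ℝ) ^ (d / 2) := ((le_max_left _ _).trans (le_max_right _ _)).trans h3
  have hzU : 1 + 256 * U0 ^ 2 * (C1 / d) ^ 2 / ε ≤ (N : ℝ) ^ (d / 2) :=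
    ((le_max_right _ _).trans (le_max_right _ _)).trans h3
  obtain ⟨J, hJ⟩ : ∃ J : ℕ, J = JJ d N := ⟨_, rfl⟩
  obtain ⟨w1, w2, w3⟩ := hX1 N hNX1
  obtain ⟨m1, m2, m3⟩ := hX2 N hNX2
  have g1 := hX3 N hNX3
  rw [← m3] at m2
  rw [← hJ] at w1 w2 m2 g1
  -- the size of `z`
  have hzR : ((2 ^ 2 ^ J : ℕ) : ℝ) = (2 : ℝ) ^ 2 ^ J := by push_cast; rfl
  have hz20' : (20 : ℝ) ≤ (2 : ℝ) ^ 2 ^ J := hz20.trans w2
  have hz9 : 9 ≤ 2 ^ 2 ^ J := by
    have : (20 : ℝ) ≤ ((2 ^ 2 ^ J : ℕ) : ℝ) := by rw [hzR]; exact hz20'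
    have : 20 ≤ 2 ^ 2 ^ J := by exact_mod_cast this
    omega
  have hV1 : V1 J * (d * L) ≤ C1 := m2
  have hV := V1_pos J
  have hVL : V1 J ≤ C1 / d / L := by
    rw [div_div, le_div_iff₀ (by positivity)]
    exact hV1
  -- `Y`
  obtain ⟨Y, hYdef⟩ : ∃ Y : ℕ, Y = ⌊(N : ℝ) ^ (1 / 4 - δ / 256)⌋₊ := ⟨_, rfl⟩
  have hθ0 : 0 < 1 / 4 - δ / 256 := by linarith
  have hNθ1 : 1 ≤ (N : ℝ) ^ (1 / 4 - δ / 256) := Real.one_le_rpow hN1 hθ0.le
  have hY1 : 1 ≤ Y := by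
    rw [hYdef]
    exact Nat.one_le_floor_iff _ |>.2 hNθ1
  have hYle : (Y : ℝ) ≤ (N : ℝ) ^ (1 / 4 - δ / 256) := by
    rw [hYdef]; exact Nat.floor_le (by positivity)
  have hYlt : (N : ℝ) ^ (1 / 4 - δ / 256) < Y + 1 := by
    rw [hYdef]; exact Nat.lt_floor_add_one _
  have hYR1 : (1 : ℝ) ≤ Y := by exact_mod_cast hY1
  have hYN : Y ≤ N := by
    have : (Y : ℝ) ≤ N := by
      refine hYle.trans ?_
      calc (N : ℝ) ^ (1 / 4 - δ / 256) ≤ (N : ℝ) ^ (1 : ℝ) := Real.rpow_le_rpow_of_exponent_le hN1 (by linarith)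
        _ = N := Real.rpow_one _
    exact_mod_cast this
  have hzY : 2 ^ 2 ^ J ≤ Y := by
    have h6 : ((2 ^ 2 ^ J : ℕ) : ℝ) < Y + 1 := by
      rw [hzR]
      refine lt_of_le_of_lt (w1.trans ?_) hYlt
      exact Real.rpow_le_rpow_of_exponent_le hN1 (by linarith)
    have : 2 ^ 2 ^ J < Y + 1 := by exact_mod_cast h6
    omega
  have hlogY : (1 / 4 - δ / 128) * L ≤ Real.log Y := by
    have h6 : Real.log ((N : ℝ) ^ (1 / 4 - δ / 256) / 2) ≤ Real.log Y := by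
      apply Real.log_le_log (by positivity)
      linarith
    rw [Real.log_div (by positivity) (by norm_num), Real.log_rpow hN0, ← hL] at h6
    have h7 : Real.log 2 ≤ δ / 256 * L := by
      rw [div_le_iff₀ hδ0] at hLlog
      linarith
    have e : (1 / 4 - δ / 128) * L = (1 / 4 - δ / 256) * L - δ / 256 * L := by ring
    linarith
  have hlogY0 : 0 < Real.log Y := lt_of_lt_of_le (by
    have : 0 < 1 / 4 - δ / 128 := by linarith
    positivity) hlogY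
  -- `g`
  have hGGS := Pool.Agent.H633R2.ggSharp J N Y hY1 hYN
  have hQ := P2_prs J N
  have hB := P2_big J N
  have hGpos := GG_pos hQ hY1 (Y := Y)
  obtain ⟨g, hg⟩ : ∃ g : ℝ, g = 1 / GG (Fm (P2 J N) Y) := ⟨_, rfl⟩
  have hg0 : 0 < g := by rw [hg]; positivity
  have hVg : V1 J * g ≤ 1 / Real.log Y := by
    rw [hg, mul_one_div, div_le_div_iff₀ hGpos hlogY0, one_mul, mul_comm]
    exact hGGS
  have hVg4 : V1 J * g ≤ (4 + δ / 4) / L := by
    refine hVg.trans ?_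
    rw [div_le_div_iff₀ hlogY0 hL0, one_mul]
    have h6 : L ≤ (4 + δ / 4) * ((1 / 4 - δ / 128) * L) := alg_a hδ0 hδ1 hL0.le
    exact h6.trans (mul_le_mul_of_nonneg_left hlogY (by positivity))
  have hVg5 : V1 J * g ≤ 5 / L := hVg4.trans (div_le_div_of_nonneg_right (by linarith) hL0.le)
  -- `U`
  have hUU : UU (P2 J N) ≤ U0 := by
    rw [UU_eq _ hQ, hU0]
    refine le_trans ?_ g1
    apply Finset.prod_le_prod
    · intro p _; positivity
    · intro p hp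
      have h6 : (1 : ℝ) < p := one_lt_cast hQ hp
      have h7 : (8 : ℝ) / p ≤ ((8 : ℕ) : ℝ) / ((p : ℝ) - 1) := by
        push_cast
        apply div_le_div_of_nonneg_left (by norm_num) (by linarith) (by linarith)
      linarith
  have hUU0 := UU_nonneg hQ (Q := P2 J N)
  -- `e1`
  have hzm : (0 : ℝ) < (2 : ℝ) ^ 2 ^ J - 1 := by linarith
  have hsq : ∑ p ∈ P2 J N, (8 / (p : ℝ) * UU (P2 J N)) ^ 2 ≤ 64 * U0 ^ 2 / ((2 : ℝ) ^ 2 ^ J - 1) := by
    have h6 := Pool.Agent.Helper22K9.Trp.sum_inv_sq_gt (y := 2 ^ 2 ^ J - 1) (by omega) (P2 J N) (by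
      intro p hp
      have := hB p hp
      omega)
    have e : ((2 ^ 2 ^ J - 1 : ℕ) : ℝ) = (2 : ℝ) ^ 2 ^ J - 1 := by
      rw [Nat.cast_sub Nat.one_le_two_pow]; push_cast; ring
    rw [e] at h6
    have h7 : ∀ p ∈ P2 J N, (8 / (p : ℝ) * UU (P2 J N)) ^ 2 ≤ 64 * U0 ^ 2 * ((p : ℝ) ^ 2)⁻¹ := by
      intro p hp
      have h8 : (1 : ℝ) < p := one_lt_cast hQ hp
      calc (8 / (p : ℝ) * UU (P2 J N)) ^ 2 ≤ (8 / (p : ℝ) * U0) ^ 2 :=
            pow_le_pow_left₀ (by positivity) (mul_le_mul_of_nonneg_left hUU (by positivity)) 2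
        _ = _ := by rw [mul_pow, div_pow, div_eq_mul_inv]; ring
    refine (sum_le_sum h7).trans ?_
    rw [← mul_sum, ← mul_one_div (64 * U0 ^ 2)]
    exact mul_le_mul_of_nonneg_left h6 (by positivity)
  obtain ⟨e1, he1⟩ : ∃ e1 : ℝ, e1 = 64 * U0 ^ 2 / ((2 : ℝ) ^ 2 ^ J - 1) + (1 / 2) ^ b * U0 ^ 2 := ⟨_, rfl⟩
  have he10 : 0 ≤ e1 := by rw [he1]; positivity
  have he1' : ∑ p ∈ P2 J N, (8 / (p : ℝ) * UU (P2 J N)) ^ 2 + (1 / 2) ^ b * UU (P2 J N) ^ 2 ≤ e1 := by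
    rw [he1]
    have : (1 / 2 : ℝ) ^ b * UU (P2 J N) ^ 2 ≤ (1 / 2) ^ b * U0 ^ 2 :=
      mul_le_mul_of_nonneg_left (pow_le_pow_left₀ hUU0 hUU 2) (by positivity)
    linarith
  have hVe : V1 J ^ 2 * e1 ≤ ε / L ^ 2 := by
    have h6 : V1 J ^ 2 ≤ (C1 / d) ^ 2 / L ^ 2 := by
      rw [← div_pow]
      exact pow_le_pow_left₀ hV.le hVL 2
    refine (mul_le_mul_of_nonneg_right h6 he10).trans ?_
    rw [div_mul_eq_mul_div]
    apply div_le_div_of_nonneg_right _ (by positivity)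
    rw [he1, mul_add]
    have h7 : (C1 / d) ^ 2 * ((1 / 2) ^ b * U0 ^ 2) ≤ ε / 2 := by
      rw [hU0]
      calc (C1 / d) ^ 2 * ((1 / 2) ^ b * (((C2 : ℝ) / d) ^ C2) ^ 2) =
          (C1 / d) ^ 2 * (((C2 : ℝ) / d) ^ C2) ^ 2 * (1 / 2) ^ b := by ring
        _ ≤ _ := hpar
    have h8 : (C1 / d) ^ 2 * (64 * U0 ^ 2 / ((2 : ℝ) ^ 2 ^ J - 1)) ≤ ε / 2 := by
      rw [mul_div_assoc', div_le_iff₀ hzm]
      have h9 : 256 * U0 ^ 2 * (C1 / d) ^ 2 / ε ≤ (2 : ℝ) ^ 2 ^ J - 1 := by linarith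
      rw [div_le_iff₀ hε] at h9
      have h10 : 0 ≤ U0 ^ 2 * (C1 / d) ^ 2 := by positivity
      linarith
    linarith
  have hd1 : 1 ≤ C1 / d := by
    rw [le_div_iff₀ hd]; linarith
  have hU01 : 1 ≤ U0 := by
    rw [hU0]
    apply one_le_pow₀
    rw [le_div_iff₀ hd]
    have : (1 : ℝ) ≤ C2 := by exact_mod_cast hC2
    linarith
  have hVU : V1 J * ((1 / 2) ^ b * UU (P2 J N)) ≤ ε / L := by
    calc V1 J * ((1 / 2) ^ b * UU (P2 J N)) ≤ (C1 / d / L) * ((1 / 2) ^ b * U0) := by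
          apply mul_le_mul hVL _ (by positivity) (by positivity)
          exact mul_le_mul_of_nonneg_left hUU (by positivity)
      _ = ((C1 / d) * U0 * (1 / 2) ^ b) / L := by ring
      _ ≤ ε / L := by
          apply div_le_div_of_nonneg_right _ hL0.le
          have h6 : (C1 / d) * U0 ≤ (C1 / d) ^ 2 * U0 ^ 2 := by
            have : (C1 / d) ^ 2 * U0 ^ 2 = ((C1 / d) * U0) * ((C1 / d) * U0) := by ring
            rw [this]
            exact alg_b (one_le_mul_of_one_le_of_one_le hd1 hU01)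
          calc (C1 / d) * U0 * (1 / 2) ^ b ≤ ((C1 / d) ^ 2 * U0 ^ 2) * (1 / 2) ^ b :=
                mul_le_mul_of_nonneg_right h6 (by positivity)
            _ ≤ ε / 2 := by rw [hU0]; exact hpar
            _ ≤ ε := by linarith
  -- the errors
  have hJ2 : ((J : ℝ) + 2) ≤ 4 * L := by
    have h6 : (2 : ℝ) ^ 2 ^ J ≤ N := by
      refine w1.trans ?_
      calc (N : ℝ) ^ d ≤ (N : ℝ) ^ (1 : ℝ) := Real.rpow_le_rpow_of_exponent_le hN1 (by linarith)
        _ = N := Real.rpow_one _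
    have h7 : ((2 ^ J : ℕ) : ℝ) * Real.log 2 ≤ L := by
      have := Real.log_le_log (by positivity) h6
      rw [Real.log_pow] at this
      exact this
    have h8 : (J : ℝ) ≤ ((2 ^ J : ℕ) : ℝ) := by exact_mod_cast Nat.lt_two_pow_self.le
    have h9 := Real.log_two_gt_d9
    have h10 : (J : ℝ) * (1 / 2) ≤ L := by
      calc (J : ℝ) * (1 / 2) ≤ ((2 ^ J : ℕ) : ℝ) * Real.log 2 := by
            apply mul_le_mul h8 (by linarith) (by norm_num) (Nat.cast_nonneg _)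
        _ ≤ L := h7
    linarith
  have hkz : (N : ℝ) ^ (2 : ℝ) ≤ ((2 : ℝ) ^ 2 ^ J) ^ (k + 1) := by
    have h6 : 4 / d ≤ ((k + 1 : ℕ) : ℝ) := by
      have := Nat.le_ceil (4 / d)
      rw [← hk] at this
      push_cast
      linarith
    calc (N : ℝ) ^ (2 : ℝ) ≤ (N : ℝ) ^ (d / 2 * ((k + 1 : ℕ) : ℝ)) := by
          apply Real.rpow_le_rpow_of_exponent_le hN1
          have : d / 2 * (4 / d) = 2 := by field_simp; norm_num
          calc (2 : ℝ) = d / 2 * (4 / d) := this.symm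
            _ ≤ _ := mul_le_mul_of_nonneg_left h6 (by positivity)
      _ = ((N : ℝ) ^ (d / 2)) ^ (k + 1) := by
          rw [Real.rpow_mul hN0.le, Real.rpow_natCast]
      _ ≤ _ := pow_le_pow_left₀ (by positivity) w2 _
  have hHz : H ≤ 2 ^ 2 ^ J := by
    have : (H : ℝ) ≤ ((2 ^ 2 ^ J : ℕ) : ℝ) := by rw [hzR]; exact hHκ.trans w2
    exact_mod_cast this
  have hHN : (H : ℝ) ≤ N := by
    refine hHκ.trans ?_
    calc (N : ℝ) ^ (d / 2) ≤ (N : ℝ) ^ (1 : ℝ) := Real.rpow_le_rpow_of_exponent_le hN1 (by linarith)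
      _ = N := Real.rpow_one _
  have hkN : N + H < (2 ^ 2 ^ J) ^ (k + 1) := by
    have h6 : ((N + H : ℕ) : ℝ) < (((2 ^ 2 ^ J) ^ (k + 1) : ℕ) : ℝ) := by
      push_cast
      refine lt_of_lt_of_le ?_ hkz
      rw [Real.rpow_two]
      exact alg_c (by exact_mod_cast hN16) hHN
    exact_mod_cast h6
  have hkY : Y < (2 ^ 2 ^ J) ^ (k + 1) := by omega
  have hAA := AA_le hQ hB hY1 hkY
  have hAA0 := AA_nonneg (P2 J N) Y
  have hAA1 : 1 ≤ AA (P2 J N) Y := by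
    unfold AA
    have := single_le_sum (f := fun D => |rho (P2 J N) Y D|) (s := Fm (P2 J N) Y) (fun D _ => abs_nonneg _)
      (empty_mem_Fm (P2 J N) hY1)
    rw [rho_empty hQ hY1, abs_one] at this
    exact this
  have hEr0 := Er_nonneg C b J
  have hEr : Er C b J ≤ ((3 * C : ℕ) : ℝ) ^ (3 * C) * (4 * L) * (N : ℝ) ^ (δ / 128) := by
    unfold Er
    apply mul_le_mul
    · exact mul_le_mul_of_nonneg_left hJ2 (by positivity)
    · calc ((2 ^ 2 ^ J : ℝ) ^ (C * b)) ^ 2 ≤ (((N : ℝ) ^ d) ^ (C * b)) ^ 2 := by gcongr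
        _ = (N : ℝ) ^ (d * ((C * b * 2 : ℕ) : ℝ)) := by
            rw [← pow_mul, Real.rpow_mul hN0.le, Real.rpow_natCast]
        _ ≤ (N : ℝ) ^ (δ / 128) := by
            apply Real.rpow_le_rpow_of_exponent_le hN1
            push_cast
            linarith
    · positivity
    · positivity
  have hE4 : Er C b J * AA (P2 J N) Y ^ 4 ≤ ε * N / L ^ 2 := by
    have h6 : AA (P2 J N) Y ^ 4 ≤ (2 ^ k) ^ 4 * (N : ℝ) ^ (1 - δ / 64) := by
      calc AA (P2 J N) Y ^ 4 ≤ (2 ^ k * (N : ℝ) ^ (1 / 4 - δ / 256)) ^ 4 := by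
            apply pow_le_pow_left₀ hAA0
            exact hAA.trans (mul_le_mul_of_nonneg_left hYle (by positivity))
        _ = (2 ^ k) ^ 4 * ((N : ℝ) ^ (1 / 4 - δ / 256)) ^ 4 := mul_pow _ _ _
        _ = _ := by
            congr 1
            rw [← Real.rpow_natCast, ← Real.rpow_mul hN0.le]
            congr 1
            push_cast
            ring
    calc Er C b J * AA (P2 J N) Y ^ 4 ≤ (((3 * C : ℕ) : ℝ) ^ (3 * C) * (4 * L) * (N : ℝ) ^ (δ / 128)) *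
          ((2 ^ k) ^ 4 * (N : ℝ) ^ (1 - δ / 64)) := mul_le_mul hEr h6 (by positivity) (by positivity)
      _ = (cE * L) * ((N : ℝ) ^ (δ / 128) * (N : ℝ) ^ (1 - δ / 64)) := by rw [hcE]; ring
      _ = (cE * L) * (N : ℝ) ^ (1 - δ / 128) := by
          rw [← Real.rpow_add hN0]
          congr 2
          ring
      _ ≤ ε * N / L ^ 2 := by
          rw [le_div_iff₀ (by positivity)]
          calc (cE * L) * (N : ℝ) ^ (1 - δ / 128) * L ^ 2 = (cE * L ^ 3) * (N : ℝ) ^ (1 - δ / 128) := by ring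
            _ ≤ (ε * (N : ℝ) ^ (δ / 128)) * (N : ℝ) ^ (1 - δ / 128) :=
                mul_le_mul_of_nonneg_right h1 (by positivity)
            _ = ε * ((N : ℝ) ^ (δ / 128) * (N : ℝ) ^ (1 - δ / 128)) := by ring
            _ = ε * N := by
                rw [← Real.rpow_add hN0]
                have : δ / 128 + (1 - δ / 128) = 1 := by ring
                rw [this, Real.rpow_one]
  have hE2 : Er C b J * AA (P2 J N) Y ^ 2 ≤ ε * N / L ^ 2 := by
    refine le_trans ?_ hE4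
    apply mul_le_mul_of_nonneg_left _ hEr0
    exact pow_le_pow_right₀ hAA1 (by norm_num)
  have hE0 : Er C b J ≤ N / L := by
    have h6 : Er C b J ≤ Er C b J * AA (P2 J N) Y ^ 4 := le_mul_of_one_le_right hEr0 (one_le_pow₀ hAA1)
    refine (h6.trans hE4).trans ?_
    rw [div_le_div_iff₀ (by positivity) hL0]
    have h7 : ε * N ≤ N := mul_le_of_le_one_left hN0.le hε1
    calc ε * N * L ≤ N * L := mul_le_mul_of_nonneg_right h7 hL0.le
      _ ≤ N * L ^ 2 := by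
          apply mul_le_mul_of_nonneg_left _ hN0.le
          rw [sq]
          exact alg_b (by linarith)
  have hD : (3 ^ k) ^ 4 * (2 * (N * V1 J) + Er C b J) ≤ K1 * N / L := by
    have h6 : 2 * (N * V1 J) + Er C b J ≤ (2 * (C1 / d) + 1) * (N / L) := by
      have h7 : N * V1 J ≤ N * (C1 / d / L) := mul_le_mul_of_nonneg_left hVL hN0.le
      have e : (2 * (C1 / d) + 1) * (N / L) = 2 * (N * (C1 / d / L)) + N / L := by
        field_simp
      rw [e]
      linarith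
    calc (3 ^ k) ^ 4 * (2 * (N * V1 J) + Er C b J) ≤ (3 ^ k) ^ 4 * ((2 * (C1 / d) + 1) * (N / L)) :=
          mul_le_mul_of_nonneg_left h6 (by positivity)
      _ = _ := by rw [hK1]; ring
  -- `H`
  have hHpos : (0 : ℝ) < H := lt_of_lt_of_le (by positivity) hKH
  have hH1 : 1 ≤ H := by
    have : 0 < H := by exact_mod_cast hHpos
    omega
  have hHH₀ : H₀ ≤ H := by
    refine le_trans ?_ hKH
    rw [div_le_iff₀ hK10] at hLH₀
    rw [div_mul_eq_mul_div, le_div_iff₀ hε]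
    linarith
  have hS : ∑ x ∈ (range H).offDiag, VT J {x.1, x.2} ≤ V1 J ^ 2 * ((H : ℝ) ^ 2 * (1 + ε)) := by
    refine (hS2 J H hz9 hH1).trans ?_
    apply mul_le_mul_of_nonneg_left _ (by positivity)
    have h6 := hH₀ H hHH₀
    have h7 : 8 / ((2 : ℝ) ^ 2 ^ J - 1) ≤ ε / 4 := by
      rw [div_le_iff₀ hzm]
      have h8 : 32 / ε ≤ (2 : ℝ) ^ 2 ^ J - 1 := by linarith
      rw [div_le_iff₀ hε] at h8
      linarith
    exact hS_alg hHpos.le hε.le hε1 h6 (by positivity) h7 (by positivity)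
  have hvar := var_le hCT2 hb hQ hB hY1 N H hHz hkN hg rfl he1' hS hε.le he10
  have halg := fin_alg (N := N) (H := H) (L := L) (V := V1 J) (g := g) (U := UU (P2 J N)) (e1 := e1) (S := ε)
    (ε := ε) (b2 := (1 / 2) ^ b) (E4 := Er C b J * AA (P2 J N) Y ^ 4) (E2 := Er C b J * AA (P2 J N) Y ^ 2)
    (D := (3 ^ k) ^ 4 * (2 * (N * V1 J) + Er C b J)) (K1 := K1) hN0.le hHpos hL10 hV.le hg0.le hVg5 hε.le le_rfl
    hε hε1 hVe hVU (by positivity) hE4 hE2 (by positivity) hD hKH he10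
  have hfin := hvar.trans halg
  -- the exceptional set
  set Bd := (Ioc 0 N).filter (fun n => (4 + δ) * H / L < (NH H n : ℝ)) with hBd
  have hsub : Bd ⊆ Icc 1 Y ∪ Bd.filter (fun n => Y < n) := by
    intro n hn
    rw [mem_union, mem_filter, mem_Icc]
    have h6 := mem_Ioc.1 (mem_filter.1 hn).1
    by_cases h7 : Y < n
    · right; exact ⟨hn, h7⟩
    · left; omega
  have hc1 : (Bd.card : ℝ) ≤ Y + ((Bd.filter (fun n => Y < n)).card : ℝ) := by
    have h6 := (card_le_card hsub).trans (card_union_le _ _)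
    rw [Nat.card_Icc, Nat.add_sub_cancel] at h6
    exact_mod_cast h6
  have hch : ((Bd.filter (fun n => Y < n)).card : ℝ) * ((3 * δ / 4) * (H / L)) ^ 2 ≤
      ∑ n ∈ Ioc 0 N, (Yw J (P2 J N) Y H n - H * V1 J * g) ^ 2 := by
    have h6 : ∑ n ∈ Bd.filter (fun n => Y < n), ((3 * δ / 4) * (H / L)) ^ 2 ≤
        ∑ n ∈ Bd.filter (fun n => Y < n), (Yw J (P2 J N) Y H n - H * V1 J * g) ^ 2 := by
      apply sum_le_sum
      intro n hn
      rw [mem_filter, hBd, mem_filter] at hn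
      have h7 := NH_le (J := J) (X := N) (H := H) hY1 hzY hn.2
      have h8 : H * V1 J * g ≤ H * ((4 + δ / 4) / L) := by
        rw [mul_assoc]
        exact mul_le_mul_of_nonneg_left hVg4 hHpos.le
      have h9 : (3 * δ / 4) * (H / L) ≤ Yw J (P2 J N) Y H n - H * V1 J * g := by
        have e : (4 + δ) * H / L = H * ((4 + δ / 4) / L) + (3 * δ / 4) * (H / L) := by ring
        have h10 := hn.1.2
        rw [e] at h10
        linarith
      exact pow_le_pow_left₀ (by positivity) h9 2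
    rw [sum_const, nsmul_eq_mul] at h6
    refine h6.trans ?_
    apply sum_le_sum_of_subset_of_nonneg
    · intro n hn
      rw [mem_filter, hBd, mem_filter] at hn
      exact hn.1.1
    · intro n _ _
      positivity
  have hc2 : ((Bd.filter (fun n => Y < n)).card : ℝ) ≤ η / 2 * N := by
    have h6 := hch.trans hfin
    have h7 : 0 < (H / L) ^ 2 := by positivity
    have e1 : ((Bd.filter (fun n => Y < n)).card : ℝ) * ((3 * δ / 4) * (H / L)) ^ 2 =
        (((Bd.filter (fun n => Y < n)).card : ℝ) * (9 / 16 * δ ^ 2)) * (H / L) ^ 2 := by ring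
    rw [e1] at h6
    have h8 := le_of_mul_le_mul_right h6 h7
    exact alg_d hη hδ0 hN0.le hεdef h8
  have hc3 : (Y : ℝ) ≤ η / 2 * N := by
    refine hYle.trans ?_
    have h6 : (N : ℝ) = (N : ℝ) ^ (1 / 4 - δ / 256) * (N : ℝ) ^ (3 / 4 + δ / 256) := by
      rw [← Real.rpow_add hN0]
      have : 1 / 4 - δ / 256 + (3 / 4 + δ / 256) = 1 := by ring
      rw [this, Real.rpow_one]
    have h7 : 1 ≤ η / 2 * (N : ℝ) ^ (3 / 4 + δ / 256) := by
      rw [div_le_iff₀ hη] at h4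
      linarith
    calc (N : ℝ) ^ (1 / 4 - δ / 256) = (N : ℝ) ^ (1 / 4 - δ / 256) * 1 := (mul_one _).symm
      _ ≤ (N : ℝ) ^ (1 / 4 - δ / 256) * (η / 2 * (N : ℝ) ^ (3 / 4 + δ / 256)) :=
          mul_le_mul_of_nonneg_left h7 (by positivity)
      _ = η / 2 * ((N : ℝ) ^ (1 / 4 - δ / 256) * (N : ℝ) ^ (3 / 4 + δ / 256)) := by ring
      _ = η / 2 * N := by rw [← h6]
  linarith

end Pool.Agent.L0h43.TA
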