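import Pool.Agent.L0h43.TA.Up

/-!
# Lower bounds for the averages over short shifts
-/

set_option autoImplicit false

namespace Pool.Agent.L0h43.TA

open Finset Filter Topology Pool.Agent.H387R2

/-! ### The average of the singular series over the sets in a window, lower bound -/

lemma cop_low0 (W ν h : ℕ) (hW : 0 < W) : (Nat.totient W : ℝ) * (h / W - 1) ≤
    (((range h).filter (fun a => Nat.Coprime W (ν + a))).card : ℝ) := by
  have h1 := cop_ge W ν (h / W) hW
  have h2 : ((Ico ν (ν + W * (h / W))).filter (fun x => Nat.Coprime W x)).card ≤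
      ((range h).filter (fun a => Nat.Coprime W (ν + a))).card := by
    apply card_le_card_of_injOn (fun x => x - ν)
    · intro x hx
      rw [mem_coe, mem_filter, mem_Ico] at hx
      rw [mem_coe, mem_filter, mem_range]
      have h3 : W * (h / W) ≤ h := Nat.mul_div_le h W
      have e : ν + (x - ν) = x := by omega
      have h4 : x - ν < h := by omega
      refine ⟨h4, ?_⟩
      show Nat.Coprime W (ν + (x - ν))
      rw [e]
      exact hx.2
    · intro x hx y hy hxy
      rw [mem_coe, mem_filter, mem_Ico] at hx hy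
      simp only at hxy
      omega
  have h3 : (h : ℝ) / W - 1 ≤ ((h / W : ℕ) : ℝ) := by
    have hW0 : (0 : ℝ) < W := by exact_mod_cast hW
    have h4 := Nat.lt_div_mul_add hW (a := h)
    have h5 : (h : ℝ) < ((h / W : ℕ) : ℝ) * W + W := by exact_mod_cast h4
    rw [sub_le_iff_le_add, div_le_iff₀ hW0]
    linarith
  calc (Nat.totient W : ℝ) * (h / W - 1) ≤ Nat.totient W * ((h / W : ℕ) : ℝ) :=
        mul_le_mul_of_nonneg_left h3 (Nat.cast_nonneg _)
    _ = ((Nat.totient W * (h / W) : ℕ) : ℝ) := by push_cast; ring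
    _ ≤ _ := by exact_mod_cast h1.trans h2

lemma win_low (j y h : ℕ) (hy : 1 ≤ y) (hyj : j ^ 2 ≤ y)
    (hh : ((j : ℝ) + 1) * Uni.WW y ≤ h) :
    (1 - (j : ℝ) ^ 2 / y) * ((h : ℝ) - (j + 1) * Uni.WW y) ^ j ≤
      (j.factorial : ℝ) * ∑ T ∈ (range h).powersetCard j, Uni.CT T := by
  classical
  obtain ⟨W, hW⟩ : ∃ W, W = Uni.WW y := ⟨_, rfl⟩
  rw [← hW] at hh ⊢
  have hWpos : 0 < W := by rw [hW]; exact Uni.WW_pos y
  have hW0 : (0 : ℝ) < W := by exact_mod_cast hWpos
  have hφpos : 0 < Nat.totient W := Nat.totient_pos.2 hWpos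
  have hφ0 : (0 : ℝ) < Nat.totient W := by exact_mod_cast hφpos
  have hφ1 : (1 : ℝ) ≤ Nat.totient W := by exact_mod_cast hφpos
  have hy0 : (0 : ℝ) < y := by exact_mod_cast hy
  have hc0 : 0 ≤ 1 - (j : ℝ) ^ 2 / y := by
    rw [sub_nonneg, div_le_one hy0]
    exact_mod_cast hyj
  have h1 : ∀ T ∈ (range h).powersetCard j, (1 - (j : ℝ) ^ 2 / y) *
      (((W : ℝ) / Nat.totient W) ^ j * (Uni.gT W T / W)) ≤ Uni.CT T := by
    intro T hT
    rw [mem_powersetCard] at hT
    have h2 : j ≤ y := le_trans (Nat.le_self_pow (by norm_num) j) hyj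
    have := Helper22K9.Trp.CT_ge' T y hy (by rw [hT.2]; exact h2)
    rw [hT.2, ← hW] at this
    exact this
  have hsum : ∑ T ∈ (range h).powersetCard j, (Uni.gT W T : ℝ) = ∑ ν ∈ range W,
      (((((range h).filter (fun a => Nat.Coprime W (ν + a))).card.choose j : ℕ) : ℝ)) := by
    have := Uni.sum_choose (range W) (range h) j (fun ν a => Nat.Coprime W (ν + a))
    unfold Uni.gT
    exact_mod_cast this.symm
  have h2 := sum_le_sum h1
  rw [← mul_sum, ← mul_sum, ← sum_div, hsum] at h2
  set z : ℝ := (Nat.totient W : ℝ) / W * ((h : ℝ) - (j + 1) * W) with hz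
  have hz0 : 0 ≤ z := by
    apply mul_nonneg (by positivity)
    linarith
  have h3 : ∀ ν ∈ range W, z ^ j ≤ (j.factorial : ℝ) *
      ((((range h).filter (fun a => Nat.Coprime W (ν + a))).card.choose j : ℕ) : ℝ) := by
    intro ν _
    apply desc_ge hz0
    refine le_trans ?_ (cop_low0 W ν h hWpos)
    have e1 : z = Nat.totient W * (h / W - 1) - j * Nat.totient W := by
      rw [hz]
      field_simp
      ring
    rw [e1]
    have : (j : ℝ) ≤ j * Nat.totient W := le_mul_of_one_le_right (Nat.cast_nonneg _) hφ1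
    linarith
  have h4 := sum_le_sum h3
  rw [sum_const, card_range, nsmul_eq_mul, ← mul_sum] at h4
  have hfac : (0 : ℝ) < j.factorial := by exact_mod_cast j.factorial_pos
  have h5 := mul_le_mul_of_nonneg_left h2 hfac.le
  refine le_trans ?_ h5
  have h6 : (1 - (j : ℝ) ^ 2 / y) * (((W : ℝ) / Nat.totient W) ^ j * (((W : ℝ) * z ^ j) / W)) ≤
      (1 - (j : ℝ) ^ 2 / y) * (((W : ℝ) / Nat.totient W) ^ j * (((j.factorial : ℝ) *
        ∑ ν ∈ range W,
        (((((range h).filter (fun a => Nat.Coprime W (ν + a))).card.choose j : ℕ) : ℝ))) / W)) := by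
    apply mul_le_mul_of_nonneg_left _ hc0
    apply mul_le_mul_of_nonneg_left _ (by positivity)
    exact div_le_div_of_nonneg_right h4 hW0.le
  calc (1 - (j : ℝ) ^ 2 / y) * ((h : ℝ) - (j + 1) * W) ^ j =
      (1 - (j : ℝ) ^ 2 / y) * (((W : ℝ) / Nat.totient W) ^ j * (((W : ℝ) * z ^ j) / W)) := by
        rw [hz, mul_pow, div_pow, div_pow]
        field_simp
    _ ≤ _ := h6
    _ = _ := by ring

/-- **window average, lower bound** -/
theorem win_lo (j : ℕ) (ε : ℝ) (hε : 0 < ε) : ∃ D₀ : ℕ, ∀ h : ℕ, D₀ ≤ h →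
    (1 - ε) * (h : ℝ) ^ j ≤ (j.factorial : ℝ) * ∑ T ∈ (range h).powersetCard j, Uni.CT T := by
  obtain ⟨y, hy⟩ : ∃ y : ℕ, j ^ 2 ≤ y ∧ 1 ≤ y ∧ (j : ℝ) ^ 2 / y ≤ ε / 2 := by
    obtain ⟨y, hy⟩ := exists_nat_ge (max ((j : ℝ) ^ 2 / (ε / 2)) (max ((j : ℝ) ^ 2) 1))
    have h1 : (j : ℝ) ^ 2 ≤ y := ((le_max_left _ _).trans (le_max_right _ _)).trans hy
    have h1' : (1 : ℝ) ≤ y := ((le_max_right _ _).trans (le_max_right _ _)).trans hy
    have h2 : (j : ℝ) ^ 2 / (ε / 2) ≤ y := (le_max_left _ _).trans hy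
    have h3 : j ^ 2 ≤ y := by exact_mod_cast h1
    have h4 : 1 ≤ y := by exact_mod_cast h1'
    refine ⟨y, h3, h4, ?_⟩
    have hy0 : (0 : ℝ) < y := by exact_mod_cast h4
    rw [div_le_iff₀ (by positivity)] at h2
    rw [div_le_iff₀ hy0]
    linarith
  obtain ⟨hy1, hy2, hy3⟩ := hy
  have tD : Tendsto (fun D : ℕ => (D : ℝ)) atTop atTop := tendsto_natCast_atTop_atTop
  set c : ℝ := ((j : ℝ) + 1) * Uni.WW y with hc
  have t1 : Tendsto (fun D : ℕ => (1 - c / (D : ℝ)) ^ j) atTop (𝓝 ((1 - 0) ^ j)) := by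
    apply Tendsto.pow
    apply Tendsto.const_sub
    exact tD.const_div_atTop c
  have h1 : (1 - ε / 2 : ℝ) < (1 - 0) ^ j := by
    simp; exact hε
  have hev := t1.eventually_const_lt h1
  rw [← eventually_atTop]
  filter_upwards [hev, tD.eventually_ge_atTop (c + 1), eventually_ge_atTop 2] with h h2 h3 h4
  have hh0 : (0 : ℝ) < h := by
    have : (2 : ℝ) ≤ h := by exact_mod_cast h4
    linarith
  have h5 := win_low j y h hy2 hy1 (by linarith)
  refine le_trans ?_ h5
  have e1 : (h : ℝ) - (j + 1) * Uni.WW y = h * (1 - c / h) := by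
    rw [hc]
    field_simp
  rw [e1, mul_pow]
  have hpos : 0 ≤ (h : ℝ) ^ j := by positivity
  rcases le_or_gt ε 1 with he | he
  · have h6 : (1 - ε / 2) * (1 - ε / 2) ≤ (1 - (j : ℝ) ^ 2 / y) * (1 - c / h) ^ j := by
      apply mul_le_mul (by linarith) h2.le (by linarith) (by linarith)
    have h7 : 1 - ε ≤ (1 - ε / 2) * (1 - ε / 2) := by nlinarith
    calc (1 - ε) * (h : ℝ) ^ j ≤ ((1 - (j : ℝ) ^ 2 / y) * (1 - c / h) ^ j) * (h : ℝ) ^ j :=
          mul_le_mul_of_nonneg_right (h7.trans h6) hpos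
      _ = _ := by ring
  · have hy0 : (0 : ℝ) < y := by exact_mod_cast hy2
    have h8 : 0 ≤ 1 - (j : ℝ) ^ 2 / y := by
      rw [sub_nonneg, div_le_one hy0]
      exact_mod_cast hy1
    have h9 : 0 ≤ 1 - c / h := by
      rw [sub_nonneg, div_le_one hh0]
      linarith
    have h10 : (1 - ε) * (h : ℝ) ^ j ≤ 0 := mul_nonpos_of_nonpos_of_nonneg (by linarith) hpos
    refine h10.trans ?_
    positivity

/-! ### Lower bound for the counts -/

/-- the sum of the counts over the sets of a window -/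
theorem piT_low (k : ℕ) (ε : ℝ) (hε : 0 < ε) (hε1 : ε ≤ 1) : ∃ K : ℝ, 1 ≤ K ∧ ∀ A : ℝ, ∀ᶠ N : ℕ in atTop,
    ∀ H : ℕ, K * Real.log N ≤ H → (H : ℝ) ≤ Real.log N ^ A →
      (1 - ε) * (N * (H / Real.log N) ^ (k + 1)) ≤
        (k + 1).factorial * ∑ T ∈ (range H).powersetCard (k + 1), (Uni.piT T N : ℝ) := by
  set e : ℝ := ε / (k + 3) with he
  have hk3 : (0 : ℝ) < (k : ℝ) + 3 := by positivity
  have he0 : 0 < e := by positivity
  have he1 : e ≤ 1 / 3 := by
    rw [he, div_le_iff₀ hk3]
    have : (0 : ℝ) ≤ k := Nat.cast_nonneg k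
    linarith
  have hBern : 1 - ε ≤ (1 - e) ^ (k + 3) := by
    have h := one_add_mul_le_pow (a := -e) (by linarith) (k + 3)
    have h2 : ((k + 3 : ℕ) : ℝ) * -e = -ε := by
      rw [he]; push_cast; field_simp
    rw [h2] at h
    have h3 : (1 + -e : ℝ) = 1 - e := by ring
    rw [h3] at h
    linarith
  refine ⟨max 1 ((k * (k + 1) / 2 : ℝ) / e / (1 - e)), le_max_left _ _, fun A => ?_⟩
  filter_upwards [pi_lo (e / 2) (by positivity), ev_log 1, ev_small (A + 1) (e / 4) (by positivity),
    ev_small 2 (e / 4 / (k + 1)) (by positivity), eventually_ge_atTop 1] with N h1 h2 h3 h4 h5 H hKH hHA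
  set L := Real.log (N : ℝ) with hL
  have hL0 : 0 < L := by linarith
  have hN0 : (0 : ℝ) < N := by exact_mod_cast h5
  have hk0 : (0 : ℝ) ≤ k := Nat.cast_nonneg k
  have hmax1 : 1 ≤ max 1 ((k * (k + 1) / 2 : ℝ) / e / (1 - e)) := le_max_left _ _
  have hHL : L ≤ H := by
    refine le_trans ?_ hKH
    exact le_mul_of_one_le_left hL0.le hmax1
  have hH0 : (0 : ℝ) < H := lt_of_lt_of_le hL0 hHL
  set q : ℝ := H / L with hq
  have hq0 : 0 < q := by positivity
  have hsmall : (H : ℝ) + (k + 1) ≤ e / 2 * (N / L) := by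
    have e1 : L ^ (A + 1) = L ^ A * L := by rw [Real.rpow_add hL0, Real.rpow_one]
    rw [e1] at h3
    have h6 : (H : ℝ) ≤ e / 4 * (N / L) := by
      rw [mul_div_assoc', le_div_iff₀ hL0]
      exact (mul_le_mul_of_nonneg_right hHA hL0.le).trans h3
    have h7 : ((k : ℝ) + 1) ≤ e / 4 * (N / L) := by
      rw [mul_div_assoc', le_div_iff₀ hL0]
      have h8 : L ≤ L ^ (2 : ℝ) := by
        rw [Real.rpow_two]; nlinarith
      calc ((k : ℝ) + 1) * L ≤ (k + 1) * (e / 4 / (k + 1) * N) :=
            mul_le_mul_of_nonneg_left (h8.trans h4) (by positivity)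
        _ = e / 4 * N := by field_simp
    linarith
  have hNL : (N : ℝ) / L ≤ N := div_le_self hN0.le h2
  have hHN : H ≤ N := by
    have : (H : ℝ) ≤ N := by
      have : e / 2 * (N / L) ≤ 1 * N := mul_le_mul (by linarith) hNL (by positivity) (by norm_num)
      linarith
    exact_mod_cast this
  have hprc : (((Icc 1 N).filter (fun p : ℕ => p.Prime)).card : ℝ) = ((pr N).card : ℝ) := rfl
  have hwin := Pool.Agent.TH891.SG.window k N H hHN (y := (1 - e) * q)
    (mul_nonneg (by linarith) hq0.le) (by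
      rw [hprc]
      have h9 : (1 - e) * (N / L) ≤ ((pr N).card : ℝ) - H - (k + 1) := by
        have e2 : (1 - e) * (N / L) = (1 - e / 2) * (N / L) - e / 2 * (N / L) := by ring
        rw [e2]
        linarith
      calc (1 - e) * q * N = H * ((1 - e) * (N / L)) := by rw [hq]; ring
        _ ≤ _ := mul_le_mul_of_nonneg_left h9 hH0.le)
  refine le_trans ?_ hwin
  have hy0 : 0 < (1 - e) * q := mul_pos (by linarith) hq0
  rw [Uni.GG_eq k hy0]
  have hph := Pool.Agent.TH891.SG.ph_ge k (u := 1 / ((1 - e) * q)) (by positivity)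
  have hqK : (k * (k + 1) / 2 : ℝ) / e / (1 - e) ≤ q := by
    rw [hq, le_div_iff₀ hL0]
    refine le_trans ?_ hKH
    exact mul_le_mul_of_nonneg_right (le_max_right _ _) hL0.le
  have h10 : (k * (k + 1) / 2 : ℝ) * (1 / ((1 - e) * q)) ≤ e := by
    rw [mul_one_div, div_le_iff₀ hy0]
    rw [div_le_iff₀ (by linarith), div_le_iff₀ he0] at hqK
    linarith
  have h11 : 1 - e ≤ Uni.ph k (1 / ((1 - e) * q)) := by linarith
  have h12 : (1 - e) * N ≤ (N : ℝ) - H - (k + 1) := by
    have : e / 2 * (N / L) ≤ e / 2 * N := mul_le_mul_of_nonneg_left hNL (by positivity)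
    have : (0:ℝ) ≤ e * N := by positivity
    linarith
  have h1e : 0 ≤ 1 - e := by linarith
  calc (1 - ε) * (N * q ^ (k + 1)) ≤ (1 - e) ^ (k + 3) * (N * q ^ (k + 1)) :=
        mul_le_mul_of_nonneg_right hBern (by positivity)
    _ = ((1 - e) * N) * (((1 - e) * q) ^ (k + 1) * (1 - e)) := by
        rw [mul_pow]; ring
    _ ≤ ((N : ℝ) - H - (k + 1)) * (((1 - e) * q) ^ (k + 1) * Uni.ph k (1 / ((1 - e) * q))) := by
        apply mul_le_mul h12 _ (by positivity) (le_trans (by positivity) h12)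
        exact mul_le_mul_of_nonneg_left h11 (by positivity)

/-- `piT` against the window counts -/
lemma piT_le_cn {k N H : ℕ} {T : Finset ℕ} (hT : T.card = k + 1) (hTH : ∀ t ∈ T, t ≤ H) :
    Uni.piT T N ≤ cn N T + H := by
  classical
  unfold Uni.piT
  split_ifs with hA
  · have hne : T.Nonempty := card_pos.1 (by omega)
    have hm : sInf (T : Set ℕ) ∈ T := by
      have : sInf (T : Set ℕ) ∈ (T : Set ℕ) := Nat.sInf_mem (by simpa using hne)
      exact mem_coe.1 this
    have hmin : ∀ t ∈ T, sInf (T : Set ℕ) ≤ t := fun t ht => Nat.sInf_le (mem_coe.2 ht)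
    set s := sInf (T : Set ℕ) with hs
    have hsH := hTH s hm
    have h1 : (Icc 1 N).filter (fun p => ∀ t ∈ T, (p + (t - s)).Prime) ⊆
        Icc 1 H ∪ ((Icc 1 N).filter (fun m => ∀ t ∈ T, (m + t).Prime)).image (· + s) := by
      intro p hp
      rw [mem_filter, mem_Icc] at hp
      rw [mem_union, mem_Icc, mem_image]
      by_cases h : p ≤ s
      · left; omega
      · right
        refine ⟨p - s, ?_, by omega⟩
        rw [mem_filter, mem_Icc]
        refine ⟨⟨by omega, by omega⟩, fun t ht => ?_⟩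
        have h2 := hp.2 t ht
        have h3 := hmin t ht
        have e : p - s + t = p + (t - s) := by omega
        rw [e]
        exact h2
    have h2 := (card_le_card h1).trans (card_union_le _ _)
    have h3 : (((Icc 1 N).filter (fun m => ∀ t ∈ T, (m + t).Prime)).image (· + s)).card ≤ cn N T :=
      card_image_le
    rw [Nat.card_Icc, Nat.add_sub_cancel] at h2
    omega
  · omega

/-- the shape of a set: its minimum and the distances to it -/
noncomputable def shp (T : Finset ℕ) : ℕ × Finset ℕ :=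
  (sInf (T : Set ℕ), (T.erase (sInf (T : Set ℕ))).image (· - sInf (T : Set ℕ)))

lemma shp_props {k H : ℕ} {T : Finset ℕ} (hT : T.card = k + 1) (hTH : T ⊆ range H) :
    (shp T).1 < H ∧ (shp T).2 ∈ (Icc 1 H).powersetCard k ∧
      T = (insert 0 (shp T).2).image (· + (shp T).1) := by
  classical
  have hne : T.Nonempty := card_pos.1 (by omega)
  have hm : sInf (T : Set ℕ) ∈ T := by
    have : sInf (T : Set ℕ) ∈ (T : Set ℕ) := Nat.sInf_mem (by simpa using hne)
    exact mem_coe.1 this
  have hmin : ∀ t ∈ T, sInf (T : Set ℕ) ≤ t := fun t ht => Nat.sInf_le (mem_coe.2 ht)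
  unfold shp
  set s := sInf (T : Set ℕ) with hs
  refine ⟨mem_range.1 (hTH hm), ?_, ?_⟩
  · show (T.erase s).image (· - s) ∈ (Icc 1 H).powersetCard k
    rw [mem_powersetCard]
    constructor
    · intro d hd
      rw [mem_image] at hd
      obtain ⟨t, ht, rfl⟩ := hd
      rw [mem_erase] at ht
      have h1 := hmin t ht.2
      have h2 := mem_range.1 (hTH ht.2)
      rw [mem_Icc]
      omega
    · rw [card_image_of_injOn, card_erase_of_mem hm, hT, Nat.add_sub_cancel]
      intro a ha b hb hab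
      rw [mem_coe, mem_erase] at ha hb
      have h1 := hmin a ha.2
      have h2 := hmin b hb.2
      simp only at hab
      omega
  · show T = (insert 0 ((T.erase s).image (· - s))).image (· + s)
    ext t
    simp only [mem_image, mem_insert, mem_erase]
    constructor
    · intro ht
      by_cases h : t = s
      · exact ⟨0, Or.inl rfl, by omega⟩
      · refine ⟨t - s, Or.inr ⟨t, ⟨h, ht⟩, rfl⟩, ?_⟩
        have := hmin t ht
        omega
    · rintro ⟨d, h, rfl⟩
      rcases h with rfl | ⟨u, ⟨_, hu⟩, rfl⟩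
      · rw [zero_add]; exact hm
      · have := hmin u hu
        rw [Nat.sub_add_cancel this]
        exact hu

lemma piT_shift (N a : ℕ) (D : Finset ℕ) :
    Uni.piT ((insert 0 D).image (· + a)) N = Uni.piT (insert 0 D) N := by
  classical
  have hA : Uni.Adm ((insert 0 D).image (· + a)) ↔ Uni.Adm (insert 0 D) := by
    unfold Uni.Adm
    have hnu : ∀ p : ℕ, p.Prime → Uni.nuT ((insert 0 D).image (· + a)) p = Uni.nuT (insert 0 D) p := by
      intro p hp
      unfold Uni.nuT
      rw [image_image]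
      have e : (insert 0 D).image ((· % p) ∘ (· + a)) = ((insert 0 D).image (· % p)).image (fun r => (r + a) % p) := by
        rw [image_image]
        apply image_congr
        intro x _
        simp only [Function.comp]
        rw [Nat.mod_add_mod]
      rw [e, card_image_of_injOn]
      intro x hx y hy hxy
      rw [mem_coe, mem_image] at hx hy
      obtain ⟨x', _, rfl⟩ := hx
      obtain ⟨y', _, rfl⟩ := hy
      have h1 : x' % p ≡ y' % p [MOD p] := Nat.ModEq.add_right_cancel' a hxy
      have h2 : x' % p % p = y' % p % p := h1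
      rwa [Nat.mod_mod, Nat.mod_mod] at h2
    constructor
    · intro h p hp
      rw [← hnu p hp]
      exact h p hp
    · intro h p hp
      rw [hnu p hp]
      exact h p hp
  have hs1 : sInf (((insert 0 D).image (· + a) : Finset ℕ) : Set ℕ) = a := by
    apply le_antisymm
    · apply Nat.sInf_le
      rw [mem_coe, mem_image]
      exact ⟨0, mem_insert_self _ _, zero_add a⟩
    · have hne : (((insert 0 D).image (· + a) : Finset ℕ) : Set ℕ).Nonempty :=
        ⟨a, by rw [mem_coe, mem_image]; exact ⟨0, mem_insert_self _ _, zero_add a⟩⟩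
      have := Nat.sInf_mem hne
      rw [mem_coe, mem_image] at this
      obtain ⟨b, _, hb⟩ := this
      omega
  have hs2 : sInf ((insert 0 D : Finset ℕ) : Set ℕ) = 0 := by
    apply Nat.le_zero.1
    apply Nat.sInf_le
    rw [mem_coe]
    exact mem_insert_self _ _
  unfold Uni.piT
  by_cases h : Uni.Adm (insert 0 D)
  · rw [if_pos (hA.2 h), if_pos h, hs1, hs2]
    congr 1
    apply filter_congr
    intro p _
    simp only [mem_image, forall_exists_index, and_imp, forall_apply_eq_imp_iff₂, Nat.add_sub_cancel,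
      Nat.sub_zero]
  · rw [if_neg (fun h' => h (hA.1 h')), if_neg h]

lemma piT_zero {N : ℕ} {D : Finset ℕ} (h1 : 1 ∈ D) : Uni.piT (insert 0 D) N = 0 := by
  classical
  unfold Uni.piT
  rw [if_neg]
  intro hA
  have h2 := hA 2 Nat.prime_two
  have h3 : (range 2) ⊆ (insert 0 D).image (· % 2) := by
    intro r hr
    rw [mem_range] at hr
    rw [mem_image]
    interval_cases r
    · exact ⟨0, mem_insert_self _ _, rfl⟩
    · exact ⟨1, mem_insert_of_mem h1, rfl⟩
  have h4 := card_le_card h3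
  rw [card_range] at h4
  unfold Uni.nuT at h2
  omega

lemma piT_le_cn0 (N : ℕ) (D : Finset ℕ) : Uni.piT (insert 0 D) N ≤ cn N (insert 0 D) := by
  classical
  have hs2 : sInf ((insert 0 D : Finset ℕ) : Set ℕ) = 0 := by
    apply Nat.le_zero.1
    apply Nat.sInf_le
    rw [mem_coe]
    exact mem_insert_self _ _
  unfold Uni.piT cn
  split_ifs
  · rw [hs2]
    apply card_le_card
    intro p hp
    rw [mem_filter] at hp ⊢
    refine ⟨hp.1, fun t ht => ?_⟩
    have := hp.2 t ht
    rwa [Nat.sub_zero] at this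
  · exact Nat.zero_le _

/-- from the sets of a window to the anchored sets -/
lemma piT_sum_le (k N H : ℕ) : ∑ T ∈ (range H).powersetCard (k + 1), Uni.piT T N ≤
    H * ∑ D ∈ (Icc 2 H).powersetCard k, cn N (insert 0 D) := by
  classical
  have h1 : ∑ T ∈ (range H).powersetCard (k + 1), Uni.piT T N =
      ∑ T ∈ (range H).powersetCard (k + 1), Uni.piT (insert 0 (shp T).2) N := by
    apply sum_congr rfl
    intro T hT
    rw [mem_powersetCard] at hT
    have h2 := (shp_props hT.2 hT.1).2.2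
    conv_lhs => rw [h2]
    exact piT_shift N _ _
  have hinj : Set.InjOn shp ((range H).powersetCard (k + 1) : Set (Finset ℕ)) := by
    intro T hT S hS hTS
    rw [mem_coe, mem_powersetCard] at hT hS
    have h2 := (shp_props hT.2 hT.1).2.2
    have h3 := (shp_props hS.2 hS.1).2.2
    rw [h2, h3, hTS]
  rw [h1, ← sum_image (g := shp) (f := fun x : ℕ × Finset ℕ => Uni.piT (insert 0 x.2) N) hinj]
  have h4 : ((range H).powersetCard (k + 1)).image shp ⊆ (range H) ×ˢ ((Icc 1 H).powersetCard k) := by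
    intro x hx
    rw [mem_image] at hx
    obtain ⟨T, hT, rfl⟩ := hx
    rw [mem_powersetCard] at hT
    have h2 := shp_props hT.2 hT.1
    rw [mem_product, mem_range]
    exact ⟨h2.1, h2.2.1⟩
  refine (sum_le_sum_of_subset h4).trans ?_
  rw [sum_product]
  simp only
  rw [sum_const, card_range, smul_eq_mul]
  apply Nat.mul_le_mul_left
  have h5 : ∑ D ∈ (Icc 1 H).powersetCard k, Uni.piT (insert 0 D) N =
      ∑ D ∈ ((Icc 1 H).powersetCard k).filter (fun D => 1 ∉ D), Uni.piT (insert 0 D) N := by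
    symm
    apply sum_filter_of_ne
    intro D _ hne h
    exact hne (piT_zero h)
  rw [h5]
  refine (sum_le_sum fun D _ => piT_le_cn0 N D).trans ?_
  apply sum_le_sum_of_subset
  intro D hD
  rw [mem_filter, mem_powersetCard] at hD
  rw [mem_powersetCard]
  refine ⟨fun d hd => ?_, hD.1.2⟩
  have h6 := mem_Icc.1 (hD.1.1 hd)
  rw [mem_Icc]
  have : d ≠ 1 := by
    rintro rfl
    exact hD.2 hd
  omega

end Pool.Agent.L0h43.TA
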