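import Pool.Agent.L0h43.TA.Mom
import Pool.Agent.H357R2.SI.Common

/-!
# Upper bounds for the averages over short shifts, from an upper bound for almost all windows
-/

set_option autoImplicit false

namespace Pool.Agent.L0h43.TA

open Finset Filter Topology Pool.Agent.H387R2

lemma pr_card (x : ℕ) : (pr x).card = Nat.primeCounting x := by
  unfold pr Nat.primeCounting Nat.primeCounting'
  rw [Nat.count_eq_card_filter_range]
  congr 1
  ext p
  rw [mem_filter, mem_filter, mem_Icc, mem_range]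
  constructor
  · rintro ⟨h1, h2⟩; exact ⟨by omega, h2⟩
  · rintro ⟨h1, h2⟩; exact ⟨⟨h2.one_le, by omega⟩, h2⟩

/-- the prime number theorem -/
lemma pi_up (δ : ℝ) (hδ : 0 < δ) : ∀ᶠ N : ℕ in atTop, ((pr N).card : ℝ) ≤ (1 + δ) * (N / Real.log N) := by
  obtain ⟨X, _, h⟩ := Pool.Agent.H357R2.SI.pnt δ hδ
  filter_upwards [eventually_ge_atTop X] with N hN
  rw [pr_card]
  refine (h N hN).2.trans (le_of_eq ?_)
  ring

lemma pi_lo (δ : ℝ) (hδ : 0 < δ) : ∀ᶠ N : ℕ in atTop, (1 - δ) * (N / Real.log N) ≤ ((pr N).card : ℝ) := by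
  obtain ⟨X, _, h⟩ := Pool.Agent.H357R2.SI.pnt δ hδ
  filter_upwards [eventually_ge_atTop X] with N hN
  rw [pr_card]
  refine le_trans (le_of_eq ?_) (h N hN).1
  ring

lemma pr_mono {a b : ℕ} (h : a ≤ b) : pr a ⊆ pr b := by
  unfold pr
  apply filter_subset_filter
  exact Icc_subset_Icc_right h

lemma pr_add (N H : ℕ) : (pr (N + H)).card ≤ (pr N).card + H := by
  have h1 : pr (N + H) ⊆ pr N ∪ Ioc N (N + H) := by
    intro p hp
    unfold pr at hp ⊢
    rw [mem_filter, mem_Icc] at hp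
    rw [mem_union, mem_filter, mem_Icc, mem_Ioc]
    by_cases h : p ≤ N
    · left; exact ⟨⟨hp.1.1, h⟩, hp.2⟩
    · right; exact ⟨by omega, hp.1.2⟩
  have h2 := (card_le_card h1).trans (card_union_le _ _)
  rw [Nat.card_Ioc, Nat.add_sub_cancel_left] at h2
  exact h2

/-- the first moment of `NW` -/
lemma first_NW (N H : ℕ) : ∑ n ∈ Icc 1 N, (NW H n : ℝ) ≤ H * (((pr N).card : ℝ) + H) := by
  classical
  have e : ∑ n ∈ Icc 1 N, (NW H n : ℝ) = ∑ t ∈ range H, (((Icc 1 N).filter (fun n => (n + t).Prime)).card : ℝ) := by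
    unfold NW
    simp_rw [card_filter]
    push_cast
    rw [sum_comm]
  rw [e]
  have h1 : ∀ t ∈ range H, (((Icc 1 N).filter (fun n => (n + t).Prime)).card : ℝ) ≤ ((pr N).card : ℝ) + H := by
    intro t ht
    rw [mem_range] at ht
    have h2 : ((Icc 1 N).filter (fun n => (n + t).Prime)).card ≤ (pr (N + H)).card := by
      apply card_le_card_of_injOn (fun n => n + t)
      · intro n hn
        rw [mem_coe, mem_filter, mem_Icc] at hn
        rw [mem_coe]
        unfold pr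
        rw [mem_filter, mem_Icc]
        have h3 : 1 ≤ n + t := by omega
        have h4 : n + t ≤ N + H := by omega
        exact ⟨⟨h3, h4⟩, hn.2⟩
      · intro a _ b _ hab
        exact Nat.add_right_cancel hab
    exact_mod_cast h2.trans (pr_add N H)
  refine (sum_le_sum h1).trans ?_
  rw [sum_const, card_range, nsmul_eq_mul]

/-- the windows with more than `(c + δ) H / log N` primes are rare -/
def AEp (c δ η : ℝ) (N H : ℕ) : Prop := ∀ S : Finset ℕ, S ⊆ Icc 1 N →
  (∀ n ∈ S, (c + δ) * H / Real.log N < (NW H n : ℝ)) → (S.card : ℝ) ≤ η * N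

/-- continuity -/
lemma exists_delta (c : ℝ) (k : ℕ) {ε : ℝ} (hε : 0 < ε) : ∃ δ : ℝ, 0 < δ ∧ δ ≤ 1 ∧
    (c + 3 * δ) ^ k * (1 + 2 * δ) ≤ c ^ k + ε := by
  have hc : Continuous (fun δ : ℝ => (c + 3 * δ) ^ k * (1 + 2 * δ)) := by fun_prop
  have ht : Tendsto (fun δ : ℝ => (c + 3 * δ) ^ k * (1 + 2 * δ)) (𝓝 0) (𝓝 ((c + 3 * 0) ^ k * (1 + 2 * 0))) :=
    hc.tendsto 0
  have h1 : (c + 3 * 0) ^ k * (1 + 2 * 0) < c ^ k + ε := by
    simp; exact hε
  have h2 := ht.eventually_lt_const h1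
  rw [Metric.eventually_nhds_iff] at h2
  obtain ⟨r, hr, h3⟩ := h2
  refine ⟨min (r / 2) 1, lt_min (by positivity) one_pos, min_le_right _ _, ?_⟩
  apply le_of_lt
  apply h3
  have h4 : 0 < min (r / 2) 1 := lt_min (by positivity) one_pos
  rw [Real.dist_eq, sub_zero, abs_of_pos h4]
  exact lt_of_le_of_lt (min_le_left _ _) (by linarith)

/-- bad terms by Cauchy and Schwarz -/
lemma cs_bad (S : Finset ℕ) (f : ℕ → ℝ) {X Z : ℝ} (hX : (S.card : ℝ) ≤ X)
    (hZ : ∑ n ∈ S, f n ^ 2 ≤ Z) (hX0 : 0 ≤ X) : ∑ n ∈ S, f n ≤ Real.sqrt (X * Z) := by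
  apply Real.le_sqrt_of_sq_le
  refine sq_sum_le_card_mul_sum_sq.trans ?_
  exact mul_le_mul hX hZ (sum_nonneg fun _ _ => by positivity) hX0

open Classical in
/-- **window moments** -/
theorem win_up (c : ℝ) (hc : 0 ≤ c) (k : ℕ) (ε : ℝ) (hε : 0 < ε) : ∃ δ η : ℝ, 0 < δ ∧ 0 < η ∧ ∀ A : ℝ,
    ∀ᶠ N : ℕ in atTop, ∀ H : ℕ, Rg A N H → AEp c δ η N H →
      ∑ n ∈ Icc 1 N, (NW H n : ℝ) ^ (k + 1) ≤ (c ^ k + ε) * (N * (H / Real.log N) ^ (k + 1)) := by
  obtain ⟨δ, hδ, _, hδk⟩ := exists_delta c k (half_pos hε)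
  obtain ⟨C, hC, hmom⟩ := mom_NW (2 * k + 1)
  refine ⟨δ, (ε / 2) ^ 2 / C, hδ, by positivity, fun A => ?_⟩
  filter_upwards [hmom A, ev_log 1, pi_up δ hδ, ev_small (A + 1) δ hδ, eventually_ge_atTop 1]
    with N h1 h2 h3 h4 h5 H hR hAE
  set L := Real.log (N : ℝ) with hL
  have hL0 : 0 < L := by linarith
  have hN0 : (0 : ℝ) < N := by exact_mod_cast h5
  have hH0 : (0 : ℝ) < H := lt_of_lt_of_le hL0 hR.1
  set q : ℝ := H / L with hq
  have hq0 : 0 < q := by positivity
  -- total first moment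
  have hHs : (H : ℝ) ≤ δ * (N / L) := by
    have e : L ^ (A + 1) = L ^ A * L := by rw [Real.rpow_add hL0, Real.rpow_one]
    rw [e] at h4
    rw [mul_div_assoc', le_div_iff₀ hL0]
    exact (mul_le_mul_of_nonneg_right hR.2 hL0.le).trans h4
  have hfirst : ∑ n ∈ Icc 1 N, (NW H n : ℝ) ≤ (1 + 2 * δ) * (N * q) := by
    refine (first_NW N H).trans ?_
    calc (H : ℝ) * (((pr N).card : ℝ) + H) ≤ H * ((1 + δ) * (N / L) + δ * (N / L)) := by
          apply mul_le_mul_of_nonneg_left _ hH0.le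
          linarith
      _ = (1 + 2 * δ) * (N * q) := by rw [hq]; ring
  set Bd := (Icc 1 N).filter (fun n => (c + δ) * H / L < (NW H n : ℝ)) with hBd
  have hBc := hAE Bd (filter_subset _ _) (fun n hn => (mem_filter.1 hn).2)
  have hsplit : ∑ n ∈ Icc 1 N, (NW H n : ℝ) ^ (k + 1) ≤
      ∑ n ∈ Icc 1 N, ((c + δ) * q) ^ k * (NW H n : ℝ) + ∑ n ∈ Bd, (NW H n : ℝ) ^ (k + 1) := by
    rw [hBd, sum_filter, ← sum_add_distrib]
    apply sum_le_sum
    intro n _
    have h6 : (0 : ℝ) ≤ NW H n := Nat.cast_nonneg _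
    by_cases h7 : (c + δ) * H / L < (NW H n : ℝ)
    · rw [if_pos h7]
      have : 0 ≤ ((c + δ) * q) ^ k * (NW H n : ℝ) := by positivity
      linarith
    · rw [if_neg h7, add_zero, pow_succ]
      apply mul_le_mul_of_nonneg_right _ h6
      apply pow_le_pow_left₀ h6
      rw [hq, mul_div_assoc']
      exact not_lt.1 h7
  have hgood : ∑ n ∈ Icc 1 N, ((c + δ) * q) ^ k * (NW H n : ℝ) ≤
      ((c + 3 * δ) ^ k * (1 + 2 * δ)) * (N * q ^ (k + 1)) := by
    rw [← mul_sum]
    calc ((c + δ) * q) ^ k * ∑ n ∈ Icc 1 N, (NW H n : ℝ) ≤ ((c + 3 * δ) * q) ^ k * ((1 + 2 * δ) * (N * q)) := by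
          apply mul_le_mul _ hfirst (sum_nonneg fun _ _ => Nat.cast_nonneg _) (by positivity)
          apply pow_le_pow_left₀ (by positivity)
          apply mul_le_mul_of_nonneg_right _ hq0.le
          linarith
      _ = _ := by rw [mul_pow]; ring
  have hbad : ∑ n ∈ Bd, (NW H n : ℝ) ^ (k + 1) ≤ (ε / 2) * (N * q ^ (k + 1)) := by
    have h8 : ∑ n ∈ Bd, ((NW H n : ℝ) ^ (k + 1)) ^ 2 ≤ C * N * q ^ (2 * k + 1 + 1) := by
      refine le_trans ?_ (h1 H hR)
      have h9 : ∀ n, ((NW H n : ℝ) ^ (k + 1)) ^ 2 = (NW H n : ℝ) ^ (2 * k + 1 + 1) := by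
        intro n
        rw [← pow_mul]
        congr 1
        ring
      rw [sum_congr rfl (fun n _ => h9 n)]
      apply sum_le_sum_of_subset_of_nonneg (filter_subset _ _)
      intro n _ _
      positivity
    refine (cs_bad Bd _ hBc h8 (by positivity)).trans (le_of_eq ?_)
    have e : (ε / 2) ^ 2 / C * N * (C * N * q ^ (2 * k + 1 + 1)) = ((ε / 2) * (N * q ^ (k + 1))) ^ 2 := by
      field_simp
      ring
    rw [e]
    exact Real.sqrt_sq (by positivity)
  have hpos : 0 ≤ (N : ℝ) * q ^ (k + 1) := by positivity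
  have hfin := mul_le_mul_of_nonneg_right hδk hpos
  have e : (c ^ k + ε) * (N * q ^ (k + 1)) = (c ^ k + ε / 2) * (N * q ^ (k + 1)) + (ε / 2) * (N * q ^ (k + 1)) := by
    ring
  rw [e]
  linarith

/-! ### The anchored moments -/

lemma sing_nn (T : Finset ℕ) : 0 ≤ Uni.CT T := Uni.CT_nonneg T

/-- moments of `QH` over the primes -/
theorem mom_QH (j : ℕ) (hj : 1 ≤ j) : ∃ C : ℝ, 0 < C ∧ ∀ A : ℝ, ∀ᶠ N : ℕ in atTop, ∀ H : ℕ, Rg A N H →
    ∑ p ∈ pr N, (QH H p : ℝ) ^ j ≤ C * (N / Real.log N) * (H / Real.log N) ^ j := by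
  obtain ⟨B, hB, hcn⟩ := cn_up j
  obtain ⟨D₀, hD₀⟩ := anch_up j 1 one_pos
  refine ⟨2 ^ j * (j.factorial * (1 + 2 * B)) + 2 * (2 * j : ℝ) ^ j, by positivity, fun A => ?_⟩
  filter_upwards [hcn A, ev_log (max 1 (D₀ + 1)), ev_small ((j + 1 : ℕ) : ℝ) (1 / (j + 1)) (by positivity),
    pi_up 1 one_pos, eventually_ge_atTop 1] with N h1 h2 h3 h3' h4 H hR
  set L := Real.log (N : ℝ) with hL
  have hL1 : 1 ≤ L := (le_max_left _ _).trans h2
  have hLD : (D₀ : ℝ) + 1 ≤ L := (le_max_right _ _).trans h2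
  have hL0 : 0 < L := by linarith
  have hN0 : (0 : ℝ) < N := by exact_mod_cast h4
  have hHL : L ≤ H := hR.1
  have hH0 : (0 : ℝ) < H := by linarith
  have hDH : D₀ ≤ H := by
    have : (D₀ : ℝ) ≤ H := by linarith
    exact_mod_cast this
  have hH1R : (1 : ℝ) ≤ H := by linarith
  rw [Real.rpow_natCast] at h3
  have hq1 : 1 ≤ (H / L) ^ j := one_le_pow₀ (by rw [le_div_iff₀ hL0]; linarith)
  have s1 : ∑ D ∈ (Icc 2 H).powersetCard j, (cn N (insert 0 D) : ℝ) ≤ (1 + 2 * B) * ((N / L) * (H / L) ^ j) := by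
    have t1 : ∑ D ∈ (Icc 2 H).powersetCard j, (cn N (insert 0 D) : ℝ) ≤ ∑ D ∈ (Icc 2 H).powersetCard j,
        (((j : ℝ) + 1) + B * (N / L ^ (j + 1)) * Uni.CT (insert 0 D)) := by
      apply sum_le_sum
      intro D hD
      rw [mem_powersetCard] at hD
      have h0 : 0 ∉ D := by
        intro h
        have := (mem_Icc.1 (hD.1 h)).1
        omega
      exact h1 H hR (insert 0 D) (by rw [card_insert_of_notMem h0, hD.2]) (by
        intro t ht
        rw [mem_insert] at ht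
        rcases ht with rfl | ht
        · exact Nat.zero_le _
        · exact (mem_Icc.1 (hD.1 ht)).2)
    rw [sum_add_distrib, sum_const, nsmul_eq_mul, ← mul_sum] at t1
    have t2 : ((((Icc 2 H).powersetCard j).card : ℕ) : ℝ) ≤ (H : ℝ) ^ j := by
      refine (card_pow_le (Icc 2 H) j).trans ?_
      apply pow_le_pow_left₀ (Nat.cast_nonneg _)
      rw [Nat.card_Icc]
      exact_mod_cast (by omega : H + 1 - 2 ≤ H)
    have t3 : ∑ D ∈ (Icc 2 H).powersetCard j, Uni.CT (insert 0 D) ≤ 2 * (H : ℝ) ^ j := by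
      have u1 : ∑ D ∈ (Icc 2 H).powersetCard j, Uni.CT (insert 0 D) ≤
          ∑ D ∈ (Icc 1 H).powersetCard j, Uni.CT (insert 0 D) := by
        apply sum_le_sum_of_subset_of_nonneg
        · apply powersetCard_mono
          exact Icc_subset_Icc_left (by norm_num)
        · intro D _ _
          exact sing_nn _
      have u2 := hD₀ H hDH
      have u3 : 0 ≤ ∑ D ∈ (Icc 1 H).powersetCard j, Uni.CT (insert 0 D) := sum_nonneg fun D _ => sing_nn _
      have u4 : (1 : ℝ) ≤ j.factorial := by exact_mod_cast j.factorial_pos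
      have u5 := le_mul_of_one_le_left u3 u4
      linarith
    have t5 : ((((Icc 2 H).powersetCard j).card : ℕ) : ℝ) * ((j : ℝ) + 1) ≤ (N / L) * (H / L) ^ j := by
      have u3 : ((j : ℝ) + 1) * L ^ (j + 1) ≤ N := by
        calc ((j : ℝ) + 1) * L ^ (j + 1) ≤ ((j : ℝ) + 1) * (1 / (j + 1) * N) :=
              mul_le_mul_of_nonneg_left h3 (by positivity)
          _ = N := by field_simp
      calc ((((Icc 2 H).powersetCard j).card : ℕ) : ℝ) * ((j : ℝ) + 1) ≤ (H : ℝ) ^ j * ((j : ℝ) + 1) :=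
            mul_le_mul_of_nonneg_right t2 (by positivity)
        _ = (((j : ℝ) + 1) * L ^ (j + 1)) / L * (H / L) ^ j := by rw [div_pow, pow_succ]; field_simp
        _ ≤ _ := by
            apply mul_le_mul_of_nonneg_right _ (by positivity)
            exact div_le_div_of_nonneg_right u3 hL0.le
    have t6 : B * (N / L ^ (j + 1)) * ∑ D ∈ (Icc 2 H).powersetCard j, Uni.CT (insert 0 D) ≤
        (2 * B) * ((N / L) * (H / L) ^ j) := by
      calc B * (N / L ^ (j + 1)) * ∑ D ∈ (Icc 2 H).powersetCard j, Uni.CT (insert 0 D) ≤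
          B * (N / L ^ (j + 1)) * (2 * (H : ℝ) ^ j) := mul_le_mul_of_nonneg_left t3 (by positivity)
        _ = _ := by rw [div_pow, pow_succ]; field_simp
    have e : (1 + 2 * B) * ((N / L) * (H / L) ^ j) =
        (N / L) * (H / L) ^ j + (2 * B) * ((N / L) * (H / L) ^ j) := by ring
    rw [e]
    linarith
  have s2 : ∑ p ∈ pr N, (QH H p : ℝ) ^ j ≤
      2 ^ j * (j.factorial * ∑ D ∈ (Icc 2 H).powersetCard j, (cn N (insert 0 D) : ℝ)) +
        (pr N).card * (2 * j : ℝ) ^ j := by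
    have t1 := sum_le_sum (fun p (_ : p ∈ pr N) => pow_le_choose (QH H p) j)
    rw [sum_add_distrib, sum_const, nsmul_eq_mul, ← mul_sum, ← mul_sum] at t1
    have t2 : ∑ p ∈ pr N, (((QH H p).choose j : ℕ) : ℝ) =
        ∑ D ∈ (Icc 2 H).powersetCard j, (cn N (insert 0 D) : ℝ) := by
      exact_mod_cast sum_QH H N j
    rw [t2] at t1
    exact t1
  refine s2.trans ?_
  have s3 : 2 ^ j * (j.factorial * ∑ D ∈ (Icc 2 H).powersetCard j, (cn N (insert 0 D) : ℝ)) ≤
      2 ^ j * (j.factorial * ((1 + 2 * B) * ((N / L) * (H / L) ^ j))) := by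
    apply mul_le_mul_of_nonneg_left _ (by positivity)
    exact mul_le_mul_of_nonneg_left s1 (by positivity)
  have s4 : ((pr N).card : ℝ) * (2 * j : ℝ) ^ j ≤ 2 * (2 * j : ℝ) ^ j * ((N / L) * (H / L) ^ j) := by
    have h6 : (N / L : ℝ) ≤ (N / L) * (H / L) ^ j := le_mul_of_one_le_right (by positivity) hq1
    have h7 : ((pr N).card : ℝ) ≤ 2 * ((N / L) * (H / L) ^ j) := by
      have : (1 + 1) * ((N : ℝ) / L) = 2 * (N / L) := by ring
      rw [this] at h3'
      linarith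
    calc ((pr N).card : ℝ) * (2 * j : ℝ) ^ j ≤ (2 * ((N / L) * (H / L) ^ j)) * (2 * j : ℝ) ^ j :=
          mul_le_mul_of_nonneg_right h7 (by positivity)
      _ = _ := by ring
  have e : (2 ^ j * (j.factorial * (1 + 2 * B)) + 2 * (2 * j : ℝ) ^ j) * (N / L) * (H / L) ^ j =
      2 ^ j * (j.factorial * ((1 + 2 * B) * ((N / L) * (H / L) ^ j))) +
      2 * (2 * j : ℝ) ^ j * ((N / L) * (H / L) ^ j) := by ring
  rw [e]
  linarith

/-- the extra length -/
noncomputable def Gx (δ : ℝ) (H : ℕ) : ℕ := ⌊δ / 5 * H⌋₊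

lemma NW_ge {H G n p : ℕ} (hn1 : p + 1 ≤ n + G) (hn2 : n ≤ p) : QH H p ≤ NW (H + G) n := by
  unfold QH NW
  apply card_le_card_of_injOn (fun d => p + d - n)
  · intro d hd
    rw [mem_coe, mem_filter, mem_Icc] at hd
    rw [mem_coe, mem_filter, mem_range]
    have e : n + (p + d - n) = p + d := by omega
    have h1 : p + d - n < H + G := by omega
    refine ⟨h1, ?_⟩
    show (n + (p + d - n)).Prime
    rw [e]
    exact hd.2
  · intro a ha b hb hab
    rw [mem_coe, mem_filter, mem_Icc] at ha hb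
    simp only at hab
    omega

open Classical in
/-- **few bad primes** -/
theorem bad_primes (c : ℝ) (_hc : 0 ≤ c) (hc4 : c ≤ 4) (δ η' : ℝ) (hδ : 0 < δ) (hδ1 : δ ≤ 1) (hη' : 0 < η') :
    ∃ η : ℝ, 0 < η ∧ ∀ A : ℝ, ∀ᶠ N : ℕ in atTop, ∀ H : ℕ, Rg A N H → AEp c δ η N (H + Gx δ H) →
      (((pr N).filter (fun p => (c + 3 * δ) * H / Real.log N < (QH H p : ℝ))).card : ℝ) ≤
        η' * (N / Real.log N) := by
  obtain ⟨C, hC, hmom⟩ := mom_NW 1
  refine ⟨(η' * δ / 40) ^ 2 / C, by positivity, fun A => ?_⟩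
  filter_upwards [hmom (max A 0 + 1), ev_log (max 2 (10 / δ)), ev_small (A + 1) (η' / 2) (by positivity),
    eventually_ge_atTop 1] with N h1 h2 h4 h5 H hR hAE
  set L := Real.log (N : ℝ) with hL
  have hL2 : 2 ≤ L := (le_max_left _ _).trans h2
  have hLδ : 10 / δ ≤ L := (le_max_right _ _).trans h2
  have hL0 : 0 < L := by linarith
  have hN0 : (0 : ℝ) < N := by exact_mod_cast h5
  have hHL := hR.1
  have hH0 : (0 : ℝ) < H := lt_of_lt_of_le hL0 hR.1
  obtain ⟨G, hG⟩ : ∃ G : ℕ, G = Gx δ H := ⟨_, rfl⟩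
  rw [← hG] at hAE
  have hG1 : (G : ℝ) ≤ δ / 5 * H := by rw [hG]; exact Nat.floor_le (by positivity)
  have hG2 : δ / 10 * H ≤ G := by
    have h6 : δ / 5 * H < G + 1 := by rw [hG]; exact Nat.lt_floor_add_one _
    have h7 : 1 ≤ δ / 10 * H := by
      have : 10 / δ ≤ H := hLδ.trans hHL
      rw [div_le_iff₀ hδ] at this
      linarith
    linarith
  have hG0 : (0 : ℝ) < G := lt_of_lt_of_le (by positivity) hG2
  have hGH : (G : ℝ) ≤ H := by
    refine hG1.trans ?_
    calc δ / 5 * H ≤ 1 * H := mul_le_mul_of_nonneg_right (by linarith) hH0.le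
      _ = H := one_mul _
  have hGHn : G ≤ H := by exact_mod_cast hGH
  -- the moment at `H + G`
  have hR' : Rg (max A 0 + 1) N (H + G) := by
    constructor
    · push_cast; linarith
    · push_cast
      calc (H : ℝ) + G ≤ 2 * H := by linarith
        _ ≤ L * L ^ (max A 0) := by
            apply mul_le_mul hL2 _ hH0.le hL0.le
            exact hR.2.trans (Real.rpow_le_rpow_of_exponent_le (by linarith) (le_max_left _ _))
        _ = L ^ (max A 0 + 1) := by rw [Real.rpow_add hL0, Real.rpow_one]; ring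
  have hm := h1 (H + G) hR'
  set Bd := (Icc 1 N).filter (fun n => (c + δ) * (H + G : ℕ) / L < (NW (H + G) n : ℝ)) with hBd
  have hBc := hAE Bd (filter_subset _ _) (fun n hn => (mem_filter.1 hn).2)
  set Pb := (pr N).filter (fun p => (c + 3 * δ) * H / L < (QH H p : ℝ)) with hPb
  set Pc := Pb.filter (fun p => H < p) with hPc
  have hbadn : ∀ p ∈ Pc, ∀ n, p + 1 ≤ n + G → n ≤ p → n ∈ Bd := by
    intro p hp n hn1 hn2
    rw [hPc, mem_filter, hPb, mem_filter] at hp
    unfold pr at hp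
    rw [mem_filter, mem_Icc] at hp
    rw [hBd, mem_filter, mem_Icc]
    refine ⟨⟨by omega, by omega⟩, ?_⟩
    have h6 : (QH H p : ℝ) ≤ (NW (H + G) n : ℝ) := by exact_mod_cast NW_ge hn1 hn2
    refine lt_of_lt_of_le (lt_of_le_of_lt ?_ hp.1.2) h6
    apply div_le_div_of_nonneg_right _ hL0.le
    push_cast
    have h7 : (c + δ) * G ≤ 5 * (δ / 5 * H) := mul_le_mul (by linarith) hG1 hG0.le (by norm_num)
    have h8 : 0 ≤ δ * H := by positivity
    nlinarith
  -- double counting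
  have hdc : (G : ℝ) * Pc.card ≤ ∑ n ∈ Bd, (NW (H + G) n : ℝ) := by
    have e1 : G * Pc.card = ∑ p ∈ Pc, (Bd.filter (fun n => p + 1 ≤ n + G ∧ n ≤ p)).card := by
      rw [mul_comm, ← smul_eq_mul, ← sum_const]
      apply sum_congr rfl
      intro p hp
      have hpH : H < p := (mem_filter.1 hp).2
      have : Bd.filter (fun n => p + 1 ≤ n + G ∧ n ≤ p) = Icc (p + 1 - G) p := by
        ext n
        rw [mem_filter, mem_Icc]
        constructor
        · rintro ⟨_, h6, h7⟩; exact ⟨by omega, h7⟩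
        · rintro ⟨h6, h7⟩
          exact ⟨hbadn p hp n (by omega) h7, by omega, h7⟩
      rw [this, Nat.card_Icc]
      omega
    have e2 : ∑ p ∈ Pc, (Bd.filter (fun n => p + 1 ≤ n + G ∧ n ≤ p)).card =
        ∑ n ∈ Bd, (Pc.filter (fun p => p + 1 ≤ n + G ∧ n ≤ p)).card := by
      simp_rw [card_filter]
      rw [sum_comm]
    have e3 : ∀ n ∈ Bd, (Pc.filter (fun p => p + 1 ≤ n + G ∧ n ≤ p)).card ≤ NW (H + G) n := by
      intro n _
      unfold NW
      apply card_le_card_of_injOn (fun p => p - n)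
      · intro p hp
        rw [mem_coe, mem_filter, hPc, mem_filter, hPb, mem_filter] at hp
        unfold pr at hp
        rw [mem_filter] at hp
        rw [mem_coe, mem_filter, mem_range]
        have h6 : p - n < H + G := by omega
        refine ⟨h6, ?_⟩
        show (n + (p - n)).Prime
        rw [Nat.add_sub_cancel' hp.2.2]
        exact hp.1.1.1.2
      · intro a ha b hb hab
        rw [mem_coe, mem_filter] at ha hb
        simp only at hab
        omega
    have e4 : G * Pc.card ≤ ∑ n ∈ Bd, NW (H + G) n := by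
      rw [e1, e2]
      exact sum_le_sum e3
    exact_mod_cast e4
  have hcs : ∑ n ∈ Bd, (NW (H + G) n : ℝ) ≤ (η' * δ / 40) * (N * (2 * (H / L))) := by
    have h8 : ∑ n ∈ Bd, (NW (H + G) n : ℝ) ^ 2 ≤ C * N * (2 * (H / L)) ^ 2 := by
      refine le_trans ?_ (hm.trans ?_)
      · apply sum_le_sum_of_subset_of_nonneg (filter_subset _ _)
        intro n _ _
        positivity
      · apply mul_le_mul_of_nonneg_left _ (by positivity)
        apply pow_le_pow_left₀ (by positivity)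
        push_cast
        rw [mul_div_assoc']
        exact div_le_div_of_nonneg_right (by linarith) hL0.le
    refine (cs_bad Bd _ hBc h8 (by positivity)).trans (le_of_eq ?_)
    have e : (η' * δ / 40) ^ 2 / C * N * (C * N * (2 * (H / L)) ^ 2) = ((η' * δ / 40) * (N * (2 * (H / L)))) ^ 2 := by
      field_simp
    rw [e]
    exact Real.sqrt_sq (by positivity)
  have hPc1 : (Pc.card : ℝ) ≤ η' / 2 * (N / L) := by
    have h9 : (δ / 10 * H) * Pc.card ≤ (η' * δ / 40) * (N * (2 * (H / L))) := by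
      refine le_trans ?_ (hdc.trans hcs)
      exact mul_le_mul_of_nonneg_right hG2 (Nat.cast_nonneg _)
    have h10 : (η' * δ / 40) * (N * (2 * (H / L))) = (δ / 10 * H) * (η' / 2 * (N / L)) := by ring
    rw [h10] at h9
    exact le_of_mul_le_mul_left h9 (by positivity)
  have hPb1 : (Pb.card : ℝ) ≤ H + Pc.card := by
    have h11 : Pb ⊆ Icc 1 H ∪ Pc := by
      intro p hp
      rw [mem_union, mem_Icc, hPc, mem_filter]
      have h12 : 1 ≤ p := by
        rw [hPb, mem_filter] at hp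
        unfold pr at hp
        rw [mem_filter, mem_Icc] at hp
        exact hp.1.1.1
      by_cases h13 : H < p
      · right; exact ⟨hp, h13⟩
      · left; omega
    have h14 := (card_le_card h11).trans (card_union_le _ _)
    rw [Nat.card_Icc, Nat.add_sub_cancel] at h14
    exact_mod_cast h14
  have hHs : (H : ℝ) ≤ η' / 2 * (N / L) := by
    have e : L ^ (A + 1) = L ^ A * L := by rw [Real.rpow_add hL0, Real.rpow_one]
    rw [e] at h4
    rw [mul_div_assoc', le_div_iff₀ hL0]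
    exact (mul_le_mul_of_nonneg_right hR.2 hL0.le).trans h4
  linarith

open Classical in
/-- **anchored moments** -/
theorem anc_up (c : ℝ) (hc : 0 ≤ c) (hc4 : c ≤ 4) (k : ℕ) (hk : 1 ≤ k) (ε : ℝ) (hε : 0 < ε) :
    ∃ δ η : ℝ, 0 < δ ∧ 0 < η ∧ ∀ A : ℝ, ∀ᶠ N : ℕ in atTop, ∀ H : ℕ, Rg A N H →
      AEp c δ η N (H + Gx δ H) →
      ∑ p ∈ pr N, (QH H p : ℝ) ^ k ≤ (c ^ k + ε) * ((N / Real.log N) * (H / Real.log N) ^ k) := by
  obtain ⟨δ, hδ, hδ1, hδk⟩ := exists_delta c k (half_pos hε)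
  obtain ⟨C, hC, hmom⟩ := mom_QH (2 * k) (by omega)
  obtain ⟨η, hη, hbp⟩ := bad_primes c hc hc4 δ ((ε / 2) ^ 2 / C) hδ hδ1 (by positivity)
  refine ⟨δ, η, hδ, hη, fun A => ?_⟩
  filter_upwards [hmom A, hbp A, ev_log 1, pi_up δ hδ, eventually_ge_atTop 1]
    with N h1 hb h2 h3 h5 H hR hAE
  set L := Real.log (N : ℝ) with hL
  have hL0 : 0 < L := by linarith
  have hN0 : (0 : ℝ) < N := by exact_mod_cast h5
  have hH0 : (0 : ℝ) < H := lt_of_lt_of_le hL0 hR.1
  set q : ℝ := H / L with hq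
  have hq0 : 0 < q := by positivity
  have hBc := hb H hR hAE
  set Bd := (pr N).filter (fun p => (c + 3 * δ) * H / L < (QH H p : ℝ)) with hBd
  have hsplit : ∑ p ∈ pr N, (QH H p : ℝ) ^ k ≤
      ∑ _p ∈ pr N, ((c + 3 * δ) * q) ^ k + ∑ p ∈ Bd, (QH H p : ℝ) ^ k := by
    rw [hBd, sum_filter, ← sum_add_distrib]
    apply sum_le_sum
    intro n _
    have h6 : (0 : ℝ) ≤ QH H n := Nat.cast_nonneg _
    by_cases h7 : (c + 3 * δ) * H / L < (QH H n : ℝ)
    · rw [if_pos h7]
      have : 0 ≤ ((c + 3 * δ) * q) ^ k := by positivity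
      linarith
    · rw [if_neg h7, add_zero]
      apply pow_le_pow_left₀ h6
      rw [hq, mul_div_assoc']
      exact not_lt.1 h7
  have hgood : ∑ _p ∈ pr N, ((c + 3 * δ) * q) ^ k ≤ ((c + 3 * δ) ^ k * (1 + 2 * δ)) * ((N / L) * q ^ k) := by
    rw [sum_const, nsmul_eq_mul]
    calc ((pr N).card : ℝ) * ((c + 3 * δ) * q) ^ k ≤ ((1 + 2 * δ) * (N / L)) * ((c + 3 * δ) * q) ^ k := by
          apply mul_le_mul_of_nonneg_right _ (by positivity)
          refine h3.trans ?_
          apply mul_le_mul_of_nonneg_right _ (by positivity)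
          linarith
      _ = _ := by rw [mul_pow]; ring
  have hbad : ∑ p ∈ Bd, (QH H p : ℝ) ^ k ≤ (ε / 2) * ((N / L) * q ^ k) := by
    have h8 : ∑ p ∈ Bd, ((QH H p : ℝ) ^ k) ^ 2 ≤ C * (N / L) * q ^ (2 * k) := by
      refine le_trans ?_ (h1 H hR)
      have h9 : ∀ n, ((QH H n : ℝ) ^ k) ^ 2 = (QH H n : ℝ) ^ (2 * k) := by
        intro n
        rw [← pow_mul]
        congr 1
        ring
      rw [sum_congr rfl (fun n _ => h9 n)]
      apply sum_le_sum_of_subset_of_nonneg (filter_subset _ _)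
      intro n _ _
      positivity
    refine (cs_bad Bd _ hBc h8 (by positivity)).trans (le_of_eq ?_)
    have e : (ε / 2) ^ 2 / C * (N / L) * (C * (N / L) * q ^ (2 * k)) = ((ε / 2) * ((N / L) * q ^ k)) ^ 2 := by
      field_simp
      ring
    rw [e]
    exact Real.sqrt_sq (by positivity)
  have hpos : 0 ≤ ((N : ℝ) / L) * q ^ k := by positivity
  have hfin := mul_le_mul_of_nonneg_right hδk hpos
  have e : (c ^ k + ε) * ((N / L) * q ^ k) = (c ^ k + ε / 2) * ((N / L) * q ^ k) + (ε / 2) * ((N / L) * q ^ k) := by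
    ring
  rw [e]
  linarith

end Pool.Agent.L0h43.TA
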