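import Pool.Agent.L0h43.TA.Ae
import Pool.Agent.L0h43.TA.Up
import Pool.Agent.L0h43.TA.Low
import Pool.Agent.R516.Core
import Pool.Agent.R516.Win

/-!
# The two upper bounds for almost all windows, in the form used for the moments
-/

set_option autoImplicit false

namespace Pool.Agent.L0h43.TA

open Finset Filter Topology Pool.Agent.H387R2

lemma NW_pcn {H n : ℕ} (hn : 1 ≤ n) : NW H n = Pool.Agent.R516.pcn (n - 1) (n - 1 + H) := by
  unfold NW Pool.Agent.R516.pcn
  apply card_bij (fun t _ => n + t)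
  · intro t ht
    rw [mem_filter, mem_range] at ht
    rw [mem_filter, mem_Ioc]
    have h1 : n - 1 < n + t := by omega
    have h2 : n + t ≤ n - 1 + H := by omega
    exact ⟨⟨h1, h2⟩, ht.2⟩
  · intro a _ b _ hab
    exact Nat.add_left_cancel hab
  · intro p hp
    rw [mem_filter, mem_Ioc] at hp
    refine ⟨p - n, ?_, by omega⟩
    rw [mem_filter, mem_range]
    have e : n + (p - n) = p := by omega
    have h1 : p - n < H := by omega
    refine ⟨h1, ?_⟩
    rw [e]
    exact hp.2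

/-- at scales `(log N)^β`, `β > 20` -/
lemma aeR (δ η : ℝ) (hδ : 0 < δ) (hη : 0 < η) (β : ℝ) (hβ : 20 < β) (A : ℝ) : ∀ᶠ N : ℕ in atTop,
    ∀ H : ℕ, Real.log N ^ β ≤ H → (H : ℝ) ≤ Real.log N ^ A → AEp (18 / 5) δ η N H := by
  classical
  obtain ⟨κ, hκ, N₀, hN₀⟩ := Pool.Agent.R516.winU Pool.Agent.R516.core δ hδ
  have hpow : ∀ᶠ N : ℕ in atTop, Real.log N ^ A ≤ (N : ℝ) ^ κ := by
    have h1 := isLittleO_log_rpow_rpow_atTop A hκ
    have h2 := h1.bound one_pos
    have h3 := (tendsto_natCast_atTop_atTop (R := ℝ)).eventually h2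
    filter_upwards [h3, eventually_ge_atTop 1, ev_log 0] with N h4 h5 h6
    have hN : (0 : ℝ) < N := by exact_mod_cast h5
    rw [Real.norm_of_nonneg (Real.rpow_nonneg h6 _), Real.norm_of_nonneg (Real.rpow_nonneg hN.le _), one_mul] at h4
    exact h4
  have hdec : ∀ᶠ N : ℕ in atTop, (2 : ℝ) ^ 21 / η ≤ Real.log N ^ (β - 20) := by
    have h1 : Tendsto (fun N : ℕ => Real.log (N : ℝ) ^ (β - 20)) atTop atTop :=
      (tendsto_rpow_atTop (by linarith)).comp (Real.tendsto_log_atTop.comp tendsto_natCast_atTop_atTop)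
    exact h1.eventually_ge_atTop _
  filter_upwards [eventually_ge_atTop N₀, ev_log 1, hpow, ev_small A 1 one_pos, hdec,
    eventually_ge_atTop 2] with N h1 h2 h3 h4 h5 h6 H hH1 hH2 S hS hSn
  set L := Real.log (N : ℝ) with hL
  have hL0 : 0 < L := by linarith
  have hN2 : (2 : ℝ) ≤ N := by exact_mod_cast h6
  have hN0 : (0 : ℝ) < N := by linarith
  have hHR : (1 : ℝ) ≤ H := (Real.one_le_rpow h2 (by linarith)).trans hH1
  have hH0 : (0 : ℝ) < H := by linarith
  have hH1n : 1 ≤ H := by exact_mod_cast hHR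
  have hHN : (H : ℝ) ≤ N := by
    have := hH2.trans h4
    rwa [one_mul] at this
  obtain ⟨N', hN'⟩ : ∃ N' : ℕ, N' = N + H := ⟨_, rfl⟩
  have hNN' : (N : ℝ) ≤ N' := by rw [hN']; push_cast; linarith
  have hN'2 : (N' : ℝ) ≤ 2 * N := by rw [hN']; push_cast; linarith
  have hL' : L ≤ Real.log N' := Real.log_le_log hN0 hNN'
  have hL'2 : Real.log N' ≤ 2 * L := by
    calc Real.log N' ≤ Real.log (2 * N) := Real.log_le_log (by linarith) hN'2
      _ = Real.log 2 + L := Real.log_mul (by norm_num) hN0.ne'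
      _ ≤ L + L := by
          have : Real.log 2 ≤ L := Real.log_le_log (by norm_num) hN2
          linarith
      _ = 2 * L := by ring
  have h7 := hN₀ N' (by omega) H hHR (by
    calc (H : ℝ) ≤ L ^ A := hH2
      _ ≤ (N : ℝ) ^ κ := h3
      _ ≤ (N' : ℝ) ^ κ := Real.rpow_le_rpow hN0.le hNN' hκ.le)
  have hsub : S ⊆ (Icc 1 N').filter (fun n => n ∈ Pool.Agent.R516.Hi N' H ((18 / 5 + δ) / Real.log N')) := by
    intro n hn
    have h8 := mem_Icc.1 (hS hn)
    have h9 := hSn n hn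
    rw [mem_filter, mem_Icc]
    refine ⟨⟨h8.1, by omega⟩, n - 1, n - 1 + H, by omega, by omega, by omega, ?_, ?_⟩
    · push_cast; linarith
    · rw [← NW_pcn h8.1]
      have e : (((n - 1 + H : ℕ) : ℝ) - ((n - 1 : ℕ) : ℝ)) = H := by push_cast; ring
      rw [e]
      refine lt_of_le_of_lt ?_ h9
      rw [div_mul_eq_mul_div]
      apply div_le_div_of_nonneg_left (by positivity) hL0 hL'
  have h10 : (S.card : ℝ) ≤ N' * Real.log N' ^ 20 / H := by
    refine le_trans ?_ h7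
    exact_mod_cast card_le_card hsub
  refine h10.trans ?_
  have h11 : (2 : ℝ) ^ 21 * L ^ (20 : ℕ) ≤ η * H := by
    have e : L ^ β = L ^ (β - 20) * L ^ (20 : ℕ) := by
      rw [← Real.rpow_natCast L 20, ← Real.rpow_add hL0]
      congr 1
      push_cast
      ring
    rw [div_le_iff₀ hη] at h5
    calc (2 : ℝ) ^ 21 * L ^ (20 : ℕ) ≤ (L ^ (β - 20) * η) * L ^ (20 : ℕ) :=
          mul_le_mul_of_nonneg_right h5 (by positivity)
      _ = η * L ^ β := by rw [e]; ring
      _ ≤ η * H := mul_le_mul_of_nonneg_left hH1 hη.le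
  rw [div_le_iff₀ hH0]
  calc (N' : ℝ) * Real.log N' ^ 20 ≤ (2 * N) * (2 * L) ^ 20 := by
        apply mul_le_mul hN'2 _ (by positivity) (by positivity)
        exact pow_le_pow_left₀ (by linarith) hL'2 20
    _ = N * ((2 : ℝ) ^ 21 * L ^ (20 : ℕ)) := by ring
    _ ≤ N * (η * H) := mul_le_mul_of_nonneg_left h11 hN0.le
    _ = η * N * H := by ring

/-- at scales `K log N` -/
lemma aeK (δ η : ℝ) (hδ : 0 < δ) (hη : 0 < η) : ∃ K : ℝ, 1 ≤ K ∧ ∀ A : ℝ, ∀ᶠ N : ℕ in atTop,
    ∀ H : ℕ, K * Real.log N ≤ H → (H : ℝ) ≤ Real.log N ^ A → AEp 4 δ η N H := by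
  classical
  obtain ⟨K, κ, _, hκ, N₀, hN₀⟩ := ae4 δ η hδ hη
  refine ⟨max K 1, le_max_right _ _, fun A => ?_⟩
  have hpow : ∀ᶠ N : ℕ in atTop, Real.log N ^ A ≤ (N : ℝ) ^ κ := by
    have h1 := isLittleO_log_rpow_rpow_atTop A hκ
    have h2 := h1.bound one_pos
    have h3 := (tendsto_natCast_atTop_atTop (R := ℝ)).eventually h2
    filter_upwards [h3, eventually_ge_atTop 1, ev_log 0] with N h4 h5 h6
    have hN : (0 : ℝ) < N := by exact_mod_cast h5
    rw [Real.norm_of_nonneg (Real.rpow_nonneg h6 _), Real.norm_of_nonneg (Real.rpow_nonneg hN.le _), one_mul] at h4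
    exact h4
  filter_upwards [eventually_ge_atTop N₀, ev_log 1, hpow] with N h1 h2 h3 H hH1 hH2 S hS hSn
  have hL0 : 0 < Real.log (N : ℝ) := by linarith
  have h4 := hN₀ N h1 H (le_trans (mul_le_mul_of_nonneg_right (le_max_left _ _) hL0.le) hH1) (hH2.trans h3)
  refine le_trans ?_ h4
  have hsub : S ⊆ (Ioc 0 N).filter (fun n => (4 + δ) * H / Real.log N < (NH H n : ℝ)) := by
    intro n hn
    have h8 := mem_Icc.1 (hS hn)
    rw [mem_filter, mem_Ioc]
    exact ⟨⟨by omega, h8.2⟩, hSn n hn⟩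
  exact_mod_cast card_le_card hsub

lemma Gx_le {δ : ℝ} (hδ : 0 ≤ δ) (H : ℕ) : (Gx δ H : ℝ) ≤ δ * H := by
  unfold Gx
  have h0 : (0 : ℝ) ≤ δ * H := by positivity
  refine (Nat.floor_le (by positivity)).trans ?_
  linarith

end Pool.Agent.L0h43.TA
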