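import Pool.Agent.L0h43.TA.Imp5

/-!
# Prime triples on average over boxes, upper bound
-/

set_option autoImplicit false

namespace Pool.Agent.L0h43.TA

open Finset Filter Topology Pool.Agent.H387R2

lemma exists_delta2 {ε : ℝ} (hε : 0 < ε) : ∃ δ : ℝ, 0 < δ ∧ δ ≤ 1 ∧
    (4 + 3 * δ) ^ 2 * (1 + δ) ≤ 16 + ε := by
  obtain ⟨δ, h1, h2, h3⟩ := exists_delta 4 2 hε
  refine ⟨δ, h1, h2, le_trans ?_ (h3.trans (by norm_num))⟩
  apply mul_le_mul_of_nonneg_left _ (by positivity)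
  linarith

lemma sq_prod_le {a b : ℝ} : (a * b) ^ 2 ≤ a ^ 4 + b ^ 4 := by
  have h1 : 0 ≤ (a ^ 2 - b ^ 2) ^ 2 := sq_nonneg _
  have h2 : 0 ≤ (a ^ 2) ^ 2 := sq_nonneg _
  have h3 : 0 ≤ (b ^ 2) ^ 2 := sq_nonneg _
  nlinarith

open Classical in
/-- **pairs of windows at given distances from a prime** -/
theorem bil (ε : ℝ) (hε : 0 < ε) : ∃ K : ℝ, 1 ≤ K ∧ ∀ A : ℝ, ∀ᶠ N : ℕ in atTop,
    ∀ (h h' : ℕ) (τ τ' : ℤ), K * Real.log N ≤ h → K * Real.log N ≤ h' → (h : ℝ) ≤ Real.log N ^ A →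
      (h' : ℝ) ≤ Real.log N ^ A → (τ.natAbs : ℝ) ≤ Real.log N ^ A → (τ'.natAbs : ℝ) ≤ Real.log N ^ A →
      ∑ p ∈ pr N, (NW h (sh τ p) : ℝ) * NW h' (sh τ' p) ≤
        (16 + ε) * (N / Real.log N * ((h / Real.log N) * (h' / Real.log N))) := by
  obtain ⟨δ, hδ, hδ1, hδε⟩ := exists_delta2 (half_pos hε)
  obtain ⟨C, hC, hmom⟩ := mom_dis 4
  obtain ⟨η, hη, hbad⟩ := bad_dis 4 (by norm_num) le_rfl δ ((ε / 2) ^ 2 / (4 * C)) hδ hδ1 (by positivity)
  obtain ⟨K, hK, hae⟩ := aeK δ η hδ hη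
  refine ⟨K, hK, fun A => ?_⟩
  filter_upwards [hmom A, hbad A, hae (A + 1), rg_add (A := A) hδ, pi_up δ hδ, ev_log 1, eventually_ge_atTop 1]
    with N h1 h2 h3 h4 h5 h6 h7 h h' τ τ' hh hh' hA hA' hτ hτ'
  obtain ⟨L, hL⟩ : ∃ L : ℝ, L = Real.log (N : ℝ) := ⟨_, rfl⟩
  rw [← hL] at h1 h2 h3 h4 h5 h6 hh hh' hA hA' hτ hτ' ⊢
  have hL0 : 0 < L := by linarith
  have hN0 : (0 : ℝ) < N := by exact_mod_cast h7
  have hLh : L ≤ h := (le_mul_of_one_le_left hL0.le hK).trans hh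
  have hLh' : L ≤ h' := (le_mul_of_one_le_left hL0.le hK).trans hh'
  have hR : Rg A N h := by unfold Rg; rw [← hL]; exact ⟨hLh, hA⟩
  have hR' : Rg A N h' := by unfold Rg; rw [← hL]; exact ⟨hLh', hA'⟩
  obtain ⟨X, hX⟩ : ∃ X : ℝ, X = N / L := ⟨_, rfl⟩
  have hX0 : 0 < X := by rw [hX]; positivity
  obtain ⟨q, hq⟩ : ∃ q : ℝ, q = h / L := ⟨_, rfl⟩
  obtain ⟨q', hq'⟩ : ∃ q' : ℝ, q' = h' / L := ⟨_, rfl⟩
  have hh0 : (0 : ℝ) < h := by linarith
  have hh0' : (0 : ℝ) < h' := by linarith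
  have hq0 : 0 < q := by rw [hq]; positivity
  have hq0' : 0 < q' := by rw [hq']; positivity
  have hAE : AEp 4 δ η N (h + Gx δ h) := h3 _ (by
    push_cast
    have : (0 : ℝ) ≤ Gx δ h := Nat.cast_nonneg _
    linarith) (h4 h hA)
  have hAE' : AEp 4 δ η N (h' + Gx δ h') := h3 _ (by
    push_cast
    have : (0 : ℝ) ≤ Gx δ h' := Nat.cast_nonneg _
    linarith) (h4 h' hA')
  have hB := h2 h τ hR hτ hAE
  have hB' := h2 h' τ' hR' hτ' hAE'
  have hM := h1 h τ hR hτ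
  have hM' := h1 h' τ' hR' hτ'
  rw [← hX] at hB hB' hM hM' h5
  rw [← hq] at hM
  rw [← hq'] at hM'
  have e1 : (4 + 3 * δ) * h / L = (4 + 3 * δ) * q := by rw [hq]; ring
  have e1' : (4 + 3 * δ) * h' / L = (4 + 3 * δ) * q' := by rw [hq']; ring
  rw [e1] at hB
  rw [e1'] at hB'
  rw [← hX, ← hq, ← hq']
  set B := (pr N).filter (fun p => (4 + 3 * δ) * q < (NW h (sh τ p) : ℝ)) with hBdef
  set B' := (pr N).filter (fun p => (4 + 3 * δ) * q' < (NW h' (sh τ' p) : ℝ)) with hBdef'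
  have hBu : ((B ∪ B').card : ℝ) ≤ (ε / 2) ^ 2 / (2 * C) * X := by
    have g1 : ((B ∪ B').card : ℝ) ≤ B.card + B'.card := by exact_mod_cast card_union_le _ _
    have e2 : (ε / 2) ^ 2 / (2 * C) * X = (ε / 2) ^ 2 / (4 * C) * X + (ε / 2) ^ 2 / (4 * C) * X := by
      field_simp
      ring
    rw [e2]
    linarith
  have hBs : B ∪ B' ⊆ pr N := union_subset (filter_subset _ _) (filter_subset _ _)
  have hsplit : ∑ p ∈ pr N, (NW h (sh τ p) : ℝ) * NW h' (sh τ' p) ≤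
      ∑ _p ∈ pr N, ((4 + 3 * δ) * q) * ((4 + 3 * δ) * q') +
        ∑ p ∈ B ∪ B', (NW h (sh τ p) : ℝ) * NW h' (sh τ' p) := by
    have e3 : ∑ p ∈ B ∪ B', (NW h (sh τ p) : ℝ) * NW h' (sh τ' p) =
        ∑ p ∈ pr N, if p ∈ B ∪ B' then (NW h (sh τ p) : ℝ) * NW h' (sh τ' p) else 0 := by
      rw [← sum_filter]
      apply sum_congr _ (fun _ _ => rfl)
      ext p
      rw [mem_filter]
      exact ⟨fun hp => ⟨hBs hp, hp⟩, fun hp => hp.2⟩
    rw [e3, ← sum_add_distrib]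
    apply sum_le_sum
    intro p hp
    have g0 : (0 : ℝ) ≤ ((4 + 3 * δ) * q) * ((4 + 3 * δ) * q') := by positivity
    split_ifs with hb
    · linarith
    · rw [add_zero]
      rw [mem_union, not_or] at hb
      have g1 : (NW h (sh τ p) : ℝ) ≤ (4 + 3 * δ) * q := by
        by_contra hcon
        exact hb.1 (mem_filter.2 ⟨hp, not_le.1 hcon⟩)
      have g2 : (NW h' (sh τ' p) : ℝ) ≤ (4 + 3 * δ) * q' := by
        by_contra hcon
        exact hb.2 (mem_filter.2 ⟨hp, not_le.1 hcon⟩)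
      exact mul_le_mul g1 g2 (Nat.cast_nonneg _) (by positivity)
  have hgood : ∑ _p ∈ pr N, ((4 + 3 * δ) * q) * ((4 + 3 * δ) * q') ≤ (16 + ε / 2) * (X * (q * q')) := by
    rw [sum_const, nsmul_eq_mul]
    calc ((pr N).card : ℝ) * (((4 + 3 * δ) * q) * ((4 + 3 * δ) * q')) ≤
        ((1 + δ) * X) * (((4 + 3 * δ) * q) * ((4 + 3 * δ) * q')) :=
          mul_le_mul_of_nonneg_right h5 (by positivity)
      _ = ((4 + 3 * δ) ^ 2 * (1 + δ)) * (X * (q * q')) := by ring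
      _ ≤ _ := mul_le_mul_of_nonneg_right hδε (by positivity)
  have hbads : ∑ p ∈ B ∪ B', (NW h (sh τ p) : ℝ) * NW h' (sh τ' p) ≤ ε / 2 * (X * (q * q')) := by
    have g1 : ∑ p ∈ B ∪ B', ((NW h (sh τ p) : ℝ) * NW h' (sh τ' p)) ^ 2 ≤ 2 * C * X * (q * q') ^ 2 := by
      have g2 : ∀ p ∈ B ∪ B', ((NW h (sh τ p) : ℝ) * NW h' (sh τ' p)) ^ 2 ≤
          (q * q') ^ 2 * (((NW h (sh τ p) : ℝ) ^ 4) / q ^ 4 + ((NW h' (sh τ' p) : ℝ) ^ 4) / q' ^ 4) := by
        intro p _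
        have g3 := sq_prod_le (a := (NW h (sh τ p) : ℝ) / q) (b := (NW h' (sh τ' p) : ℝ) / q')
        have e4 : ((NW h (sh τ p) : ℝ) * NW h' (sh τ' p)) ^ 2 =
            (q * q') ^ 2 * (((NW h (sh τ p) : ℝ) / q) * ((NW h' (sh τ' p) : ℝ) / q')) ^ 2 := by
          field_simp
        rw [e4]
        apply mul_le_mul_of_nonneg_left _ (by positivity)
        rw [← div_pow, ← div_pow]
        exact g3
      refine (sum_le_sum g2).trans ?_
      rw [← mul_sum, sum_add_distrib, ← sum_div, ← sum_div]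
      have g4 : (∑ p ∈ B ∪ B', (NW h (sh τ p) : ℝ) ^ 4) / q ^ 4 ≤ C * X := by
        rw [div_le_iff₀ (by positivity)]
        refine le_trans ?_ hM
        apply sum_le_sum_of_subset_of_nonneg hBs
        intro n _ _
        positivity
      have g5 : (∑ p ∈ B ∪ B', (NW h' (sh τ' p) : ℝ) ^ 4) / q' ^ 4 ≤ C * X := by
        rw [div_le_iff₀ (by positivity)]
        refine le_trans ?_ hM'
        apply sum_le_sum_of_subset_of_nonneg hBs
        intro n _ _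
        positivity
      calc (q * q') ^ 2 * ((∑ p ∈ B ∪ B', (NW h (sh τ p) : ℝ) ^ 4) / q ^ 4 +
          (∑ p ∈ B ∪ B', (NW h' (sh τ' p) : ℝ) ^ 4) / q' ^ 4) ≤ (q * q') ^ 2 * (C * X + C * X) :=
            mul_le_mul_of_nonneg_left (add_le_add g4 g5) (by positivity)
        _ = _ := by ring
    refine (cs_bad (B ∪ B') _ hBu g1 (by positivity)).trans (le_of_eq ?_)
    have e5 : (ε / 2) ^ 2 / (2 * C) * X * (2 * C * X * (q * q') ^ 2) = (ε / 2 * (X * (q * q'))) ^ 2 := by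
      field_simp
    rw [e5]
    exact Real.sqrt_sq (by positivity)
  have e6 : (16 + ε) * (X * (q * q')) = (16 + ε / 2) * (X * (q * q')) + ε / 2 * (X * (q * q')) := by ring
  rw [e6]
  linarith

/-! ### The singular series over a box -/

/-- the pairs of different even numbers of a box -/
def bx (u h v h' : ℕ) : Finset (ℕ × ℕ) :=
  (Ioc u (u + h) ×ˢ Ioc v (v + h')).filter (fun x => Even x.1 ∧ Even x.2 ∧ x.1 ≠ x.2)

lemma gT_odd {W : ℕ} (hW : 2 ∣ W) {T : Finset ℕ} (h0 : 0 ∈ T) {a : ℕ} (ha : a ∈ T) (hodd : ¬ Even a) :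
    Uni.gT W T = 0 := by
  unfold Uni.gT
  rw [card_eq_zero]
  apply filter_false_of_mem
  intro m _ hm
  have h1 := hm 0 h0
  have h2 := hm a ha
  rw [add_zero] at h1
  have h3 : ¬ 2 ∣ m := by
    intro h
    exact Nat.not_coprime_of_dvd_of_dvd (by norm_num) hW h h1
  have h4 : ¬ 2 ∣ m + a := by
    intro h
    exact Nat.not_coprime_of_dvd_of_dvd (by norm_num) hW h h2
  have h5 : ¬ 2 ∣ a := fun h => hodd (even_iff_two_dvd.2 h)
  omega

lemma box_low (y u h v h' : ℕ) (hy : 9 ≤ y) (hh : (Uni.WW y : ℝ) ≤ h) (hh' : (Uni.WW y : ℝ) ≤ h') :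
    (1 - 9 / (y : ℝ)) * (((h : ℝ) - Uni.WW y) * ((h' : ℝ) - Uni.WW y) - (Uni.WW y : ℝ) ^ 2 * h) ≤
      ∑ x ∈ bx u h v h', Uni.CT {0, x.1, x.2} := by
  classical
  obtain ⟨W, hW⟩ : ∃ W, W = Uni.WW y := ⟨_, rfl⟩
  rw [← hW] at hh hh' ⊢
  have hWpos : 0 < W := by rw [hW]; exact Uni.WW_pos y
  have hW0 : (0 : ℝ) < W := by exact_mod_cast hWpos
  have hφpos : 0 < Nat.totient W := Nat.totient_pos.2 hWpos
  have hφ0 : (0 : ℝ) < Nat.totient W := by exact_mod_cast hφpos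
  have hφ1 : (1 : ℝ) ≤ Nat.totient W := by exact_mod_cast hφpos
  have hy0 : (9 : ℝ) ≤ y := by exact_mod_cast hy
  have hc0 : 0 ≤ 1 - 9 / (y : ℝ) := by
    rw [sub_nonneg, div_le_one (by linarith)]
    exact hy0
  have h2W : 2 ∣ W := by
    rw [hW]
    unfold Uni.WW
    exact dvd_prod_of_mem _ (by
      rw [Nat.mem_primesBelow]
      exact ⟨by omega, Nat.prime_two⟩)
  -- all pairs of different elements
  obtain ⟨P, hP⟩ : ∃ P : Finset (ℕ × ℕ), P = (Ioc u (u + h) ×ˢ Ioc v (v + h')).filter (fun x => x.1 ≠ x.2) := ⟨_, rfl⟩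
  have h1 : ∀ x ∈ bx u h v h', (1 - 9 / (y : ℝ)) *
      (((W : ℝ) / Nat.totient W) ^ 3 * (Uni.gT W {0, x.1, x.2} / W)) ≤ Uni.CT {0, x.1, x.2} := by
    intro x hx
    unfold bx at hx
    rw [mem_filter, mem_product, mem_Ioc, mem_Ioc] at hx
    have hcard : ({0, x.1, x.2} : Finset ℕ).card = 3 := by
      rw [card_eq_three]
      exact ⟨0, x.1, x.2, by omega, by omega, hx.2.2.2, rfl⟩
    have := Helper22K9.Trp.CT_ge' {0, x.1, x.2} y (by omega) (by rw [hcard]; omega)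
    rw [hcard, ← hW] at this
    have e : (((3 : ℕ) : ℝ)) ^ 2 = 9 := by norm_num
    rw [e] at this
    exact this
  have h2 := sum_le_sum h1
  rw [← mul_sum, ← mul_sum, ← sum_div] at h2
  have h3 : ∑ x ∈ bx u h v h', (Uni.gT W {0, x.1, x.2} : ℝ) = ∑ x ∈ P, (Uni.gT W {0, x.1, x.2} : ℝ) := by
    have hsub : bx u h v h' ⊆ P := by
      intro x hx
      unfold bx at hx
      rw [hP]
      rw [mem_filter] at hx ⊢
      exact ⟨hx.1, hx.2.2.2⟩
    apply sum_subset hsub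
    intro x hx hx2
    rw [hP, mem_filter] at hx
    have h4 : ¬ (Even x.1 ∧ Even x.2) := by
      intro h5
      apply hx2
      unfold bx
      rw [mem_filter]
      exact ⟨hx.1, h5.1, h5.2, hx.2⟩
    by_cases h5 : Even x.1
    · have h6 : ¬ Even x.2 := fun h6 => h4 ⟨h5, h6⟩
      have : Uni.gT W {0, x.1, x.2} = 0 := gT_odd h2W (mem_insert_self _ _) (a := x.2) (by simp) h6
      rw [this]
      simp
    · have : Uni.gT W {0, x.1, x.2} = 0 := gT_odd h2W (mem_insert_self _ _) (a := x.1) (by simp) h5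
      rw [this]
      simp
  rw [h3] at h2
  -- the count
  have h4 : ∑ x ∈ P, (Uni.gT W {0, x.1, x.2} : ℝ) =
      ∑ ν ∈ (range W).filter (fun ν => Nat.Coprime W ν),
        ((P.filter (fun x => Nat.Coprime W (ν + x.1) ∧ Nat.Coprime W (ν + x.2))).card : ℝ) := by
    have e : ∀ x ∈ P, (Uni.gT W {0, x.1, x.2} : ℝ) =
        ∑ ν ∈ (range W).filter (fun ν => Nat.Coprime W ν),
          (if Nat.Coprime W (ν + x.1) ∧ Nat.Coprime W (ν + x.2) then (1 : ℝ) else 0) := by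
      intro x _
      rw [sum_boole]
      unfold Uni.gT
      rw [filter_filter]
      congr 2
      apply filter_congr
      intro m _
      simp only [mem_insert, mem_singleton, forall_eq_or_imp, forall_eq, add_zero]
    rw [sum_congr rfl e, sum_comm]
    apply sum_congr rfl
    intro ν _
    rw [sum_boole]
  have h5 : ∀ ν ∈ (range W).filter (fun ν => Nat.Coprime W ν),
      ((Nat.totient W : ℝ) * (h / W - 1)) * ((Nat.totient W : ℝ) * (h' / W - 1)) - h ≤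
      ((P.filter (fun x => Nat.Coprime W (ν + x.1) ∧ Nat.Coprime W (ν + x.2))).card : ℝ) := by
    intro ν _
    have g1 := cop_low W ν u h hWpos
    have g2 := cop_low W ν v h' hWpos
    have z1 : 0 ≤ (Nat.totient W : ℝ) * (h / W - 1) := by
      apply mul_nonneg hφ0.le
      rw [sub_nonneg, le_div_iff₀ hW0]
      linarith
    have z2 : 0 ≤ (Nat.totient W : ℝ) * (h' / W - 1) := by
      apply mul_nonneg hφ0.le
      rw [sub_nonneg, le_div_iff₀ hW0]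
      linarith
    obtain ⟨A1, hA1⟩ : ∃ A1, A1 = (Ioc u (u + h)).filter (fun a => Nat.Coprime W (ν + a)) := ⟨_, rfl⟩
    obtain ⟨A2, hA2⟩ : ∃ A2, A2 = (Ioc v (v + h')).filter (fun a => Nat.Coprime W (ν + a)) := ⟨_, rfl⟩
    rw [← hA1] at g1
    rw [← hA2] at g2
    have g3 : A1 ×ˢ A2 ⊆ P.filter (fun x => Nat.Coprime W (ν + x.1) ∧ Nat.Coprime W (ν + x.2)) ∪
        (Ioc u (u + h)).image (fun a => (a, a)) := by
      intro x hx
      rw [mem_product, hA1, hA2, mem_filter, mem_filter] at hx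
      rw [mem_union, mem_filter, mem_image, hP, mem_filter, mem_product]
      by_cases hne : x.1 = x.2
      · right
        exact ⟨x.1, hx.1.1, Prod.ext rfl hne⟩
      · left
        exact ⟨⟨⟨hx.1.1, hx.2.1⟩, hne⟩, hx.1.2, hx.2.2⟩
    have g4 := (card_le_card g3).trans (card_union_le _ _)
    have g5 : ((Ioc u (u + h)).image (fun a => (a, a))).card ≤ h := by
      refine card_image_le.trans ?_
      rw [Nat.card_Ioc]
      omega
    rw [card_product] at g4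
    have g6 : (A1.card : ℝ) * A2.card ≤
        ((P.filter (fun x => Nat.Coprime W (ν + x.1) ∧ Nat.Coprime W (ν + x.2))).card : ℝ) + h := by
      have := g4.trans (Nat.add_le_add_left g5 _)
      exact_mod_cast this
    have g7 := mul_le_mul g1 g2 z2 (z1.trans g1)
    linarith
  have h6 := sum_le_sum h5
  rw [sum_const, card_coprime, nsmul_eq_mul, ← h4] at h6
  have h7 : (W : ℝ) / Nat.totient W ≤ W := div_le_self hW0.le hφ1
  have h8 : ((h : ℝ) - W) * ((h' : ℝ) - W) - (W : ℝ) ^ 2 * h ≤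
      ((W : ℝ) / Nat.totient W) ^ 3 * (((Nat.totient W : ℝ) *
        (((Nat.totient W : ℝ) * (h / W - 1)) * ((Nat.totient W : ℝ) * (h' / W - 1)) - h)) / W) := by
    have e : ((W : ℝ) / Nat.totient W) ^ 3 * (((Nat.totient W : ℝ) *
        (((Nat.totient W : ℝ) * (h / W - 1)) * ((Nat.totient W : ℝ) * (h' / W - 1)) - h)) / W) =
        ((h : ℝ) - W) * ((h' : ℝ) - W) - ((W : ℝ) / Nat.totient W) ^ 2 * h := by
      field_simp
    rw [e]
    have h9 : ((W : ℝ) / Nat.totient W) ^ 2 ≤ (W : ℝ) ^ 2 := pow_le_pow_left₀ (by positivity) h7 2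
    have h10 := mul_le_mul_of_nonneg_right h9 (Nat.cast_nonneg (α := ℝ) h)
    linarith
  have h11 : ((W : ℝ) / Nat.totient W) ^ 3 * (((Nat.totient W : ℝ) *
        (((Nat.totient W : ℝ) * (h / W - 1)) * ((Nat.totient W : ℝ) * (h' / W - 1)) - h)) / W) ≤
      ((W : ℝ) / Nat.totient W) ^ 3 * ((∑ x ∈ P, (Uni.gT W {0, x.1, x.2} : ℝ)) / W) := by
    apply mul_le_mul_of_nonneg_left _ (by positivity)
    exact div_le_div_of_nonneg_right h6 hW0.le
  exact (mul_le_mul_of_nonneg_left (h8.trans h11) hc0).trans h2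

/-- **the singular series over a box** -/
theorem box_lo (ε : ℝ) (hε : 0 < ε) : ∃ D₀ : ℕ, ∀ u h v h' : ℕ, D₀ ≤ h → D₀ ≤ h' →
    (1 - ε) * ((h : ℝ) * h') ≤ ∑ x ∈ bx u h v h', Uni.CT {0, x.1, x.2} := by
  rcases le_or_gt 1 ε with hε1 | hε1
  · refine ⟨0, fun u h v h' _ _ => ?_⟩
    have h1 : (1 - ε) * ((h : ℝ) * h') ≤ 0 := mul_nonpos_of_nonpos_of_nonneg (by linarith) (by positivity)
    exact h1.trans (sum_nonneg fun _ _ => Uni.CT_nonneg _)
  obtain ⟨y, hy⟩ := exists_nat_ge (max 9 (9 / (ε / 4)))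
  have hy9R : (9 : ℝ) ≤ y := (le_max_left _ _).trans hy
  have hy9 : 9 ≤ y := by exact_mod_cast hy9R
  have hyε : 9 / (y : ℝ) ≤ ε / 4 := by
    have h1 : 9 / (ε / 4) ≤ y := (le_max_right _ _).trans hy
    rw [div_le_iff₀ (by positivity)] at h1
    rw [div_le_iff₀ (by linarith)]
    linarith
  have hWpos : 0 < Uni.WW y := Uni.WW_pos y
  obtain ⟨W, hW⟩ : ∃ W : ℝ, W = (Uni.WW y : ℝ) := ⟨_, rfl⟩
  have hW1 : 1 ≤ W := by rw [hW]; exact_mod_cast hWpos
  obtain ⟨D₀, hD₀⟩ := exists_nat_ge (4 * W ^ 2 / ε + W)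
  refine ⟨D₀, fun u h v h' hh hh' => ?_⟩
  have g1 : 4 * W ^ 2 / ε + W ≤ h := hD₀.trans (by exact_mod_cast hh)
  have g1' : 4 * W ^ 2 / ε + W ≤ h' := hD₀.trans (by exact_mod_cast hh')
  have g2 : 0 ≤ 4 * W ^ 2 / ε := by positivity
  have g3 := box_low y u h v h' hy9 (by rw [← hW]; linarith) (by rw [← hW]; linarith)
  rw [← hW] at g3
  refine le_trans ?_ g3
  have hh0 : 0 < (h : ℝ) := by linarith
  have hh0' : 0 < (h' : ℝ) := by linarith
  have g4 : W * h ≤ ε / 4 * (h * h') := by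
    have : W ≤ ε / 4 * h' := by
      have h5 : 4 * W ^ 2 / ε ≤ h' := by linarith
      rw [div_le_iff₀ hε] at h5
      nlinarith
    nlinarith
  have g4' : W * h' ≤ ε / 4 * (h * h') := by
    have : W ≤ ε / 4 * h := by
      have h5 : 4 * W ^ 2 / ε ≤ h := by linarith
      rw [div_le_iff₀ hε] at h5
      nlinarith
    nlinarith
  have g5 : W ^ 2 * h ≤ ε / 4 * (h * h') := by
    have h5 : 4 * W ^ 2 / ε ≤ h' := by linarith
    rw [div_le_iff₀ hε] at h5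
    have : W ^ 2 ≤ ε / 4 * h' := by linarith
    calc W ^ 2 * h ≤ (ε / 4 * h') * h := mul_le_mul_of_nonneg_right this hh0.le
      _ = _ := by ring
  have g6 : (1 - 3 / 4 * ε) * ((h : ℝ) * h') ≤ ((h : ℝ) - W) * ((h' : ℝ) - W) - W ^ 2 * h := by
    have : 0 ≤ W ^ 2 := by positivity
    have e : ((h : ℝ) - W) * ((h' : ℝ) - W) = h * h' - W * h - W * h' + W ^ 2 := by ring
    rw [e]
    linarith
  have hhh : 0 ≤ (h : ℝ) * h' := by positivity
  have hc0 : 0 ≤ 1 - 9 / (y : ℝ) := by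
    rw [sub_nonneg, div_le_one (by linarith)]
    exact hy9R
  have h8 : 0 < 1 - 3 / 4 * ε := by linarith
  have h9 : (1 - ε) ≤ (1 - 9 / (y : ℝ)) * (1 - 3 / 4 * ε) := by
    have h10 : (1 - ε / 4) * (1 - 3 / 4 * ε) ≤ (1 - 9 / (y : ℝ)) * (1 - 3 / 4 * ε) :=
      mul_le_mul_of_nonneg_right (by linarith) h8.le
    refine le_trans ?_ h10
    nlinarith [sq_nonneg ε]
  calc (1 - ε) * ((h : ℝ) * h') ≤ ((1 - 9 / (y : ℝ)) * (1 - 3 / 4 * ε)) * ((h : ℝ) * h') :=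
        mul_le_mul_of_nonneg_right h9 hhh
    _ = (1 - 9 / (y : ℝ)) * ((1 - 3 / 4 * ε) * ((h : ℝ) * h')) := by ring
    _ ≤ _ := mul_le_mul_of_nonneg_left g6 hc0

end Pool.Agent.L0h43.TA
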