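import Pool.Agent.L0h43.TA.Sel
import Pool.Agent.N792.FlGen
import Pool.Agent.H387R2.U2

/-!
# Counting with the fundamental lemma
-/

set_option autoImplicit false

namespace Pool.Agent.L0h43.TA

open Finset Pool.Agent.H387R2

/-- the primes below `2 ^ 2 ^ J` -/
def Ps (J : ℕ) : Finset ℕ := (range (2 ^ 2 ^ J)).filter Nat.Prime

/-- the excluded classes -/
def Om (T : Finset ℕ) (p : ℕ) : Finset ℕ := (range p).filter (fun r => ∃ t ∈ T, p ∣ r + t)

lemma Om_card (T : Finset ℕ) {p : ℕ} (hp : 0 < p) : (Om T p).card = Uni.nuT T p := by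
  classical
  have h1 : Om T p = (T.image (· % p)).image (fun c => (p - c) % p) := by
    ext r
    simp only [Om, mem_filter, mem_range, mem_image, exists_exists_and_eq_and]
    constructor
    · rintro ⟨hr, t, ht, hd⟩
      refine ⟨t, ht, ?_⟩
      have hc : t % p < p := Nat.mod_lt _ hp
      have h2 : p ∣ r + t % p := by
        rw [Nat.dvd_iff_mod_eq_zero] at hd ⊢
        rw [Nat.add_mod, Nat.mod_mod, ← Nat.add_mod]
        exact hd
      obtain ⟨k, hk⟩ := h2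
      have hk2 : k < 2 := by
        by_contra h
        have : p * 2 ≤ p * k := Nat.mul_le_mul_left p (not_lt.1 h)
        omega
      interval_cases k
      · have h3 : t % p = 0 := by omega
        have h4 : r = 0 := by omega
        rw [h3, h4, Nat.sub_zero, Nat.mod_self]
      · have h3 : p - t % p = r := by omega
        rw [h3]
        exact Nat.mod_eq_of_lt hr
    · rintro ⟨t, ht, rfl⟩
      have hc : t % p < p := Nat.mod_lt _ hp
      refine ⟨Nat.mod_lt _ hp, t, ht, ?_⟩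
      rw [Nat.dvd_iff_mod_eq_zero, Nat.mod_add_mod]
      have h3 : (p - t % p + t) = p * (1 + t / p) := by
        have := Nat.mod_add_div t p
        have h5 : p * (1 + t / p) = p + p * (t / p) := by ring
        omega
      rw [h3, Nat.mul_mod_right]
  rw [h1, card_image_of_injOn]
  · rfl
  · intro a ha b hb hab
    rw [mem_coe, mem_image] at ha hb
    obtain ⟨s, _, rfl⟩ := ha
    obtain ⟨t, _, rfl⟩ := hb
    have h1 : s % p < p := Nat.mod_lt _ hp
    have h2 : t % p < p := Nat.mod_lt _ hp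
    simp only at hab ⊢
    rcases Nat.eq_zero_or_pos (s % p) with h3 | h3
    · rcases Nat.eq_zero_or_pos (t % p) with h4 | h4
      · rw [h3, h4]
      · rw [h3, Nat.sub_zero, Nat.mod_self, Nat.mod_eq_of_lt (by omega)] at hab
        omega
    · rcases Nat.eq_zero_or_pos (t % p) with h4 | h4
      · rw [h4, Nat.sub_zero, Nat.mod_self, Nat.mod_eq_of_lt (by omega)] at hab
        omega
      · rw [Nat.mod_eq_of_lt (by omega : p - s % p < p), Nat.mod_eq_of_lt (by omega : p - t % p < p)] at hab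
        omega

/-- the density of the rough translates -/
noncomputable def VT (J : ℕ) (T : Finset ℕ) : ℝ := ∏ p ∈ Ps J, (1 - (Uni.nuT T p : ℝ) / p)

/-- `m` has no prime factor below `2 ^ 2 ^ J` -/
def Ro (J m : ℕ) : Prop := ∀ p ∈ Ps J, ¬ p ∣ m

/-- the error term -/
noncomputable def Er (C b J : ℕ) : ℝ :=
  ((3 * C : ℕ) : ℝ) ^ (3 * C) * ((J : ℝ) + 2) * ((2 ^ 2 ^ J) ^ (C * b)) ^ 2

lemma Er_nonneg (C b J : ℕ) : 0 ≤ Er C b J := by
  unfold Er
  positivity

lemma nuT_le_card (T : Finset ℕ) (p : ℕ) : Uni.nuT T p ≤ T.card := card_image_le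

lemma nuT_le_self (T : Finset ℕ) {p : ℕ} (hp : 0 < p) : Uni.nuT T p ≤ p := by
  rw [← Om_card T hp]
  have := card_le_card (filter_subset (fun r => ∃ t ∈ T, p ∣ r + t) (range p))
  rw [card_range] at this
  exact this

lemma VT_nonneg (J : ℕ) (T : Finset ℕ) : 0 ≤ VT J T := by
  unfold VT
  apply prod_nonneg
  intro p hp
  have hpp := (mem_filter.1 hp).2
  have h0 : (0 : ℝ) < p := by exact_mod_cast hpp.pos
  have h1 : (Uni.nuT T p : ℝ) ≤ p := by exact_mod_cast nuT_le_self T hpp.pos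
  rw [sub_nonneg, div_le_one h0]
  exact h1

open Classical in
theorem cnt_fl : ∃ C : ℕ, 1 ≤ C ∧ ∀ (b J N M0 r0 : ℕ) (T : Finset ℕ), 3 * C ≤ b → T.card ≤ 2 → 1 ≤ M0 →
    r0 < M0 → (∀ p ∈ Ps J, ¬ p ∣ M0) →
    |(((Ioc 0 N).filter (fun n => n % M0 = r0 ∧ ∀ t ∈ T, Ro J (n + t))).card : ℝ) - N / M0 * VT J T| ≤
      (1 / 2) ^ b * (N / M0 * VT J T) + Er C b J := by
  obtain ⟨C, hC, H⟩ := Pool.Agent.N792.fl_gen'
  refine ⟨C, hC, ?_⟩
  intro b J N M0 r0 T hb hT hM hr hP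
  have h := H 2 b J (3 * C) M0 0 N (Ps J) (Om T) {r0}
    ((Ioc 0 N).filter (fun n => n % M0 = r0 ∧ ∀ t ∈ T, Ro J (n + t))) le_rfl
    (by omega) (by omega) hM (Nat.zero_le _) (by
      intro x hx
      rw [mem_singleton] at hx
      rw [hx, mem_range]; exact hr)
    (by
      intro p hp
      have h2 := mem_filter.1 hp
      exact ⟨h2.2, (mem_range.1 h2.1).le, hP p hp⟩)
    (fun p _ => filter_subset _ _)
    (by
      intro p hp _
      have h2 := mem_filter.1 hp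
      rw [Om_card T h2.2.pos]
      exact (nuT_le_card T p).trans hT)
    (by
      intro n
      rw [mem_filter, mem_Ioc, mem_singleton]
      have e : (∀ t ∈ T, Ro J (n + t)) ↔ ∀ p ∈ Ps J, n % p ∉ Om T p := by
        constructor
        · intro h1 p hp h2
          have h3 := (mem_filter.1 hp).2
          obtain ⟨_, t, ht, hd⟩ := mem_filter.1 h2
          apply h1 t ht p hp
          rw [Nat.dvd_iff_mod_eq_zero] at hd ⊢
          rw [Nat.mod_add_mod] at hd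
          exact hd
        · intro h1 t ht p hp hd
          have h3 := (mem_filter.1 hp).2
          apply h1 p hp
          unfold Om
          rw [mem_filter, mem_range]
          refine ⟨Nat.mod_lt _ h3.pos, t, ht, ?_⟩
          rw [Nat.dvd_iff_mod_eq_zero] at hd ⊢
          rw [Nat.mod_add_mod]
          exact hd
      rw [e])
  have e1 : ∏ p ∈ Ps J, (1 - ((Om T p).card : ℝ) / p) = VT J T := by
    unfold VT
    apply prod_congr rfl
    intro p hp
    rw [Om_card T (mem_filter.1 hp).2.pos]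
  rw [e1, card_singleton] at h
  have e2 : ((N : ℝ) - ((0 : ℕ) : ℝ)) * (((1 : ℕ) : ℝ) / M0) * VT J T = N / M0 * VT J T := by
    push_cast
    ring
  rw [e2] at h
  refine h.trans (le_of_eq ?_)
  unfold Er
  push_cast
  ring

/-! ### Residue classes -/

lemma dvd_iff_modEq {a h n : ℕ} (ha : 1 ≤ a) : a ∣ n + h ↔ n ≡ a * h - h [MOD a] := by
  have e : a * h - h + h = a * h := Nat.sub_add_cancel (Nat.le_mul_of_pos_left h ha)
  constructor
  · intro hd
    apply Nat.ModEq.add_right_cancel' h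
    rw [e]
    have h1 : n + h ≡ 0 [MOD a] := (Nat.modEq_zero_iff_dvd).2 hd
    have h2 : a * h ≡ 0 [MOD a] := (Nat.modEq_zero_iff_dvd).2 (Dvd.intro _ rfl)
    exact h1.trans h2.symm
  · intro hm
    have h1 := Nat.ModEq.add_right h hm
    rw [e] at h1
    have h2 : a * h ≡ 0 [MOD a] := (Nat.modEq_zero_iff_dvd).2 (Dvd.intro _ rfl)
    exact (Nat.modEq_zero_iff_dvd).1 (h1.trans h2)

lemma prod_dvd_iff {A : Finset ℕ} (hA : Prs A) (m : ℕ) : ∏ p ∈ A, p ∣ m ↔ ∀ p ∈ A, p ∣ m := by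
  constructor
  · intro h p hp
    exact (dvd_prod_of_mem _ hp).trans h
  · intro h
    exact Finset.prod_primes_dvd m (fun p hp => (hA p hp).prime) h

lemma prod_pos' {A : Finset ℕ} (hA : Prs A) : 0 < ∏ p ∈ A, p := prod_pos fun p hp => (hA p hp).pos

lemma cop_prod {A B : Finset ℕ} (hA : Prs A) (hB : Prs B) (hAB : Disjoint A B) :
    Nat.Coprime (∏ p ∈ A, p) (∏ p ∈ B, p) := by
  apply Nat.Coprime.prod_left
  intro p hp
  apply Nat.Coprime.prod_right
  intro q hq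
  rw [Nat.coprime_primes (hA p hp) (hB q hq)]
  rintro rfl
  exact disjoint_left.1 hAB hp hq

/-- the class of two divisibility conditions -/
lemma crt_cls {A B : Finset ℕ} (hA : Prs A) (hB : Prs B) (hAB : Disjoint A B) (h1 h2 : ℕ) :
    ∃ r0 : ℕ, r0 < (∏ p ∈ A, p) * (∏ p ∈ B, p) ∧ ∀ n : ℕ,
      n % ((∏ p ∈ A, p) * (∏ p ∈ B, p)) = r0 ↔ (∀ p ∈ A, p ∣ n + h1) ∧ (∀ p ∈ B, p ∣ n + h2) := by
  have ha := prod_pos' hA
  have hb := prod_pos' hB
  have hc := cop_prod hA hB hAB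
  obtain ⟨k, hk1, hk2⟩ := Nat.chineseRemainder hc ((∏ p ∈ A, p) * h1 - h1) ((∏ p ∈ B, p) * h2 - h2)
  refine ⟨k % ((∏ p ∈ A, p) * (∏ p ∈ B, p)), Nat.mod_lt _ (Nat.mul_pos ha hb), ?_⟩
  intro n
  rw [← prod_dvd_iff hA, ← prod_dvd_iff hB, dvd_iff_modEq ha, dvd_iff_modEq hb]
  have e : n % ((∏ p ∈ A, p) * (∏ p ∈ B, p)) = k % ((∏ p ∈ A, p) * (∏ p ∈ B, p)) ↔
      n ≡ k [MOD (∏ p ∈ A, p) * (∏ p ∈ B, p)] := Iff.rfl
  rw [e, ← Nat.modEq_and_modEq_iff_modEq_mul hc]
  constructor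
  · rintro ⟨h3, h4⟩
    exact ⟨h3.trans hk1, h4.trans hk2⟩
  · rintro ⟨h3, h4⟩
    exact ⟨h3.trans hk1.symm, h4.trans hk2.symm⟩

/-- all primes of `Q` are at least `2 ^ 2 ^ J` -/
def Big (J : ℕ) (Q : Finset ℕ) : Prop := ∀ p ∈ Q, 2 ^ 2 ^ J ≤ p

lemma not_dvd_prod {J : ℕ} {A : Finset ℕ} (hA : Prs A) (hJ : Big J A) {p : ℕ} (hp : p ∈ Ps J) :
    ¬ p ∣ ∏ q ∈ A, q := by
  intro h
  have hpp := mem_filter.1 hp
  rw [Prime.dvd_finsetProd_iff hpp.2.prime] at h
  obtain ⟨q, hq, hd⟩ := h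
  rw [Nat.prime_dvd_prime_iff_eq hpp.2 (hA q hq)] at hd
  have h1 := hJ q hq
  have h2 := mem_range.1 hpp.1
  omega

lemma cast_prod (A : Finset ℕ) : ((∏ p ∈ A, p : ℕ) : ℝ) = pd A := by
  unfold pd
  push_cast
  rfl

open Classical in
/-- the number of `n ≤ N` with `n + h1`, `n + h2` rough and divisible by the primes of `A`, `B` -/
noncomputable def cc (J N h1 h2 : ℕ) (A B : Finset ℕ) : ℕ :=
  ((Ioc 0 N).filter (fun n => ((∀ p ∈ A, p ∣ n + h1) ∧ Ro J (n + h1)) ∧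
    ((∀ p ∈ B, p ∣ n + h2) ∧ Ro J (n + h2)))).card

open Classical in
theorem cnt_two : ∃ C : ℕ, 1 ≤ C ∧ ∀ (b J N h1 h2 : ℕ) (A B : Finset ℕ), 3 * C ≤ b →
    Prs A → Prs B → Big J A → Big J B → Disjoint A B →
    |(cc J N h1 h2 A B : ℝ) - N / (pd A * pd B) * VT J {h1, h2}| ≤
      (1 / 2) ^ b * (N / (pd A * pd B) * VT J {h1, h2}) + Er C b J := by
  obtain ⟨C, hC, H⟩ := cnt_fl
  refine ⟨C, hC, ?_⟩
  intro b J N h1 h2 A B hb hA hB hJA hJB hAB
  obtain ⟨r0, hr0, hcl⟩ := crt_cls hA hB hAB h1 h2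
  have h := H b J N ((∏ p ∈ A, p) * (∏ p ∈ B, p)) r0 {h1, h2} hb card_le_two
    (Nat.mul_pos (prod_pos' hA) (prod_pos' hB)) hr0 (by
      intro p hp hd
      rw [(mem_filter.1 hp).2.dvd_mul] at hd
      rcases hd with hd | hd
      · exact not_dvd_prod hA hJA hp hd
      · exact not_dvd_prod hB hJB hp hd)
  have e1 : (((∏ p ∈ A, p) * (∏ p ∈ B, p) : ℕ) : ℝ) = pd A * pd B := by
    rw [Nat.cast_mul, cast_prod, cast_prod]
  rw [e1] at h
  have e2 : (Ioc 0 N).filter (fun n => n % ((∏ p ∈ A, p) * (∏ p ∈ B, p)) = r0 ∧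
      ∀ t ∈ ({h1, h2} : Finset ℕ), Ro J (n + t)) =
      (Ioc 0 N).filter (fun n => ((∀ p ∈ A, p ∣ n + h1) ∧ Ro J (n + h1)) ∧
        ((∀ p ∈ B, p ∣ n + h2) ∧ Ro J (n + h2))) := by
    apply filter_congr
    intro n _
    rw [hcl n]
    simp only [mem_insert, mem_singleton, forall_eq_or_imp, forall_eq]
    tauto
  rw [e2] at h
  exact h

lemma cc_zero {J N h1 h2 : ℕ} {A B : Finset ℕ} (hJA : Big J A) (hAB : ¬ Disjoint A B)
    (hne : h1 ≠ h2) (hb1 : h1 < 2 ^ 2 ^ J) (hb2 : h2 < 2 ^ 2 ^ J) : cc J N h1 h2 A B = 0 := by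
  classical
  unfold cc
  rw [card_eq_zero]
  apply filter_false_of_mem
  rintro n _ ⟨⟨h3, _⟩, ⟨h4, _⟩⟩
  obtain ⟨p, hpA, hpB⟩ := not_disjoint_iff.1 hAB
  have d1 := h3 p hpA
  have d2 := h4 p hpB
  have hp := hJA p hpA
  rcases lt_or_gt_of_ne hne with h | h
  · have : p ∣ (n + h2) - (n + h1) := Nat.dvd_sub d2 d1
    have h5 : (n + h2) - (n + h1) = h2 - h1 := by omega
    rw [h5] at this
    have := Nat.le_of_dvd (by omega) this
    omega
  · have : p ∣ (n + h1) - (n + h2) := Nat.dvd_sub d1 d2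
    have h5 : (n + h1) - (n + h2) = h1 - h2 := by omega
    rw [h5] at this
    have := Nat.le_of_dvd (by omega) this
    omega

end Pool.Agent.L0h43.TA
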