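import Pool.Agent.L0h43.TA.Up

/-!
# Primes in windows at a given distance from a prime
-/

set_option autoImplicit false

namespace Pool.Agent.L0h43.TA

open Finset Filter Topology Pool.Agent.H387R2

lemma NW_mono {H H' n : ℕ} (h : H ≤ H') : NW H n ≤ NW H' n := by
  unfold NW
  apply card_le_card
  apply filter_subset_filter
  exact range_subset_range.2 h

lemma NW_le (H n : ℕ) : NW H n ≤ H := by
  unfold NW
  exact (card_filter_le _ _).trans (card_range H).le

lemma NW_sub {H H' m n : ℕ} (h1 : n ≤ m) (h2 : m + H ≤ n + H') : NW H m ≤ NW H' n := by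
  unfold NW
  apply card_le_card_of_injOn (fun t => m + t - n)
  · intro t ht
    rw [mem_coe, mem_filter, mem_range] at ht
    rw [mem_coe, mem_filter, mem_range]
    have e : n + (m + t - n) = m + t := by omega
    have h3 : m + t - n < H' := by omega
    refine ⟨h3, ?_⟩
    show (n + (m + t - n)).Prime
    rw [e]
    exact ht.2
  · intro a _ b _ hab
    simp only at hab
    omega

/-- double counting of the pairs of a prime and a point just below it -/
lemma dcount (S : Finset ℕ) (N G : ℕ) (hS : S ⊆ pr N) (hG : ∀ p ∈ S, G ≤ p) (f : ℕ → ℝ)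
    (hf : ∀ n, 0 ≤ f n) :
    ∑ p ∈ S, ∑ i ∈ range G, f (p - i) ≤ ∑ r ∈ Icc 1 N, f r * (NW G r : ℝ) := by
  classical
  have h1 : ∀ i ∈ range G, ∑ p ∈ S, f (p - i) ≤ ∑ r ∈ (Icc 1 N).filter (fun r => (r + i).Prime), f r := by
    intro i hi
    rw [mem_range] at hi
    have hinj : Set.InjOn (fun p => p - i) (S : Set ℕ) := by
      intro a ha b hb hab
      have h2 := hG a ha
      have h3 := hG b hb
      simp only at hab
      omega
    rw [← sum_image (g := fun p => p - i) (f := f) hinj]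
    apply sum_le_sum_of_subset_of_nonneg
    · intro r hr
      rw [mem_image] at hr
      obtain ⟨p, hp, rfl⟩ := hr
      have h2 := hG p hp
      have h3 := hS hp
      unfold pr at h3
      rw [mem_filter, mem_Icc] at h3
      rw [mem_filter, mem_Icc]
      have e : p - i + i = p := by omega
      rw [e]
      exact ⟨by omega, h3.2⟩
    · intro r _ _
      exact hf r
  rw [sum_comm]
  refine (sum_le_sum h1).trans (le_of_eq ?_)
  have h4 : ∀ r, (NW G r : ℝ) = ∑ i ∈ range G, if (r + i).Prime then (1 : ℝ) else 0 := by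
    intro r
    unfold NW
    rw [card_filter]
    push_cast
    rfl
  simp_rw [h4, mul_sum, sum_filter]
  rw [sum_comm]
  apply sum_congr rfl
  intro r _
  apply sum_congr rfl
  intro i _
  split_ifs <;> simp

/-- Young's inequality, crudely -/
lemma young0 (j : ℕ) {a b : ℝ} (ha : 0 ≤ a) (hb : 0 ≤ b) : a ^ j * b ≤ a ^ (j + 1) + b ^ (j + 1) := by
  rcases le_total a b with h | h
  · calc a ^ j * b ≤ b ^ j * b := mul_le_mul_of_nonneg_right (pow_le_pow_left₀ ha h j) hb
      _ = b ^ (j + 1) := (pow_succ _ _).symm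
      _ ≤ a ^ (j + 1) + b ^ (j + 1) := by
          have : 0 ≤ a ^ (j + 1) := by positivity
          linarith
  · calc a ^ j * b ≤ a ^ j * a := mul_le_mul_of_nonneg_left h (by positivity)
      _ = a ^ (j + 1) := (pow_succ _ _).symm
      _ ≤ a ^ (j + 1) + b ^ (j + 1) := by
          have : 0 ≤ b ^ (j + 1) := by positivity
          linarith

/-- the point `r + τ` -/
def sh (τ : ℤ) (r : ℕ) : ℕ := ((r : ℤ) + τ).toNat

lemma shift_sum (τ : ℤ) (N M : ℕ) (hM : N + τ.natAbs ≤ M) (f : ℕ → ℝ) (hf : ∀ n, 0 ≤ f n) :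
    ∑ r ∈ (Icc 1 N).filter (fun r => τ.natAbs < r), f (sh τ r) ≤ ∑ n ∈ Icc 1 M, f n := by
  classical
  have hinj : Set.InjOn (sh τ) ((Icc 1 N).filter (fun r => τ.natAbs < r) : Set ℕ) := by
    intro a ha b hb hab
    rw [mem_coe, mem_filter] at ha hb
    unfold sh at hab
    omega
  rw [← sum_image (g := sh τ) (f := f) hinj]
  apply sum_le_sum_of_subset_of_nonneg
  · intro n hn
    rw [mem_image] at hn
    obtain ⟨r, hr, rfl⟩ := hn
    rw [mem_filter, mem_Icc] at hr
    rw [mem_Icc]
    unfold sh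
    omega
  · intro n _ _
    exact hf n

/-- **moments of the number of primes in windows at a given distance from a prime** -/
theorem mom_dis (j : ℕ) : ∃ C : ℝ, 0 < C ∧ ∀ A : ℝ, ∀ᶠ N : ℕ in atTop, ∀ (H : ℕ) (τ : ℤ), Rg A N H →
    (τ.natAbs : ℝ) ≤ Real.log N ^ A →
    ∑ p ∈ pr N, (NW H (sh τ p) : ℝ) ^ j ≤ C * (N / Real.log N) * (H / Real.log N) ^ j := by
  classical
  obtain ⟨C, hC, hmom⟩ := mom_NW j
  refine ⟨2 ^ (j + 3) * C + 2, by positivity, fun A => ?_⟩
  have t2 : Tendsto (fun N : ℕ => 2 * N) atTop atTop := tendsto_id.const_mul_atTop' (by norm_num)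
  filter_upwards [t2.eventually (hmom (max A 0 + 1)), hmom (max A 0 + 1), ev_log 2, ev_small (A + (j + 1 : ℕ)) 1 one_pos,
    ev_small A 1 one_pos, eventually_ge_atTop 2] with N h1 h1' h2 h3 h4 h5 H τ hR hτ
  set L := Real.log (N : ℝ) with hL
  have hL0 : 0 < L := by linarith
  have hN2 : (2 : ℝ) ≤ N := by exact_mod_cast h5
  have hN0 : (0 : ℝ) < N := by linarith
  have hH0 : (0 : ℝ) < H := lt_of_lt_of_le hL0 hR.1
  have hL2 : Real.log ((2 * N : ℕ) : ℝ) ≤ 2 * L := by
    push_cast
    rw [Real.log_mul (by norm_num) hN0.ne']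
    have : Real.log 2 ≤ L := Real.log_le_log (by norm_num) hN2
    linarith
  have hL2' : L ≤ Real.log ((2 * N : ℕ) : ℝ) := by
    apply Real.log_le_log hN0
    push_cast; linarith
  have hA : (H : ℝ) ≤ L ^ (max A 0) := hR.2.trans (Real.rpow_le_rpow_of_exponent_le (by linarith) (le_max_left _ _))
  have hHA : ((2 * H : ℕ) : ℝ) ≤ L ^ (max A 0 + 1) := by
    push_cast
    calc 2 * (H : ℝ) ≤ L * L ^ (max A 0) := mul_le_mul h2 hA hH0.le hL0.le
      _ = L ^ (max A 0 + 1) := by rw [Real.rpow_add hL0, Real.rpow_one]; ring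
  have hR2 : Rg (max A 0 + 1) (2 * N) (2 * H) := by
    constructor
    · refine hL2.trans ?_
      push_cast
      have := hR.1
      linarith
    · refine hHA.trans ?_
      exact Real.rpow_le_rpow hL0.le hL2' (by positivity)
  have hR1 : Rg (max A 0 + 1) N (2 * H) := by
    constructor
    · push_cast
      have := hR.1
      linarith
    · exact hHA
  have hm2 := h1 (2 * H) hR2
  have hm1 := h1' (2 * H) hR1
  have hτN : τ.natAbs ≤ N := by
    have : (τ.natAbs : ℝ) ≤ N := by
      have := hτ.trans h4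
      rwa [one_mul] at this
    exact_mod_cast this
  -- the main part
  set S := (pr N).filter (fun p => τ.natAbs + H < p) with hS
  set f : ℕ → ℝ := fun r => if τ.natAbs < r then (NW (2 * H) (sh τ r) : ℝ) ^ j else 0 with hf
  have hf0 : ∀ n, 0 ≤ f n := by
    intro n
    rw [hf]
    simp only
    split_ifs
    · positivity
    · exact le_rfl
  have hdc := dcount S N H (filter_subset _ _) (fun p hp => by
    have := (mem_filter.1 hp).2
    omega) f hf0
  have hlow : (H : ℝ) * ∑ p ∈ S, (NW H (sh τ p) : ℝ) ^ j ≤ ∑ p ∈ S, ∑ i ∈ range H, f (p - i) := by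
    rw [mul_sum]
    apply sum_le_sum
    intro p hp
    have hpS := (mem_filter.1 hp).2
    have h6 : ∀ i ∈ range H, (NW H (sh τ p) : ℝ) ^ j ≤ f (p - i) := by
      intro i hi
      rw [mem_range] at hi
      rw [hf]
      simp only
      rw [if_pos (by omega)]
      apply pow_le_pow_left₀ (Nat.cast_nonneg _)
      have : NW H (sh τ p) ≤ NW (2 * H) (sh τ (p - i)) := by
        apply NW_sub
        · unfold sh; omega
        · unfold sh; omega
      exact_mod_cast this
    have h7 := sum_le_sum h6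
    rw [sum_const, card_range, nsmul_eq_mul] at h7
    exact h7
  have hup : ∑ r ∈ Icc 1 N, f r * (NW H r : ℝ) ≤
      ∑ n ∈ Icc 1 (2 * N), (NW (2 * H) n : ℝ) ^ (j + 1) + ∑ n ∈ Icc 1 N, (NW (2 * H) n : ℝ) ^ (j + 1) := by
    have h8 := shift_sum τ N (2 * N) (by omega) (fun n => (NW (2 * H) n : ℝ) ^ (j + 1)) (fun n => by positivity)
    have h9 : ∑ r ∈ Icc 1 N, f r * (NW H r : ℝ) ≤
        ∑ r ∈ (Icc 1 N).filter (fun r => τ.natAbs < r), (NW (2 * H) (sh τ r) : ℝ) ^ (j + 1) +
        ∑ n ∈ Icc 1 N, (NW (2 * H) n : ℝ) ^ (j + 1) := by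
      rw [sum_filter, ← sum_add_distrib]
      apply sum_le_sum
      intro r _
      rw [hf]
      simp only
      have h10 : (NW H r : ℝ) ≤ (NW (2 * H) r : ℝ) := by
        exact_mod_cast NW_mono (by omega)
      split_ifs with h11
      · refine le_trans ?_ (young0 j (Nat.cast_nonneg _) (Nat.cast_nonneg _))
        exact mul_le_mul_of_nonneg_left h10 (by positivity)
      · rw [zero_mul, zero_add]
        positivity
    linarith
  have hbd2 : ∑ n ∈ Icc 1 (2 * N), (NW (2 * H) n : ℝ) ^ (j + 1) ≤ 2 ^ (j + 2) * C * (N * (H / L) ^ (j + 1)) := by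
    refine hm2.trans ?_
    have h12 : (((2 * H : ℕ) : ℝ) / Real.log ((2 * N : ℕ) : ℝ)) ^ (j + 1) ≤ (2 * (H / L)) ^ (j + 1) := by
      apply pow_le_pow_left₀
      · apply div_nonneg (Nat.cast_nonneg _)
        exact hL0.le.trans hL2'
      · push_cast at *
        rw [mul_div_assoc']
        exact div_le_div_of_nonneg_left (by positivity) hL0 hL2'
    calc C * ((2 * N : ℕ) : ℝ) * (((2 * H : ℕ) : ℝ) / Real.log ((2 * N : ℕ) : ℝ)) ^ (j + 1) ≤
        C * ((2 * N : ℕ) : ℝ) * (2 * (H / L)) ^ (j + 1) := mul_le_mul_of_nonneg_left h12 (by positivity)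
      _ = 2 ^ (j + 2) * C * (N * (H / L) ^ (j + 1)) := by rw [mul_pow]; push_cast; ring
  have hbd1 : ∑ n ∈ Icc 1 N, (NW (2 * H) n : ℝ) ^ (j + 1) ≤ 2 ^ (j + 1) * C * (N * (H / L) ^ (j + 1)) := by
    refine hm1.trans (le_of_eq ?_)
    push_cast
    rw [mul_div_assoc, mul_pow]
    ring
  have hmain : ∑ p ∈ S, (NW H (sh τ p) : ℝ) ^ j ≤ 2 ^ (j + 3) * C * (N / L) * (H / L) ^ j := by
    have h13 : (H : ℝ) * ∑ p ∈ S, (NW H (sh τ p) : ℝ) ^ j ≤
        H * (2 ^ (j + 3) * C * (N / L) * (H / L) ^ j) := by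
      have h14 : (2 : ℝ) ^ (j + 2) * C * (N * (H / L) ^ (j + 1)) + 2 ^ (j + 1) * C * (N * (H / L) ^ (j + 1)) ≤
          H * (2 ^ (j + 3) * C * (N / L) * (H / L) ^ j) := by
        have e : (H : ℝ) * (2 ^ (j + 3) * C * (N / L) * (H / L) ^ j) = 2 ^ (j + 3) * C * (N * (H / L) ^ (j + 1)) := by
          rw [pow_succ (H / L) j]; ring
        rw [e]
        have : (0 : ℝ) ≤ 2 ^ j * C * (N * (H / L) ^ (j + 1)) := by positivity
        have e1 : (2 : ℝ) ^ (j + 3) = 8 * 2 ^ j := by ring
        have e2 : (2 : ℝ) ^ (j + 2) = 4 * 2 ^ j := by ring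
        have e3 : (2 : ℝ) ^ (j + 1) = 2 * 2 ^ j := by ring
        rw [e1, e2, e3]
        linarith
      linarith
    exact le_of_mul_le_mul_left h13 hH0
  -- the small primes
  have hsm : ∑ p ∈ (pr N).filter (fun p => ¬ τ.natAbs + H < p), (NW H (sh τ p) : ℝ) ^ j ≤
      2 * (N / L) * (H / L) ^ j := by
    have h15 : ∀ p ∈ (pr N).filter (fun p => ¬ τ.natAbs + H < p), (NW H (sh τ p) : ℝ) ^ j ≤ (H : ℝ) ^ j := by
      intro p _
      apply pow_le_pow_left₀ (Nat.cast_nonneg _)
      exact_mod_cast NW_le _ _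
    have h16 := sum_le_sum h15
    rw [sum_const, nsmul_eq_mul] at h16
    have h17 : (((pr N).filter (fun p => ¬ τ.natAbs + H < p)).card : ℝ) ≤ 2 * L ^ A := by
      have h18 : (pr N).filter (fun p => ¬ τ.natAbs + H < p) ⊆ Icc 1 (τ.natAbs + H) := by
        intro p hp
        rw [mem_filter] at hp
        unfold pr at hp
        rw [mem_filter, mem_Icc] at hp
        rw [mem_Icc]
        omega
      have h19 := card_le_card h18
      rw [Nat.card_Icc, Nat.add_sub_cancel] at h19
      have h20 : (((pr N).filter (fun p => ¬ τ.natAbs + H < p)).card : ℝ) ≤ τ.natAbs + H := by exact_mod_cast h19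
      have := hR.2
      linarith
    refine h16.trans ((mul_le_mul_of_nonneg_right h17 (by positivity)).trans ?_)
    have e : L ^ (A + (j + 1 : ℕ)) = L ^ A * L ^ (j + 1) := by
      rw [Real.rpow_add hL0, Real.rpow_natCast]
    rw [e, one_mul] at h3
    calc 2 * L ^ A * (H : ℝ) ^ j = 2 * (L ^ A * L ^ (j + 1)) / L * (H / L) ^ j := by
          rw [div_pow, pow_succ]; field_simp
      _ ≤ 2 * N / L * (H / L) ^ j := by
          apply mul_le_mul_of_nonneg_right _ (by positivity)
          apply div_le_div_of_nonneg_right _ hL0.le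
          linarith
      _ = _ := by ring
  have hsplit := sum_filter_add_sum_filter_not (pr N) (fun p => τ.natAbs + H < p) (fun p => (NW H (sh τ p) : ℝ) ^ j)
  rw [← hsplit]
  have e : (2 ^ (j + 3) * C + 2) * (N / L) * (H / L) ^ j =
      2 ^ (j + 3) * C * (N / L) * (H / L) ^ j + 2 * (N / L) * (H / L) ^ j := by ring
  rw [e]
  exact add_le_add hmain hsm

open Classical in
/-- **few primes see too many primes in a window at a given distance** -/
theorem bad_dis (c : ℝ) (_hc : 0 ≤ c) (hc4 : c ≤ 4) (δ η' : ℝ) (hδ : 0 < δ) (hδ1 : δ ≤ 1) (hη' : 0 < η') :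
    ∃ η : ℝ, 0 < η ∧ ∀ A : ℝ, ∀ᶠ N : ℕ in atTop, ∀ (H : ℕ) (τ : ℤ), Rg A N H →
      (τ.natAbs : ℝ) ≤ Real.log N ^ A → AEp c δ η N (H + Gx δ H) →
      (((pr N).filter (fun p => (c + 3 * δ) * H / Real.log N < (NW H (sh τ p) : ℝ))).card : ℝ) ≤
        η' * (N / Real.log N) := by
  obtain ⟨C, hC, hmom⟩ := mom_NW 1
  refine ⟨(η' * δ / 40) ^ 2 / C, by positivity, fun A => ?_⟩
  filter_upwards [hmom (max A 0 + 1), ev_log (max 2 (10 / δ)), ev_small (A + 1) (η' / 8) (by positivity),
    eventually_ge_atTop 1] with N h1 h2 h4 h5 H τ hR hτ hAE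
  set L := Real.log (N : ℝ) with hL
  have hL2 : 2 ≤ L := (le_max_left _ _).trans h2
  have hLδ : 10 / δ ≤ L := (le_max_right _ _).trans h2
  have hL0 : 0 < L := by linarith
  have hN0 : (0 : ℝ) < N := by exact_mod_cast h5
  have hHL := hR.1
  have hH0 : (0 : ℝ) < H := lt_of_lt_of_le hL0 hR.1
  obtain ⟨G, hG⟩ : ∃ G : ℕ, G = Gx δ H := ⟨_, rfl⟩
  rw [← hG] at hAE
  have hG1 : (G : ℝ) ≤ δ / 5 * H := by rw [hG]; exact Nat.floor_le (by positivity)
  have hG2 : δ / 10 * H ≤ G := by
    have h6 : δ / 5 * H < G + 1 := by rw [hG]; exact Nat.lt_floor_add_one _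
    have h7 : 1 ≤ δ / 10 * H := by
      have : 10 / δ ≤ H := hLδ.trans hHL
      rw [div_le_iff₀ hδ] at this
      linarith
    linarith
  have hG0 : (0 : ℝ) < G := lt_of_lt_of_le (by positivity) hG2
  have hGH : (G : ℝ) ≤ H := by
    refine hG1.trans ?_
    calc δ / 5 * H ≤ 1 * H := mul_le_mul_of_nonneg_right (by linarith) hH0.le
      _ = H := one_mul _
  have hGHn : G ≤ H := by exact_mod_cast hGH
  -- the moment at `H + G`
  have hR' : Rg (max A 0 + 1) N (H + G) := by
    constructor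
    · push_cast; linarith
    · push_cast
      calc (H : ℝ) + G ≤ 2 * H := by linarith
        _ ≤ L * L ^ (max A 0) := by
            apply mul_le_mul hL2 _ hH0.le hL0.le
            exact hR.2.trans (Real.rpow_le_rpow_of_exponent_le (by linarith) (le_max_left _ _))
        _ = L ^ (max A 0 + 1) := by rw [Real.rpow_add hL0, Real.rpow_one]; ring
  have hm := h1 (H + G) hR'
  set Bd := (Icc 1 N).filter (fun n => (c + δ) * (H + G : ℕ) / L < (NW (H + G) n : ℝ)) with hBd
  have hBc := hAE Bd (filter_subset _ _) (fun n hn => (mem_filter.1 hn).2)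
  set Pb := (pr N).filter (fun p => (c + 3 * δ) * H / L < (NW H (sh τ p) : ℝ)) with hPb
  set Pc := Pb.filter (fun p => τ.natAbs + G < p ∧ p + τ.natAbs ≤ N) with hPc
  set f : ℕ → ℝ := fun r => if τ.natAbs < r ∧ r + τ.natAbs ≤ N ∧ sh τ r ∈ Bd then 1 else 0 with hf
  have hf0 : ∀ n, 0 ≤ f n := by
    intro n
    rw [hf]
    simp only
    split_ifs
    · exact zero_le_one
    · exact le_rfl
  have hPcS : Pc ⊆ pr N := (filter_subset _ _).trans (filter_subset _ _)
  have hdc := dcount Pc N G hPcS (fun p hp => by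
    have := (mem_filter.1 hp).2.1
    omega) f hf0
  have hlow : (G : ℝ) * Pc.card ≤ ∑ p ∈ Pc, ∑ i ∈ range G, f (p - i) := by
    have h6 : ∀ p ∈ Pc, (G : ℝ) ≤ ∑ i ∈ range G, f (p - i) := by
      intro p hp
      have hp1 := (mem_filter.1 hp).2
      have hp2 := (mem_filter.1 (mem_filter.1 hp).1).2
      have h7 : ∀ i ∈ range G, (1 : ℝ) ≤ f (p - i) := by
        intro i hi
        rw [mem_range] at hi
        rw [hf]
        simp only
        rw [if_pos]
        refine ⟨by omega, by omega, ?_⟩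
        rw [hBd, mem_filter, mem_Icc]
        refine ⟨by unfold sh; omega, ?_⟩
        have h8 : (NW H (sh τ p) : ℝ) ≤ (NW (H + G) (sh τ (p - i)) : ℝ) := by
          have : NW H (sh τ p) ≤ NW (H + G) (sh τ (p - i)) := by
            apply NW_sub
            · unfold sh; omega
            · unfold sh; omega
          exact_mod_cast this
        refine lt_of_lt_of_le (lt_of_le_of_lt ?_ hp2) h8
        apply div_le_div_of_nonneg_right _ hL0.le
        push_cast
        have h9 : (c + δ) * G ≤ 5 * (δ / 5 * H) := mul_le_mul (by linarith) hG1 hG0.le (by norm_num)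
        have h10 : 0 ≤ δ * H := by positivity
        nlinarith
      have h11 := sum_le_sum h7
      rw [sum_const, card_range, nsmul_eq_mul, mul_one] at h11
      exact h11
    have h12 := sum_le_sum h6
    rw [sum_const, nsmul_eq_mul, mul_comm] at h12
    exact h12
  -- Cauchy and Schwarz
  set R := (Icc 1 N).filter (fun r => τ.natAbs < r ∧ r + τ.natAbs ≤ N ∧ sh τ r ∈ Bd) with hRdef
  have hRc : (R.card : ℝ) ≤ (η' * δ / 40) ^ 2 / C * N := by
    refine le_trans ?_ hBc
    have : R.card ≤ Bd.card := by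
      apply card_le_card_of_injOn (sh τ)
      · intro r hr
        rw [mem_coe, hRdef, mem_filter] at hr
        exact hr.2.2.2
      · intro a ha b hb hab
        rw [mem_coe, hRdef, mem_filter] at ha hb
        unfold sh at hab
        omega
    exact_mod_cast this
  have hup : ∑ r ∈ Icc 1 N, f r * (NW G r : ℝ) ≤ ∑ n ∈ R, (NW (H + G) n : ℝ) := by
    rw [hRdef, sum_filter]
    apply sum_le_sum
    intro r _
    rw [hf]
    simp only
    split_ifs
    · rw [one_mul]
      exact_mod_cast NW_mono (by omega)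
    · rw [zero_mul]
  have hcs : ∑ n ∈ R, (NW (H + G) n : ℝ) ≤ (η' * δ / 40) * (N * (2 * (H / L))) := by
    have h8 : ∑ n ∈ R, (NW (H + G) n : ℝ) ^ 2 ≤ C * N * (2 * (H / L)) ^ 2 := by
      refine le_trans ?_ (hm.trans ?_)
      · apply sum_le_sum_of_subset_of_nonneg (filter_subset _ _)
        intro n _ _
        positivity
      · apply mul_le_mul_of_nonneg_left _ (by positivity)
        apply pow_le_pow_left₀ (by positivity)
        push_cast
        rw [mul_div_assoc']
        exact div_le_div_of_nonneg_right (by linarith) hL0.le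
    refine (cs_bad R _ hRc h8 (by positivity)).trans (le_of_eq ?_)
    have e : (η' * δ / 40) ^ 2 / C * N * (C * N * (2 * (H / L)) ^ 2) = ((η' * δ / 40) * (N * (2 * (H / L)))) ^ 2 := by
      field_simp
    rw [e]
    exact Real.sqrt_sq (by positivity)
  have hPc1 : (Pc.card : ℝ) ≤ η' / 2 * (N / L) := by
    have h9 : (δ / 10 * H) * Pc.card ≤ (η' * δ / 40) * (N * (2 * (H / L))) := by
      refine le_trans ?_ (hlow.trans (hdc.trans (hup.trans hcs)))
      exact mul_le_mul_of_nonneg_right hG2 (Nat.cast_nonneg _)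
    have h10 : (η' * δ / 40) * (N * (2 * (H / L))) = (δ / 10 * H) * (η' / 2 * (N / L)) := by ring
    rw [h10] at h9
    exact le_of_mul_le_mul_left h9 (by positivity)
  have hPb1 : (Pb.card : ℝ) ≤ (2 * τ.natAbs + G) + Pc.card := by
    have h11 : Pb ⊆ (Icc 1 (τ.natAbs + G) ∪ Ioc (N - τ.natAbs) N) ∪ Pc := by
      intro p hp
      rw [mem_union, mem_union, mem_Icc, mem_Ioc, hPc, mem_filter]
      have h12 : 1 ≤ p ∧ p ≤ N := by
        rw [hPb, mem_filter] at hp
        unfold pr at hp
        rw [mem_filter, mem_Icc] at hp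
        exact hp.1.1
      by_cases h13 : τ.natAbs + G < p ∧ p + τ.natAbs ≤ N
      · right; exact ⟨hp, h13⟩
      · left
        by_cases h14 : p ≤ τ.natAbs + G
        · left; omega
        · right; omega
    have h14 := (card_le_card h11).trans ((card_union_le _ _).trans (Nat.add_le_add_right (card_union_le _ _) _))
    rw [Nat.card_Icc, Nat.card_Ioc] at h14
    have h15 : Pb.card ≤ (2 * τ.natAbs + G) + Pc.card := by omega
    exact_mod_cast h15
  have hHs : 2 * (τ.natAbs : ℝ) + G ≤ η' / 2 * (N / L) := by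
    have e : L ^ (A + 1) = L ^ A * L := by rw [Real.rpow_add hL0, Real.rpow_one]
    rw [e] at h4
    have h16 : 2 * (τ.natAbs : ℝ) + G ≤ 3 * L ^ A := by
      have := hR.2
      linarith
    rw [mul_div_assoc', le_div_iff₀ hL0]
    have h17 := mul_le_mul_of_nonneg_right h16 hL0.le
    have : 0 ≤ η' * N := by positivity
    linarith
  linarith

end Pool.Agent.L0h43.TA
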