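import Pool.Agent.L0h43.TA.AeR

/-!
# The averages over short shifts against the averages of the singular series
-/

set_option autoImplicit false

namespace Pool.Agent.L0h43.TA

open Finset Filter Topology Pool.Agent.H387R2

/-- the singular series summed over the `(k + 1)`-element sets in a window -/
noncomputable def SW (k H : ℕ) : ℝ := ∑ T ∈ (range H).powersetCard (k + 1), Uni.CT T

/-- the singular series summed over the anchored sets -/
noncomputable def SA (k H : ℕ) : ℝ := ∑ D ∈ (Icc 2 H).powersetCard k, Uni.CT (insert 0 D)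

/-- the counts summed over the `(k + 1)`-element sets in a window -/
noncomputable def QW (k H N : ℕ) : ℝ := ∑ T ∈ (range H).powersetCard (k + 1), (cn N T : ℝ)

/-- the counts summed over the anchored sets -/
noncomputable def QA (k H N : ℕ) : ℝ := ∑ D ∈ (Icc 2 H).powersetCard k, (cn N (insert 0 D) : ℝ)

lemma SW_nonneg (k H : ℕ) : 0 ≤ SW k H := sum_nonneg fun _ _ => Uni.CT_nonneg _
lemma SA_nonneg (k H : ℕ) : 0 ≤ SA k H := sum_nonneg fun _ _ => Uni.CT_nonneg _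
lemma QW_nonneg (k H N : ℕ) : 0 ≤ QW k H N := sum_nonneg fun _ _ => Nat.cast_nonneg _
lemma QA_nonneg (k H N : ℕ) : 0 ≤ QA k H N := sum_nonneg fun _ _ => Nat.cast_nonneg _

lemma choose_sum_le (s : Finset ℕ) (f : ℕ → ℕ) (j : ℕ) :
    ((∑ n ∈ s, (f n).choose j : ℕ) : ℝ) ≤ (∑ n ∈ s, (f n : ℝ) ^ j) / (j.factorial : ℝ) := by
  push_cast
  rw [sum_div]
  apply sum_le_sum
  intro n _
  exact Nat.choose_le_pow_div (α := ℝ) j (f n)

/-- **windows, upper bound** -/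
theorem fin_win_up (c : ℝ) (hc : 0 ≤ c) (k : ℕ) (ε : ℝ) (hε : 0 < ε) : ∃ δ η : ℝ, 0 < δ ∧ 0 < η ∧ ∀ A : ℝ,
    ∀ᶠ N : ℕ in atTop, ∀ H : ℕ, Rg A N H → AEp c δ η N H →
      QW k H N ≤ (c ^ k + ε) * (SW k H * (N / Real.log N ^ (k + 1))) := by
  have hck : 0 ≤ c ^ k := by positivity
  obtain ⟨e, he⟩ : ∃ e : ℝ, e = ε / (1 + c ^ k + ε) := ⟨_, rfl⟩
  have hden : 0 < 1 + c ^ k + ε := by positivity
  have he0 : 0 < e := by rw [he]; positivity
  have heq : c ^ k + e = (c ^ k + ε) * (1 - e) := by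
    rw [he]; field_simp; ring
  obtain ⟨δ, η, hδ, hη, h⟩ := win_up c hc k e he0
  obtain ⟨D₀, hD₀⟩ := win_lo (k + 1) e he0
  refine ⟨δ, η, hδ, hη, fun A => ?_⟩
  filter_upwards [h A, ev_log (max 1 D₀), eventually_ge_atTop 1] with N h1 h2 h3 H hR hAE
  set L := Real.log (N : ℝ) with hL
  have hL0 : 0 < L := by
    have := (le_max_left (1 : ℝ) (D₀ : ℝ)).trans h2
    linarith
  have hN0 : (0 : ℝ) < N := by exact_mod_cast h3
  have hDH : D₀ ≤ H := by
    have : (D₀ : ℝ) ≤ H := ((le_max_right (1 : ℝ) (D₀ : ℝ)).trans h2).trans hR.1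
    exact_mod_cast this
  have h4 := h1 H hR hAE
  have h5 := hD₀ H hDH
  have hfac : (0 : ℝ) < (k + 1).factorial := by exact_mod_cast (k + 1).factorial_pos
  have h6 : QW k H N ≤ (∑ n ∈ Icc 1 N, (NW H n : ℝ) ^ (k + 1)) / ((k + 1).factorial : ℝ) := by
    refine le_trans (le_of_eq ?_) (choose_sum_le (Icc 1 N) (NW H) (k + 1))
    rw [sum_NW]
    unfold QW
    push_cast
    rfl
  refine h6.trans ?_
  rw [div_le_iff₀ hfac]
  refine h4.trans ?_
  rw [heq]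
  have h7 : (1 - e) * (H : ℝ) ^ (k + 1) * (N / L ^ (k + 1)) ≤ ((k + 1).factorial * SW k H) * (N / L ^ (k + 1)) :=
    mul_le_mul_of_nonneg_right h5 (by positivity)
  calc (c ^ k + ε) * (1 - e) * (N * (H / L) ^ (k + 1)) =
      (c ^ k + ε) * ((1 - e) * (H : ℝ) ^ (k + 1) * (N / L ^ (k + 1))) := by rw [div_pow]; ring
    _ ≤ (c ^ k + ε) * (((k + 1).factorial * SW k H) * (N / L ^ (k + 1))) :=
        mul_le_mul_of_nonneg_left h7 (by positivity)
    _ = _ := by ring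

/-- **anchored sets, upper bound** -/
theorem fin_anc_up (c : ℝ) (hc : 0 ≤ c) (hc4 : c ≤ 4) (k : ℕ) (hk : 1 ≤ k) (ε : ℝ) (hε : 0 < ε) :
    ∃ δ η : ℝ, 0 < δ ∧ 0 < η ∧ ∀ A : ℝ,
    ∀ᶠ N : ℕ in atTop, ∀ H : ℕ, Rg A N H → AEp c δ η N (H + Gx δ H) →
      QA k H N ≤ (c ^ k + ε) * (SA k H * (N / Real.log N ^ (k + 1))) := by
  have hck : 0 ≤ c ^ k := by positivity
  obtain ⟨e, he⟩ : ∃ e : ℝ, e = ε / (1 + c ^ k + ε) := ⟨_, rfl⟩
  have hden : 0 < 1 + c ^ k + ε := by positivity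
  have he0 : 0 < e := by rw [he]; positivity
  have heq : c ^ k + e = (c ^ k + ε) * (1 - e) := by
    rw [he]; field_simp; ring
  obtain ⟨δ, η, hδ, hη, h⟩ := anc_up c hc hc4 k hk e he0
  obtain ⟨D₀, hD₀⟩ := anch_lo k e he0
  refine ⟨δ, η, hδ, hη, fun A => ?_⟩
  filter_upwards [h A, ev_log (max 1 D₀), eventually_ge_atTop 1] with N h1 h2 h3 H hR hAE
  set L := Real.log (N : ℝ) with hL
  have hL0 : 0 < L := by
    have := (le_max_left (1 : ℝ) (D₀ : ℝ)).trans h2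
    linarith
  have hN0 : (0 : ℝ) < N := by exact_mod_cast h3
  have hDH : D₀ ≤ H := by
    have : (D₀ : ℝ) ≤ H := ((le_max_right (1 : ℝ) (D₀ : ℝ)).trans h2).trans hR.1
    exact_mod_cast this
  have h4 := h1 H hR hAE
  have h5 := hD₀ H hDH
  have hfac : (0 : ℝ) < k.factorial := by exact_mod_cast k.factorial_pos
  have h6 : QA k H N ≤ (∑ p ∈ pr N, (QH H p : ℝ) ^ k) / (k.factorial : ℝ) := by
    refine le_trans (le_of_eq ?_) (choose_sum_le (pr N) (QH H) k)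
    rw [sum_QH]
    unfold QA
    push_cast
    rfl
  refine h6.trans ?_
  rw [div_le_iff₀ hfac]
  refine h4.trans ?_
  rw [heq]
  have h7 : (1 - e) * (H : ℝ) ^ k * (N / L ^ (k + 1)) ≤ (k.factorial * SA k H) * (N / L ^ (k + 1)) :=
    mul_le_mul_of_nonneg_right h5 (by positivity)
  calc (c ^ k + ε) * (1 - e) * ((N / L) * (H / L) ^ k) =
      (c ^ k + ε) * ((1 - e) * (H : ℝ) ^ k * (N / L ^ (k + 1))) := by
        rw [div_pow, pow_succ L k]; field_simp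
    _ ≤ (c ^ k + ε) * ((k.factorial * SA k H) * (N / L ^ (k + 1))) :=
        mul_le_mul_of_nonneg_left h7 (by positivity)
    _ = _ := by ring

lemma SW_up (k : ℕ) (e : ℝ) (he : 0 < e) : ∃ D₀ : ℕ, ∀ H : ℕ, D₀ ≤ H →
    (k + 1).factorial * SW k H ≤ (1 + e) * (H : ℝ) ^ (k + 1) := by
  obtain ⟨C, hC, h⟩ := Pool.Agent.TH891.SG.CT_avg k
  have tH : Tendsto (fun H : ℕ => (H : ℝ) ^ (3 / 4 : ℝ)) atTop atTop :=
    (tendsto_rpow_atTop (by norm_num)).comp tendsto_natCast_atTop_atTop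
  have t1 : Tendsto (fun H : ℕ => (1 + C / (H : ℝ) ^ (3 / 4 : ℝ)) ^ k) atTop (𝓝 ((1 + 0) ^ k)) := by
    apply Tendsto.pow
    apply Tendsto.const_add
    exact tH.const_div_atTop C
  have h1 : ((1 + 0) ^ k : ℝ) < 1 + e := by simp; exact he
  have hev := t1.eventually_lt_const h1
  rw [← eventually_atTop]
  filter_upwards [hev, eventually_ge_atTop 1] with H h2 h3
  have hH0 : (0 : ℝ) < H := by exact_mod_cast h3
  have h4 := h H h3
  have hfac : (0 : ℝ) < (k + 1).factorial := by exact_mod_cast (k + 1).factorial_pos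
  rw [le_div_iff₀ hfac] at h4
  unfold SW
  have e1 : (H : ℝ) ^ (1 / 4 : ℝ) = H / (H : ℝ) ^ (3 / 4 : ℝ) := by
    rw [eq_div_iff (by positivity), ← Real.rpow_add hH0]
    norm_num
  have e2 : (H : ℝ) + C * (H : ℝ) ^ (1 / 4 : ℝ) = H * (1 + C / (H : ℝ) ^ (3 / 4 : ℝ)) := by
    rw [e1]; ring
  rw [e2, mul_pow] at h4
  calc ((k + 1).factorial : ℝ) * ∑ T ∈ (range H).powersetCard (k + 1), Uni.CT T =
      (∑ T ∈ (range H).powersetCard (k + 1), Uni.CT T) * (k + 1).factorial := mul_comm _ _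
    _ ≤ H * ((H : ℝ) ^ k * (1 + C / (H : ℝ) ^ (3 / 4 : ℝ)) ^ k) := h4
    _ = (1 + C / (H : ℝ) ^ (3 / 4 : ℝ)) ^ k * (H : ℝ) ^ (k + 1) := by rw [pow_succ]; ring
    _ ≤ (1 + e) * (H : ℝ) ^ (k + 1) := mul_le_mul_of_nonneg_right h2.le (by positivity)

lemma SA_up (k : ℕ) (e : ℝ) (he : 0 < e) : ∃ D₀ : ℕ, ∀ H : ℕ, D₀ ≤ H →
    k.factorial * SA k H ≤ (1 + e) * (H : ℝ) ^ k := by
  obtain ⟨D₀, h⟩ := anch_up k e he
  refine ⟨D₀, fun H hH => le_trans ?_ (h H hH)⟩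
  apply mul_le_mul_of_nonneg_left _ (Nat.cast_nonneg _)
  unfold SA
  apply sum_le_sum_of_subset_of_nonneg
  · apply powersetCard_mono
    exact Icc_subset_Icc_left (by norm_num)
  · intro D _ _
    exact Uni.CT_nonneg _

/-- the error of the passage from `piT` to the counts -/
lemma QW_ge (k H N : ℕ) : (∑ T ∈ (range H).powersetCard (k + 1), (Uni.piT T N : ℝ)) ≤
    QW k H N + (H : ℝ) ^ (k + 1) * H := by
  unfold QW
  have h1 : ∑ T ∈ (range H).powersetCard (k + 1), (Uni.piT T N : ℝ) ≤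
      ∑ T ∈ (range H).powersetCard (k + 1), ((cn N T : ℝ) + H) := by
    apply sum_le_sum
    intro T hT
    rw [mem_powersetCard] at hT
    have := piT_le_cn (N := N) (H := H) hT.2 (fun t ht => (mem_range.1 (hT.1 ht)).le)
    exact_mod_cast this
  rw [sum_add_distrib, sum_const, nsmul_eq_mul] at h1
  refine h1.trans ?_
  have h2 := card_pow_le (range H) (k + 1)
  rw [card_range] at h2
  have h3 := mul_le_mul_of_nonneg_right h2 (Nat.cast_nonneg (α := ℝ) H)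
  linarith

/-- **windows, lower bound** -/
theorem fin_win_lo (k : ℕ) (ε : ℝ) (hε : 0 < ε) : ∃ K : ℝ, 1 ≤ K ∧ ∀ A : ℝ, ∀ᶠ N : ℕ in atTop,
    ∀ H : ℕ, K * Real.log N ≤ H → (H : ℝ) ≤ Real.log N ^ A →
      (1 - ε) * (SW k H * (N / Real.log N ^ (k + 1))) ≤ QW k H N := by
  rcases le_or_gt 1 ε with hε1 | hε1
  · refine ⟨1, le_rfl, fun A => ?_⟩
    filter_upwards [ev_log 0, eventually_ge_atTop 1] with N h1 h2 H _ _
    have h3 : 0 ≤ SW k H * (N / Real.log N ^ (k + 1)) := by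
      have := SW_nonneg k H
      positivity
    refine le_trans ?_ (QW_nonneg k H N)
    exact mul_nonpos_of_nonpos_of_nonneg (by linarith) h3
  set e : ℝ := ε / 3 with he
  have he0 : 0 < e := by positivity
  obtain ⟨K, hK1, hK⟩ := piT_low k e he0 (by linarith)
  obtain ⟨D₀, hD₀⟩ := SW_up k e he0
  have hfac : (0 : ℝ) < (k + 1).factorial := by exact_mod_cast (k + 1).factorial_pos
  refine ⟨K, hK1, fun A => ?_⟩
  filter_upwards [hK A, ev_log (max 1 D₀), ev_small (A + (k + 1 : ℕ)) (e / (k + 1).factorial) (by positivity),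
    eventually_ge_atTop 1] with N h1 h2 h3 h4 H hH1 hH2
  set L := Real.log (N : ℝ) with hL
  have hL1 : 1 ≤ L := (le_max_left (1 : ℝ) (D₀ : ℝ)).trans h2
  have hL0 : 0 < L := by linarith
  have hN0 : (0 : ℝ) < N := by exact_mod_cast h4
  have hLH : L ≤ H := (le_mul_of_one_le_left hL0.le hK1).trans hH1
  have hH0 : (0 : ℝ) < H := by linarith
  have hDH : D₀ ≤ H := by
    have : (D₀ : ℝ) ≤ H := ((le_max_right (1 : ℝ) (D₀ : ℝ)).trans h2).trans hLH
    exact_mod_cast this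
  have h5 := h1 H hH1 hH2
  have h6 := hD₀ H hDH
  have h7 := QW_ge k H N
  have h8 : ((k + 1).factorial : ℝ) * ((H : ℝ) ^ (k + 1) * H) ≤ e * (N * (H / L) ^ (k + 1)) := by
    have e1 : L ^ (A + (k + 1 : ℕ)) = L ^ A * L ^ (k + 1) := by
      rw [Real.rpow_add hL0, Real.rpow_natCast]
    rw [e1] at h3
    have h9 : (H : ℝ) * L ^ (k + 1) ≤ e / (k + 1).factorial * N :=
      (mul_le_mul_of_nonneg_right hH2 (by positivity)).trans h3
    calc ((k + 1).factorial : ℝ) * ((H : ℝ) ^ (k + 1) * H) =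
        ((k + 1).factorial : ℝ) * (H / L) ^ (k + 1) * (H * L ^ (k + 1)) := by
          rw [div_pow]; field_simp
      _ ≤ ((k + 1).factorial : ℝ) * (H / L) ^ (k + 1) * (e / (k + 1).factorial * N) :=
          mul_le_mul_of_nonneg_left h9 (by positivity)
      _ = _ := by field_simp
  have h10 : (1 - 2 * e) * (N * (H / L) ^ (k + 1)) ≤ (k + 1).factorial * QW k H N := by
    have h11 := mul_le_mul_of_nonneg_left h7 hfac.le
    rw [mul_add] at h11
    linarith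
  have hq : 0 ≤ (N : ℝ) * (H / L) ^ (k + 1) := by positivity
  have h12 : (1 - 3 * e) * (1 + e) * (N * (H / L) ^ (k + 1)) ≤ (1 - 2 * e) * (N * (H / L) ^ (k + 1)) := by
    apply mul_le_mul_of_nonneg_right _ hq
    nlinarith
  have h13 : (k + 1).factorial * ((1 - ε) * (SW k H * (N / L ^ (k + 1)))) ≤
      (1 - 3 * e) * (1 + e) * (N * (H / L) ^ (k + 1)) := by
    have e3 : 1 - ε = 1 - 3 * e := by rw [he]; ring
    have h14 : 0 ≤ 1 - 3 * e := by rw [← e3]; linarith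
    have h15 := mul_le_mul_of_nonneg_left (mul_le_mul_of_nonneg_right h6
      (by positivity : (0 : ℝ) ≤ N / L ^ (k + 1))) h14
    rw [e3]
    calc (k + 1).factorial * ((1 - 3 * e) * (SW k H * (N / L ^ (k + 1)))) =
        (1 - 3 * e) * ((k + 1).factorial * SW k H * (N / L ^ (k + 1))) := by ring
      _ ≤ _ := h15
      _ = _ := by rw [div_pow]; ring
  exact le_of_mul_le_mul_left ((h13.trans h12).trans h10) hfac

/-- **anchored sets, lower bound** -/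
theorem fin_anc_lo (k : ℕ) (ε : ℝ) (hε : 0 < ε) : ∃ K : ℝ, 1 ≤ K ∧ ∀ A : ℝ, ∀ᶠ N : ℕ in atTop,
    ∀ H : ℕ, K * Real.log N ≤ H → (H : ℝ) ≤ Real.log N ^ A →
      (1 / ((k : ℝ) + 1) - ε) * (SA k H * (N / Real.log N ^ (k + 1))) ≤ QA k H N := by
  have hk1 : (0 : ℝ) < (k : ℝ) + 1 := by positivity
  rcases le_or_gt (1 / ((k : ℝ) + 1)) ε with hε1 | hε1
  · refine ⟨1, le_rfl, fun A => ?_⟩
    filter_upwards [ev_log 0, eventually_ge_atTop 1] with N h1 h2 H _ _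
    have h3 : 0 ≤ SA k H * (N / Real.log N ^ (k + 1)) := by
      have := SA_nonneg k H
      positivity
    refine le_trans ?_ (QA_nonneg k H N)
    exact mul_nonpos_of_nonpos_of_nonneg (by linarith) h3
  have hk1' : 1 / ((k : ℝ) + 1) ≤ 1 := by
    rw [div_le_one hk1]
    have : (0 : ℝ) ≤ k := Nat.cast_nonneg k
    linarith
  set e : ℝ := ε / 2 with he
  have he0 : 0 < e := by positivity
  obtain ⟨K, hK1, hK⟩ := piT_low k e he0 (by linarith)
  obtain ⟨D₀, hD₀⟩ := SA_up k e he0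
  have hfac : (0 : ℝ) < (k + 1).factorial := by exact_mod_cast (k + 1).factorial_pos
  have hfac' : (0 : ℝ) < k.factorial := by exact_mod_cast k.factorial_pos
  refine ⟨K, hK1, fun A => ?_⟩
  filter_upwards [hK A, ev_log (max 1 D₀), eventually_ge_atTop 1] with N h1 h2 h4 H hH1 hH2
  set L := Real.log (N : ℝ) with hL
  have hL1 : 1 ≤ L := (le_max_left (1 : ℝ) (D₀ : ℝ)).trans h2
  have hL0 : 0 < L := by linarith
  have hN0 : (0 : ℝ) < N := by exact_mod_cast h4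
  have hLH : L ≤ H := (le_mul_of_one_le_left hL0.le hK1).trans hH1
  have hH0 : (0 : ℝ) < H := by linarith
  have hDH : D₀ ≤ H := by
    have : (D₀ : ℝ) ≤ H := ((le_max_right (1 : ℝ) (D₀ : ℝ)).trans h2).trans hLH
    exact_mod_cast this
  have h5 := h1 H hH1 hH2
  have h6 := hD₀ H hDH
  have h7 : (∑ T ∈ (range H).powersetCard (k + 1), (Uni.piT T N : ℝ)) ≤ H * QA k H N := by
    have := piT_sum_le k N H
    unfold QA
    exact_mod_cast this
  have hq : 0 ≤ (N / L : ℝ) * (H / L) ^ k := by positivity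
  -- `(1 - e) (N / L) (H / L)^k ≤ (k + 1)! QA`
  have h8 : (1 - e) * ((N / L) * (H / L) ^ k) ≤ (k + 1).factorial * QA k H N := by
    have h9 := h5.trans (mul_le_mul_of_nonneg_left h7 hfac.le)
    have e4 : (1 - e) * (N * (H / L) ^ (k + 1)) = H * ((1 - e) * ((N / L) * (H / L) ^ k)) := by
      rw [pow_succ]; ring
    have e5 : ((k + 1).factorial : ℝ) * (H * QA k H N) = H * ((k + 1).factorial * QA k H N) := by ring
    rw [e4, e5] at h9
    exact le_of_mul_le_mul_left h9 hH0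
  have e6 : ((k + 1).factorial : ℝ) = ((k : ℝ) + 1) * k.factorial := by
    rw [Nat.factorial_succ]; push_cast; ring
  have h10 : (1 / ((k : ℝ) + 1)) * ((1 - e) * ((N / L) * (H / L) ^ k)) ≤ k.factorial * QA k H N := by
    rw [e6, mul_assoc] at h8
    calc (1 / ((k : ℝ) + 1)) * ((1 - e) * ((N / L) * (H / L) ^ k)) ≤
        (1 / ((k : ℝ) + 1)) * (((k : ℝ) + 1) * (k.factorial * QA k H N)) :=
          mul_le_mul_of_nonneg_left h8 (by positivity)
      _ = _ := by field_simp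
  have h11 : (1 / ((k : ℝ) + 1) - ε) * (1 + e) ≤ (1 / ((k : ℝ) + 1)) * (1 - e) := by
    have h12 : (1 / ((k : ℝ) + 1)) * (2 * e) ≤ ε := by
      calc (1 / ((k : ℝ) + 1)) * (2 * e) ≤ 1 * (2 * e) := mul_le_mul_of_nonneg_right hk1' (by positivity)
        _ = ε := by rw [he]; ring
    have h13 : 0 ≤ ε * e := by positivity
    linarith
  have h14 := mul_le_mul_of_nonneg_right h11 hq
  have h15 : k.factorial * ((1 / ((k : ℝ) + 1) - ε) * (SA k H * (N / L ^ (k + 1)))) ≤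
      (1 / ((k : ℝ) + 1) - ε) * (1 + e) * ((N / L) * (H / L) ^ k) := by
    have h16 : 0 ≤ 1 / ((k : ℝ) + 1) - ε := by linarith
    have h17 := mul_le_mul_of_nonneg_left (mul_le_mul_of_nonneg_right h6
      (by positivity : (0 : ℝ) ≤ N / L ^ (k + 1))) h16
    calc k.factorial * ((1 / ((k : ℝ) + 1) - ε) * (SA k H * (N / L ^ (k + 1)))) =
        (1 / ((k : ℝ) + 1) - ε) * (k.factorial * SA k H * (N / L ^ (k + 1))) := by ring
      _ ≤ _ := h17
      _ = _ := by rw [div_pow, pow_succ L k]; field_simp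
  refine le_of_mul_le_mul_left (h15.trans (h14.trans ?_)) hfac'
  rw [mul_assoc]
  exact h10

/-! ### Both regimes -/

lemma rg_add {A δ : ℝ} (hδ : 0 < δ) : ∀ᶠ N : ℕ in atTop, ∀ H : ℕ, (H : ℝ) ≤ Real.log N ^ A →
    ((H + Gx δ H : ℕ) : ℝ) ≤ Real.log N ^ (A + 1) := by
  filter_upwards [ev_log (max 1 (1 + δ))] with N h1 H hH
  have hL0 : 0 < Real.log (N : ℝ) := by
    have := (le_max_left (1 : ℝ) (1 + δ)).trans h1
    linarith
  have h2 := Gx_le hδ.le H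
  have hH0 : (0 : ℝ) ≤ H := Nat.cast_nonneg _
  push_cast
  calc (H : ℝ) + Gx δ H ≤ (1 + δ) * H := by linarith
    _ ≤ Real.log N * Real.log N ^ A :=
        mul_le_mul ((le_max_right _ _).trans h1) hH hH0 hL0.le
    _ = Real.log N ^ (A + 1) := by rw [Real.rpow_add hL0, Real.rpow_one, mul_comm]

/-- **all scales `K log N ≤ H ≤ (log N)^A`** -/
theorem all_scales (k : ℕ) (hk : 1 ≤ k) (ε : ℝ) (hε : 0 < ε) : ∃ K : ℝ, 1 ≤ K ∧ ∀ A : ℝ,
    ∀ᶠ N : ℕ in atTop, ∀ H : ℕ, K * Real.log N ≤ H → (H : ℝ) ≤ Real.log N ^ A →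
      (1 - ε) * (SW k H * (N / Real.log N ^ (k + 1))) ≤ QW k H N ∧
      QW k H N ≤ (4 ^ k + ε) * (SW k H * (N / Real.log N ^ (k + 1))) ∧
      (1 / ((k : ℝ) + 1) - ε) * (SA k H * (N / Real.log N ^ (k + 1))) ≤ QA k H N ∧
      QA k H N ≤ (4 ^ k + ε) * (SA k H * (N / Real.log N ^ (k + 1))) := by
  obtain ⟨K₁, hK₁, hw⟩ := fin_win_lo k ε hε
  obtain ⟨K₂, hK₂, ha⟩ := fin_anc_lo k ε hε
  obtain ⟨δ₁, η₁, hδ₁, hη₁, hwu⟩ := fin_win_up 4 (by norm_num) k ε hε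
  obtain ⟨δ₂, η₂, hδ₂, hη₂, hau⟩ := fin_anc_up 4 (by norm_num) le_rfl k hk ε hε
  obtain ⟨K₃, hK₃, hae⟩ := aeK δ₁ η₁ hδ₁ hη₁
  obtain ⟨K₄, hK₄, hae'⟩ := aeK δ₂ η₂ hδ₂ hη₂
  have hK : 1 ≤ K₁ + K₂ + K₃ + K₄ := by linarith
  refine ⟨K₁ + K₂ + K₃ + K₄, hK, fun A => ?_⟩
  filter_upwards [hw A, ha A, hwu A, hau A, hae A, hae' (A + 1), rg_add (A := A) hδ₂, ev_log 1]
    with N h1 h2 h3 h4 h5 h6 h7 h8 H hH1 hH2
  have hL0 : 0 < Real.log (N : ℝ) := by linarith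
  have g : ∀ c : ℝ, c ≤ K₁ + K₂ + K₃ + K₄ → c * Real.log N ≤ H := fun c hc =>
    (mul_le_mul_of_nonneg_right hc hL0.le).trans hH1
  have hR : Rg A N H := ⟨by have := g 1 hK; rwa [one_mul] at this, hH2⟩
  refine ⟨h1 H (g _ (by linarith)) hH2, h3 H hR (h5 H (g _ (by linarith)) hH2),
    h2 H (g _ (by linarith)) hH2, h4 H hR (h6 _ ?_ (h7 H hH2))⟩
  refine (g K₄ (by linarith)).trans ?_
  push_cast
  have : (0 : ℝ) ≤ Gx δ₂ H := Nat.cast_nonneg _
  linarith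

/-- **the scales `(log N)^β ≤ H ≤ (log N)^A`, `β > 20`** -/
theorem big_scales (k : ℕ) (hk : 1 ≤ k) (ε : ℝ) (hε : 0 < ε) (β : ℝ) (hβ : 20 < β) (A : ℝ) :
    ∀ᶠ N : ℕ in atTop, ∀ H : ℕ, Real.log N ^ β ≤ H → (H : ℝ) ≤ Real.log N ^ A →
      QW k H N ≤ ((18 / 5) ^ k + ε) * (SW k H * (N / Real.log N ^ (k + 1))) ∧
      QA k H N ≤ ((18 / 5) ^ k + ε) * (SA k H * (N / Real.log N ^ (k + 1))) := by
  obtain ⟨δ₁, η₁, hδ₁, hη₁, hwu⟩ := fin_win_up (18 / 5) (by norm_num) k ε hε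
  obtain ⟨δ₂, η₂, hδ₂, hη₂, hau⟩ := fin_anc_up (18 / 5) (by norm_num) (by norm_num) k hk ε hε
  filter_upwards [hwu A, hau A, aeR δ₁ η₁ hδ₁ hη₁ β hβ A, aeR δ₂ η₂ hδ₂ hη₂ β hβ (A + 1),
    rg_add (A := A) hδ₂, ev_log 1] with N h3 h4 h5 h6 h7 h8 H hH1 hH2
  have hL0 : 0 < Real.log (N : ℝ) := by linarith
  have hR : Rg A N H := by
    refine ⟨?_, hH2⟩
    calc Real.log (N : ℝ) = Real.log (N : ℝ) ^ (1 : ℝ) := (Real.rpow_one _).symm
      _ ≤ Real.log (N : ℝ) ^ β := Real.rpow_le_rpow_of_exponent_le h8 (by linarith)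
      _ ≤ H := hH1
  refine ⟨h3 H hR (h5 H hH1 hH2), h4 H hR (h6 _ ?_ (h7 H hH2))⟩
  refine hH1.trans ?_
  push_cast
  have : (0 : ℝ) ≤ Gx δ₂ H := Nat.cast_nonneg _
  linarith

end Pool.Agent.L0h43.TA
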