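import Pool.Agent.Helper22K9.Trp.Gall

/-!
# Averages of the singular series over anchored sets `{0} ∪ D`
-/

set_option autoImplicit false

namespace Pool.Agent.L0h43.TA

open Finset Filter Topology Pool.Agent.H387R2 Pool.Agent.H386R2.HL

/-- anchored double counting -/
lemma anchored_sum (W : ℕ) (A : Finset ℕ) (j : ℕ) :
    ∑ D ∈ A.powersetCard j, (Uni.gT W (insert 0 D) : ℝ) =
      ∑ ν ∈ (range W).filter (fun ν => Nat.Coprime W ν),
        (((A.filter (fun a => Nat.Coprime W (ν + a))).card.choose j : ℕ) : ℝ) := by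
  classical
  have h := Uni.sum_choose ((range W).filter (fun ν => Nat.Coprime W ν)) A j
    (fun ν a => Nat.Coprime W (ν + a))
  have h2 : ∀ D ∈ A.powersetCard j, Uni.gT W (insert 0 D) =
      (((range W).filter (fun ν => Nat.Coprime W ν)).filter
        (fun ν => ∀ t ∈ D, Nat.Coprime W (ν + t))).card := by
    intro D _
    unfold Uni.gT
    congr 1
    ext m
    simp only [mem_filter, mem_range, mem_insert, forall_eq_or_imp, add_zero]
    tauto
  rw [sum_congr rfl (fun D hD => by rw [h2 D hD])]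
  exact_mod_cast h.symm

lemma card_coprime (W : ℕ) : ((range W).filter (fun ν => Nat.Coprime W ν)).card = Nat.totient W := by
  rw [Nat.totient_eq_card_coprime]

lemma cop_ge (W n q : ℕ) (_hW : 0 < W) :
    Nat.totient W * q ≤ ((Ico n (n + W * q)).filter (fun x => Nat.Coprime W x)).card := by
  induction q with
  | zero => simp
  | succ q ih =>
    have h1 : (Ico n (n + W * (q + 1))).filter (fun x => Nat.Coprime W x) =
        (Ico n (n + W * q)).filter (fun x => Nat.Coprime W x) ∪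
          (Ico (n + W * q) (n + W * q + W)).filter (fun x => Nat.Coprime W x) := by
      rw [← filter_union, Ico_union_Ico_eq_Ico (by omega) (by omega)]
      congr 2
      ring
    have h2 : Disjoint ((Ico n (n + W * q)).filter (fun x => Nat.Coprime W x))
        ((Ico (n + W * q) (n + W * q + W)).filter (fun x => Nat.Coprime W x)) := by
      apply disjoint_filter_filter
      exact Ico_disjoint_Ico_consecutive _ _ _
    rw [h1, card_union_of_disjoint h2, Nat.filter_coprime_Ico_eq_totient]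
    rw [mul_add, mul_one]
    omega

/-- lower bound for the number of coprime shifts in an interval -/
lemma cop_low (W ν u h : ℕ) (hW : 0 < W) : (Nat.totient W : ℝ) * (h / W - 1) ≤
    (((Ioc u (u + h)).filter (fun a => Nat.Coprime W (ν + a))).card : ℝ) := by
  have h1 := cop_ge W (ν + u + 1) (h / W) hW
  have h2 : ((Ico (ν + u + 1) (ν + u + 1 + W * (h / W))).filter (fun x => Nat.Coprime W x)).card ≤
      ((Ioc u (u + h)).filter (fun a => Nat.Coprime W (ν + a))).card := by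
    apply card_le_card_of_injOn (fun x => x - ν)
    · intro x hx
      rw [mem_coe, mem_filter, mem_Ico] at hx
      rw [mem_coe, mem_filter, mem_Ioc]
      have h3 : W * (h / W) ≤ h := Nat.mul_div_le h W
      have e : ν + (x - ν) = x := by omega
      have h4 : u < x - ν := by omega
      have h5 : x - ν ≤ u + h := by omega
      refine ⟨⟨h4, h5⟩, ?_⟩
      show Nat.Coprime W (ν + (x - ν))
      rw [e]
      exact hx.2
    · intro x hx y hy hxy
      rw [mem_coe, mem_filter, mem_Ico] at hx hy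
      simp only at hxy
      omega
  have h3 : (h : ℝ) / W - 1 ≤ ((h / W : ℕ) : ℝ) := by
    have hW0 : (0 : ℝ) < W := by exact_mod_cast hW
    have h4 := Nat.lt_div_mul_add hW (a := h)
    have h5 : (h : ℝ) < ((h / W : ℕ) : ℝ) * W + W := by exact_mod_cast h4
    rw [sub_le_iff_le_add, div_le_iff₀ hW0]
    linarith
  calc (Nat.totient W : ℝ) * (h / W - 1) ≤ Nat.totient W * ((h / W : ℕ) : ℝ) :=
        mul_le_mul_of_nonneg_left h3 (Nat.cast_nonneg _)
    _ = ((Nat.totient W * (h / W) : ℕ) : ℝ) := by push_cast; ring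
    _ ≤ _ := by exact_mod_cast h1.trans h2

lemma cop_up (W ν u h : ℕ) (hW : 0 < W) :
    (((Ioc u (u + h)).filter (fun a => Nat.Coprime W (ν + a))).card : ℝ) ≤
      (Nat.totient W : ℝ) * (h / W + 1) := by
  have h6 : ((Ioc u (u + h)).filter (fun a => Nat.Coprime W (ν + a))).card ≤
      ((Ico (ν + u + 1) (ν + u + 1 + h)).filter (fun x => Nat.Coprime W x)).card := by
    apply card_le_card_of_injOn (fun j => ν + j)
    · intro j hj
      rw [mem_coe, mem_filter, mem_Ioc] at hj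
      rw [mem_coe, mem_filter, mem_Ico]
      refine ⟨⟨?_, ?_⟩, hj.2⟩
      · show ν + u + 1 ≤ ν + j
        omega
      · show ν + j < ν + u + 1 + h
        omega
    · intro i _ j _ hij
      simp only at hij
      omega
  have h7 := h6.trans (Nat.Ico_filter_coprime_le (ν + u + 1) h hW.ne')
  calc (((Ioc u (u + h)).filter (fun a => Nat.Coprime W (ν + a))).card : ℝ) ≤
      ((Nat.totient W * (h / W + 1) : ℕ) : ℝ) := by exact_mod_cast h7
    _ = (Nat.totient W : ℝ) * (((h / W : ℕ) : ℝ) + 1) := by push_cast; ring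
    _ ≤ _ := by
        apply mul_le_mul_of_nonneg_left _ (Nat.cast_nonneg _)
        have := Nat.cast_div_le (α := ℝ) (m := h) (n := W)
        linarith

lemma desc_ge {b j : ℕ} {z : ℝ} (hz : 0 ≤ z) (h : z + j ≤ b) : z ^ j ≤ (j.factorial : ℝ) * (b.choose j : ℕ) := by
  have h1 : j ≤ b := by
    have : (j : ℝ) ≤ b := by linarith
    exact_mod_cast this
  have h2 : (j.factorial : ℝ) * (b.choose j : ℕ) = (b.descFactorial j : ℝ) := by
    rw [Nat.descFactorial_eq_factorial_mul_choose]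
    push_cast
    ring
  rw [h2]
  have h3 := Nat.pow_sub_le_descFactorial b j
  have h4 : z ≤ ((b + 1 - j : ℕ) : ℝ) := by
    rw [Nat.cast_sub (by omega)]
    push_cast
    linarith
  calc z ^ j ≤ ((b + 1 - j : ℕ) : ℝ) ^ j := pow_le_pow_left₀ hz h4 j
    _ ≤ _ := by exact_mod_cast h3

lemma choose_le_pow' (b j : ℕ) : (j.factorial : ℝ) * (b.choose j : ℕ) ≤ (b : ℝ) ^ j := by
  have h4 : j.factorial * b.choose j ≤ b ^ j := by
    rw [← Nat.descFactorial_eq_factorial_mul_choose]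
    exact Nat.descFactorial_le_pow b j
  exact_mod_cast h4

/-- anchored lower bound, truncated -/
lemma anch_low (j y u h : ℕ) (hy : 1 ≤ y) (hyj : (j + 1) ^ 2 ≤ y) (hu : 1 ≤ u)
    (hh : ((j : ℝ) + 1) * Uni.WW y ≤ h) :
    (1 - ((j : ℝ) + 1) ^ 2 / y) * ((h : ℝ) - (j + 1) * Uni.WW y) ^ j ≤
      (j.factorial : ℝ) * ∑ D ∈ (Ioc u (u + h)).powersetCard j, Uni.CT (insert 0 D) := by
  classical
  obtain ⟨W, hW⟩ : ∃ W, W = Uni.WW y := ⟨_, rfl⟩
  rw [← hW] at hh ⊢
  have hWpos : 0 < W := by rw [hW]; exact Uni.WW_pos y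
  have hW0 : (0 : ℝ) < W := by exact_mod_cast hWpos
  have hφpos : 0 < Nat.totient W := Nat.totient_pos.2 hWpos
  have hφ0 : (0 : ℝ) < Nat.totient W := by exact_mod_cast hφpos
  have hφ1 : (1 : ℝ) ≤ Nat.totient W := by exact_mod_cast hφpos
  have hy0 : (0 : ℝ) < y := by exact_mod_cast hy
  have hc0 : 0 ≤ 1 - ((j : ℝ) + 1) ^ 2 / y := by
    rw [sub_nonneg, div_le_one hy0]
    exact_mod_cast hyj
  have h1 : ∀ D ∈ (Ioc u (u + h)).powersetCard j, (1 - ((j : ℝ) + 1) ^ 2 / y) *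
      (((W : ℝ) / Nat.totient W) ^ (j + 1) * (Uni.gT W (insert 0 D) / W)) ≤ Uni.CT (insert 0 D) := by
    intro D hD
    rw [mem_powersetCard] at hD
    have hcard : (insert 0 D).card = j + 1 := by
      rw [card_insert_of_notMem, hD.2]
      intro h0
      have := (mem_Ioc.1 (hD.1 h0)).1
      omega
    have h2 : (j + 1) ≤ y := by nlinarith
    have := Helper22K9.Trp.CT_ge' (insert 0 D) y hy (by rw [hcard]; exact h2)
    rw [hcard, ← hW] at this
    push_cast at this
    exact this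
  have h2 := sum_le_sum h1
  rw [← mul_sum, ← mul_sum, ← sum_div, anchored_sum W] at h2
  -- lower bound for the counts
  set z : ℝ := (Nat.totient W : ℝ) / W * ((h : ℝ) - (j + 1) * W) with hz
  have hz0 : 0 ≤ z := by
    apply mul_nonneg (by positivity)
    linarith
  have h3 : ∀ ν ∈ (range W).filter (fun ν => Nat.Coprime W ν), z ^ j ≤ (j.factorial : ℝ) *
      ((((Ioc u (u + h)).filter (fun a => Nat.Coprime W (ν + a))).card.choose j : ℕ) : ℝ) := by
    intro ν _
    apply desc_ge hz0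
    refine le_trans ?_ (cop_low W ν u h hWpos)
    have e1 : z = Nat.totient W * (h / W - 1) - j * Nat.totient W := by
      rw [hz]
      field_simp
      ring
    rw [e1]
    have : (j : ℝ) ≤ j * Nat.totient W := le_mul_of_one_le_right (Nat.cast_nonneg _) hφ1
    linarith
  have h4 := sum_le_sum h3
  rw [sum_const, card_coprime, nsmul_eq_mul, ← mul_sum] at h4
  have hfac : (0 : ℝ) < j.factorial := by exact_mod_cast j.factorial_pos
  have h5 := mul_le_mul_of_nonneg_left h2 hfac.le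
  refine le_trans ?_ h5
  have h6 : (1 - ((j : ℝ) + 1) ^ 2 / y) * (((W : ℝ) / Nat.totient W) ^ (j + 1) *
      (((Nat.totient W : ℝ) * z ^ j) / W)) ≤ (1 - ((j : ℝ) + 1) ^ 2 / y) *
      (((W : ℝ) / Nat.totient W) ^ (j + 1) * (((j.factorial : ℝ) *
        ∑ ν ∈ (range W).filter (fun ν => Nat.Coprime W ν),
        (((((Ioc u (u + h)).filter (fun a => Nat.Coprime W (ν + a))).card.choose j : ℕ) : ℝ))) / W)) := by
    apply mul_le_mul_of_nonneg_left _ hc0
    apply mul_le_mul_of_nonneg_left _ (by positivity)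
    exact div_le_div_of_nonneg_right h4 hW0.le
  calc (1 - ((j : ℝ) + 1) ^ 2 / y) * ((h : ℝ) - (j + 1) * W) ^ j =
      (1 - ((j : ℝ) + 1) ^ 2 / y) * (((W : ℝ) / Nat.totient W) ^ (j + 1) *
      (((Nat.totient W : ℝ) * z ^ j) / W)) := by
        rw [hz, mul_pow, div_pow, div_pow]
        field_simp
        ring
    _ ≤ _ := h6
    _ = _ := by ring

/-- anchored upper bound, truncated -/
lemma anch_aux (j y h : ℕ) {K : ℝ} (hK : 1 ≤ K) (htt : ∀ n : ℕ, 1 ≤ n → n ≤ h → tt y n ≤ K) :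
    (j.factorial : ℝ) * ∑ D ∈ (Ioc 0 (0 + h)).powersetCard j, Uni.CT (insert 0 D) ≤
      K ^ ((j + 1) * (j + 1)) * ((h : ℝ) + Uni.WW y) ^ j := by
  classical
  obtain ⟨W, hW⟩ : ∃ W, W = Uni.WW y := ⟨_, rfl⟩
  rw [← hW]
  have hWpos : 0 < W := by rw [hW]; exact Uni.WW_pos y
  have hW0 : (0 : ℝ) < W := by exact_mod_cast hWpos
  have hφpos : 0 < Nat.totient W := Nat.totient_pos.2 hWpos
  have hφ0 : (0 : ℝ) < Nat.totient W := by exact_mod_cast hφpos
  have hK0 : (0 : ℝ) < K := by linarith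
  have h1 : ∀ D ∈ (Ioc 0 (0 + h)).powersetCard j, Uni.CT (insert 0 D) ≤
      K ^ ((j + 1) * (j + 1)) *
        (((W : ℝ) / Nat.totient W) ^ (j + 1) * (Uni.gT W (insert 0 D) / W)) := by
    intro D hD
    rw [mem_powersetCard] at hD
    have hcard : (insert 0 D).card = j + 1 := by
      rw [card_insert_of_notMem, hD.2]
      intro h0
      have := (mem_Ioc.1 (hD.1 h0)).1
      omega
    have := Uni.CT_le (insert 0 D) y hK (M := h) (fun t ht => by
      rw [mem_insert] at ht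
      rcases ht with rfl | ht
      · omega
      · have := (mem_Ioc.1 (hD.1 ht)).2
        omega) htt
    rw [hcard, ← hW] at this
    exact this
  have h2 := sum_le_sum h1
  rw [← mul_sum, ← mul_sum, ← sum_div, anchored_sum W] at h2
  set z : ℝ := (Nat.totient W : ℝ) * (h / W + 1) with hz
  have h3 : ∀ ν ∈ (range W).filter (fun ν => Nat.Coprime W ν), (j.factorial : ℝ) *
      ((((Ioc 0 (0 + h)).filter (fun a => Nat.Coprime W (ν + a))).card.choose j : ℕ) : ℝ) ≤ z ^ j := by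
    intro ν _
    exact (choose_le_pow' _ j).trans (pow_le_pow_left₀ (Nat.cast_nonneg _) (cop_up W ν 0 h hWpos) j)
  have h4 := sum_le_sum h3
  rw [sum_const, card_coprime, nsmul_eq_mul, ← mul_sum] at h4
  have hfac : (0 : ℝ) < j.factorial := by exact_mod_cast j.factorial_pos
  have h5 := mul_le_mul_of_nonneg_left h2 hfac.le
  refine h5.trans ?_
  have h6 : K ^ ((j + 1) * (j + 1)) * (((W : ℝ) / Nat.totient W) ^ (j + 1) * (((j.factorial : ℝ) *
        ∑ ν ∈ (range W).filter (fun ν => Nat.Coprime W ν),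
        (((((Ioc 0 (0 + h)).filter (fun a => Nat.Coprime W (ν + a))).card.choose j : ℕ) : ℝ))) / W)) ≤
      K ^ ((j + 1) * (j + 1)) * (((W : ℝ) / Nat.totient W) ^ (j + 1) *
      (((Nat.totient W : ℝ) * z ^ j) / W)) := by
    apply mul_le_mul_of_nonneg_left _ (by positivity)
    apply mul_le_mul_of_nonneg_left _ (by positivity)
    exact div_le_div_of_nonneg_right h4 hW0.le
  calc _ = K ^ ((j + 1) * (j + 1)) * (((W : ℝ) / Nat.totient W) ^ (j + 1) * (((j.factorial : ℝ) *
        ∑ ν ∈ (range W).filter (fun ν => Nat.Coprime W ν),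
        (((((Ioc 0 (0 + h)).filter (fun a => Nat.Coprime W (ν + a))).card.choose j : ℕ) : ℝ))) / W)) := by
        ring
    _ ≤ _ := h6
    _ = _ := by
        have e : z = (Nat.totient W : ℝ) / W * (h + W) := by
          rw [hz]; field_simp
        rw [e, mul_pow, div_pow, div_pow, pow_succ, pow_succ]
        field_simp

/-- **anchored average, upper bound** -/
theorem anch_up (j : ℕ) (ε : ℝ) (hε : 0 < ε) : ∃ D₀ : ℕ, ∀ h : ℕ, D₀ ≤ h →
    (j.factorial : ℝ) * ∑ D ∈ (Icc 1 h).powersetCard j, Uni.CT (insert 0 D) ≤ (1 + ε) * (h : ℝ) ^ j := by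
  have tD : Tendsto (fun D : ℕ => (D : ℝ)) atTop atTop := tendsto_natCast_atTop_atTop
  have tL : Tendsto (fun D : ℕ => Real.log (D : ℝ) / 4) atTop atTop :=
    (Real.tendsto_log_atTop.comp tD).atTop_div_const (by norm_num)
  have ty : Tendsto (fun D : ℕ => ⌊Real.log (D : ℝ) / 4⌋₊) atTop atTop := tendsto_nat_floor_atTop.comp tL
  have tly : Tendsto (fun D : ℕ => Real.log ((⌊Real.log (D : ℝ) / 4⌋₊ : ℕ) : ℝ)) atTop atTop :=
    Real.tendsto_log_atTop.comp (tendsto_natCast_atTop_atTop.comp ty)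
  have t1 : Tendsto (fun D : ℕ => Real.exp (16 / Real.log ((⌊Real.log (D : ℝ) / 4⌋₊ : ℕ) : ℝ)) ^ ((j + 1) * (j + 1)) *
      (1 + ((D : ℝ) ^ (1 / 2 : ℝ))⁻¹) ^ j) atTop (𝓝 (Real.exp 0 ^ ((j + 1) * (j + 1)) * (1 + 0) ^ j)) := by
    apply Tendsto.mul
    · apply Tendsto.pow
      apply (Real.continuous_exp.tendsto 0).comp
      exact tly.const_div_atTop 16
    · apply Tendsto.pow
      apply Tendsto.const_add
      exact ((tendsto_rpow_atTop (by norm_num : (0 : ℝ) < 1 / 2)).comp tD).inv_tendsto_atTop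
  have h1 : Real.exp 0 ^ ((j + 1) * (j + 1)) * (1 + 0) ^ j < 1 + ε := by
    simp; exact hε
  have hev := t1.eventually_lt_const h1
  rw [← eventually_atTop]
  filter_upwards [hev, ty.eventually_ge_atTop 2, eventually_ge_atTop 1] with D h2 h3 h4
  obtain ⟨y, hy⟩ : ∃ y : ℕ, y = ⌊Real.log (D : ℝ) / 4⌋₊ := ⟨_, rfl⟩
  rw [← hy] at h2 h3
  have hD1 : (1 : ℝ) ≤ D := by exact_mod_cast h4
  have hD0 : (0 : ℝ) < D := by linarith
  have hL0 : 0 ≤ Real.log (D : ℝ) := Real.log_nonneg hD1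
  have hy2 : (2 : ℝ) ≤ y := by exact_mod_cast h3
  have hlogy : 0 < Real.log y := Real.log_pos (by linarith)
  have hyL : (y : ℝ) ≤ Real.log D / 4 := by rw [hy]; exact Nat.floor_le (by positivity)
  have hyL2 : Real.log D ≤ 8 * y := by
    have : Real.log D / 4 < y + 1 := by rw [hy]; exact Nat.lt_floor_add_one _
    linarith
  have hK1 : 1 ≤ Real.exp (16 / Real.log y) := Real.one_le_exp (by positivity)
  have haux := anch_aux j y D hK1 (by
    intro n hn1 hn2
    refine (Uni.tt_le y n h3 hn1).trans (Real.exp_le_exp.2 ?_)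
    rw [div_le_div_iff₀ (by positivity) hlogy]
    have h5 : Real.log n ≤ Real.log D := Real.log_le_log (by exact_mod_cast hn1) (by exact_mod_cast hn2)
    have h6 : 2 * Real.log n ≤ 16 * y := by linarith
    calc 2 * Real.log n * Real.log y ≤ 16 * y * Real.log y := mul_le_mul_of_nonneg_right h6 hlogy.le
      _ = _ := by ring)
  have hIoc : Ioc 0 (0 + D) = Icc 1 D := by
    ext a
    simp only [mem_Ioc, mem_Icc]
    omega
  rw [hIoc] at haux
  refine haux.trans ?_
  have hW : ((Uni.WW y : ℕ) : ℝ) ≤ (D : ℝ) * ((D : ℝ) ^ (1 / 2 : ℝ))⁻¹ := by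
    have h5 : (D : ℝ) * ((D : ℝ) ^ (1 / 2 : ℝ))⁻¹ = (D : ℝ) ^ (1 / 2 : ℝ) := by
      rw [← div_eq_mul_inv, div_eq_iff (by positivity), ← Real.rpow_add hD0]
      norm_num
    rw [h5]
    calc ((Uni.WW y : ℕ) : ℝ) ≤ ((4 ^ y : ℕ) : ℝ) := by exact_mod_cast Helper22K9.Trp.WW_le y
      _ = (4 : ℝ) ^ y := by push_cast; rfl
      _ ≤ (Real.exp 2) ^ y := by
          apply pow_le_pow_left₀ (by norm_num)
          have h3 := Real.exp_one_gt_d9
          have h4 : Real.exp 2 = Real.exp 1 ^ 2 := by rw [← Real.exp_nat_mul]; norm_num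
          rw [h4]
          calc (4 : ℝ) ≤ 2.7182818283 ^ 2 := by norm_num
            _ ≤ _ := by gcongr
      _ = Real.exp (y * 2) := by rw [← Real.exp_nat_mul]
      _ ≤ Real.exp (Real.log D * (1 / 2)) := Real.exp_le_exp.2 (by linarith)
      _ = _ := by rw [Real.rpow_def_of_pos hD0]
  have h5 : (D : ℝ) + Uni.WW y ≤ D * (1 + ((D : ℝ) ^ (1 / 2 : ℝ))⁻¹) := by
    rw [mul_add, mul_one]
    linarith
  calc Real.exp (16 / Real.log y) ^ ((j + 1) * (j + 1)) * ((D : ℝ) + Uni.WW y) ^ j ≤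
      Real.exp (16 / Real.log y) ^ ((j + 1) * (j + 1)) * (D * (1 + ((D : ℝ) ^ (1 / 2 : ℝ))⁻¹)) ^ j := by
        apply mul_le_mul_of_nonneg_left _ (by positivity)
        exact pow_le_pow_left₀ (by positivity) h5 _
    _ = (Real.exp (16 / Real.log y) ^ ((j + 1) * (j + 1)) * (1 + ((D : ℝ) ^ (1 / 2 : ℝ))⁻¹) ^ j) *
        (D : ℝ) ^ j := by rw [mul_pow]; ring
    _ ≤ _ := mul_le_mul_of_nonneg_right h2.le (by positivity)

/-- **anchored average, lower bound** -/
theorem anch_lo (j : ℕ) (ε : ℝ) (hε : 0 < ε) : ∃ D₀ : ℕ, ∀ h : ℕ, D₀ ≤ h →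
    (1 - ε) * (h : ℝ) ^ j ≤ (j.factorial : ℝ) * ∑ D ∈ (Icc 2 h).powersetCard j, Uni.CT (insert 0 D) := by
  obtain ⟨y, hy⟩ : ∃ y : ℕ, (j + 1) ^ 2 ≤ y ∧ 1 ≤ y ∧ ((j : ℝ) + 1) ^ 2 / y ≤ ε / 2 := by
    obtain ⟨y, hy⟩ := exists_nat_ge (max (((j : ℝ) + 1) ^ 2 / (ε / 2)) (((j : ℝ) + 1) ^ 2))
    have h1 : ((j : ℝ) + 1) ^ 2 ≤ y := (le_max_right _ _).trans hy
    have h2 : ((j : ℝ) + 1) ^ 2 / (ε / 2) ≤ y := (le_max_left _ _).trans hy
    have h3 : (j + 1) ^ 2 ≤ y := by exact_mod_cast h1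
    have h4 : 1 ≤ y := le_trans (Nat.one_le_pow _ _ (by omega)) h3
    refine ⟨y, h3, h4, ?_⟩
    have hy0 : (0 : ℝ) < y := by exact_mod_cast h4
    rw [div_le_iff₀ (by positivity)] at h2
    rw [div_le_iff₀ hy0]
    linarith
  obtain ⟨hy1, hy2, hy3⟩ := hy
  have tD : Tendsto (fun D : ℕ => (D : ℝ)) atTop atTop := tendsto_natCast_atTop_atTop
  set c : ℝ := 1 + ((j : ℝ) + 1) * Uni.WW y with hc
  have t1 : Tendsto (fun D : ℕ => (1 - c / (D : ℝ)) ^ j) atTop (𝓝 ((1 - 0) ^ j)) := by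
    apply Tendsto.pow
    apply Tendsto.const_sub
    exact tD.const_div_atTop c
  have h1 : (1 - ε / 2 : ℝ) < (1 - 0) ^ j := by
    simp; exact hε
  have hev := t1.eventually_const_lt h1
  rw [← eventually_atTop]
  filter_upwards [hev, tD.eventually_ge_atTop (c + 1), eventually_ge_atTop 2] with h h2 h3 h4
  have hh0 : (0 : ℝ) < h := by
    have : (2 : ℝ) ≤ h := by exact_mod_cast h4
    linarith
  have hcast : ((h - 1 : ℕ) : ℝ) = h - 1 := by
    rw [Nat.cast_sub (by omega)]; simp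
  have h5 := anch_low j y 1 (h - 1) hy2 hy1 le_rfl (by rw [hcast]; linarith)
  have hIoc : Ioc 1 (1 + (h - 1)) = Icc 2 h := by
    ext a
    simp only [mem_Ioc, mem_Icc]
    omega
  rw [hIoc, hcast] at h5
  refine le_trans ?_ h5
  have e1 : (h : ℝ) - 1 - (j + 1) * Uni.WW y = h * (1 - c / h) := by
    rw [hc]
    field_simp
    ring
  rw [e1, mul_pow]
  have hpos : 0 ≤ (h : ℝ) ^ j := by positivity
  rcases le_or_gt ε 1 with he | he
  · have h6 : (1 - ε / 2) * (1 - ε / 2) ≤ (1 - ((j : ℝ) + 1) ^ 2 / y) * (1 - c / h) ^ j := by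
      apply mul_le_mul (by linarith) h2.le (by linarith) (by linarith)
    have h7 : 1 - ε ≤ (1 - ε / 2) * (1 - ε / 2) := by nlinarith
    calc (1 - ε) * (h : ℝ) ^ j ≤ ((1 - ((j : ℝ) + 1) ^ 2 / y) * (1 - c / h) ^ j) * (h : ℝ) ^ j :=
          mul_le_mul_of_nonneg_right (h7.trans h6) hpos
      _ = _ := by ring
  · have hy0 : (0 : ℝ) < y := by exact_mod_cast hy2
    have h8 : 0 ≤ 1 - ((j : ℝ) + 1) ^ 2 / y := by
      rw [sub_nonneg, div_le_one hy0]
      exact_mod_cast hy1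
    have h9 : 0 ≤ 1 - c / h := by
      rw [sub_nonneg, div_le_one hh0]
      linarith
    calc (1 - ε) * (h : ℝ) ^ j ≤ 0 := mul_nonpos_of_nonpos_of_nonneg (by linarith) hpos
      _ ≤ _ := by positivity

end Pool.Agent.L0h43.TA
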