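import Pool.Agent.L0h43.TA.Dis
import Pool.Agent.L0h43.TA.Fin

/-!
# A better lower bound for the anchored averages
-/

set_option autoImplicit false

namespace Pool.Agent.L0h43.TA

open Finset Filter Topology Pool.Agent.H387R2

/-! ### Real inequalities -/

lemma pow_incr (k : ℕ) {a b : ℝ} (ha : 0 ≤ a) (hab : a ≤ b) :
    ((k : ℝ) + 1) * (a ^ k * (b - a)) ≤ b ^ (k + 1) - a ^ (k + 1) := by
  have h := geom_sum₂_mul b a (k + 1)
  rw [← h]
  have hb : 0 ≤ b := ha.trans hab
  have h1 : ((k : ℝ) + 1) * a ^ k ≤ ∑ i ∈ range (k + 1), b ^ i * a ^ (k + 1 - 1 - i) := by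
    have h2 : ∀ i ∈ range (k + 1), a ^ k ≤ b ^ i * a ^ (k + 1 - 1 - i) := by
      intro i hi
      rw [mem_range] at hi
      have e : a ^ k = a ^ i * a ^ (k + 1 - 1 - i) := by
        rw [← pow_add]
        congr 1
        omega
      rw [e]
      exact mul_le_mul_of_nonneg_right (pow_le_pow_left₀ ha hab i) (by positivity)
    have h3 := sum_le_sum h2
    rw [sum_const, card_range, nsmul_eq_mul] at h3
    push_cast at h3
    exact h3
  calc ((k : ℝ) + 1) * (a ^ k * (b - a)) = ((k : ℝ) + 1) * a ^ k * (b - a) := by ring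
    _ ≤ _ := mul_le_mul_of_nonneg_right h1 (by linarith)

lemma young_t (k : ℕ) {t Y b : ℝ} (ht : 1 < t) (htk : t ^ k = (k : ℝ) + 1) (hY : 0 ≤ Y) (hb : 0 ≤ b) :
    (Y + b) ^ (k + 1) ≤ ((k : ℝ) + 1) * Y ^ (k + 1) + ((k : ℝ) + 1) * (b * (b / (t - 1)) ^ k) := by
  have ht0 : 0 < t := by linarith
  have ht1 : 0 < t - 1 := by linarith
  have hc := (convexOn_pow (k + 1)).2 (x := t * Y) (y := b * t / (t - 1))
    (by simp only [Set.mem_Ici]; positivity) (by simp only [Set.mem_Ici]; positivity)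
    (show 0 ≤ 1 / t by positivity) (show 0 ≤ (t - 1) / t by positivity) (by field_simp; ring)
  simp only [smul_eq_mul] at hc
  have e1 : 1 / t * (t * Y) + (t - 1) / t * (b * t / (t - 1)) = Y + b := by
    field_simp
  have e2 : 1 / t * (t * Y) ^ (k + 1) = ((k : ℝ) + 1) * Y ^ (k + 1) := by
    rw [← htk, mul_pow, pow_succ t k]
    field_simp
  have e3 : (t - 1) / t * (b * t / (t - 1)) ^ (k + 1) = ((k : ℝ) + 1) * (b * (b / (t - 1)) ^ k) := by
    rw [← htk, div_pow, div_pow, mul_pow, pow_succ b k, pow_succ t k, pow_succ (t - 1) k]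
    field_simp
  rw [e1, e2, e3] at hc
  exact hc

/-- **the pointwise inequality** -/
theorem seq_ineq (k M M' : ℕ) {β t : ℝ} (hβ : 0 < β) (ht : 1 < t) (htk : t ^ k = (k : ℝ) + 1) (S : ℕ → ℝ)
    (hS0 : S 0 = 0) (hmono : ∀ i, S i ≤ S (i + 1)) (hinc : ∀ i < M + M', S (i + 1) ≤ S i + β) :
    ∑ i ∈ range (M + M'), S i ^ k ≤ M * S M ^ k + M' * (M' * β / (t - 1)) ^ k := by
  have hmon : Monotone S := monotone_nat_of_le_succ hmono
  have hnn : ∀ i, 0 ≤ S i := fun i => hS0 ▸ hmon (Nat.zero_le i)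
  have hk1 : (0 : ℝ) < (k : ℝ) + 1 := by positivity
  obtain ⟨Y, hY⟩ : ∃ Y, Y = S M := ⟨_, rfl⟩
  have hY0 : 0 ≤ Y := hY ▸ hnn M
  rw [← hY]
  -- first part
  have p1 : ((k : ℝ) + 1) * β * ∑ i ∈ range M, S i ^ k ≤ ((k : ℝ) + 1) * β * (M * Y ^ k) - k * Y ^ (k + 1) := by
    have a1 : ∀ i ∈ range M, (Y ^ k - S i ^ k) * (S (i + 1) - S i) ≤ β * (Y ^ k - S i ^ k) := by
      intro i hi
      rw [mem_range] at hi
      have h1 : S i ≤ Y := hY ▸ hmon hi.le
      have h2 : S i ^ k ≤ Y ^ k := pow_le_pow_left₀ (hnn i) h1 k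
      have h3 := hinc i (by omega)
      rw [mul_comm β]
      exact mul_le_mul_of_nonneg_left (by linarith) (by linarith)
    have a2 := sum_le_sum a1
    have a3 : ∑ i ∈ range M, (Y ^ k - S i ^ k) * (S (i + 1) - S i) =
        Y ^ k * Y - ∑ i ∈ range M, S i ^ k * (S (i + 1) - S i) := by
      have e : ∀ i ∈ range M, (Y ^ k - S i ^ k) * (S (i + 1) - S i) =
          Y ^ k * (S (i + 1) - S i) - S i ^ k * (S (i + 1) - S i) := fun i _ => by ring
      rw [sum_congr rfl e, sum_sub_distrib, ← mul_sum, sum_range_sub, hS0, sub_zero, ← hY]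
    have a4 : ∑ i ∈ range M, β * (Y ^ k - S i ^ k) = β * (M * Y ^ k) - β * ∑ i ∈ range M, S i ^ k := by
      rw [← mul_sum, sum_sub_distrib, sum_const, card_range, nsmul_eq_mul]
      ring
    rw [a3, a4] at a2
    have a5 : ((k : ℝ) + 1) * ∑ i ∈ range M, S i ^ k * (S (i + 1) - S i) ≤ Y ^ (k + 1) := by
      rw [mul_sum]
      calc ∑ i ∈ range M, ((k : ℝ) + 1) * (S i ^ k * (S (i + 1) - S i)) ≤
          ∑ i ∈ range M, (S (i + 1) ^ (k + 1) - S i ^ (k + 1)) :=
            sum_le_sum fun i _ => pow_incr k (hnn i) (hmono i)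
        _ = Y ^ (k + 1) := by
            rw [sum_range_sub (fun i => S i ^ (k + 1)), hS0, ← hY]
            simp
    have a6 := mul_le_mul_of_nonneg_left a2 hk1.le
    have e : Y ^ (k + 1) = Y ^ k * Y := pow_succ _ _
    rw [e] at a5 ⊢
    nlinarith
  -- second part
  have p2 : ((k : ℝ) + 1) * β * ∑ i ∈ range M', S (M + i) ^ k ≤ (Y + M' * β) ^ (k + 1) - Y ^ (k + 1) := by
    have b1 : ∀ i, i ≤ M' → S (M + i) ≤ Y + i * β := by
      intro i
      induction i with
      | zero => intro _; simp [hY]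
      | succ i ih =>
        intro hi
        have h1 := ih (by omega)
        have h2 := hinc (M + i) (by omega)
        have e : M + (i + 1) = M + i + 1 := by omega
        rw [e]
        push_cast
        linarith
    have b2 : ∀ i ∈ range M', ((k : ℝ) + 1) * β * S (M + i) ^ k ≤
        (Y + ((i + 1 : ℕ) : ℝ) * β) ^ (k + 1) - (Y + ((i : ℕ) : ℝ) * β) ^ (k + 1) := by
      intro i hi
      rw [mem_range] at hi
      have h1 := b1 i hi.le
      have h2 : 0 ≤ Y + (i : ℝ) * β := by positivity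
      have h3 := pow_incr k h2 (show Y + (i : ℝ) * β ≤ Y + ((i + 1 : ℕ) : ℝ) * β by push_cast; linarith)
      refine le_trans ?_ h3
      have e : Y + ((i + 1 : ℕ) : ℝ) * β - (Y + (i : ℝ) * β) = β := by push_cast; ring
      rw [e]
      calc ((k : ℝ) + 1) * β * S (M + i) ^ k ≤ ((k : ℝ) + 1) * β * (Y + (i : ℝ) * β) ^ k :=
            mul_le_mul_of_nonneg_left (pow_le_pow_left₀ (hnn _) h1 k) (by positivity)
        _ = _ := by ring
    rw [mul_sum]
    refine (sum_le_sum b2).trans (le_of_eq ?_)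
    rw [sum_range_sub (fun i : ℕ => (Y + (i : ℝ) * β) ^ (k + 1))]
    simp
  have p3 := young_t k ht htk hY0 (show 0 ≤ (M' : ℝ) * β by positivity)
  rw [sum_range_add]
  have h1 : ((k : ℝ) + 1) * β * (∑ i ∈ range M, S i ^ k + ∑ i ∈ range M', S (M + i) ^ k) ≤
      ((k : ℝ) + 1) * β * (M * Y ^ k + M' * (M' * β / (t - 1)) ^ k) := by
    have e : ((k : ℝ) + 1) * β * (M * Y ^ k + M' * (M' * β / (t - 1)) ^ k) =
        ((k : ℝ) + 1) * β * (M * Y ^ k) + ((k : ℝ) + 1) * (M' * β * (M' * β / (t - 1)) ^ k) := by ring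
    rw [e, mul_add]
    have e2 : ((k : ℝ) + 1) * Y ^ (k + 1) = k * Y ^ (k + 1) + Y ^ (k + 1) := by ring
    linarith
  exact le_of_mul_le_mul_left h1 (by positivity)

/-! ### From windows to anchored sets -/

lemma choose_min (X : Finset ℕ) (k : ℕ) :
    X.card.choose (k + 1) = ∑ x ∈ X, ((X.filter (fun y => x < y)).card).choose k := by
  classical
  induction X using Finset.induction_on_min with
  | empty => simp
  | insert a s ha ih =>
    have hna : a ∉ s := fun h => lt_irrefl a (ha a h)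
    rw [sum_insert hna, card_insert_of_notMem hna, Nat.choose_succ_succ, ih]
    congr 1
    · congr 2
      ext y
      rw [mem_filter, mem_insert]
      constructor
      · intro h; exact ⟨Or.inr h, ha y h⟩
      · rintro ⟨h | h, h2⟩
        · omega
        · exact h
    · apply sum_congr rfl
      intro x hx
      congr 2
      ext y
      rw [mem_filter, mem_filter, mem_insert]
      constructor
      · rintro ⟨h1, h2⟩; exact ⟨Or.inr h1, h2⟩
      · rintro ⟨h | h, h2⟩
        · have := ha x hx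
          omega
        · exact ⟨h, h2⟩

lemma NW_add (a b n : ℕ) : NW (a + b) n = NW a n + NW b (n + a) := by
  unfold NW
  rw [range_eq_Ico, range_eq_Ico, range_eq_Ico]
  have h1 : (Ico 0 (a + b)).filter (fun t => (n + t).Prime) =
      (Ico 0 a).filter (fun t => (n + t).Prime) ∪ ((Ico 0 b).filter (fun t => (n + a + t).Prime)).image (a + ·) := by
    ext t
    simp only [mem_union, mem_filter, mem_image, mem_Ico]
    constructor
    · rintro ⟨h2, h3⟩
      by_cases h : t < a
      · left; exact ⟨⟨Nat.zero_le _, h⟩, h3⟩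
      · right
        refine ⟨t - a, ⟨⟨Nat.zero_le _, by omega⟩, ?_⟩, by omega⟩
        have e : n + a + (t - a) = n + t := by omega
        rw [e]; exact h3
    · rintro (⟨h2, h3⟩ | ⟨u, ⟨h2, h3⟩, rfl⟩)
      · exact ⟨⟨h2.1, by omega⟩, h3⟩
      · refine ⟨⟨Nat.zero_le _, by omega⟩, ?_⟩
        have e : n + (a + u) = n + a + u := by omega
        rw [e]; exact h3
  rw [h1, card_union_of_disjoint, card_image_of_injective]
  · intro x y hxy; simp only at hxy; omega
  · rw [disjoint_left]
    intro t ht ht2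
    simp only [mem_filter, mem_image, mem_Ico] at ht ht2
    obtain ⟨u, _, rfl⟩ := ht2
    omega

lemma win_to_anc (k L N : ℕ) : ∑ n ∈ Icc 1 N, (NW L n).choose (k + 1) ≤
    ∑ p ∈ pr (N + L), ∑ j ∈ range L, (NW j (p + 1)).choose k := by
  classical
  have h1 : ∀ n ∈ Icc 1 N, (NW L n).choose (k + 1) ≤
      ∑ t ∈ range L, if (n + t).Prime then (NW (L - 1 - t) (n + t + 1)).choose k else 0 := by
    intro n _
    have e : NW L n = ((range L).filter (fun t => (n + t).Prime)).card := rfl
    rw [e, choose_min, sum_filter]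
    apply sum_le_sum
    intro t ht
    rw [mem_range] at ht
    split_ifs with hp
    · apply Nat.choose_le_choose
      unfold NW
      apply card_le_card_of_injOn (fun u => u - t - 1)
      · intro u hu
        rw [mem_coe, mem_filter, mem_filter, mem_range] at hu
        rw [mem_coe, mem_filter, mem_range]
        have h2 : u - t - 1 < L - 1 - t := by omega
        refine ⟨h2, ?_⟩
        show (n + t + 1 + (u - t - 1)).Prime
        have e2 : n + t + 1 + (u - t - 1) = n + u := by omega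
        rw [e2]
        exact hu.1.2
      · intro a ha b hb hab
        rw [mem_coe, mem_filter] at ha hb
        simp only at hab
        omega
    · exact le_rfl
  refine (sum_le_sum h1).trans ?_
  rw [sum_comm]
  have h2 : ∀ t ∈ range L, ∑ n ∈ Icc 1 N, (if (n + t).Prime then (NW (L - 1 - t) (n + t + 1)).choose k else 0) ≤
      ∑ p ∈ pr (N + L), (NW (L - 1 - t) (p + 1)).choose k := by
    intro t ht
    rw [mem_range] at ht
    rw [← sum_filter]
    have hinj : Set.InjOn (fun n => n + t) (((Icc 1 N).filter (fun n => (n + t).Prime) : Finset ℕ) : Set ℕ) := by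
      intro a _ b _ hab
      exact Nat.add_right_cancel hab
    rw [← sum_image (g := fun n => n + t) (f := fun p => (NW (L - 1 - t) (p + 1)).choose k) hinj]
    apply sum_le_sum_of_subset
    intro p hp
    rw [mem_image] at hp
    obtain ⟨n, hn, rfl⟩ := hp
    rw [mem_filter, mem_Icc] at hn
    unfold pr
    rw [mem_filter, mem_Icc]
    exact ⟨by omega, hn.2⟩
  refine (sum_le_sum h2).trans (le_of_eq ?_)
  rw [sum_comm]
  apply sum_congr rfl
  intro p _
  exact sum_range_reflect (fun j => (NW j (p + 1)).choose k) L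

lemma sum_blocks (m Δ : ℕ) (g : ℕ → ℝ) (hg : Monotone g) :
    ∑ j ∈ range (m * Δ), g j ≤ Δ * ∑ i ∈ range m, g ((i + 1) * Δ) := by
  induction m with
  | zero => simp
  | succ m ih =>
    rw [Nat.succ_mul, sum_range_add, sum_range_succ, mul_add]
    apply add_le_add ih
    have h1 : ∀ i ∈ range Δ, g (m * Δ + i) ≤ g ((m + 1) * Δ) := by
      intro i hi
      rw [mem_range] at hi
      apply hg
      rw [Nat.succ_mul]
      omega
    have h2 := sum_le_sum h1
    rw [sum_const, card_range, nsmul_eq_mul] at h2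
    exact h2

/-- the inequality at a good prime -/
lemma good_prime (k M M' Δ p : ℕ) {β t : ℝ} (hβ : 0 < β) (ht : 1 < t) (htk : t ^ k = (k : ℝ) + 1)
    (hgood : ∀ i < M + M', (NW Δ (p + 1 + i * Δ) : ℝ) ≤ β) :
    ∑ j ∈ range ((M + M') * Δ), (NW j (p + 1) : ℝ) ^ k ≤
      Δ * (M * (NW (M * Δ) (p + 1) : ℝ) ^ k + (M' * (M' * β / (t - 1)) ^ k + (((M : ℝ) + M') * β) ^ k)) := by
  have h1 := sum_blocks (M + M') Δ (fun j => (NW j (p + 1) : ℝ) ^ k) (by
    intro a b hab
    apply pow_le_pow_left₀ (Nat.cast_nonneg _)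
    exact_mod_cast NW_mono hab)
  refine h1.trans ?_
  apply mul_le_mul_of_nonneg_left _ (Nat.cast_nonneg _)
  set S : ℕ → ℝ := fun i => (NW (i * Δ) (p + 1) : ℝ) with hS
  have hS0 : S 0 = 0 := by
    rw [hS]
    simp [NW]
  have hmono : ∀ i, S i ≤ S (i + 1) := by
    intro i
    rw [hS]
    simp only
    exact_mod_cast NW_mono (Nat.mul_le_mul_right Δ (Nat.le_succ i))
  have hinc : ∀ i < M + M', S (i + 1) ≤ S i + β := by
    intro i hi
    rw [hS]
    simp only
    rw [Nat.succ_mul, NW_add]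
    push_cast
    have := hgood i hi
    linarith
  have h2 := seq_ineq k M M' hβ ht htk S hS0 hmono hinc
  have h3 : ∑ i ∈ range (M + M'), S (i + 1) ^ k = ∑ i ∈ range (M + M'), S i ^ k + S (M + M') ^ k - S 0 ^ k := by
    have := sum_range_succ (fun i => S i ^ k) (M + M')
    have h4 := sum_range_succ' (fun i => S i ^ k) (M + M')
    linarith
  have h5 : S (M + M') ≤ ((M : ℝ) + M') * β := by
    have : ∀ i, i ≤ M + M' → S i ≤ i * β := by
      intro i
      induction i with
      | zero => intro _; rw [hS0]; simp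
      | succ i ih =>
        intro hi
        have h6 := ih (by omega)
        have h7 := hinc i (by omega)
        push_cast
        linarith
    have h8 := this (M + M') le_rfl
    push_cast at h8
    exact h8
  have h9 : S (M + M') ^ k ≤ (((M : ℝ) + M') * β) ^ k := by
    apply pow_le_pow_left₀ _ h5
    rw [hS]
    exact Nat.cast_nonneg _
  have h10 : 0 ≤ S 0 ^ k := by rw [hS0]; positivity
  have h11 : ∑ i ∈ range (M + M'), (NW ((i + 1) * Δ) (p + 1) : ℝ) ^ k = ∑ i ∈ range (M + M'), S (i + 1) ^ k := rfl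
  rw [h11, h3]
  have h12 : S M = (NW (M * Δ) (p + 1) : ℝ) := rfl
  rw [h12] at h2
  linarith

end Pool.Agent.L0h43.TA
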