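import Pool.Agent.L0h43.TA.Imp

/-!
# A better lower bound for the anchored averages, II
-/

set_option autoImplicit false

namespace Pool.Agent.L0h43.TA

open Finset Filter Topology Pool.Agent.H387R2

/-- lower bound for the window counts -/
lemma QW_low (k : ℕ) (ε : ℝ) (hε : 0 < ε) (hε1 : ε ≤ 1) : ∃ K : ℝ, 1 ≤ K ∧ ∀ A : ℝ, ∀ᶠ N : ℕ in atTop,
    ∀ H : ℕ, K * Real.log N ≤ H → (H : ℝ) ≤ Real.log N ^ A →
      (1 - ε) * (N * (H / Real.log N) ^ (k + 1)) ≤ (k + 1).factorial * QW k H N := by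
  set e : ℝ := ε / 2 with he
  have he0 : 0 < e := by positivity
  obtain ⟨K, hK1, hK⟩ := piT_low k e he0 (by linarith)
  have hfac : (0 : ℝ) < (k + 1).factorial := by exact_mod_cast (k + 1).factorial_pos
  refine ⟨K, hK1, fun A => ?_⟩
  filter_upwards [hK A, ev_log 1, ev_small (A + (k + 1 : ℕ)) (e / (k + 1).factorial) (by positivity),
    eventually_ge_atTop 1] with N h1 h2 h3 h4 H hH1 hH2
  set L := Real.log (N : ℝ) with hL
  have hL0 : 0 < L := by linarith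
  have hN0 : (0 : ℝ) < N := by exact_mod_cast h4
  have hLH : L ≤ H := (le_mul_of_one_le_left hL0.le hK1).trans hH1
  have hH0 : (0 : ℝ) < H := by linarith
  have h5 := h1 H hH1 hH2
  have h7 := QW_ge k H N
  have h8 : ((k + 1).factorial : ℝ) * ((H : ℝ) ^ (k + 1) * H) ≤ e * (N * (H / L) ^ (k + 1)) := by
    have e1 : L ^ (A + (k + 1 : ℕ)) = L ^ A * L ^ (k + 1) := by
      rw [Real.rpow_add hL0, Real.rpow_natCast]
    rw [e1] at h3
    have h9 : (H : ℝ) * L ^ (k + 1) ≤ e / (k + 1).factorial * N :=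
      (mul_le_mul_of_nonneg_right hH2 (by positivity)).trans h3
    calc ((k + 1).factorial : ℝ) * ((H : ℝ) ^ (k + 1) * H) =
        ((k + 1).factorial : ℝ) * (H / L) ^ (k + 1) * (H * L ^ (k + 1)) := by
          rw [div_pow]; field_simp
      _ ≤ ((k + 1).factorial : ℝ) * (H / L) ^ (k + 1) * (e / (k + 1).factorial * N) :=
          mul_le_mul_of_nonneg_left h9 (by positivity)
      _ = _ := by field_simp
  have h11 := mul_le_mul_of_nonneg_left h7 hfac.le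
  rw [mul_add] at h11
  have e2 : ε = 2 * e := by rw [he]; ring
  rw [e2]
  linarith

/-! ### The choice of the parameters -/

/-- `(k + 1)^(1/k)` -/
noncomputable def tt (k : ℕ) : ℝ := ((k : ℝ) + 1) ^ ((k : ℝ)⁻¹)

/-- the lower constant -/
noncomputable def lam (c : ℝ) (k : ℕ) : ℝ := (c / (1 + (c - 1) * tt k)) ^ k

lemma tt_pow {k : ℕ} (hk : 1 ≤ k) : tt k ^ k = (k : ℝ) + 1 := by
  unfold tt
  exact Real.rpow_inv_natCast_pow (by positivity) (by omega)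

lemma tt_gt {k : ℕ} (hk : 1 ≤ k) : 1 < tt k := by
  unfold tt
  have hk0 : (0 : ℝ) < k := by exact_mod_cast hk
  exact Real.one_lt_rpow (by linarith) (by positivity)

lemma lam_nonneg {c : ℝ} (hc : 1 < c) {k : ℕ} (hk : 1 ≤ k) : 0 ≤ lam c k := by
  have := tt_gt hk
  unfold lam
  apply pow_nonneg
  apply div_nonneg (by linarith)
  have : 0 ≤ (c - 1) * tt k := mul_nonneg (by linarith) (by linarith)
  linarith

lemma lam_le_one {c : ℝ} (hc : 1 < c) {k : ℕ} (hk : 1 ≤ k) : lam c k ≤ 1 := by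
  have ht := tt_gt hk
  unfold lam
  have h1 : c ≤ 1 + (c - 1) * tt k := by nlinarith
  apply pow_le_one₀
  · apply div_nonneg (by linarith); linarith
  · rw [div_le_one (by linarith)]
    exact h1

lemma par (c : ℝ) (hc : 1 < c) (k : ℕ) (hk : 1 ≤ k) (ε : ℝ) (hε : 0 < ε) :
    ∃ M M' : ℕ, 1 ≤ M ∧ ∃ δ : ℝ, 0 < δ ∧ δ ≤ 1 ∧
      (lam c k - ε) * (M : ℝ) ^ (k + 1) + (M' * (M' * (c + 3 * δ) / (tt k - 1)) ^ k +
        (((M : ℝ) + M') * (c + 3 * δ)) ^ k) ≤ ((M : ℝ) + M') ^ (k + 1) / ((k : ℝ) + 1) := by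
  have ht := tt_gt hk
  have htk := tt_pow hk
  set t := tt k with htdef
  have ht1 : 0 < t - 1 := by linarith
  have hD : 0 < 1 + (c - 1) * t := by nlinarith
  set v : ℝ := (t - 1) / (1 + (c - 1) * t) with hv
  set s : ℝ := c / (1 + (c - 1) * t) with hs
  have hv0 : 0 ≤ v := by positivity
  have hs0 : 0 < s := by rw [hs]; exact div_pos (by linarith) hD
  have h1v : 1 + v = t * s := by
    rw [hv, hs, ← mul_div_assoc, eq_div_iff hD.ne', add_mul, div_mul_cancel₀ _ hD.ne']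
    ring
  have hvs : v * c / (t - 1) = s := by
    rw [hv, hs]; field_simp
  have hlam : lam c k = s ^ k := rfl
  have hk1 : (0 : ℝ) < (k : ℝ) + 1 := by positivity
  -- the limit
  have tM : Tendsto (fun M : ℕ => (M : ℝ)) atTop atTop := tendsto_natCast_atTop_atTop
  have t1 : Tendsto (fun M : ℕ => (⌊v * (M : ℝ)⌋₊ : ℝ) / M) atTop (𝓝 v) :=
    (tendsto_nat_floor_mul_div_atTop hv0).comp tM
  have t2 : Tendsto (fun M : ℕ => c + 3 * (1 / (M : ℝ))) atTop (𝓝 (c + 3 * 0)) := by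
    apply Tendsto.const_add
    apply Tendsto.const_mul
    exact tM.const_div_atTop 1
  have t3 : Tendsto (fun M : ℕ => 1 / (M : ℝ)) atTop (𝓝 0) := tM.const_div_atTop 1
  have t4 : Tendsto (fun M : ℕ => (1 + (⌊v * (M : ℝ)⌋₊ : ℝ) / M) ^ (k + 1) / ((k : ℝ) + 1) -
      ((⌊v * (M : ℝ)⌋₊ : ℝ) / M * ((⌊v * (M : ℝ)⌋₊ : ℝ) / M * (c + 3 * (1 / (M : ℝ))) / (t - 1)) ^ k +
        ((1 + (⌊v * (M : ℝ)⌋₊ : ℝ) / M) * (c + 3 * (1 / (M : ℝ)))) ^ k * (1 / (M : ℝ)))) atTop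
      (𝓝 ((1 + v) ^ (k + 1) / ((k : ℝ) + 1) - (v * (v * (c + 3 * 0) / (t - 1)) ^ k +
        ((1 + v) * (c + 3 * 0)) ^ k * 0))) := by
    apply Tendsto.sub
    · exact ((t1.const_add 1).pow (k + 1)).div_const _
    · apply Tendsto.add
      · exact t1.mul (((t1.mul t2).div_const _).pow k)
      · exact (((t1.const_add 1).mul t2).pow k).mul t3
  have e1 : (1 + v) ^ (k + 1) / ((k : ℝ) + 1) - (v * (v * (c + 3 * 0) / (t - 1)) ^ k +
        ((1 + v) * (c + 3 * 0)) ^ k * 0) = s ^ k := by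
    rw [mul_zero, add_zero, mul_zero, add_zero, hvs, h1v, mul_pow, pow_succ t k, htk]
    have : s ^ (k + 1) = s ^ k * s := pow_succ _ _
    rw [this]
    have h2 : ((k : ℝ) + 1) * t * (s ^ k * s) / ((k : ℝ) + 1) = s ^ k * (t * s) := by
      field_simp
    rw [h2, ← h1v]
    ring
  rw [e1] at t4
  have hev := t4.eventually_const_lt (show s ^ k - ε < s ^ k by linarith)
  obtain ⟨M, hM1, hM2⟩ := (hev.and (eventually_ge_atTop 1)).exists
  have hM0 : (0 : ℝ) < M := by exact_mod_cast hM2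
  have hM1' : (1 : ℝ) ≤ M := by exact_mod_cast hM2
  refine ⟨M, ⌊v * (M : ℝ)⌋₊, hM2, 1 / (M : ℝ), by positivity, by rw [div_le_one hM0]; exact hM1', ?_⟩
  set F : ℝ := (⌊v * (M : ℝ)⌋₊ : ℝ) with hF
  have h3 := mul_le_mul_of_nonneg_right hM1.le (show (0 : ℝ) ≤ (M : ℝ) ^ (k + 1) by positivity)
  rw [hlam]
  have e2 : ((1 + F / M) ^ (k + 1) / ((k : ℝ) + 1) -
      (F / M * (F / M * (c + 3 * (1 / (M : ℝ))) / (t - 1)) ^ k +
        ((1 + F / M) * (c + 3 * (1 / (M : ℝ)))) ^ k * (1 / (M : ℝ)))) * (M : ℝ) ^ (k + 1) =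
      ((M : ℝ) + F) ^ (k + 1) / ((k : ℝ) + 1) - (F * (F * (c + 3 * (1 / (M : ℝ))) / (t - 1)) ^ k +
        (((M : ℝ) + F) * (c + 3 * (1 / (M : ℝ)))) ^ k) := by
    have g1 : (M : ℝ) + F = M * (1 + F / M) := by field_simp
    have g2 : F = M * (F / M) := by field_simp
    have g3 : (M * (1 + F / M)) ^ (k + 1) / ((k : ℝ) + 1) - ((M * (F / M)) * ((M * (F / M)) * (c + 3 * (1 / (M : ℝ))) / (t - 1)) ^ k +
        ((M * (1 + F / M)) * (c + 3 * (1 / (M : ℝ)))) ^ k) = ((1 + F / M) ^ (k + 1) / ((k : ℝ) + 1) -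
      (F / M * (F / M * (c + 3 * (1 / (M : ℝ))) / (t - 1)) ^ k +
        ((1 + F / M) * (c + 3 * (1 / (M : ℝ)))) ^ k * (1 / (M : ℝ)))) * (M : ℝ) ^ (k + 1) := by
      obtain ⟨x, hx⟩ : ∃ x, x = F / M := ⟨_, rfl⟩
      obtain ⟨y, hy⟩ : ∃ y, y = c + 3 * (1 / (M : ℝ)) := ⟨_, rfl⟩
      rw [← hx, ← hy]
      have q1 : (M * x * y / (t - 1)) ^ k = (M : ℝ) ^ k * (x * y / (t - 1)) ^ k := by
        rw [← mul_pow]; congr 1; ring
      have q2 : ((M : ℝ) * (1 + x) * y) ^ k = (M : ℝ) ^ k * ((1 + x) * y) ^ k := by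
        rw [← mul_pow]; congr 1; ring
      rw [q1, q2, mul_pow, pow_succ (M : ℝ) k]
      field_simp
    rw [← g3, ← g1, ← g2]
  rw [e2] at h3
  linarith

end Pool.Agent.L0h43.TA
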