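import Pool.Agent.L0h43.TA.Imp2

/-!
# A better lower bound for the anchored averages, III
-/

set_option autoImplicit false

namespace Pool.Agent.L0h43.TA

open Finset Filter Topology Pool.Agent.H387R2

lemma sh_nat (a p : ℕ) : sh (a : ℤ) p = p + a := by
  unfold sh
  omega

/-- the final arithmetic -/
lemma final_arith {X rk D P V m mk M Mk e lm ε k1 : ℝ} (hD : 0 < D) (hk1 : 0 < k1) (hM : 0 < M)
    (hX : 0 < X) (hr : 0 < rk)
    (h1 : (1 - e) * (X * (m * D) * (mk * rk)) ≤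
      k1 * (D * (M * P + (1 + e) * X * (V * rk)) + 2 * e * X * (m * D) * (mk * rk)))
    (h2 : (lm - ε) * (M * Mk) + V ≤ m * mk / k1) (he : e * (m * mk / k1 + V + 2 * (m * mk)) ≤ ε * (M * Mk)) :
    (lm - 2 * ε) * (X * (Mk * rk)) ≤ P := by
  have a1 : (1 - e) * (X * (m * mk / k1) * rk) ≤ M * P + (1 + e) * X * (V * rk) + 2 * e * X * (m * mk) * rk := by
    have b1 : (D * k1) * ((1 - e) * (X * (m * mk / k1) * rk)) ≤
        (D * k1) * (M * P + (1 + e) * X * (V * rk) + 2 * e * X * (m * mk) * rk) := by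
      have e1 : (D * k1) * ((1 - e) * (X * (m * mk / k1) * rk)) = (1 - e) * (X * (m * D) * (mk * rk)) := by
        field_simp
      rw [e1]
      refine h1.trans (le_of_eq ?_)
      ring
    exact le_of_mul_le_mul_left b1 (by positivity)
  have hXr : 0 < X * rk := by positivity
  have a2 := mul_le_mul_of_nonneg_left h2 hXr.le
  have a3 := mul_le_mul_of_nonneg_left he hXr.le
  have a4 : M * ((lm - 2 * ε) * (X * (Mk * rk))) ≤ M * P := by
    have e2 : M * ((lm - 2 * ε) * (X * (Mk * rk))) = X * rk * ((lm - ε) * (M * Mk)) - X * rk * (ε * (M * Mk)) := by ring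
    rw [e2]
    have e3 : X * rk * ((lm - ε) * (M * Mk) + V) = X * rk * ((lm - ε) * (M * Mk)) + X * rk * V := by ring
    have e4 : X * rk * (e * (m * mk / k1 + V + 2 * (m * mk))) =
        e * (X * rk * (m * mk / k1)) + e * (X * rk * V) + 2 * e * (X * rk * (m * mk)) := by ring
    have e5 : (1 - e) * (X * (m * mk / k1) * rk) = X * rk * (m * mk / k1) - e * (X * rk * (m * mk / k1)) := by ring
    have e6 : (1 + e) * X * (V * rk) = X * rk * V + e * (X * rk * V) := by ring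
    have e7 : 2 * e * X * (m * mk) * rk = 2 * e * (X * rk * (m * mk)) := by ring
    rw [e3] at a2
    rw [e4] at a3
    rw [e5, e6, e7] at a1
    linarith
  exact le_of_mul_le_mul_left a4 hM

lemma choose_fac_le (j k : ℕ) : (k.factorial : ℝ) * (j.choose k : ℕ) ≤ (j : ℝ) ^ k := by
  have h := Nat.choose_le_pow_div (α := ℝ) k j
  have hk : (0 : ℝ) < k.factorial := by exact_mod_cast k.factorial_pos
  rw [le_div_iff₀ hk] at h
  linarith

/-- the window counts against the primes -/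
lemma QW_up (k Lw N : ℕ) : ((k + 1).factorial : ℝ) * QW k Lw N ≤
    ((k : ℝ) + 1) * (∑ p ∈ pr N, ∑ j ∈ range Lw, (NW j (p + 1) : ℝ) ^ k + (Lw : ℝ) * (Lw * (Lw : ℝ) ^ k)) := by
  classical
  have h0 : QW k Lw N = ((∑ n ∈ Icc 1 N, (NW Lw n).choose (k + 1) : ℕ) : ℝ) := by
    rw [sum_NW]
    unfold QW
    push_cast
    rfl
  have h1 : QW k Lw N ≤ ∑ p ∈ pr (N + Lw), ∑ j ∈ range Lw, (((NW j (p + 1)).choose k : ℕ) : ℝ) := by
    rw [h0]
    have := win_to_anc k Lw N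
    exact_mod_cast this
  have h2 : (k.factorial : ℝ) * ∑ p ∈ pr (N + Lw), ∑ j ∈ range Lw, (((NW j (p + 1)).choose k : ℕ) : ℝ) ≤
      ∑ p ∈ pr (N + Lw), ∑ j ∈ range Lw, (NW j (p + 1) : ℝ) ^ k := by
    rw [mul_sum]
    apply sum_le_sum
    intro p _
    rw [mul_sum]
    exact sum_le_sum fun j _ => choose_fac_le _ _
  have h3 : ∑ p ∈ pr (N + Lw), ∑ j ∈ range Lw, (NW j (p + 1) : ℝ) ^ k ≤
      ∑ p ∈ pr N, ∑ j ∈ range Lw, (NW j (p + 1) : ℝ) ^ k + (Lw : ℝ) * (Lw * (Lw : ℝ) ^ k) := by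
    have hsub : pr N ⊆ pr (N + Lw) := pr_mono (Nat.le_add_right _ _)
    rw [← sum_sdiff hsub, add_comm]
    apply add_le_add le_rfl
    have h4 : ∀ p ∈ pr (N + Lw) \ pr N, ∑ j ∈ range Lw, (NW j (p + 1) : ℝ) ^ k ≤ Lw * (Lw : ℝ) ^ k := by
      intro p _
      have h5 : ∀ j ∈ range Lw, (NW j (p + 1) : ℝ) ^ k ≤ (Lw : ℝ) ^ k := by
        intro j hj
        rw [mem_range] at hj
        apply pow_le_pow_left₀ (Nat.cast_nonneg _)
        exact_mod_cast (NW_le j (p + 1)).trans hj.le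
      have h6 := sum_le_sum h5
      rw [sum_const, card_range, nsmul_eq_mul] at h6
      exact h6
    have h7 := sum_le_sum h4
    rw [sum_const, nsmul_eq_mul] at h7
    refine h7.trans ?_
    apply mul_le_mul_of_nonneg_right _ (by positivity)
    have h8 := card_sdiff_add_card_eq_card hsub
    have h9 := pr_add N Lw
    have h10 : (pr (N + Lw) \ pr N).card ≤ Lw := by omega
    exact_mod_cast h10
  have e : ((k + 1).factorial : ℝ) = ((k : ℝ) + 1) * k.factorial := by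
    rw [Nat.factorial_succ]; push_cast; ring
  rw [e, mul_assoc]
  apply mul_le_mul_of_nonneg_left _ (by positivity)
  calc (k.factorial : ℝ) * QW k Lw N ≤
      k.factorial * ∑ p ∈ pr (N + Lw), ∑ j ∈ range Lw, (((NW j (p + 1)).choose k : ℕ) : ℝ) :=
        mul_le_mul_of_nonneg_left h1 (Nat.cast_nonneg _)
    _ ≤ _ := h2.trans h3

open Classical in
/-- all primes: good and bad ones -/
lemma all_primes (k M M' Δ N : ℕ) {β t : ℝ} (hβ : 0 < β) (ht : 1 < t) (htk : t ^ k = (k : ℝ) + 1) (Bd : Finset ℕ)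
    (hBd : ∀ p ∈ pr N, p ∉ Bd → ∀ i < M + M', (NW Δ (p + 1 + i * Δ) : ℝ) ≤ β) (hBs : Bd ⊆ pr N) :
    ∑ p ∈ pr N, ∑ j ∈ range ((M + M') * Δ), (NW j (p + 1) : ℝ) ^ k ≤
      Δ * (M * ∑ p ∈ pr N, (NW (M * Δ) (p + 1) : ℝ) ^ k +
        (pr N).card * (M' * (M' * β / (t - 1)) ^ k + (((M : ℝ) + M') * β) ^ k)) +
      ((M + M') * Δ : ℕ) * ∑ p ∈ Bd, (NW ((M + M') * Δ) (p + 1) : ℝ) ^ k := by
  have ht1 : 0 < t - 1 := by linarith
  set V := M' * (M' * β / (t - 1)) ^ k + (((M : ℝ) + M') * β) ^ k with hV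
  have hV0 : 0 ≤ V := by positivity
  have h1 : ∀ p ∈ pr N, ∑ j ∈ range ((M + M') * Δ), (NW j (p + 1) : ℝ) ^ k ≤
      Δ * (M * (NW (M * Δ) (p + 1) : ℝ) ^ k + V) +
      (if p ∈ Bd then ((M + M') * Δ : ℕ) * (NW ((M + M') * Δ) (p + 1) : ℝ) ^ k else 0) := by
    intro p hp
    by_cases h : p ∈ Bd
    · rw [if_pos h]
      have h2 : ∀ j ∈ range ((M + M') * Δ), (NW j (p + 1) : ℝ) ^ k ≤ (NW ((M + M') * Δ) (p + 1) : ℝ) ^ k := by
        intro j hj
        rw [mem_range] at hj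
        apply pow_le_pow_left₀ (Nat.cast_nonneg _)
        exact_mod_cast NW_mono hj.le
      have h3 := sum_le_sum h2
      rw [sum_const, card_range, nsmul_eq_mul] at h3
      have h4 : 0 ≤ (Δ : ℝ) * (M * (NW (M * Δ) (p + 1) : ℝ) ^ k + V) := by positivity
      linarith
    · rw [if_neg h, add_zero]
      exact good_prime k M M' Δ p hβ ht htk (hBd p hp h)
  refine (sum_le_sum h1).trans (le_of_eq ?_)
  rw [sum_add_distrib, ← mul_sum, sum_add_distrib, ← mul_sum, sum_const, nsmul_eq_mul, ← sum_filter]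
  congr 1
  rw [mul_sum]
  apply sum_congr _ (fun _ _ => rfl)
  ext p
  rw [mem_filter]
  exact ⟨fun h => h.2, fun h => ⟨hBs h, h⟩⟩

end Pool.Agent.L0h43.TA
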