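import Pool.Agent.L0h43.TA.Imp3

/-!
# A better lower bound for the anchored averages, IV
-/

set_option autoImplicit false

namespace Pool.Agent.L0h43.TA

open Finset Filter Topology Pool.Agent.H387R2

lemma bern_aux {x ε : ℝ} (hε : 0 ≤ ε) (hx : x ≤ 1) : x - ε ≤ (x - 2 * (ε / 4)) * (1 - ε / 2) := by
  have h1 : 0 ≤ (1 - x) * ε := mul_nonneg (by linarith) hε
  have h2 : 0 ≤ ε * ε := mul_self_nonneg _
  linarith

open Classical in
/-- **lower bound for the moments of the number of primes in a window after a prime** -/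
theorem imp_core (c : ℝ) (hc : 1 < c) (hc4 : c ≤ 4) (k : ℕ) (hk : 1 ≤ k) (ε : ℝ) (hε : 0 < ε) :
    ∃ (M : ℕ) (δ η K : ℝ), 1 ≤ M ∧ 0 < δ ∧ 0 < η ∧ 1 ≤ K ∧ ∀ A : ℝ, ∀ᶠ N : ℕ in atTop, ∀ H : ℕ,
      K * Real.log N ≤ H → (H : ℝ) ≤ Real.log N ^ A → AEp c δ η N (H / M + Gx δ (H / M)) →
      (lam c k - ε) * (N / Real.log N * (H / Real.log N) ^ k) ≤ ∑ p ∈ pr N, (NW H (p + 1) : ℝ) ^ k := by
  obtain ⟨M, M', hM1, δ, hδ, hδ1, hpar⟩ := par c hc k hk (ε / 4) (by positivity)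
  have ht := tt_gt hk
  have htk := tt_pow hk
  have ht1 : 0 < tt k - 1 := by linarith
  have hM0 : (0 : ℝ) < M := by exact_mod_cast hM1
  have hk1 : (0 : ℝ) < (k : ℝ) + 1 := by positivity
  have hcc : 0 < c + 3 * δ := by linarith
  obtain ⟨m, hm⟩ : ∃ m : ℕ, m = M + M' := ⟨_, rfl⟩
  have hmR : (m : ℝ) = (M : ℝ) + M' := by rw [hm]; push_cast; ring
  have hm1 : 1 ≤ m := by omega
  have hm0 : (0 : ℝ) < m := by exact_mod_cast hm1
  set V : ℝ := M' * (M' * (c + 3 * δ) / (tt k - 1)) ^ k + (((M : ℝ) + M') * (c + 3 * δ)) ^ k with hV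
  have hV0 : 0 ≤ V := by positivity
  obtain ⟨B0, hB0⟩ : ∃ B0 : ℝ, B0 = (m : ℝ) * (m : ℝ) ^ k / ((k : ℝ) + 1) + V + 2 * ((m : ℝ) * (m : ℝ) ^ k) := ⟨_, rfl⟩
  have hB00 : 0 < B0 := by rw [hB0]; positivity
  obtain ⟨e, he⟩ : ∃ e : ℝ, e = min 1 (ε / 4 * ((M : ℝ) * (M : ℝ) ^ k) / B0) := ⟨_, rfl⟩
  have he0 : 0 < e := by rw [he]; exact lt_min one_pos (by positivity)
  have he1 : e ≤ 1 := by rw [he]; exact min_le_left _ _
  have heB : e * B0 ≤ ε / 4 * ((M : ℝ) * (M : ℝ) ^ k) := by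
    have : e ≤ ε / 4 * ((M : ℝ) * (M : ℝ) ^ k) / B0 := by rw [he]; exact min_le_right _ _
    rwa [le_div_iff₀ hB00] at this
  obtain ⟨C, hC, hmom⟩ := mom_dis (2 * k)
  obtain ⟨η, hη, hbad⟩ := bad_dis c (by linarith) hc4 δ (e ^ 2 / (m * C)) hδ hδ1 (by positivity)
  obtain ⟨K₀, hK₀, hQW⟩ := QW_low k e he0 he1
  refine ⟨M, δ, η, 2 * K₀ + 2 * M, hM1, hδ, hη, by linarith, fun A => ?_⟩
  filter_upwards [hmom (A + 1), hbad (A + 1), hQW (A + 1), pi_up e he0, ev_log (max (2 * (m + 1)) (4 * k * M / ε)),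
    ev_small ((A + 1) + (k + 1 : ℕ)) e he0, eventually_ge_atTop 1] with N h1 h2 h3 h4 h5 h6 h7 H hH1 hH2 hAE
  obtain ⟨L, hL⟩ : ∃ L : ℝ, L = Real.log (N : ℝ) := ⟨_, rfl⟩
  rw [← hL] at h1 h2 h3 h4 h5 h6 hH1 hH2 ⊢
  have hLm : 2 * ((m : ℝ) + 1) ≤ L := (le_max_left _ _).trans h5
  have hLε : 4 * k * M / ε ≤ L := (le_max_right _ _).trans h5
  have hL0 : 0 < L := by linarith
  have hL1 : 1 ≤ L := by linarith
  have hN0 : (0 : ℝ) < N := by exact_mod_cast h7
  have hM1R : (1 : ℝ) ≤ M := by exact_mod_cast hM1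
  have hHM : 2 * M * L ≤ H := by
    refine le_trans ?_ hH1
    have : 0 ≤ K₀ * L := by positivity
    linarith
  have hHK : 2 * (K₀ * L) ≤ H := by
    refine le_trans ?_ hH1
    have : 0 ≤ (M : ℝ) * L := by positivity
    linarith
  have hH0 : (0 : ℝ) < H := by
    have : 0 < 2 * M * L := by positivity
    linarith
  -- the step
  obtain ⟨D, hD⟩ : ∃ D : ℕ, D = H / M := ⟨_, rfl⟩
  rw [← hD] at hAE
  have hMD : M * D ≤ H := by rw [hD]; exact Nat.mul_div_le H M
  have hMD' : H < M * D + M := by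
    rw [hD]
    have := Nat.lt_mul_div_succ H hM1
    rw [Nat.mul_succ] at this
    exact this
  have hMDR : (M : ℝ) * D ≤ H := by exact_mod_cast hMD
  have hMDR' : (H : ℝ) < M * D + M := by exact_mod_cast hMD'
  have hDL : L ≤ D := by
    have g1 : (M : ℝ) * (2 * L) < M * (D + 1) := by linarith
    have g2 : 2 * L < D + 1 := lt_of_mul_lt_mul_left g1 hM0.le
    linarith
  have hD0 : (0 : ℝ) < D := by linarith
  have hDH : (D : ℝ) ≤ H := by
    refine le_trans ?_ hMDR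
    exact le_mul_of_one_le_left hD0.le hM1R
  have hLA1 : L ^ (A + 1) = L * L ^ A := by rw [Real.rpow_add hL0, Real.rpow_one, mul_comm]
  have hDA : (D : ℝ) ≤ L ^ (A + 1) := by
    rw [hLA1]
    exact (hDH.trans hH2).trans (le_mul_of_one_le_left (by positivity) hL1)
  have hmDA : ((m * D : ℕ) : ℝ) ≤ L ^ (A + 1) := by
    rw [hLA1]
    push_cast
    exact mul_le_mul (by linarith) (hDH.trans hH2) hD0.le hL0.le
  have hmDA1 : ((m * D : ℕ) : ℝ) + 1 ≤ L ^ (A + 1) := by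
    rw [hLA1]
    push_cast
    have g1 : (1 : ℝ) ≤ L ^ A := by linarith [hDH.trans hH2]
    have g2 : (m : ℝ) * D ≤ m * L ^ A := mul_le_mul_of_nonneg_left (hDH.trans hH2) hm0.le
    have g3 : ((m : ℝ) + 1) * L ^ A ≤ L * L ^ A := mul_le_mul_of_nonneg_right (by linarith) (by positivity)
    linarith
  have hRgD : Rg (A + 1) N D := by
    unfold Rg
    rw [← hL]
    exact ⟨hDL, hDA⟩
  have hRgm : Rg (A + 1) N (m * D) := by
    unfold Rg
    rw [← hL]
    refine ⟨?_, hmDA⟩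
    push_cast
    have : (D : ℝ) ≤ m * D := le_mul_of_one_le_left hD0.le (by exact_mod_cast hm1)
    linarith
  -- the bad primes
  obtain ⟨r, hr⟩ : ∃ r : ℝ, r = D / L := ⟨_, rfl⟩
  have hr0 : 0 < r := by rw [hr]; positivity
  obtain ⟨X, hX⟩ : ∃ X : ℝ, X = N / L := ⟨_, rfl⟩
  have hX0 : 0 < X := by rw [hX]; positivity
  obtain ⟨β, hβ⟩ : ∃ β : ℝ, β = (c + 3 * δ) * r := ⟨_, rfl⟩
  have hβ0 : 0 < β := by rw [hβ]; positivity
  have hβ' : (c + 3 * δ) * D / L = β := by rw [hβ, hr]; ring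
  set Bi : ℕ → Finset ℕ := fun i => (pr N).filter (fun p => β < (NW D (sh ((1 + i * D : ℕ) : ℤ) p) : ℝ)) with hBi
  set Bd : Finset ℕ := (range m).biUnion Bi with hBd
  have hBic : ∀ i ∈ range m, ((Bi i).card : ℝ) ≤ e ^ 2 / (m * C) * X := by
    intro i hi
    rw [mem_range] at hi
    have g := h2 D ((1 + i * D : ℕ) : ℤ) hRgD (by
      rw [Int.natAbs_natCast]
      refine le_trans ?_ hmDA1
      have : i * D ≤ m * D := Nat.mul_le_mul_right D hi.le
      have g2 : 1 + i * D ≤ m * D + 1 := by omega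
      exact_mod_cast g2) hAE
    rw [hβ', ← hX] at g
    exact g
  have hBdc : (Bd.card : ℝ) ≤ e ^ 2 / C * X := by
    have g1 : (Bd.card : ℝ) ≤ ∑ i ∈ range m, ((Bi i).card : ℝ) := by
      have := card_biUnion_le (s := range m) (t := Bi)
      exact_mod_cast this
    refine g1.trans ((sum_le_sum hBic).trans (le_of_eq ?_))
    rw [sum_const, card_range, nsmul_eq_mul]
    field_simp
  have hBs : Bd ⊆ pr N := by
    rw [hBd]
    exact biUnion_subset.2 fun i _ => filter_subset _ _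
  have hgood : ∀ p ∈ pr N, p ∉ Bd → ∀ i < M + M', (NW D (p + 1 + i * D) : ℝ) ≤ β := by
    intro p hp hpB i hi
    by_contra hcon
    apply hpB
    rw [hBd, mem_biUnion]
    refine ⟨i, mem_range.2 (by omega), ?_⟩
    rw [hBi]
    simp only
    rw [mem_filter, sh_nat]
    refine ⟨hp, ?_⟩
    have e1 : p + (1 + i * D) = p + 1 + i * D := by ring
    rw [e1]
    exact not_le.1 hcon
  have hall := all_primes k M M' D N hβ0 ht htk Bd hgood hBs
  -- the contribution of the bad primes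
  obtain ⟨mk, hmk⟩ : ∃ mk : ℝ, mk = (m : ℝ) ^ k := ⟨_, rfl⟩
  obtain ⟨rk, hrk⟩ : ∃ rk : ℝ, rk = r ^ k := ⟨_, rfl⟩
  have hrk0 : 0 < rk := by rw [hrk]; positivity
  have hmk0 : 0 < mk := by rw [hmk]; positivity
  have hbadsum : ∑ p ∈ Bd, (NW (m * D) (p + 1) : ℝ) ^ k ≤ e * X * (mk * rk) := by
    have g1 := h1 (m * D) (1 : ℤ) hRgm (by
      simp only [Int.natAbs_one, Nat.cast_one]
      refine le_trans ?_ hmDA1
      have : (0 : ℝ) ≤ ((m * D : ℕ) : ℝ) := Nat.cast_nonneg _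
      linarith)
    have g2 : ∑ p ∈ Bd, ((NW (m * D) (p + 1) : ℝ) ^ k) ^ 2 ≤ C * X * (m * r) ^ (2 * k) := by
      have e1 : (C * (N / L) * (((m * D : ℕ) : ℝ) / L) ^ (2 * k)) = C * X * (m * r) ^ (2 * k) := by
        rw [hX, hr]
        push_cast
        rw [mul_div_assoc (m : ℝ) (D : ℝ) L]
      rw [e1] at g1
      refine le_trans ?_ g1
      have g3 : ∀ p, ((NW (m * D) (p + 1) : ℝ) ^ k) ^ 2 = (NW (m * D) (sh 1 p) : ℝ) ^ (2 * k) := by
        intro p
        have : sh 1 p = p + 1 := sh_nat 1 p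
        rw [this, ← pow_mul]
        congr 1
        ring
      rw [sum_congr rfl (fun p _ => g3 p)]
      apply sum_le_sum_of_subset_of_nonneg hBs
      intro n _ _
      positivity
    refine (cs_bad Bd _ hBdc g2 (by positivity)).trans (le_of_eq ?_)
    have e2 : e ^ 2 / C * X * (C * X * (m * r) ^ (2 * k)) = (e * X * (mk * rk)) ^ 2 := by
      rw [hmk, hrk, ← mul_pow, mul_pow (e * X), ← pow_mul, mul_comm k 2]
      field_simp
    rw [e2]
    exact Real.sqrt_sq (by positivity)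
  -- the window side
  have hwin := h3 (m * D) (by
    push_cast
    have g1 : K₀ * L ≤ M * D := by linarith
    have g2 : (M : ℝ) * D ≤ m * D := mul_le_mul_of_nonneg_right (by rw [hmR]; have : (0:ℝ) ≤ M' := Nat.cast_nonneg _; linarith) hD0.le
    linarith) hmDA
  have hQWup := QW_up k (m * D) N
  rw [← hm] at hall
  rw [← hmR] at hall
  set P : ℝ := ∑ p ∈ pr N, (NW (M * D) (p + 1) : ℝ) ^ k with hP
  have hLw : ((m * D : ℕ) : ℝ) = m * D := by push_cast; ring
  have hNX : (N : ℝ) * (((m * D : ℕ) : ℝ) / L) ^ (k + 1) = X * (m * D) * (mk * rk) := by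
    rw [hLw, mul_div_assoc, ← hr, pow_succ, mul_pow, ← hmk, ← hrk, hX, hr]
    field_simp
  have hVr : M' * (M' * β / (tt k - 1)) ^ k + ((m : ℝ) * β) ^ k = V * rk := by
    rw [hV, hβ, hrk, hmR]
    have q1 : (M' * ((c + 3 * δ) * r) / (tt k - 1)) ^ k = (M' * (c + 3 * δ) / (tt k - 1)) ^ k * r ^ k := by
      rw [← mul_pow]; congr 1; ring
    have q2 : (((M : ℝ) + M') * ((c + 3 * δ) * r)) ^ k = (((M : ℝ) + M') * (c + 3 * δ)) ^ k * r ^ k := by
      rw [← mul_pow]; congr 1; ring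
    rw [q1, q2]
    ring
  rw [hVr] at hall
  have hprc : ((pr N).card : ℝ) ≤ (1 + e) * X := by rw [hX]; exact h4
  have hedge : ((m * D : ℕ) : ℝ) * ((m * D : ℕ) * ((m * D : ℕ) : ℝ) ^ k) ≤ e * X * (m * D) * (mk * rk) := by
    have g1 : ((m * D : ℕ) : ℝ) * L ^ (k + 1) ≤ e * N := by
      refine le_trans ?_ h6
      rw [Real.rpow_add hL0, Real.rpow_natCast]
      exact mul_le_mul_of_nonneg_right hmDA (by positivity)
    rw [hLw] at g1 ⊢
    have e1 : (m : ℝ) * D * (m * D * ((m : ℝ) * D) ^ k) = (m * D * L ^ (k + 1)) / L * (m * D) * (mk * rk) := by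
      rw [hmk, hrk, hr, div_pow, mul_pow, pow_succ]
      field_simp
    rw [e1]
    apply mul_le_mul_of_nonneg_right _ (by positivity)
    apply mul_le_mul_of_nonneg_right _ (by positivity)
    rw [hX, ← mul_div_assoc]
    exact div_le_div_of_nonneg_right g1 hL0.le
  have hmain : (1 - e) * (X * (m * D) * (mk * rk)) ≤
      ((k : ℝ) + 1) * (D * (M * P + (1 + e) * X * (V * rk)) + 2 * e * X * (m * D) * (mk * rk)) := by
    rw [← hNX]
    refine hwin.trans (hQWup.trans ?_)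
    apply mul_le_mul_of_nonneg_left _ hk1.le
    have g1 : ((m * D : ℕ) : ℝ) * ∑ p ∈ Bd, (NW (m * D) (p + 1) : ℝ) ^ k ≤ (m * D) * (e * X * (mk * rk)) := by
      rw [hLw]
      exact mul_le_mul_of_nonneg_left hbadsum (by positivity)
    have g2 : (D : ℝ) * (M * P + (pr N).card * (V * rk)) ≤ D * (M * P + (1 + e) * X * (V * rk)) := by
      apply mul_le_mul_of_nonneg_left _ hD0.le
      have := mul_le_mul_of_nonneg_right hprc (show 0 ≤ V * rk by positivity)
      linarith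
    have e3 : 2 * e * X * (m * D) * (mk * rk) = (m * D) * (e * X * (mk * rk)) + e * X * (m * D) * (mk * rk) := by ring
    rw [e3]
    linarith
  have hpar2 : (lam c k - ε / 4) * ((M : ℝ) * (M : ℝ) ^ k) + V ≤ (m : ℝ) * mk / ((k : ℝ) + 1) := by
    have e1 : (m : ℝ) * mk = ((M : ℝ) + M') ^ (k + 1) := by rw [hmk, hmR, pow_succ, mul_comm]
    have e2 : (M : ℝ) * (M : ℝ) ^ k = (M : ℝ) ^ (k + 1) := by rw [pow_succ, mul_comm]
    rw [e1, e2]
    exact hpar
  have hfin := final_arith (D := (D : ℝ)) (Mk := (M : ℝ) ^ k) hD0 hk1 hM0 hX0 hrk0 hmain hpar2 (by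
    rw [hmk, ← hB0]
    exact heB)
  -- from `M D` to `H`
  have hPH : P ≤ ∑ p ∈ pr N, (NW H (p + 1) : ℝ) ^ k := by
    rw [hP]
    apply sum_le_sum
    intro p _
    apply pow_le_pow_left₀ (Nat.cast_nonneg _)
    exact_mod_cast NW_mono hMD
  refine le_trans ?_ (hfin.trans hPH)
  have hlm1 := lam_le_one hc hk
  rw [← hX]
  rcases le_or_gt (lam c k) ε with hle | hgt
  · have g1 : (lam c k - ε) * (X * (H / L) ^ k) ≤ 0 := mul_nonpos_of_nonpos_of_nonneg (by linarith) (by positivity)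
    rcases le_or_gt (lam c k - 2 * (ε / 4)) 0 with h8 | h8
    · -- both sides are nonpositive
      have g2 : (H / L : ℝ) ^ k ≥ (M : ℝ) ^ k * rk := by
        rw [hrk, ← mul_pow]
        apply pow_le_pow_left₀ (by positivity)
        rw [hr, ← mul_div_assoc]
        exact div_le_div_of_nonneg_right hMDR hL0.le
      have g3 : (lam c k - ε) * (X * (H / L) ^ k) ≤ (lam c k - ε) * (X * ((M : ℝ) ^ k * rk)) :=
        mul_le_mul_of_nonpos_left (mul_le_mul_of_nonneg_left g2 hX0.le) (by linarith)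
      refine g3.trans ?_
      exact mul_le_mul_of_nonneg_right (by linarith) (by positivity)
    · exact g1.trans (by positivity)
  · -- Bernoulli
    have g1 : (1 - ε / 2) * (H / L) ^ k ≤ (M : ℝ) ^ k * rk := by
      rw [hrk, ← mul_pow]
      have g2 : (H / L) * (1 - M / H) ≤ (M : ℝ) * r := by
        rw [hr]
        have e1 : (H / L) * (1 - M / H) = ((H : ℝ) - M) / L := by field_simp
        rw [e1, ← mul_div_assoc]
        exact div_le_div_of_nonneg_right (by linarith) hL0.le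
      have hMH : (M : ℝ) / H ≤ 1 / 2 := by
        rw [div_le_iff₀ hH0]
        have : 2 * (M : ℝ) * 1 ≤ 2 * M * L := mul_le_mul_of_nonneg_left hL1 (by positivity)
        linarith
      have g3 : 0 ≤ 1 - (M : ℝ) / H := by linarith
      have g4 : ((H / L) * (1 - M / H)) ^ k ≤ ((M : ℝ) * r) ^ k := pow_le_pow_left₀ (by positivity) g2 k
      refine le_trans ?_ g4
      rw [mul_pow, mul_comm]
      apply mul_le_mul_of_nonneg_left _ (by positivity)
      have g5 := one_add_mul_le_pow (a := -((M : ℝ) / H)) (by linarith) k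
      have g6 : (k : ℝ) * (M / H) ≤ ε / 2 := by
        rw [mul_div_assoc', div_le_iff₀ hH0]
        rw [div_le_iff₀ hε] at hLε
        have g7 : 2 * (M : ℝ) * L ≤ H := hHM
        have g8 : (L : ℝ) ≤ H := by
          have : (L : ℝ) ≤ 2 * M * L := le_mul_of_one_le_left hL0.le (by linarith)
          linarith
        have g9 : L * ε ≤ H * ε := mul_le_mul_of_nonneg_right g8 hε.le
        have g9' : 0 ≤ H * ε := by positivity
        clear * - g9 g9' hLε
        linarith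
      have e5 : 1 + (k : ℝ) * -((M : ℝ) / H) = 1 - k * (M / H) := by ring
      have e6 : 1 + -((M : ℝ) / H) = 1 - M / H := by ring
      rw [e5, e6] at g5
      linarith
    have g10 : 0 ≤ lam c k - 2 * (ε / 4) := by linarith
    have g11 : (lam c k - ε) ≤ (lam c k - 2 * (ε / 4)) * (1 - ε / 2) := bern_aux hε.le hlm1
    have hq0 : 0 ≤ X * (H / L) ^ k := by positivity
    calc (lam c k - ε) * (X * (H / L) ^ k) ≤ ((lam c k - 2 * (ε / 4)) * (1 - ε / 2)) * (X * (H / L) ^ k) :=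
          mul_le_mul_of_nonneg_right g11 hq0
      _ = (lam c k - 2 * (ε / 4)) * (X * ((1 - ε / 2) * (H / L) ^ k)) := by ring
      _ ≤ _ := mul_le_mul_of_nonneg_left (mul_le_mul_of_nonneg_left g1 hX0.le) g10

end Pool.Agent.L0h43.TA
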