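import Pool.Agent.L0h43.TA.Fin

/-!
# From integers to real `x`
-/

set_option autoImplicit false

namespace Pool.Agent.L0h43.TA

open Finset Filter Topology Pool.Agent.H387R2

lemma floor_ratio : Tendsto (fun x : ℝ => ((⌊x⌋₊ : ℕ) : ℝ) / x) atTop (𝓝 1) :=
  tendsto_nat_floor_div_atTop

lemma log_ratio : Tendsto (fun x : ℝ => Real.log ((⌊x⌋₊ : ℕ) : ℝ) / Real.log x) atTop (𝓝 1) := by
  have h1 : Tendsto (fun x : ℝ => Real.log (((⌊x⌋₊ : ℕ) : ℝ) / x)) atTop (𝓝 (Real.log 1)) :=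
    floor_ratio.log (by norm_num)
  rw [Real.log_one] at h1
  have h2 : Tendsto (fun x : ℝ => 1 + Real.log (((⌊x⌋₊ : ℕ) : ℝ) / x) / Real.log x) atTop (𝓝 (1 + 0)) := by
    apply Tendsto.const_add
    exact h1.div_atTop Real.tendsto_log_atTop
  rw [add_zero] at h2
  refine h2.congr' ?_
  filter_upwards [eventually_gt_atTop 1] with x hx
  have hx0 : 0 < x := by linarith
  have hf : (0 : ℝ) < ((⌊x⌋₊ : ℕ) : ℝ) := by
    have : 0 < ⌊x⌋₊ := Nat.floor_pos.2 hx.le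
    exact_mod_cast this
  have hl : 0 < Real.log x := Real.log_pos hx
  rw [Real.log_div hf.ne' hx0.ne']
  field_simp
  ring

/-- the main term at `⌊x⌋` and at `x` -/
lemma main_ratio (j : ℕ) : Tendsto (fun x : ℝ =>
    (((⌊x⌋₊ : ℕ) : ℝ) / Real.log ((⌊x⌋₊ : ℕ) : ℝ) ^ j) / (x / Real.log x ^ j)) atTop (𝓝 1) := by
  have h1 : Tendsto (fun x : ℝ => (((⌊x⌋₊ : ℕ) : ℝ) / x) /
      (Real.log ((⌊x⌋₊ : ℕ) : ℝ) / Real.log x) ^ j) atTop (𝓝 (1 / 1 ^ j)) :=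
    floor_ratio.div (log_ratio.pow j) (by norm_num)
  rw [one_pow, div_one] at h1
  refine h1.congr' ?_
  filter_upwards [eventually_gt_atTop 1, eventually_ge_atTop 3] with x hx hx3
  have hx0 : 0 < x := by linarith
  have hl : 0 < Real.log x := Real.log_pos hx
  have h3 : (3 : ℝ) ≤ ((⌊x⌋₊ : ℕ) : ℝ) := by
    have : 3 ≤ ⌊x⌋₊ := Nat.le_floor (by exact_mod_cast hx3)
    exact_mod_cast this
  have hl' : 0 < Real.log ((⌊x⌋₊ : ℕ) : ℝ) := Real.log_pos (by linarith)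
  rw [div_pow]
  field_simp

lemma main_bd (j : ℕ) (e : ℝ) (he : 0 < e) : ∀ᶠ x : ℝ in atTop,
    (1 - e) * (x / Real.log x ^ j) ≤ ((⌊x⌋₊ : ℕ) : ℝ) / Real.log ((⌊x⌋₊ : ℕ) : ℝ) ^ j ∧
    ((⌊x⌋₊ : ℕ) : ℝ) / Real.log ((⌊x⌋₊ : ℕ) : ℝ) ^ j ≤ (1 + e) * (x / Real.log x ^ j) := by
  have h1 := (main_ratio j).eventually_const_lt (show (1 - e : ℝ) < 1 by linarith)
  have h2 := (main_ratio j).eventually_lt_const (show (1 : ℝ) < 1 + e by linarith)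
  filter_upwards [h1, h2, eventually_gt_atTop 1] with x h3 h4 hx
  have hx0 : 0 < x := by linarith
  have hl : 0 < Real.log x := Real.log_pos hx
  have h5 : 0 < x / Real.log x ^ j := by positivity
  rw [lt_div_iff₀ h5] at h3
  rw [div_lt_iff₀ h5] at h4
  exact ⟨h3.le, h4.le⟩

lemma tend_floor : Tendsto (fun x : ℝ => ⌊x⌋₊) atTop atTop := tendsto_nat_floor_atTop

/-- the log of the floor, crudely -/
lemma log_floor_le (x : ℝ) (hx : 1 ≤ x) : Real.log ((⌊x⌋₊ : ℕ) : ℝ) ≤ Real.log x := by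
  apply Real.log_le_log
  · have : 0 < ⌊x⌋₊ := Nat.floor_pos.2 hx
    exact_mod_cast this
  · exact Nat.floor_le (by linarith)

lemma pow_floor (A : ℝ) : ∀ᶠ x : ℝ in atTop, Real.log x ^ A ≤ Real.log ((⌊x⌋₊ : ℕ) : ℝ) ^ (max A 0 + 1) := by
  have h1 := log_ratio.eventually_const_lt (show (1 / 2 : ℝ) < 1 by norm_num)
  have h2 : ∀ᶠ x : ℝ in atTop, (2 : ℝ) ^ (max A 0) ≤ Real.log ((⌊x⌋₊ : ℕ) : ℝ) :=
    tend_floor.eventually (ev_log _)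
  filter_upwards [h1, h2, eventually_gt_atTop (Real.exp 1)] with x h3 h4 hx
  have hx1 : 1 < x := by
    have := Real.add_one_le_exp (1 : ℝ)
    linarith
  have hl1 : 1 ≤ Real.log x := by
    rw [Real.le_log_iff_exp_le (by linarith)]
    exact hx.le
  have hl : 0 < Real.log x := by linarith
  rw [lt_div_iff₀ hl] at h3
  set M := Real.log ((⌊x⌋₊ : ℕ) : ℝ) with hM
  have hM0 : 0 < M := by linarith
  have hA : 0 ≤ max A 0 := le_max_right _ _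
  calc Real.log x ^ A ≤ Real.log x ^ (max A 0) := Real.rpow_le_rpow_of_exponent_le hl1 (le_max_left _ _)
    _ ≤ (2 * M) ^ (max A 0) := Real.rpow_le_rpow hl.le (by linarith) hA
    _ = 2 ^ (max A 0) * M ^ (max A 0) := Real.mul_rpow (by norm_num) hM0.le
    _ ≤ M * M ^ (max A 0) := mul_le_mul_of_nonneg_right h4 (by positivity)
    _ = M ^ (max A 0 + 1) := by rw [Real.rpow_add hM0, Real.rpow_one, mul_comm]

/-- upper bounds pass from `⌊x⌋` to `x` -/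
lemma up_real {a ε : ℝ} (ha : 0 ≤ a) (hε : 0 < ε) (j : ℕ) : ∀ᶠ x : ℝ in atTop,
    ∀ S Q : ℝ, 0 ≤ S →
      Q ≤ (a + ε / 2) * (S * (((⌊x⌋₊ : ℕ) : ℝ) / Real.log ((⌊x⌋₊ : ℕ) : ℝ) ^ j)) →
      Q ≤ (a + ε) * (S * (x / Real.log x ^ j)) := by
  obtain ⟨e, he⟩ : ∃ e : ℝ, e = ε / (2 * (a + ε)) := ⟨_, rfl⟩
  have he0 : 0 < e := by rw [he]; positivity
  have heq : e * (a + ε) = ε / 2 := by rw [he]; field_simp
  filter_upwards [main_bd j e he0, eventually_gt_atTop 1] with x h1 hx S Q hS hQ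
  have hx0 : 0 < x := by linarith
  have hl : 0 < Real.log x := Real.log_pos hx
  refine hQ.trans ?_
  have h2 : (a + ε / 2) * (1 + e) ≤ a + ε := by nlinarith
  have h3 := mul_le_mul_of_nonneg_left h1.2 hS
  calc (a + ε / 2) * (S * (((⌊x⌋₊ : ℕ) : ℝ) / Real.log ((⌊x⌋₊ : ℕ) : ℝ) ^ j)) ≤
      (a + ε / 2) * (S * ((1 + e) * (x / Real.log x ^ j))) :=
        mul_le_mul_of_nonneg_left h3 (by positivity)
    _ = ((a + ε / 2) * (1 + e)) * (S * (x / Real.log x ^ j)) := by ring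
    _ ≤ _ := mul_le_mul_of_nonneg_right h2 (by positivity)

/-- lower bounds pass from `⌊x⌋` to `x` -/
lemma lo_real {b ε : ℝ} (hb : b ≤ 1) (hε : 0 < ε) (j : ℕ) : ∀ᶠ x : ℝ in atTop,
    ∀ S Q : ℝ, 0 ≤ S → 0 ≤ Q →
      (b - ε / 2) * (S * (((⌊x⌋₊ : ℕ) : ℝ) / Real.log ((⌊x⌋₊ : ℕ) : ℝ) ^ j)) ≤ Q →
      (b - ε) * (S * (x / Real.log x ^ j)) ≤ Q := by
  filter_upwards [main_bd j (ε / 2) (by positivity), eventually_gt_atTop 1] with x h1 hx S Q hS hQ0 hQ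
  have hx0 : 0 < x := by linarith
  have hl : 0 < Real.log x := Real.log_pos hx
  have hpos : 0 ≤ S * (x / Real.log x ^ j) := by positivity
  rcases le_or_gt b ε with hbε | hbε
  · exact (mul_nonpos_of_nonpos_of_nonneg (by linarith) hpos).trans hQ0
  · refine le_trans ?_ hQ
    have h2 : b - ε ≤ (b - ε / 2) * (1 - ε / 2) := by nlinarith
    have h3 := mul_le_mul_of_nonneg_left h1.1 hS
    calc (b - ε) * (S * (x / Real.log x ^ j)) ≤ ((b - ε / 2) * (1 - ε / 2)) * (S * (x / Real.log x ^ j)) :=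
          mul_le_mul_of_nonneg_right h2 hpos
      _ = (b - ε / 2) * (S * ((1 - ε / 2) * (x / Real.log x ^ j))) := by ring
      _ ≤ _ := mul_le_mul_of_nonneg_left h3 (by linarith)

/-- **all scales, real `x`** -/
theorem all_real (k : ℕ) (hk : 1 ≤ k) (ε : ℝ) (hε : 0 < ε) : ∃ K : ℝ, 0 < K ∧ ∀ A : ℝ,
    ∀ᶠ x : ℝ in atTop, ∀ H : ℕ, K * Real.log x ≤ H → (H : ℝ) ≤ Real.log x ^ A →
      (1 - ε) * (SW k H * (x / Real.log x ^ (k + 1))) ≤ QW k H ⌊x⌋₊ ∧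
      QW k H ⌊x⌋₊ ≤ (4 ^ k + ε) * (SW k H * (x / Real.log x ^ (k + 1))) ∧
      (1 / ((k : ℝ) + 1) - ε) * (SA k H * (x / Real.log x ^ (k + 1))) ≤ QA k H ⌊x⌋₊ ∧
      QA k H ⌊x⌋₊ ≤ (4 ^ k + ε) * (SA k H * (x / Real.log x ^ (k + 1))) := by
  obtain ⟨K, hK1, h⟩ := all_scales k hk (ε / 2) (by positivity)
  have hk1 : (0 : ℝ) < (k : ℝ) + 1 := by positivity
  have hk1' : 1 / ((k : ℝ) + 1) ≤ 1 := by
    rw [div_le_one hk1]
    have : (0 : ℝ) ≤ k := Nat.cast_nonneg k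
    linarith
  refine ⟨K, by linarith, fun A => ?_⟩
  filter_upwards [tend_floor.eventually (h (max A 0 + 1)), pow_floor A, eventually_gt_atTop 1,
    up_real (a := 4 ^ k) (by positivity) hε (k + 1), lo_real (b := 1) le_rfl hε (k + 1),
    lo_real (b := 1 / ((k : ℝ) + 1)) hk1' hε (k + 1)] with x h1 h2 hx h3 h4 h5 H hH1 hH2
  obtain ⟨g1, g2, g3, g4⟩ := h1 H
    ((mul_le_mul_of_nonneg_left (log_floor_le x hx.le) (by linarith)).trans hH1) (hH2.trans h2)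
  exact ⟨h4 _ _ (SW_nonneg k H) (QW_nonneg _ _ _) g1, h3 _ _ (SW_nonneg k H) g2,
    h5 _ _ (SA_nonneg k H) (QA_nonneg _ _ _) g3, h3 _ _ (SA_nonneg k H) g4⟩

/-- **big scales, real `x`** -/
theorem big_real (k : ℕ) (hk : 1 ≤ k) (ε : ℝ) (hε : 0 < ε) (β : ℝ) (hβ : 20 < β) (A : ℝ) :
    ∀ᶠ x : ℝ in atTop, ∀ H : ℕ, Real.log x ^ β ≤ H → (H : ℝ) ≤ Real.log x ^ A →
      QW k H ⌊x⌋₊ ≤ ((18 / 5) ^ k + ε) * (SW k H * (x / Real.log x ^ (k + 1))) ∧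
      QA k H ⌊x⌋₊ ≤ ((18 / 5) ^ k + ε) * (SA k H * (x / Real.log x ^ (k + 1))) := by
  have h := big_scales k hk (ε / 2) (by positivity) β hβ (max A 0 + 1)
  filter_upwards [tend_floor.eventually h, pow_floor A, eventually_ge_atTop 1, tend_floor.eventually (ev_log 0),
    up_real (a := (18 / 5) ^ k) (by positivity) hε (k + 1)] with x h1 h2 hx h0 h3 H hH1 hH2
  obtain ⟨g1, g2⟩ := h1 H ((Real.rpow_le_rpow h0 (log_floor_le x hx) (by linarith)).trans hH1) (hH2.trans h2)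
  exact ⟨h3 _ _ (SW_nonneg k H) g1, h3 _ _ (SA_nonneg k H) g2⟩

/-- **the range of the problem** -/
theorem prob_real (k : ℕ) (hk : 1 ≤ k) (ε : ℝ) (hε : 0 < ε) : ∀ᶠ x : ℝ in atTop,
      (1 / ((k : ℝ) + 1) - ε) * (SA k ⌊Real.log x ^ (k + 1)⌋₊ * (x / Real.log x ^ (k + 1))) ≤
        QA k ⌊Real.log x ^ (k + 1)⌋₊ ⌊x⌋₊ ∧
      QA k ⌊Real.log x ^ (k + 1)⌋₊ ⌊x⌋₊ ≤
        (4 ^ k + ε) * (SA k ⌊Real.log x ^ (k + 1)⌋₊ * (x / Real.log x ^ (k + 1))) ∧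
      (20 ≤ k → QA k ⌊Real.log x ^ (k + 1)⌋₊ ⌊x⌋₊ ≤
        ((18 / 5) ^ k + ε) * (SA k ⌊Real.log x ^ (k + 1)⌋₊ * (x / Real.log x ^ (k + 1)))) := by
  obtain ⟨K, hK0, h⟩ := all_real k hk ε hε
  have hb := big_real k hk ε hε (41 / 2) (by norm_num) ((k + 1 : ℕ) : ℝ)
  have ht : Tendsto (fun x : ℝ => Real.log x) atTop atTop := Real.tendsto_log_atTop
  have ht2 : Tendsto (fun x : ℝ => Real.log x ^ (1 / 2 : ℝ)) atTop atTop :=
    (tendsto_rpow_atTop (by norm_num)).comp ht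
  filter_upwards [h ((k + 1 : ℕ) : ℝ), hb, ht.eventually_ge_atTop (max (K + 1) 1), ht2.eventually_ge_atTop 2]
    with x h1 h2 h3 h4
  have hL1 : 1 ≤ Real.log x := (le_max_right _ _).trans h3
  have hLK : K + 1 ≤ Real.log x := (le_max_left _ _).trans h3
  have hL0 : 0 < Real.log x := by linarith
  set L := Real.log x with hL
  have hup : ((⌊L ^ (k + 1)⌋₊ : ℕ) : ℝ) ≤ L ^ ((k + 1 : ℕ) : ℝ) := by
    rw [Real.rpow_natCast]
    exact Nat.floor_le (by positivity)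
  have hfl : L ^ (k + 1) < ((⌊L ^ (k + 1)⌋₊ : ℕ) : ℝ) + 1 := Nat.lt_floor_add_one _
  have hlo : K * L ≤ ((⌊L ^ (k + 1)⌋₊ : ℕ) : ℝ) := by
    have h5 : L ^ 2 ≤ L ^ (k + 1) := pow_le_pow_right₀ hL1 (by omega)
    have h6 : (K + 1) * L ≤ L ^ 2 := by
      rw [sq]
      exact mul_le_mul_of_nonneg_right hLK hL0.le
    linarith
  obtain ⟨_, _, g3, g4⟩ := h1 _ hlo hup
  refine ⟨g3, g4, fun hk20 => ?_⟩
  refine (h2 _ ?_ hup).2
  have h7 : L ^ (41 / 2 : ℝ) * 2 ≤ L ^ (k + 1) := by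
    calc L ^ (41 / 2 : ℝ) * 2 ≤ L ^ (41 / 2 : ℝ) * L ^ (1 / 2 : ℝ) :=
          mul_le_mul_of_nonneg_left h4 (by positivity)
      _ = L ^ (21 : ℝ) := by rw [← Real.rpow_add hL0]; norm_num
      _ = L ^ (21 : ℕ) := by
          rw [← Real.rpow_natCast]
          norm_num
      _ ≤ L ^ (k + 1) := pow_le_pow_right₀ hL1 (by omega)
  have h8 : 1 ≤ L ^ (41 / 2 : ℝ) := Real.one_le_rpow hL1 (by norm_num)
  linarith

end Pool.Agent.L0h43.TA
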