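import Pool.Agent.L0h43.TA.Imp4
import Pool.Agent.L0h43.TA.Rx

/-!
# A better lower bound for the anchored averages, V
-/

set_option autoImplicit false

namespace Pool.Agent.L0h43.TA

open Finset Filter Topology Pool.Agent.H387R2

lemma pow_choose_lo (Q k : ℕ) (hk : 1 ≤ k) :
    (Q : ℝ) ^ k ≤ (k.factorial : ℝ) * (Q.choose k : ℕ) + (k : ℝ) ^ 2 * (Q : ℝ) ^ (k - 1) := by
  have hQ0 : (0 : ℝ) ≤ Q := Nat.cast_nonneg _
  have hk1 : (1 : ℝ) ≤ k := by exact_mod_cast hk
  have e : (Q : ℝ) ^ k = Q ^ (k - 1) * Q := by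
    rw [← pow_succ, Nat.sub_add_cancel hk]
  rcases Nat.lt_or_ge Q k with h | h
  · have h1 : (Q : ℝ) ≤ k := by exact_mod_cast h.le
    have h2 : (0 : ℝ) ≤ (k.factorial : ℝ) * (Q.choose k : ℕ) := by positivity
    have h3 : (Q : ℝ) ^ k ≤ (k : ℝ) ^ 2 * (Q : ℝ) ^ (k - 1) := by
      rw [e, mul_comm]
      apply mul_le_mul_of_nonneg_right _ (by positivity)
      nlinarith
    linarith
  · have hQpos : (0 : ℝ) < Q := by
      have : 0 < Q := by omega
      exact_mod_cast this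
    have h1 : (k.factorial : ℝ) * (Q.choose k : ℕ) = (Q.descFactorial k : ℝ) := by
      rw [Nat.descFactorial_eq_factorial_mul_choose]
      push_cast
      ring
    have h2 : ((Q : ℝ) - k) ^ k ≤ (Q.descFactorial k : ℝ) := by
      have h3 := Nat.pow_sub_le_descFactorial Q k
      have h4 : (Q : ℝ) - k ≤ ((Q + 1 - k : ℕ) : ℝ) := by
        rw [Nat.cast_sub (by omega)]
        push_cast
        linarith
      have h5 : 0 ≤ (Q : ℝ) - k := by
        have : (k : ℝ) ≤ Q := by exact_mod_cast h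
        linarith
      refine (pow_le_pow_left₀ h5 h4 k).trans ?_
      exact_mod_cast h3
    have h6 : (Q : ℝ) ^ k - (k : ℝ) ^ 2 * (Q : ℝ) ^ (k - 1) ≤ ((Q : ℝ) - k) ^ k := by
      have hkQ : (k : ℝ) / Q ≤ 1 := by
        rw [div_le_one hQpos]
        exact_mod_cast h
      have h7 := one_add_mul_le_pow (a := -((k : ℝ) / Q)) (by linarith) k
      have h8 := mul_le_mul_of_nonneg_left h7 (show (0 : ℝ) ≤ (Q : ℝ) ^ k by positivity)
      rw [← mul_pow] at h8
      have e2 : (Q : ℝ) * (1 + -((k : ℝ) / Q)) = Q - k := by field_simp; ring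
      have e3 : (Q : ℝ) ^ k * (1 + k * -((k : ℝ) / Q)) = (Q : ℝ) ^ k - (k : ℝ) ^ 2 * (Q : ℝ) ^ (k - 1) := by
        rw [e]
        field_simp
        ring
      rw [e2, e3] at h8
      exact h8
    rw [h1]
    linarith

lemma QH_le_NW (H p : ℕ) : QH H p ≤ NW H (p + 1) := by
  unfold QH NW
  apply card_le_card_of_injOn (fun d => d - 1)
  · intro d hd
    rw [mem_coe, mem_filter, mem_Icc] at hd
    rw [mem_coe, mem_filter, mem_range]
    have e : p + 1 + (d - 1) = p + d := by omega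
    have h1 : d - 1 < H := by omega
    refine ⟨h1, ?_⟩
    show (p + 1 + (d - 1)).Prime
    rw [e]
    exact hd.2
  · intro a ha b hb hab
    rw [mem_coe, mem_filter, mem_Icc] at ha hb
    simp only at hab
    omega

lemma NW_le_QH {H p : ℕ} (hp : p.Prime) (hp3 : 3 ≤ p) : NW H (p + 1) ≤ QH H p := by
  unfold QH NW
  apply card_le_card_of_injOn (fun t => t + 1)
  · intro t ht
    rw [mem_coe, mem_filter, mem_range] at ht
    rw [mem_coe, mem_filter, mem_Icc]
    have e : p + (t + 1) = p + 1 + t := by omega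
    have ht0 : t ≠ 0 := by
      rintro rfl
      have h1 := ht.2
      rw [add_zero] at h1
      have h2 := hp.eq_two_or_odd'
      rcases h2 with h2 | h2
      · omega
      · have h3 : Even (p + 1) := by
          rcases h2 with ⟨c, hc⟩
          exact ⟨c + 1, by omega⟩
        have h4 := (Nat.Prime.even_iff h1).1 h3
        omega
    have h1 : 2 ≤ t + 1 := by omega
    have h2 : t + 1 ≤ H := by omega
    refine ⟨⟨h1, h2⟩, ?_⟩
    rw [e]
    exact ht.2
  · intro a _ b _ hab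
    simp only at hab
    omega

/-- **anchored sets, the better lower bound** -/
theorem fin_anc_lo2 (c : ℝ) (hc : 1 < c) (hc4 : c ≤ 4) (k : ℕ) (hk : 1 ≤ k) (ε : ℝ) (hε : 0 < ε) :
    ∃ (M : ℕ) (δ η K : ℝ), 1 ≤ M ∧ 0 < δ ∧ 0 < η ∧ 1 ≤ K ∧ ∀ A : ℝ, ∀ᶠ N : ℕ in atTop, ∀ H : ℕ,
      K * Real.log N ≤ H → (H : ℝ) ≤ Real.log N ^ A → AEp c δ η N (H / M + Gx δ (H / M)) →
      (lam c k - ε) * (SA k H * (N / Real.log N ^ (k + 1))) ≤ QA k H N := by
  classical
  set e : ℝ := ε / 4 with he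
  have he0 : 0 < e := by positivity
  obtain ⟨M, δ, η, K, hM, hδ, hη, hK, hmain⟩ := imp_core c hc hc4 k hk e he0
  obtain ⟨C, hC, hmom⟩ := mom_dis (k - 1)
  obtain ⟨D₀, hD₀⟩ := SA_up k e he0
  have hk0 : (0 : ℝ) < k := by exact_mod_cast hk
  have hfac : (0 : ℝ) < k.factorial := by exact_mod_cast k.factorial_pos
  refine ⟨M, δ, η, K + (k : ℝ) ^ 2 * C / e, hM, hδ, hη, by
    have : 0 ≤ (k : ℝ) ^ 2 * C / e := by positivity
    linarith, fun A => ?_⟩
  filter_upwards [hmain A, hmom (max A 0), ev_log (max 1 D₀), ev_small ((k + 1 : ℕ) : ℝ) e he0, eventually_ge_atTop 1]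
    with N h1 h2 h3 h4 h5 H hH1 hH2 hAE
  obtain ⟨L, hL⟩ : ∃ L : ℝ, L = Real.log (N : ℝ) := ⟨_, rfl⟩
  rw [← hL] at h1 h2 h3 h4 hH1 hH2 ⊢
  have hL1 : 1 ≤ L := (le_max_left _ _).trans h3
  have hLD : (D₀ : ℝ) ≤ L := (le_max_right _ _).trans h3
  have hL0 : 0 < L := by linarith
  have hN0 : (0 : ℝ) < N := by exact_mod_cast h5
  have hKL : K * L ≤ H := by
    refine le_trans ?_ hH1
    have : 0 ≤ (k : ℝ) ^ 2 * C / e * L := by positivity
    linarith
  have hCL : (k : ℝ) ^ 2 * C / e * L ≤ H := by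
    refine le_trans ?_ hH1
    have : 0 ≤ K * L := by positivity
    linarith
  have hLH : L ≤ H := (le_mul_of_one_le_left hL0.le hK).trans hKL
  have hH0 : (0 : ℝ) < H := by linarith
  have hDH : D₀ ≤ H := by
    have : (D₀ : ℝ) ≤ H := hLD.trans hLH
    exact_mod_cast this
  have hP := h1 H hKL hH2 hAE
  have hRg : Rg (max A 0) N H := by
    unfold Rg
    rw [← hL]
    exact ⟨hLH, hH2.trans (Real.rpow_le_rpow_of_exponent_le hL1 (le_max_left _ _))⟩
  have hm := h2 H (1 : ℤ) hRg (by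
    simp only [Int.natAbs_one, Nat.cast_one]
    exact Real.one_le_rpow hL1 (le_max_right _ _))
  have hSA := hD₀ H hDH
  obtain ⟨X, hX⟩ : ∃ X : ℝ, X = N / L := ⟨_, rfl⟩
  have hX0 : 0 < X := by rw [hX]; positivity
  obtain ⟨q, hq⟩ : ∃ q : ℝ, q = H / L := ⟨_, rfl⟩
  have hq0 : 0 < q := by rw [hq]; positivity
  rw [← hX, ← hq] at hP hm
  -- `k! QA`
  have hQA : (k.factorial : ℝ) * QA k H N = ∑ p ∈ pr N, (k.factorial : ℝ) * (((QH H p).choose k : ℕ) : ℝ) := by
    rw [← mul_sum]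
    congr 1
    unfold QA
    have := sum_QH H N k
    exact_mod_cast this.symm
  have g1 : ∑ p ∈ pr N, (QH H p : ℝ) ^ k ≤ (k.factorial : ℝ) * QA k H N +
      (k : ℝ) ^ 2 * ∑ p ∈ pr N, (QH H p : ℝ) ^ (k - 1) := by
    rw [hQA, mul_sum, ← sum_add_distrib]
    exact sum_le_sum fun p _ => pow_choose_lo _ k hk
  have g2 : ∑ p ∈ pr N, (QH H p : ℝ) ^ (k - 1) ≤ C * X * q ^ (k - 1) := by
    refine le_trans ?_ hm
    apply sum_le_sum
    intro p _
    have e1 : sh 1 p = p + 1 := sh_nat 1 p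
    rw [e1]
    apply pow_le_pow_left₀ (Nat.cast_nonneg _)
    exact_mod_cast QH_le_NW H p
  have g3 : ∑ p ∈ pr N, (NW H (p + 1) : ℝ) ^ k ≤ ∑ p ∈ pr N, (QH H p : ℝ) ^ k + (H : ℝ) ^ k := by
    have h6 : ∀ p ∈ pr N, (NW H (p + 1) : ℝ) ^ k ≤ (QH H p : ℝ) ^ k + (if p = 2 then (H : ℝ) ^ k else 0) := by
      intro p hp
      unfold pr at hp
      rw [mem_filter] at hp
      by_cases h7 : p = 2
      · rw [if_pos h7]
        have h8 : (NW H (p + 1) : ℝ) ^ k ≤ (H : ℝ) ^ k := by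
          apply pow_le_pow_left₀ (Nat.cast_nonneg _)
          exact_mod_cast NW_le _ _
        have h9 : (0 : ℝ) ≤ (QH H p : ℝ) ^ k := by positivity
        linarith
      · rw [if_neg h7, add_zero]
        apply pow_le_pow_left₀ (Nat.cast_nonneg _)
        have h8 := hp.2.two_le
        exact_mod_cast NW_le_QH hp.2 (by omega)
    refine (sum_le_sum h6).trans ?_
    rw [sum_add_distrib]
    apply add_le_add le_rfl
    rw [sum_ite_eq']
    split_ifs
    · exact le_rfl
    · positivity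
  have hqk : (k : ℝ) ^ 2 * (C * X * q ^ (k - 1)) ≤ e * (X * q ^ k) := by
    have e1 : q ^ k = q ^ (k - 1) * q := by rw [← pow_succ, Nat.sub_add_cancel hk]
    have h6 : (k : ℝ) ^ 2 * C ≤ e * q := by
      rw [hq, ← mul_div_assoc, le_div_iff₀ hL0]
      have h7 : (k : ℝ) ^ 2 * C / e * L * e ≤ H * e := mul_le_mul_of_nonneg_right hCL he0.le
      have e2 : (k : ℝ) ^ 2 * C / e * L * e = (k : ℝ) ^ 2 * C * L := by field_simp
      rw [e2] at h7
      linarith
    rw [e1]
    have h8 := mul_le_mul_of_nonneg_right h6 (show 0 ≤ X * q ^ (k - 1) by positivity)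
    calc (k : ℝ) ^ 2 * (C * X * q ^ (k - 1)) = (k : ℝ) ^ 2 * C * (X * q ^ (k - 1)) := by ring
      _ ≤ e * q * (X * q ^ (k - 1)) := h8
      _ = _ := by ring
  have hHk : (H : ℝ) ^ k ≤ e * (X * q ^ k) := by
    rw [Real.rpow_natCast] at h4
    have e1 : (H : ℝ) ^ k = L ^ (k + 1) / L * q ^ k := by
      rw [hq, div_pow, pow_succ]
      field_simp
    rw [e1]
    have h6 : L ^ (k + 1) / L ≤ e * X := by
      rw [hX, ← mul_div_assoc]
      exact div_le_div_of_nonneg_right h4 hL0.le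
    calc L ^ (k + 1) / L * q ^ k ≤ e * X * q ^ k := mul_le_mul_of_nonneg_right h6 (by positivity)
      _ = _ := by ring
  have hXq : 0 ≤ X * q ^ k := by positivity
  have g4 : (lam c k - 3 * e) * (X * q ^ k) ≤ (k.factorial : ℝ) * QA k H N := by
    have h6 := mul_le_mul_of_nonneg_left g2 (show (0 : ℝ) ≤ (k : ℝ) ^ 2 by positivity)
    linarith
  rcases le_or_gt (lam c k) ε with hle | hgt
  · refine le_trans ?_ (QA_nonneg k H N)
    apply mul_nonpos_of_nonpos_of_nonneg (by linarith)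
    have := SA_nonneg k H
    positivity
  · have hlm1 := lam_le_one hc hk
    have g5 : k.factorial * ((lam c k - ε) * (SA k H * (N / L ^ (k + 1)))) ≤
        (lam c k - ε) * (1 + e) * (X * q ^ k) := by
      have h17 := mul_le_mul_of_nonneg_left (mul_le_mul_of_nonneg_right hSA
        (by positivity : (0 : ℝ) ≤ N / L ^ (k + 1))) (show 0 ≤ lam c k - ε by linarith)
      calc k.factorial * ((lam c k - ε) * (SA k H * (N / L ^ (k + 1)))) =
          (lam c k - ε) * (k.factorial * SA k H * (N / L ^ (k + 1))) := by ring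
        _ ≤ _ := h17
        _ = _ := by rw [hX, hq, div_pow, pow_succ L k]; field_simp
    have g6 : (lam c k - ε) * (1 + e) ≤ lam c k - 3 * e := by
      have h6 : 0 ≤ (1 - lam c k) * e := mul_nonneg (by linarith) he0.le
      have h7 : 0 ≤ ε * e := by positivity
      have h8 : ε = 4 * e := by rw [he]; ring
      nlinarith
    exact le_of_mul_le_mul_left (g5.trans ((mul_le_mul_of_nonneg_right g6 hXq).trans g4)) hfac

end Pool.Agent.L0h43.TA
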