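import Pool.Agent.L0h43.TA.Gal
import Pool.Agent.TH891.SG.Cnt2

/-!
# Moments of the number of primes in short windows, and of the number of primes after a prime
-/

set_option autoImplicit false

namespace Pool.Agent.L0h43.TA

open Finset Filter Topology Pool.Agent.H387R2

/-- the number of `1 ≤ m ≤ x` with all `m + t`, `t ∈ T`, prime -/
def cn (x : ℕ) (T : Finset ℕ) : ℕ := ((Icc 1 x).filter (fun m => ∀ t ∈ T, (m + t).Prime)).card

/-- the number of primes in the window `[n, n + H)` -/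
def NW (H n : ℕ) : ℕ := ((range H).filter (fun t => (n + t).Prime)).card

/-- the number of primes `p + d`, `2 ≤ d ≤ H` -/
def QH (H p : ℕ) : ℕ := ((Icc 2 H).filter (fun d => (p + d).Prime)).card

/-- the primes up to `x` -/
def pr (x : ℕ) : Finset ℕ := (Icc 1 x).filter Nat.Prime

lemma cn_le {j x M : ℕ} {T : Finset ℕ} (hT : T.card = j + 1) (hTM : ∀ t ∈ T, t ≤ M) :
    cn x T ≤ (j + 1) + Uni.piT T (x + M) := by
  classical
  have h1 : cn x T ≤ (Icc 1 (j + 1)).card + Uni.cnt j x T := by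
    unfold cn Uni.cnt
    refine le_trans (card_le_card ?_) (card_union_le _ _)
    intro m hm
    rw [mem_filter, mem_Icc] at hm
    rw [mem_union, mem_Icc, mem_filter, mem_Ioc]
    by_cases h : m ≤ j + 1
    · left; exact ⟨hm.1.1, h⟩
    · right; exact ⟨⟨by omega, hm.1.2⟩, hm.2⟩
  have h2 := Uni.cnt_le_piT hT hTM (Nat.le_add_left M x)
  rw [Nat.add_sub_cancel] at h2
  rw [Nat.card_Icc, Nat.add_sub_cancel] at h1
  omega

lemma sum_NW (H x j : ℕ) : ∑ n ∈ Icc 1 x, (NW H n).choose j =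
    ∑ T ∈ (range H).powersetCard j, cn x T := by
  have := Uni.sum_choose (Icc 1 x) (range H) j (fun n t => (n + t).Prime)
  unfold NW cn
  exact this

lemma sum_QH (H x j : ℕ) : ∑ p ∈ pr x, (QH H p).choose j =
    ∑ D ∈ (Icc 2 H).powersetCard j, cn x (insert 0 D) := by
  have h := Uni.sum_choose (pr x) (Icc 2 H) j (fun n t => (n + t).Prime)
  unfold QH
  rw [h]
  apply sum_congr rfl
  intro D _
  unfold cn pr
  rw [filter_filter]
  congr 1
  apply filter_congr
  intro m _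
  simp only [mem_insert, forall_eq_or_imp, add_zero]

lemma pow_le_choose (x m : ℕ) :
    (x : ℝ) ^ m ≤ 2 ^ m * ((m.factorial : ℝ) * (x.choose m : ℕ)) + (2 * m : ℝ) ^ m := by
  rcases Nat.lt_or_ge x (2 * m) with h | h
  · have h1 : (x : ℝ) ≤ 2 * m := by exact_mod_cast h.le
    have h2 : (x : ℝ) ^ m ≤ (2 * m : ℝ) ^ m := pow_le_pow_left₀ (Nat.cast_nonneg _) h1 m
    have h3 : (0 : ℝ) ≤ 2 ^ m * ((m.factorial : ℝ) * (x.choose m : ℕ)) := by positivity
    linarith
  · have h1 : (m.factorial : ℝ) * (x.choose m : ℕ) = (x.descFactorial m : ℝ) := by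
      rw [Nat.descFactorial_eq_factorial_mul_choose]
      push_cast
      ring
    rw [h1]
    have h3 := Nat.pow_sub_le_descFactorial x m
    have h4 : (x : ℝ) ≤ 2 * ((x + 1 - m : ℕ) : ℝ) := by
      have : x ≤ 2 * (x + 1 - m) := by omega
      exact_mod_cast this
    have h5 : (0 : ℝ) ≤ (2 * m : ℝ) ^ m := by positivity
    calc (x : ℝ) ^ m ≤ (2 * ((x + 1 - m : ℕ) : ℝ)) ^ m := pow_le_pow_left₀ (Nat.cast_nonneg _) h4 m
      _ = 2 ^ m * ((x + 1 - m : ℕ) : ℝ) ^ m := mul_pow _ _ _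
      _ ≤ 2 ^ m * (x.descFactorial m : ℝ) := by
          apply mul_le_mul_of_nonneg_left _ (by positivity)
          exact_mod_cast h3
      _ ≤ _ := by linarith

/-- the admissible ranges of `H` -/
def Rg (A : ℝ) (N H : ℕ) : Prop := Real.log N ≤ H ∧ (H : ℝ) ≤ Real.log N ^ A

lemma ev_small (A : ℝ) (c : ℝ) (hc : 0 < c) : ∀ᶠ N : ℕ in atTop, Real.log N ^ A ≤ c * N :=
  tendsto_natCast_atTop_atTop.eventually (Uni.log_pow_small A hc)

lemma ev_log (c : ℝ) : ∀ᶠ N : ℕ in atTop, c ≤ Real.log N :=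
  (Real.tendsto_log_atTop.comp tendsto_natCast_atTop_atTop).eventually_ge_atTop c

/-- uniform upper bound for the counts of the tuples with shifts in `[0, H]` -/
lemma cn_up (j : ℕ) : ∃ B : ℝ, 0 < B ∧ ∀ A : ℝ, ∀ᶠ N : ℕ in atTop, ∀ H : ℕ, Rg A N H →
    ∀ T : Finset ℕ, T.card = j + 1 → (∀ t ∈ T, t ≤ H) →
      (cn N T : ℝ) ≤ (j + 1) + B * (N / Real.log N ^ (j + 1)) * Uni.CT T := by
  obtain ⟨B, hB, h⟩ := Pool.Agent.W218.TX.pi_upper j
  refine ⟨2 * B, by positivity, fun A => ?_⟩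
  obtain ⟨N₁, hN₁⟩ := eventually_atTop.1 (h (max A 0))
  filter_upwards [eventually_ge_atTop N₁, ev_log 1, ev_small A 1 one_pos, eventually_ge_atTop 1]
    with N h1 h2 h3 h4 H hR T hT hTH
  set L := Real.log (N : ℝ) with hL
  have hL0 : 0 < L := by linarith
  have hN0 : (0 : ℝ) < N := by exact_mod_cast h4
  have hHN : (H : ℝ) ≤ N := by have := hR.2.trans h3; linarith
  have hlog : L ≤ Real.log ((N + H : ℕ) : ℝ) := by
    apply Real.log_le_log hN0
    push_cast
    have : (0 : ℝ) ≤ H := Nat.cast_nonneg _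
    linarith
  have h5 := hN₁ (N + H) (by omega) T hT (by
    intro t ht
    have h6 : (t : ℝ) ≤ H := by exact_mod_cast hTH t ht
    refine h6.trans (hR.2.trans ?_)
    calc L ^ A ≤ L ^ (max A 0) := Real.rpow_le_rpow_of_exponent_le h2 (le_max_left _ _)
      _ ≤ _ := Real.rpow_le_rpow hL0.le hlog (le_max_right _ _))
  have h6 : (cn N T : ℝ) ≤ ((j : ℝ) + 1) + (Uni.piT T (N + H) : ℝ) := by
    exact_mod_cast cn_le hT hTH
  have hCT := Uni.CT_nonneg T
  have h7 : ((N + H : ℕ) : ℝ) / Real.log ((N + H : ℕ) : ℝ) ^ (j + 1) ≤ 2 * (N / L ^ (j + 1)) := by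
    have h8 : ((N + H : ℕ) : ℝ) ≤ 2 * N := by push_cast; linarith
    calc ((N + H : ℕ) : ℝ) / Real.log ((N + H : ℕ) : ℝ) ^ (j + 1) ≤ (2 * N) / L ^ (j + 1) := by
          apply div_le_div₀ (by positivity) h8 (by positivity)
          exact pow_le_pow_left₀ hL0.le hlog _
      _ = _ := by ring
  calc (cn N T : ℝ) ≤ ((j : ℝ) + 1) + (Uni.piT T (N + H) : ℝ) := h6
    _ ≤ ((j : ℝ) + 1) + B * ((((N + H : ℕ) : ℝ) / Real.log ((N + H : ℕ) : ℝ) ^ (j + 1)) * Uni.CT T) := by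
        linarith
    _ ≤ ((j : ℝ) + 1) + B * ((2 * (N / L ^ (j + 1))) * Uni.CT T) := by
        have := mul_le_mul_of_nonneg_left (mul_le_mul_of_nonneg_right h7 hCT) hB.le
        linarith
    _ = _ := by ring

lemma card_pow_le (S : Finset ℕ) (j : ℕ) : ((S.powersetCard j).card : ℝ) ≤ (S.card : ℝ) ^ j := by
  rw [card_powersetCard]
  have h1 := Nat.choose_le_pow_div (α := ℝ) j S.card
  refine h1.trans ?_
  apply div_le_self (by positivity)
  exact_mod_cast j.factorial_pos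

/-- moments of `NW` -/
theorem mom_NW (j : ℕ) : ∃ C : ℝ, 0 < C ∧ ∀ A : ℝ, ∀ᶠ N : ℕ in atTop, ∀ H : ℕ, Rg A N H →
    ∑ n ∈ Icc 1 N, (NW H n : ℝ) ^ (j + 1) ≤ C * N * (H / Real.log N) ^ (j + 1) := by
  obtain ⟨B, hB, hcn⟩ := cn_up j
  obtain ⟨C, hC, hav⟩ := Pool.Agent.TH891.SG.CT_avg j
  set m : ℕ := j + 1 with hm
  refine ⟨2 ^ m * (m.factorial * (1 + B * (1 + C) ^ j)) + (2 * m : ℝ) ^ m, by positivity, fun A => ?_⟩
  filter_upwards [hcn A, ev_log 1, ev_small ((m : ℕ) : ℝ) (1 / (m + 1)) (by positivity),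
    eventually_ge_atTop 1] with N h1 h2 h3 h4 H hR
  set L := Real.log (N : ℝ) with hL
  have hL0 : 0 < L := by linarith
  have hN0 : (0 : ℝ) < N := by exact_mod_cast h4
  have hHL : L ≤ H := hR.1
  have hH0 : (0 : ℝ) < H := by linarith
  have hH1 : 1 ≤ H := by
    have : 0 < H := by exact_mod_cast hH0
    omega
  have hH1R : (1 : ℝ) ≤ H := by exact_mod_cast hH1
  rw [Real.rpow_natCast] at h3
  have hq1 : 1 ≤ (H / L) ^ m := one_le_pow₀ (by rw [le_div_iff₀ hL0]; linarith)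
  have s1 : ∑ T ∈ (range H).powersetCard m, (cn N T : ℝ) ≤ (1 + B * (1 + C) ^ j) * (N * (H / L) ^ m) := by
    have t1 : ∑ T ∈ (range H).powersetCard m, (cn N T : ℝ) ≤ ∑ T ∈ (range H).powersetCard m,
        ((m : ℝ) + B * (N / L ^ m) * Uni.CT T) := by
      apply sum_le_sum
      intro T hT
      rw [mem_powersetCard] at hT
      have := h1 H hR T hT.2 (fun t ht => (mem_range.1 (hT.1 ht)).le)
      rw [hm]
      push_cast
      push_cast at this
      exact this
    rw [sum_add_distrib, sum_const, nsmul_eq_mul, ← mul_sum] at t1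
    have t2 := card_pow_le (range H) m
    rw [card_range] at t2
    have t3 := hav H hH1
    have t4 : (H : ℝ) * (H + C * (H : ℝ) ^ (1 / 4 : ℝ)) ^ j / (m.factorial : ℝ) ≤ (1 + C) ^ j * (H : ℝ) ^ m := by
      have u1 : (H : ℝ) ^ (1 / 4 : ℝ) ≤ H := by
        calc (H : ℝ) ^ (1 / 4 : ℝ) ≤ (H : ℝ) ^ (1 : ℝ) := Real.rpow_le_rpow_of_exponent_le hH1R (by norm_num)
          _ = H := Real.rpow_one _
      have u2 : (H + C * (H : ℝ) ^ (1 / 4 : ℝ)) ≤ (1 + C) * H := by
        have := mul_le_mul_of_nonneg_left u1 hC.le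
        linarith
      calc (H : ℝ) * (H + C * (H : ℝ) ^ (1 / 4 : ℝ)) ^ j / (m.factorial : ℝ) ≤
          (H : ℝ) * (H + C * (H : ℝ) ^ (1 / 4 : ℝ)) ^ j := by
            apply div_le_self (by positivity)
            exact_mod_cast m.factorial_pos
        _ ≤ (H : ℝ) * ((1 + C) * H) ^ j := by
            apply mul_le_mul_of_nonneg_left _ hH0.le
            exact pow_le_pow_left₀ (by positivity) u2 j
        _ = (1 + C) ^ j * (H : ℝ) ^ m := by rw [mul_pow, hm, pow_succ]; ring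
    have t5 : ((((range H).powersetCard m).card : ℕ) : ℝ) * m ≤ N * (H / L) ^ m := by
      have u3 : (m : ℝ) * L ^ m ≤ N := by
        have hm0 : (0 : ℝ) < (m : ℝ) + 1 := by positivity
        have : ((m : ℝ) + 1) * L ^ m ≤ N := by
          calc ((m : ℝ) + 1) * L ^ m ≤ ((m : ℝ) + 1) * (1 / (m + 1) * N) := mul_le_mul_of_nonneg_left h3 hm0.le
            _ = N := by field_simp
        have : 0 ≤ L ^ m := by positivity
        linarith
      calc ((((range H).powersetCard m).card : ℕ) : ℝ) * m ≤ (H : ℝ) ^ m * m :=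
            mul_le_mul_of_nonneg_right t2 (Nat.cast_nonneg _)
        _ = (m * L ^ m) * (H / L) ^ m := by rw [div_pow]; field_simp
        _ ≤ _ := mul_le_mul_of_nonneg_right u3 (by positivity)
    have t6 : B * (N / L ^ m) * ∑ T ∈ (range H).powersetCard m, Uni.CT T ≤
        (B * (1 + C) ^ j) * (N * (H / L) ^ m) := by
      calc B * (N / L ^ m) * ∑ T ∈ (range H).powersetCard m, Uni.CT T ≤
          B * (N / L ^ m) * ((1 + C) ^ j * (H : ℝ) ^ m) :=
            mul_le_mul_of_nonneg_left (t3.trans t4) (by positivity)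
        _ = _ := by rw [div_pow]; ring
    have e : (1 + B * (1 + C) ^ j) * (N * (H / L) ^ m) =
        N * (H / L) ^ m + (B * (1 + C) ^ j) * (N * (H / L) ^ m) := by ring
    rw [e]
    linarith
  have s2 : ∑ n ∈ Icc 1 N, (NW H n : ℝ) ^ m ≤
      2 ^ m * (m.factorial * ∑ T ∈ (range H).powersetCard m, (cn N T : ℝ)) + N * (2 * m : ℝ) ^ m := by
    have t1 := sum_le_sum (fun n (_ : n ∈ Icc 1 N) => pow_le_choose (NW H n) m)
    rw [sum_add_distrib, sum_const, nsmul_eq_mul, ← mul_sum, ← mul_sum, Nat.card_Icc,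
      Nat.add_sub_cancel] at t1
    have t2 : ∑ n ∈ Icc 1 N, (((NW H n).choose m : ℕ) : ℝ) =
        ∑ T ∈ (range H).powersetCard m, (cn N T : ℝ) := by
      exact_mod_cast sum_NW H N m
    rw [t2] at t1
    exact t1
  refine s2.trans ?_
  have s3 : 2 ^ m * (m.factorial * ∑ T ∈ (range H).powersetCard m, (cn N T : ℝ)) ≤
      2 ^ m * (m.factorial * ((1 + B * (1 + C) ^ j) * (N * (H / L) ^ m))) := by
    apply mul_le_mul_of_nonneg_left _ (by positivity)
    exact mul_le_mul_of_nonneg_left s1 (by positivity)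
  have s4 : (N : ℝ) * (2 * m : ℝ) ^ m ≤ (2 * m : ℝ) ^ m * (N * (H / L) ^ m) := by
    have : (N : ℝ) ≤ N * (H / L) ^ m := le_mul_of_one_le_right hN0.le hq1
    calc (N : ℝ) * (2 * m : ℝ) ^ m = (2 * m : ℝ) ^ m * N := mul_comm _ _
      _ ≤ _ := mul_le_mul_of_nonneg_left this (by positivity)
  have e : (2 ^ m * (m.factorial * (1 + B * (1 + C) ^ j)) + (2 * m : ℝ) ^ m) * N * (H / L) ^ m =
      2 ^ m * (m.factorial * ((1 + B * (1 + C) ^ j) * (N * (H / L) ^ m))) +
      (2 * m : ℝ) ^ m * (N * (H / L) ^ m) := by ring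
  rw [e]
  linarith

end Pool.Agent.L0h43.TA
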