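import Pool.Agent.L0h43.TA.Imp5

/-!
# The better lower bound for real `x`, and the size of the lower constant
-/

set_option autoImplicit false

namespace Pool.Agent.L0h43.TA

open Finset Filter Topology Pool.Agent.H387R2

/-! ### The size of the constant -/

lemma choose_two_le (n : ℕ) {x : ℝ} (hx : 0 ≤ x) : ((n.choose 2 : ℕ) : ℝ) * x ^ 2 ≤ (1 + x) ^ n := by
  rcases Nat.lt_or_ge n 2 with h | h
  · rw [Nat.choose_eq_zero_of_lt h]
    simp only [Nat.cast_zero, zero_mul]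
    positivity
  · rw [add_comm, add_pow]
    have h1 := single_le_sum (f := fun i : ℕ => x ^ i * 1 ^ (n - i) * ((n.choose i : ℕ) : ℝ)) (s := range (n + 1))
      (fun i _ => by positivity) (show 2 ∈ range (n + 1) by rw [mem_range]; omega)
    simp only [one_pow, mul_one] at h1 ⊢
    linarith

lemma quart {z : ℝ} (hz : 1 ≤ z) : (1 + 3 * z ^ 4) / 4 ≤ z ^ 3 * (1 + 3 / 2 * (z - 1) ^ 2) := by
  have h1 : z ^ 3 * (1 + 3 / 2 * (z - 1) ^ 2) - (1 + 3 * z ^ 4) / 4 =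
      (z - 1) ^ 2 * (6 * z ^ 3 - 3 * z ^ 2 - 2 * z - 1) / 4 := by ring
  have h2 : 0 ≤ 6 * z ^ 3 - 3 * z ^ 2 - 2 * z - 1 := by
    have e : 6 * z ^ 3 - 3 * z ^ 2 - 2 * z - 1 = (z - 1) * (6 * z ^ 2 + 3 * z + 1) := by ring
    rw [e]
    apply mul_nonneg (by linarith)
    positivity
  have h3 : 0 ≤ (z - 1) ^ 2 * (6 * z ^ 3 - 3 * z ^ 2 - 2 * z - 1) / 4 := by positivity
  linarith

/-- the lower constant is at least `(k + 1)^(-3/4) / 2` -/
lemma lam_four_ge (k : ℕ) (hk : 1 ≤ k) : 1 / 2 * ((k : ℝ) + 1) ^ (-(3 / 4) : ℝ) ≤ lam 4 k := by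
  have hk0 : (0 : ℝ) < k := by exact_mod_cast hk
  have hk1 : (1 : ℝ) ≤ k := by exact_mod_cast hk
  have hk1' : (0 : ℝ) < (k : ℝ) + 1 := by positivity
  obtain ⟨z, hz⟩ : ∃ z : ℝ, z = ((k : ℝ) + 1) ^ ((4 * (k : ℝ))⁻¹) := ⟨_, rfl⟩
  have hz1 : 1 ≤ z := by
    rw [hz]
    exact Real.one_le_rpow (by linarith) (by positivity)
  have hz0 : 0 < z := by linarith
  have hz4 : z ^ 4 = tt k := by
    unfold tt
    rw [hz, ← Real.rpow_natCast, ← Real.rpow_mul hk1'.le]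
    congr 1
    push_cast
    field_simp
  have hz4k : z ^ (4 * k) = (k : ℝ) + 1 := by
    rw [pow_mul, hz4]
    exact tt_pow hk
  have hz3k : (z ^ 3) ^ k = ((k : ℝ) + 1) ^ (3 / 4 : ℝ) := by
    rw [← pow_mul, hz, ← Real.rpow_natCast, ← Real.rpow_mul hk1'.le]
    congr 1
    push_cast
    field_simp
  have hsq : (k : ℝ) * (3 / 2 * (z - 1) ^ 2) ≤ 1 / 2 := by
    have h1 := choose_two_le (4 * k) (show 0 ≤ z - 1 by linarith)
    have e1 : 1 + (z - 1) = z := by ring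
    rw [e1, hz4k] at h1
    have e2 : (((4 * k).choose 2 : ℕ) : ℝ) = 2 * k * (4 * k - 1) := by
      rw [Nat.cast_choose_two]
      push_cast
      ring
    rw [e2] at h1
    have h2 : 0 < 4 * (k : ℝ) - 1 := by linarith
    have h3 : (k : ℝ) * (z - 1) ^ 2 * (2 * (4 * k - 1)) ≤ (k : ℝ) + 1 := by linarith
    have h4 : (k : ℝ) * (z - 1) ^ 2 ≤ 1 / 3 := by
      have h5 : (k : ℝ) * (z - 1) ^ 2 * (2 * (4 * k - 1)) ≤ 1 / 3 * (2 * (4 * k - 1)) := by linarith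
      exact le_of_mul_le_mul_right h5 (by positivity)
    linarith
  have h6 : ((1 + 3 * tt k) / 4) ^ k ≤ 2 * ((k : ℝ) + 1) ^ (3 / 4 : ℝ) := by
    have h7 : 0 < tt k := by have := tt_gt hk; linarith
    have h8 := quart hz1
    rw [hz4] at h8
    calc ((1 + 3 * tt k) / 4) ^ k ≤ (z ^ 3 * (1 + 3 / 2 * (z - 1) ^ 2)) ^ k :=
          pow_le_pow_left₀ (by positivity) h8 k
      _ = (z ^ 3) ^ k * (1 + 3 / 2 * (z - 1) ^ 2) ^ k := mul_pow _ _ _
      _ ≤ (z ^ 3) ^ k * 2 := by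
          apply mul_le_mul_of_nonneg_left _ (by positivity)
          have h9 : 1 + 3 / 2 * (z - 1) ^ 2 ≤ Real.exp (3 / 2 * (z - 1) ^ 2) := by
            have := Real.add_one_le_exp (3 / 2 * (z - 1) ^ 2)
            linarith
          have h10 : (1 + 3 / 2 * (z - 1) ^ 2) ^ k ≤ Real.exp ((k : ℝ) * (3 / 2 * (z - 1) ^ 2)) := by
            rw [Real.exp_nat_mul]
            exact pow_le_pow_left₀ (by positivity) h9 k
          have h11 : Real.exp ((k : ℝ) * (3 / 2 * (z - 1) ^ 2)) ≤ Real.exp (1 / 2) := Real.exp_le_exp.2 hsq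
          have h12 : Real.exp (1 / 2) ≤ 2 := by
            have h13 : Real.exp (1 / 2) ^ 2 = Real.exp 1 := by
              rw [← Real.exp_nat_mul]; norm_num
            have h14 := Real.exp_one_lt_d9
            by_contra hcon
            push Not at hcon
            have h15 : (2 : ℝ) ^ 2 < Real.exp (1 / 2) ^ 2 := pow_lt_pow_left₀ hcon (by norm_num) (by norm_num)
            rw [h13] at h15
            linarith
          linarith
      _ = _ := by rw [hz3k]; ring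
  unfold lam
  have h7 : 0 < tt k := by have := tt_gt hk; linarith
  have e3 : (4 / (1 + (4 - 1) * tt k)) ^ k = (((1 + 3 * tt k) / 4) ^ k)⁻¹ := by
    rw [← inv_pow, inv_div]
    norm_num
  rw [e3, Real.rpow_neg hk1'.le]
  have h16 : 0 < ((k : ℝ) + 1) ^ (3 / 4 : ℝ) := by positivity
  have h17 := inv_anti₀ (show 0 < ((1 + 3 * tt k) / 4) ^ k by positivity) h6
  refine le_trans (le_of_eq ?_) h17
  rw [mul_inv]
  norm_num

lemma lam_four_one : lam 4 1 = 4 / 7 := by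
  unfold lam tt
  norm_num

/-! ### Natural numbers -/

/-- **all scales** -/
theorem all_scales2 (k : ℕ) (hk : 1 ≤ k) (ε : ℝ) (hε : 0 < ε) : ∃ K : ℝ, 1 ≤ K ∧ ∀ A : ℝ,
    ∀ᶠ N : ℕ in atTop, ∀ H : ℕ, K * Real.log N ≤ H → (H : ℝ) ≤ Real.log N ^ A →
      (lam 4 k - ε) * (SA k H * (N / Real.log N ^ (k + 1))) ≤ QA k H N := by
  obtain ⟨M, δ, η, K₁, hM, hδ, hη, hK₁, h⟩ := fin_anc_lo2 4 (by norm_num) le_rfl k hk ε hε
  obtain ⟨K₂, hK₂, hae⟩ := aeK δ η hδ hη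
  have hM0 : (0 : ℝ) < M := by exact_mod_cast hM
  have hM1 : (1 : ℝ) ≤ M := by exact_mod_cast hM
  refine ⟨K₁ + 2 * M * K₂, by have : 0 ≤ 2 * M * K₂ := by positivity
                              linarith, fun A => ?_⟩
  filter_upwards [h A, hae (A + 1), rg_add (A := A) hδ, ev_log 1] with N h1 h2 h3 h4 H hH1 hH2
  have hL0 : 0 < Real.log (N : ℝ) := by linarith
  refine h1 H ?_ hH2 (h2 _ ?_ ?_)
  · refine le_trans ?_ hH1
    have : 0 ≤ 2 * M * K₂ * Real.log (N : ℝ) := by positivity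
    linarith
  · have g1 : H < M * (H / M) + M := by
      have := Nat.lt_mul_div_succ H hM
      rw [Nat.mul_succ] at this
      exact this
    have g2 : (H : ℝ) < M * ((H / M : ℕ) : ℝ) + M := by exact_mod_cast g1
    have g3 : 2 * M * K₂ * Real.log (N : ℝ) ≤ H := by
      refine le_trans ?_ hH1
      have : 0 ≤ K₁ * Real.log (N : ℝ) := by positivity
      linarith
    have g4 : (M : ℝ) * (2 * (K₂ * Real.log (N : ℝ))) < M * (((H / M : ℕ) : ℝ) + 1) := by linarith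
    have g5 := lt_of_mul_lt_mul_left g4 hM0.le
    have g6 : 1 ≤ K₂ * Real.log (N : ℝ) := by nlinarith
    push_cast
    have : (0 : ℝ) ≤ Gx δ (H / M) := Nat.cast_nonneg _
    linarith
  · apply h3
    refine le_trans ?_ hH2
    exact_mod_cast Nat.div_le_self H M

/-- **big scales** -/
theorem big_scales2 (k : ℕ) (hk : 1 ≤ k) (ε : ℝ) (hε : 0 < ε) (β : ℝ) (hβ : 20 < β) (A : ℝ) :
    ∀ᶠ N : ℕ in atTop, ∀ H : ℕ, Real.log N ^ β ≤ H → (H : ℝ) ≤ Real.log N ^ A →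
      (lam (18 / 5) k - ε) * (SA k H * (N / Real.log N ^ (k + 1))) ≤ QA k H N := by
  obtain ⟨M, δ, η, K₁, hM, hδ, hη, hK₁, h⟩ := fin_anc_lo2 (18 / 5) (by norm_num) (by norm_num) k hk ε hε
  have hM0 : (0 : ℝ) < M := by exact_mod_cast hM
  have hM1 : (1 : ℝ) ≤ M := by exact_mod_cast hM
  obtain ⟨β', hβ'⟩ : ∃ β' : ℝ, β' = (20 + β) / 2 := ⟨_, rfl⟩
  have hb1 : 20 < β' := by linarith
  have hb2 : 0 < β - β' := by linarith
  have hev : ∀ᶠ N : ℕ in atTop, 2 * M ≤ Real.log (N : ℝ) ^ (β - β') :=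
    ((tendsto_rpow_atTop hb2).comp (Real.tendsto_log_atTop.comp tendsto_natCast_atTop_atTop)).eventually_ge_atTop _
  have hev2 : ∀ᶠ N : ℕ in atTop, K₁ ≤ Real.log (N : ℝ) ^ (β - 1) :=
    ((tendsto_rpow_atTop (by linarith)).comp (Real.tendsto_log_atTop.comp tendsto_natCast_atTop_atTop)).eventually_ge_atTop _
  filter_upwards [h A, aeR δ η hδ hη β' hb1 (A + 1), rg_add (A := A) hδ, ev_log 1, hev, hev2]
    with N h1 h2 h3 h4 h5 h6 H hH1 hH2
  have hL0 : 0 < Real.log (N : ℝ) := by linarith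
  refine h1 H ?_ hH2 (h2 _ ?_ ?_)
  · refine le_trans ?_ hH1
    calc K₁ * Real.log (N : ℝ) ≤ Real.log (N : ℝ) ^ (β - 1) * Real.log (N : ℝ) :=
          mul_le_mul_of_nonneg_right h6 hL0.le
      _ = Real.log (N : ℝ) ^ β := by
          rw [← Real.rpow_add_one hL0.ne']
          congr 1
          ring
  · have g1 : H < M * (H / M) + M := by
      have := Nat.lt_mul_div_succ H hM
      rw [Nat.mul_succ] at this
      exact this
    have g2 : (H : ℝ) < M * ((H / M : ℕ) : ℝ) + M := by exact_mod_cast g1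
    have g3 : 2 * M * Real.log (N : ℝ) ^ β' ≤ H := by
      refine le_trans ?_ hH1
      calc 2 * M * Real.log (N : ℝ) ^ β' ≤ Real.log (N : ℝ) ^ (β - β') * Real.log (N : ℝ) ^ β' :=
            mul_le_mul_of_nonneg_right h5 (by positivity)
        _ = Real.log (N : ℝ) ^ β := by
            rw [← Real.rpow_add hL0]
            congr 1
            ring
    have g4 : (M : ℝ) * (2 * Real.log (N : ℝ) ^ β') < M * (((H / M : ℕ) : ℝ) + 1) := by linarith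
    have g5 := lt_of_mul_lt_mul_left g4 hM0.le
    have g6 : 1 ≤ Real.log (N : ℝ) ^ β' := Real.one_le_rpow h4 (by linarith)
    push_cast
    have : (0 : ℝ) ≤ Gx δ (H / M) := Nat.cast_nonneg _
    linarith
  · apply h3
    refine le_trans ?_ hH2
    exact_mod_cast Nat.div_le_self H M

/-! ### Real `x` -/

theorem all_real2 (k : ℕ) (hk : 1 ≤ k) (ε : ℝ) (hε : 0 < ε) : ∃ K : ℝ, 0 < K ∧ ∀ A : ℝ,
    ∀ᶠ x : ℝ in atTop, ∀ H : ℕ, K * Real.log x ≤ H → (H : ℝ) ≤ Real.log x ^ A →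
      (lam 4 k - ε) * (SA k H * (x / Real.log x ^ (k + 1))) ≤ QA k H ⌊x⌋₊ := by
  obtain ⟨K, hK1, h⟩ := all_scales2 k hk (ε / 2) (by positivity)
  refine ⟨K, by linarith, fun A => ?_⟩
  filter_upwards [tend_floor.eventually (h (max A 0 + 1)), pow_floor A, eventually_gt_atTop 1,
    lo_real (b := lam 4 k) (lam_le_one (by norm_num) hk) hε (k + 1)] with x h1 h2 hx h5 H hH1 hH2
  exact h5 _ _ (SA_nonneg k H) (QA_nonneg _ _ _) (h1 H
    ((mul_le_mul_of_nonneg_left (log_floor_le x hx.le) (by linarith)).trans hH1) (hH2.trans h2))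

theorem big_real2 (k : ℕ) (hk : 1 ≤ k) (ε : ℝ) (hε : 0 < ε) (β : ℝ) (hβ : 20 < β) (A : ℝ) :
    ∀ᶠ x : ℝ in atTop, ∀ H : ℕ, Real.log x ^ β ≤ H → (H : ℝ) ≤ Real.log x ^ A →
      (lam (18 / 5) k - ε) * (SA k H * (x / Real.log x ^ (k + 1))) ≤ QA k H ⌊x⌋₊ := by
  have h := big_scales2 k hk (ε / 2) (by positivity) β hβ (max A 0 + 1)
  filter_upwards [tend_floor.eventually h, pow_floor A, eventually_ge_atTop 1, tend_floor.eventually (ev_log 0),
    lo_real (b := lam (18 / 5) k) (lam_le_one (by norm_num) hk) hε (k + 1)] with x h1 h2 hx h0 h3 H hH1 hH2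
  exact h3 _ _ (SA_nonneg k H) (QA_nonneg _ _ _)
    (h1 H ((Real.rpow_le_rpow h0 (log_floor_le x hx) (by linarith)).trans hH1) (hH2.trans h2))

/-- **the range of the problem** -/
theorem prob_real2 (k : ℕ) (hk : 1 ≤ k) (ε : ℝ) (hε : 0 < ε) : ∀ᶠ x : ℝ in atTop,
      (lam 4 k - ε) * (SA k ⌊Real.log x ^ (k + 1)⌋₊ * (x / Real.log x ^ (k + 1))) ≤
        QA k ⌊Real.log x ^ (k + 1)⌋₊ ⌊x⌋₊ ∧
      QA k ⌊Real.log x ^ (k + 1)⌋₊ ⌊x⌋₊ ≤
        (4 ^ k + ε) * (SA k ⌊Real.log x ^ (k + 1)⌋₊ * (x / Real.log x ^ (k + 1))) ∧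
      (20 ≤ k → (lam (18 / 5) k - ε) * (SA k ⌊Real.log x ^ (k + 1)⌋₊ * (x / Real.log x ^ (k + 1))) ≤
          QA k ⌊Real.log x ^ (k + 1)⌋₊ ⌊x⌋₊ ∧
        QA k ⌊Real.log x ^ (k + 1)⌋₊ ⌊x⌋₊ ≤
        ((18 / 5) ^ k + ε) * (SA k ⌊Real.log x ^ (k + 1)⌋₊ * (x / Real.log x ^ (k + 1)))) := by
  obtain ⟨K, hK0, h⟩ := all_real2 k hk ε hε
  have hb := big_real2 k hk ε hε (41 / 2) (by norm_num) ((k + 1 : ℕ) : ℝ)
  have ht : Tendsto (fun x : ℝ => Real.log x) atTop atTop := Real.tendsto_log_atTop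
  have ht2 : Tendsto (fun x : ℝ => Real.log x ^ (1 / 2 : ℝ)) atTop atTop :=
    (tendsto_rpow_atTop (by norm_num)).comp ht
  filter_upwards [h ((k + 1 : ℕ) : ℝ), hb, ht.eventually_ge_atTop (max (K + 1) 1), ht2.eventually_ge_atTop 2,
    prob_real k hk ε hε] with x h1 h2 h3 h4 h5
  have hL1 : 1 ≤ Real.log x := (le_max_right _ _).trans h3
  have hLK : K + 1 ≤ Real.log x := (le_max_left _ _).trans h3
  have hL0 : 0 < Real.log x := by linarith
  obtain ⟨L, hL⟩ : ∃ L : ℝ, L = Real.log x := ⟨_, rfl⟩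
  rw [← hL] at h1 h2 h4 h5 hL1 hLK hL0 ⊢
  have hup : ((⌊L ^ (k + 1)⌋₊ : ℕ) : ℝ) ≤ L ^ ((k + 1 : ℕ) : ℝ) := by
    rw [Real.rpow_natCast]
    exact Nat.floor_le (by positivity)
  have hfl : L ^ (k + 1) < ((⌊L ^ (k + 1)⌋₊ : ℕ) : ℝ) + 1 := Nat.lt_floor_add_one _
  have hlo : K * L ≤ ((⌊L ^ (k + 1)⌋₊ : ℕ) : ℝ) := by
    have h5 : L ^ 2 ≤ L ^ (k + 1) := pow_le_pow_right₀ hL1 (by omega)
    have h6 : (K + 1) * L ≤ L ^ 2 := by
      rw [sq]
      exact mul_le_mul_of_nonneg_right hLK hL0.le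
    linarith
  refine ⟨h1 _ hlo hup, h5.2.1, fun hk20 => ⟨h2 _ ?_ hup, h5.2.2 hk20⟩⟩
  have h7 : L ^ (41 / 2 : ℝ) * 2 ≤ L ^ (k + 1) := by
    calc L ^ (41 / 2 : ℝ) * 2 ≤ L ^ (41 / 2 : ℝ) * L ^ (1 / 2 : ℝ) :=
          mul_le_mul_of_nonneg_left h4 (by positivity)
      _ = L ^ (21 : ℝ) := by rw [← Real.rpow_add hL0]; norm_num
      _ = L ^ (21 : ℕ) := by
          rw [← Real.rpow_natCast]
          norm_num
      _ ≤ L ^ (k + 1) := pow_le_pow_right₀ hL1 (by omega)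
  have h8 : 1 ≤ L ^ (41 / 2 : ℝ) := Real.one_le_rpow hL1 (by norm_num)
  linarith

end Pool.Agent.L0h43.TA
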