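import Pool.Agent.L0h43.TA.Cnt
import Pool.Agent.Helper22K9.Trp.Sing

/-!
# First and second moments of the majorant
-/

set_option autoImplicit false

namespace Pool.Agent.L0h43.TA

open Finset Pool.Agent.H387R2
open Pool.Agent.H410R2.AC (wt GG)

open Classical in
/-- the divisor sum -/
noncomputable def Lam (Q : Finset ℕ) (Y m : ℕ) : ℝ :=
  ∑ D ∈ Fm Q Y, if (∀ p ∈ D, p ∣ m) then rho Q Y D else 0

open Classical in
/-- the majorant -/
noncomputable def nu (J : ℕ) (Q : Finset ℕ) (Y m : ℕ) : ℝ := if Ro J m then Lam Q Y m ^ 2 else 0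

lemma nu_nonneg (J : ℕ) (Q : Finset ℕ) (Y m : ℕ) : 0 ≤ nu J Q Y m := by
  unfold nu
  split_ifs
  · positivity
  · exact le_rfl

/-- pairs -/
def Pp (Q : Finset ℕ) (Y : ℕ) : Finset (Finset ℕ × Finset ℕ) := Fm Q Y ×ˢ Fm Q Y

/-- weight of a pair -/
noncomputable def rr (Q : Finset ℕ) (Y : ℕ) (x : Finset ℕ × Finset ℕ) : ℝ := rho Q Y x.1 * rho Q Y x.2

open Classical in
lemma nu_eq (J : ℕ) (Q : Finset ℕ) (Y m : ℕ) : nu J Q Y m =
    ∑ x ∈ Pp Q Y, rr Q Y x * (if (∀ p ∈ x.1 ∪ x.2, p ∣ m) ∧ Ro J m then 1 else 0) := by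
  unfold nu
  by_cases hR : Ro J m
  · rw [if_pos hR, sq]
    unfold Lam Pp
    rw [sum_mul_sum, sum_product]
    apply sum_congr rfl
    intro D _
    apply sum_congr rfl
    intro E _
    show _ = rho Q Y D * rho Q Y E * (if (∀ p ∈ D ∪ E, p ∣ m) ∧ Ro J m then 1 else 0)
    by_cases h1 : ∀ p ∈ D, p ∣ m
    · by_cases h2 : ∀ p ∈ E, p ∣ m
      · have h3 : (∀ p ∈ D ∪ E, p ∣ m) ∧ Ro J m := by
          refine ⟨?_, hR⟩
          intro p hp
          rcases mem_union.1 hp with h | h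
          · exact h1 p h
          · exact h2 p h
        rw [if_pos h1, if_pos h2, if_pos h3, mul_one]
      · have h3 : ¬ ((∀ p ∈ D ∪ E, p ∣ m) ∧ Ro J m) := by
          intro h
          exact h2 (fun p hp => h.1 p (mem_union_right _ hp))
        rw [if_neg h2, if_neg h3, mul_zero, mul_zero]
    · have h3 : ¬ ((∀ p ∈ D ∪ E, p ∣ m) ∧ Ro J m) := by
        intro h
        exact h1 (fun p hp => h.1 p (mem_union_left _ hp))
      rw [if_neg h1, if_neg h3, zero_mul, mul_zero]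
  · rw [if_neg hR]
    symm
    apply sum_eq_zero
    intro x _
    rw [if_neg (fun h => hR h.2), mul_zero]

section
variable {Q : Finset ℕ} (hQ : Prs Q) {Y : ℕ} (hY : 1 ≤ Y)
include hQ

lemma un_prs {x : Finset ℕ × Finset ℕ} (hx : x ∈ Pp Q Y) : Prs (x.1 ∪ x.2) := by
  unfold Pp at hx
  rw [mem_product] at hx
  intro p hp
  rcases mem_union.1 hp with h | h
  · exact Fm_prs hQ hx.1 p h
  · exact Fm_prs hQ hx.2 p h

omit hQ in
lemma un_sub {x : Finset ℕ × Finset ℕ} (hx : x ∈ Pp Q Y) : x.1 ∪ x.2 ⊆ Q := by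
  unfold Pp at hx
  rw [mem_product] at hx
  exact union_subset (Fm_subset hx.1) (Fm_subset hx.2)

include hY

lemma sum_rr : ∑ x ∈ Pp Q Y, rr Q Y x / pd (x.1 ∪ x.2) = 1 / GG (Fm Q Y) := by
  rw [← quad hQ hY]
  unfold Pp rr
  rw [sum_product]

lemma rr_le {x : Finset ℕ × Finset ℕ} (hx : x ∈ Pp Q Y) : |rr Q Y x| ≤ 2 ^ (x.1.card + x.2.card) := by
  unfold Pp at hx
  rw [mem_product] at hx
  unfold rr
  rw [abs_mul, pow_add]
  exact mul_le_mul (rho_le hQ hY _ (Fm_prs hQ hx.1)) (rho_le hQ hY _ (Fm_prs hQ hx.2)) (abs_nonneg _)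
    (by positivity)

omit hY hQ in
lemma Pp_sub : Pp Q Y ⊆ Q.powerset ×ˢ Q.powerset := by
  unfold Pp Fm
  intro x hx
  rw [mem_product, mem_filter, mem_filter] at hx
  rw [mem_product]
  exact ⟨hx.1.1, hx.2.1⟩

lemma sum_abs : ∑ x ∈ Pp Q Y, |rr Q Y x| / pd (x.1 ∪ x.2) ≤ UU Q := by
  have h1 : ∑ x ∈ Pp Q Y, |rr Q Y x| / pd (x.1 ∪ x.2) ≤
      ∑ x ∈ Pp Q Y, (2 : ℝ) ^ (x.1.card + x.2.card) / pd (x.1 ∪ x.2) := by
    apply sum_le_sum
    intro x hx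
    exact div_le_div_of_nonneg_right (rr_le hQ hY hx) (pd_pos (un_prs hQ hx)).le
  refine h1.trans ?_
  unfold UU
  rw [← sum_product (s := Q.powerset) (t := Q.powerset)
    (f := fun x => (2 : ℝ) ^ (x.1.card + x.2.card) / pd (x.1 ∪ x.2))]
  apply sum_le_sum_of_subset_of_nonneg Pp_sub
  intro x hx _
  rw [mem_product, mem_powerset, mem_powerset] at hx
  have : Prs (x.1 ∪ x.2) := fun p hp => hQ p (union_subset hx.1 hx.2 hp)
  have := pd_pos this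
  positivity

open Classical in
lemma sum_abs_part {p : ℕ} (hp : p ∈ Q) :
    ∑ x ∈ Pp Q Y, (if p ∈ x.1 ∪ x.2 then |rr Q Y x| / pd (x.1 ∪ x.2) else 0) ≤ 8 / p * UU Q := by
  have h1 : ∑ x ∈ Pp Q Y, (if p ∈ x.1 ∪ x.2 then |rr Q Y x| / pd (x.1 ∪ x.2) else 0) ≤
      ∑ x ∈ Pp Q Y, (if p ∈ x.1 ∪ x.2 then (2 : ℝ) ^ (x.1.card + x.2.card) / pd (x.1 ∪ x.2) else 0) := by
    apply sum_le_sum
    intro x hx
    split_ifs
    · exact div_le_div_of_nonneg_right (rr_le hQ hY hx) (pd_pos (un_prs hQ hx)).le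
    · exact le_rfl
  refine h1.trans (le_trans ?_ (UU_part hQ hp))
  rw [← sum_product (s := Q.powerset) (t := Q.powerset)
    (f := fun x => if p ∈ x.1 ∪ x.2 then (2 : ℝ) ^ (x.1.card + x.2.card) / pd (x.1 ∪ x.2) else 0)]
  refine le_trans (sum_le_sum_of_subset_of_nonneg Pp_sub ?_) (le_of_eq ?_)
  · intro x hx _
    rw [mem_product, mem_powerset, mem_powerset] at hx
    have : Prs (x.1 ∪ x.2) := fun p hp => hQ p (union_subset hx.1 hx.2 hp)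
    have := pd_pos this
    split_ifs
    · positivity
    · exact le_rfl
  · apply sum_congr rfl
    intro x _
    by_cases h : p ∈ x.1 ∪ x.2
    · rw [if_pos h]
    · rw [if_neg h]

end

/-- absolute sum of the weights -/
noncomputable def AA (Q : Finset ℕ) (Y : ℕ) : ℝ := ∑ D ∈ Fm Q Y, |rho Q Y D|

lemma AA_nonneg (Q : Finset ℕ) (Y : ℕ) : 0 ≤ AA Q Y := sum_nonneg fun _ _ => abs_nonneg _

lemma sum_abs_rr (Q : Finset ℕ) (Y : ℕ) : ∑ x ∈ Pp Q Y, |rr Q Y x| = AA Q Y ^ 2 := by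
  unfold Pp rr AA
  rw [sum_product, sq, sum_mul_sum]
  apply sum_congr rfl
  intro D _
  apply sum_congr rfl
  intro E _
  rw [abs_mul]

/-- density of the rough numbers -/
noncomputable def V1 (J : ℕ) : ℝ := ∏ p ∈ Ps J, (1 - 1 / (p : ℝ))

lemma VT_same (J h : ℕ) : VT J {h, h} = V1 J := by
  unfold VT V1
  apply prod_congr rfl
  intro p _
  have : Uni.nuT {h, h} p = 1 := by
    unfold Uni.nuT
    rw [pair_eq_singleton, image_singleton, card_singleton]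
  rw [this, Nat.cast_one]

lemma V1_pos (J : ℕ) : 0 < V1 J := by
  unfold V1
  apply prod_pos
  intro p hp
  have : (1 : ℝ) < p := by exact_mod_cast (mem_filter.1 hp).2.one_lt
  rw [sub_pos, div_lt_one (by linarith)]
  exact this

lemma V1_le_one (J : ℕ) : V1 J ≤ 1 := by
  unfold V1
  apply prod_le_one
  · intro p hp
    have : (1 : ℝ) < p := by exact_mod_cast (mem_filter.1 hp).2.one_lt
    rw [sub_nonneg, div_le_one (by linarith)]
    exact this.le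
  · intro p _
    have : (0 : ℝ) ≤ 1 / (p : ℝ) := by positivity
    linarith

/-- the two counting estimates, with the constant `C` -/
def CT2 (C : ℕ) : Prop := ∀ (b J N h1 h2 : ℕ) (A B : Finset ℕ), 3 * C ≤ b →
    Prs A → Prs B → Big J A → Big J B → Disjoint A B →
    |(cc J N h1 h2 A B : ℝ) - N / (pd A * pd B) * VT J {h1, h2}| ≤
      (1 / 2) ^ b * (N / (pd A * pd B) * VT J {h1, h2}) + Er C b J

lemma nu_sum_one (J : ℕ) (Q : Finset ℕ) (Y N h : ℕ) : ∑ n ∈ Ioc 0 N, nu J Q Y (n + h) =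
    ∑ x ∈ Pp Q Y, rr Q Y x * (cc J N h h (x.1 ∪ x.2) ∅ : ℝ) := by
  classical
  have h1 : ∀ n ∈ Ioc 0 N, nu J Q Y (n + h) =
      ∑ x ∈ Pp Q Y, rr Q Y x * (if (∀ p ∈ x.1 ∪ x.2, p ∣ n + h) ∧ Ro J (n + h) then 1 else 0) := by
    intro n _
    rw [nu_eq]
  rw [sum_congr rfl h1, sum_comm]
  apply sum_congr rfl
  intro x _
  rw [← mul_sum]
  congr 1
  unfold cc
  rw [sum_boole]
  congr 2
  apply filter_congr
  intro n _
  simp only [notMem_empty, false_imp_iff, implies_true, true_and]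
  tauto

lemma nu_sum_two (J : ℕ) (Q : Finset ℕ) (Y N h1 h2 : ℕ) :
    ∑ n ∈ Ioc 0 N, nu J Q Y (n + h1) * nu J Q Y (n + h2) =
    ∑ x ∈ Pp Q Y, ∑ y ∈ Pp Q Y, rr Q Y x * rr Q Y y * (cc J N h1 h2 (x.1 ∪ x.2) (y.1 ∪ y.2) : ℝ) := by
  classical
  have h3 : ∀ n ∈ Ioc 0 N, nu J Q Y (n + h1) * nu J Q Y (n + h2) =
      ∑ x ∈ Pp Q Y, ∑ y ∈ Pp Q Y, rr Q Y x * rr Q Y y *
        (if ((∀ p ∈ x.1 ∪ x.2, p ∣ n + h1) ∧ Ro J (n + h1)) ∧
          ((∀ p ∈ y.1 ∪ y.2, p ∣ n + h2) ∧ Ro J (n + h2)) then 1 else 0) := by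
    intro n _
    rw [nu_eq, nu_eq, sum_mul_sum]
    apply sum_congr rfl
    intro x _
    apply sum_congr rfl
    intro y _
    by_cases a1 : (∀ p ∈ x.1 ∪ x.2, p ∣ n + h1) ∧ Ro J (n + h1)
    · by_cases a2 : (∀ p ∈ y.1 ∪ y.2, p ∣ n + h2) ∧ Ro J (n + h2)
      · rw [if_pos a1, if_pos a2, if_pos ⟨a1, a2⟩]; ring
      · have a3 : ¬ (((∀ p ∈ x.1 ∪ x.2, p ∣ n + h1) ∧ Ro J (n + h1)) ∧
          ((∀ p ∈ y.1 ∪ y.2, p ∣ n + h2) ∧ Ro J (n + h2))) := fun h => a2 h.2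
        rw [if_neg a2, if_neg a3]; ring
    · have a3 : ¬ (((∀ p ∈ x.1 ∪ x.2, p ∣ n + h1) ∧ Ro J (n + h1)) ∧
          ((∀ p ∈ y.1 ∪ y.2, p ∣ n + h2) ∧ Ro J (n + h2))) := fun h => a1 h.1
      rw [if_neg a1, if_neg a3]; ring
  rw [sum_congr rfl h3, sum_comm]
  apply sum_congr rfl
  intro x _
  rw [sum_comm]
  apply sum_congr rfl
  intro y _
  rw [← mul_sum]
  congr 1
  unfold cc
  rw [sum_boole]

lemma sum_rr_aux {ι : Type*} (V : ℝ) (X : ι → ℝ) (S : Finset ι) :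
    V * (∑ x ∈ S, X x) ^ 2 = ∑ x ∈ S, ∑ y ∈ S, V * (X x * X y) := by
  rw [sq, sum_mul_sum, mul_sum]
  apply sum_congr rfl
  intro x _
  rw [mul_sum]

/-- lower bound for the first moment -/
theorem first_low {C b J : ℕ} (hC : CT2 C) (hb : 3 * C ≤ b) {Q : Finset ℕ} (hQ : Prs Q) (hJ : Big J Q)
    {Y : ℕ} (hY : 1 ≤ Y) (N h : ℕ) :
    N * V1 J * (1 / GG (Fm Q Y) - (1 / 2) ^ b * UU Q) - Er C b J * AA Q Y ^ 2 ≤
      ∑ n ∈ Ioc 0 N, nu J Q Y (n + h) := by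
  rw [nu_sum_one]
  have hN : (0 : ℝ) ≤ N := Nat.cast_nonneg _
  have hV := (V1_pos J).le
  have hE := Er_nonneg C b J
  have hP : Prs (∅ : Finset ℕ) := fun p hp => absurd hp (notMem_empty p)
  have hBg : Big J (∅ : Finset ℕ) := fun p hp => absurd hp (notMem_empty p)
  have h1 : ∀ x ∈ Pp Q Y, N * V1 J * (rr Q Y x / pd (x.1 ∪ x.2)) -
      (1 / 2) ^ b * (N * V1 J) * (|rr Q Y x| / pd (x.1 ∪ x.2)) - Er C b J * |rr Q Y x| ≤
      rr Q Y x * (cc J N h h (x.1 ∪ x.2) ∅ : ℝ) := by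
    intro x hx
    have hu := un_prs hQ hx
    have hup := pd_pos hu
    have hub : Big J (x.1 ∪ x.2) := fun p hp => hJ p (un_sub hx hp)
    have h2 := hC b J N h h (x.1 ∪ x.2) ∅ hb hu hP hub hBg (disjoint_empty_right _)
    rw [VT_same] at h2
    have e : pd (∅ : Finset ℕ) = 1 := by simp [pd]
    rw [e, mul_one] at h2
    have h3 : |rr Q Y x * ((cc J N h h (x.1 ∪ x.2) ∅ : ℝ) - N / pd (x.1 ∪ x.2) * V1 J)| ≤
        |rr Q Y x| * ((1 / 2) ^ b * (N / pd (x.1 ∪ x.2) * V1 J) + Er C b J) := by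
      rw [abs_mul]
      exact mul_le_mul_of_nonneg_left h2 (abs_nonneg _)
    have h4 := (abs_le.1 h3).1
    have e2 : rr Q Y x * ((cc J N h h (x.1 ∪ x.2) ∅ : ℝ) - N / pd (x.1 ∪ x.2) * V1 J) =
        rr Q Y x * (cc J N h h (x.1 ∪ x.2) ∅ : ℝ) - N * V1 J * (rr Q Y x / pd (x.1 ∪ x.2)) := by ring
    have e3 : |rr Q Y x| * ((1 / 2) ^ b * (N / pd (x.1 ∪ x.2) * V1 J) + Er C b J) =
        (1 / 2) ^ b * (N * V1 J) * (|rr Q Y x| / pd (x.1 ∪ x.2)) + Er C b J * |rr Q Y x| := by ring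
    rw [e2, e3] at h4
    linarith
  refine le_trans ?_ (sum_le_sum h1)
  rw [sum_sub_distrib, sum_sub_distrib, ← mul_sum, ← mul_sum, ← mul_sum, sum_rr hQ hY, sum_abs_rr]
  have h5 := sum_abs hQ hY
  have h6 : (1 / 2 : ℝ) ^ b * (N * V1 J) * (∑ x ∈ Pp Q Y, |rr Q Y x| / pd (x.1 ∪ x.2)) ≤
      (1 / 2) ^ b * (N * V1 J) * UU Q := mul_le_mul_of_nonneg_left h5 (by positivity)
  have e4 : N * V1 J * (1 / GG (Fm Q Y) - (1 / 2) ^ b * UU Q) =
      N * V1 J * (1 / GG (Fm Q Y)) - (1 / 2) ^ b * (N * V1 J) * UU Q := by ring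
  linarith

/-- upper bound for the correlations -/
theorem pair_up {C b J : ℕ} (hC : CT2 C) (hb : 3 * C ≤ b) {Q : Finset ℕ} (hQ : Prs Q) (hJ : Big J Q)
    {Y : ℕ} (hY : 1 ≤ Y) (N h1 h2 : ℕ) (hne : h1 ≠ h2) (hb1 : h1 < 2 ^ 2 ^ J) (hb2 : h2 < 2 ^ 2 ^ J) :
    ∑ n ∈ Ioc 0 N, nu J Q Y (n + h1) * nu J Q Y (n + h2) ≤
      N * VT J {h1, h2} * (1 / GG (Fm Q Y) ^ 2 + ∑ p ∈ Q, (8 / p * UU Q) ^ 2 + (1 / 2) ^ b * UU Q ^ 2) +
        Er C b J * AA Q Y ^ 4 := by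
  classical
  rw [nu_sum_two]
  have hN : (0 : ℝ) ≤ N := Nat.cast_nonneg _
  have hV := VT_nonneg J {h1, h2}
  have hE := Er_nonneg C b J
  set V : ℝ := N * VT J {h1, h2} with hVdef
  have hV0 : 0 ≤ V := mul_nonneg hN hV
  set X : Finset ℕ × Finset ℕ → ℝ := fun x => rr Q Y x / pd (x.1 ∪ x.2) with hX
  set Z : Finset ℕ × Finset ℕ → ℝ := fun x => |rr Q Y x| / pd (x.1 ∪ x.2) with hZ
  have hZ0 : ∀ x ∈ Pp Q Y, 0 ≤ Z x := by
    intro x hx
    exact div_nonneg (abs_nonneg _) (pd_pos (un_prs hQ hx)).le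
  have key : ∀ x ∈ Pp Q Y, ∀ y ∈ Pp Q Y,
      rr Q Y x * rr Q Y y * (cc J N h1 h2 (x.1 ∪ x.2) (y.1 ∪ y.2) : ℝ) ≤
      V * (X x * X y) + V * (∑ p ∈ Q, (if p ∈ x.1 ∪ x.2 then Z x else 0) * (if p ∈ y.1 ∪ y.2 then Z y else 0)) +
        (1 / 2) ^ b * V * (Z x * Z y) + Er C b J * (|rr Q Y x| * |rr Q Y y|) := by
    intro x hx y hy
    have hu := un_prs hQ hx
    have hw := un_prs hQ hy
    have hup := pd_pos hu
    have hwp := pd_pos hw
    have hub : Big J (x.1 ∪ x.2) := fun p hp => hJ p (un_sub hx hp)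
    have hwb : Big J (y.1 ∪ y.2) := fun p hp => hJ p (un_sub hy hp)
    have hXZ : X x * X y ≤ Z x * Z y ∧ -(Z x * Z y) ≤ X x * X y := by
      have : |X x * X y| = Z x * Z y := by
        rw [hX, hZ]
        simp only
        rw [abs_mul, abs_div, abs_div, abs_of_pos hup, abs_of_pos hwp]
      constructor
      · rw [← this]; exact le_abs_self _
      · rw [← this]; exact neg_abs_le _
    have hZZ : 0 ≤ Z x * Z y := mul_nonneg (hZ0 x hx) (hZ0 y hy)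
    have hsum0 : 0 ≤ ∑ p ∈ Q, (if p ∈ x.1 ∪ x.2 then Z x else 0) * (if p ∈ y.1 ∪ y.2 then Z y else 0) := by
      apply sum_nonneg
      intro p _
      apply mul_nonneg
      · split_ifs
        · exact hZ0 x hx
        · exact le_rfl
      · split_ifs
        · exact hZ0 y hy
        · exact le_rfl
    have hrr : 0 ≤ |rr Q Y x| * |rr Q Y y| := by positivity
    by_cases hd : Disjoint (x.1 ∪ x.2) (y.1 ∪ y.2)
    · have h3 := hC b J N h1 h2 (x.1 ∪ x.2) (y.1 ∪ y.2) hb hu hw hub hwb hd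
      have h4 : |(rr Q Y x * rr Q Y y) * ((cc J N h1 h2 (x.1 ∪ x.2) (y.1 ∪ y.2) : ℝ) -
          N / (pd (x.1 ∪ x.2) * pd (y.1 ∪ y.2)) * VT J {h1, h2})| ≤
          (|rr Q Y x| * |rr Q Y y|) * ((1 / 2) ^ b * (N / (pd (x.1 ∪ x.2) * pd (y.1 ∪ y.2)) * VT J {h1, h2}) +
            Er C b J) := by
        rw [abs_mul, abs_mul]
        exact mul_le_mul_of_nonneg_left h3 hrr
      have h5 := (abs_le.1 h4).2
      have e2 : (rr Q Y x * rr Q Y y) * ((cc J N h1 h2 (x.1 ∪ x.2) (y.1 ∪ y.2) : ℝ) -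
          N / (pd (x.1 ∪ x.2) * pd (y.1 ∪ y.2)) * VT J {h1, h2}) =
          rr Q Y x * rr Q Y y * (cc J N h1 h2 (x.1 ∪ x.2) (y.1 ∪ y.2) : ℝ) - V * (X x * X y) := by
        rw [hX, hVdef]
        field_simp
      have e3 : (|rr Q Y x| * |rr Q Y y|) *
          ((1 / 2) ^ b * (N / (pd (x.1 ∪ x.2) * pd (y.1 ∪ y.2)) * VT J {h1, h2}) + Er C b J) =
          (1 / 2) ^ b * V * (Z x * Z y) + Er C b J * (|rr Q Y x| * |rr Q Y y|) := by
        rw [hZ, hVdef]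
        field_simp
      rw [e2, e3] at h5
      have : 0 ≤ V * (∑ p ∈ Q, (if p ∈ x.1 ∪ x.2 then Z x else 0) * (if p ∈ y.1 ∪ y.2 then Z y else 0)) :=
        mul_nonneg hV0 hsum0
      linarith
    · rw [cc_zero hub hd hne hb1 hb2, Nat.cast_zero, mul_zero]
      obtain ⟨p, hp1, hp2⟩ := not_disjoint_iff.1 hd
      have h6 : Z x * Z y ≤
          ∑ p ∈ Q, (if p ∈ x.1 ∪ x.2 then Z x else 0) * (if p ∈ y.1 ∪ y.2 then Z y else 0) := by
        have h7 := single_le_sum (f := fun p => (if p ∈ x.1 ∪ x.2 then Z x else 0) *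
          (if p ∈ y.1 ∪ y.2 then Z y else 0)) (s := Q) (fun p _ => by
            apply mul_nonneg
            · split_ifs
              · exact hZ0 x hx
              · exact le_rfl
            · split_ifs
              · exact hZ0 y hy
              · exact le_rfl) (un_sub hx hp1)
        rw [if_pos hp1, if_pos hp2] at h7
        exact h7
      have h8 := mul_le_mul_of_nonneg_left h6 hV0
      have h9 := mul_le_mul_of_nonneg_left hXZ.2 hV0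
      have h10 : 0 ≤ (1 / 2 : ℝ) ^ b * V * (Z x * Z y) := by positivity
      have h11 : 0 ≤ Er C b J * (|rr Q Y x| * |rr Q Y y|) := mul_nonneg hE hrr
      have e5 : V * -(Z x * Z y) = -(V * (Z x * Z y)) := by ring
      linarith
  refine (sum_le_sum fun x hx => sum_le_sum fun y hy => key x hx y hy).trans ?_
  have s1 : ∑ x ∈ Pp Q Y, ∑ y ∈ Pp Q Y, V * (X x * X y) = V * (1 / GG (Fm Q Y) ^ 2) := by
    have := sum_rr hQ hY
    have e : ∑ x ∈ Pp Q Y, X x = 1 / GG (Fm Q Y) := this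
    rw [← sum_rr_aux V X (Pp Q Y), e]
    ring
  have s2 : ∑ x ∈ Pp Q Y, ∑ y ∈ Pp Q Y, V * (∑ p ∈ Q, (if p ∈ x.1 ∪ x.2 then Z x else 0) *
      (if p ∈ y.1 ∪ y.2 then Z y else 0)) ≤ V * ∑ p ∈ Q, (8 / p * UU Q) ^ 2 := by
    have e : ∑ x ∈ Pp Q Y, ∑ y ∈ Pp Q Y, V * (∑ p ∈ Q, (if p ∈ x.1 ∪ x.2 then Z x else 0) *
      (if p ∈ y.1 ∪ y.2 then Z y else 0)) =
      V * ∑ p ∈ Q, (∑ x ∈ Pp Q Y, if p ∈ x.1 ∪ x.2 then Z x else 0) ^ 2 := by
      have r1 : ∀ x ∈ Pp Q Y, (∑ y ∈ Pp Q Y, V * (∑ p ∈ Q, (if p ∈ x.1 ∪ x.2 then Z x else 0) *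
          (if p ∈ y.1 ∪ y.2 then Z y else 0))) =
          ∑ p ∈ Q, ∑ y ∈ Pp Q Y, V * ((if p ∈ x.1 ∪ x.2 then Z x else 0) *
          (if p ∈ y.1 ∪ y.2 then Z y else 0)) := by
        intro x _
        rw [sum_comm]
        apply sum_congr rfl
        intro y _
        exact mul_sum _ _ _
      rw [sum_congr rfl r1, sum_comm, mul_sum]
      apply sum_congr rfl
      intro p _
      rw [sq, sum_mul_sum, mul_sum]
      apply sum_congr rfl
      intro x _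
      rw [mul_sum]
    rw [e]
    apply mul_le_mul_of_nonneg_left _ hV0
    apply sum_le_sum
    intro p hp
    apply pow_le_pow_left₀
    · apply sum_nonneg
      intro x hx
      split_ifs
      · exact hZ0 x hx
      · exact le_rfl
    · exact sum_abs_part hQ hY hp
  have s3 : ∑ x ∈ Pp Q Y, ∑ y ∈ Pp Q Y, (1 / 2) ^ b * V * (Z x * Z y) ≤ (1 / 2) ^ b * V * UU Q ^ 2 := by
    rw [← sum_rr_aux ((1 / 2) ^ b * V) Z (Pp Q Y)]
    apply mul_le_mul_of_nonneg_left _ (by positivity)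
    apply pow_le_pow_left₀ (sum_nonneg hZ0)
    exact sum_abs hQ hY
  have s4 : ∑ x ∈ Pp Q Y, ∑ y ∈ Pp Q Y, Er C b J * (|rr Q Y x| * |rr Q Y y|) = Er C b J * AA Q Y ^ 4 := by
    rw [← sum_rr_aux (Er C b J) (fun x => |rr Q Y x|) (Pp Q Y), sum_abs_rr]
    ring
  simp_rw [sum_add_distrib]
  rw [s1, s4]
  have e6 : V * (1 / GG (Fm Q Y) ^ 2 + ∑ p ∈ Q, (8 / (p : ℝ) * UU Q) ^ 2 + (1 / 2) ^ b * UU Q ^ 2) =
      V * (1 / GG (Fm Q Y) ^ 2) + V * ∑ p ∈ Q, (8 / (p : ℝ) * UU Q) ^ 2 + (1 / 2) ^ b * V * UU Q ^ 2 := by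
    ring
  rw [e6]
  linarith

end Pool.Agent.L0h43.TA
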