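import Pool.Agent.H633R2.PP.GGS

/-!
# Selberg weights over sets of primes
-/

set_option autoImplicit false

namespace Pool.Agent.L0h43.TA

open Finset
open Pool.Agent.H410R2.AC (wt GG)

/-- the product of the primes of `D` -/
noncomputable def pd (D : Finset ℕ) : ℝ := ∏ p ∈ D, (p : ℝ)

/-- the squarefree numbers `≤ Y` composed of the primes of `Q` -/
def Fm (Q : Finset ℕ) (Y : ℕ) : Finset (Finset ℕ) := Q.powerset.filter (fun R => ∏ p ∈ R, p ≤ Y)

/-- Selberg weights -/
noncomputable def rho (Q : Finset ℕ) (Y : ℕ) (D : Finset ℕ) : ℝ :=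
  (-1) ^ D.card * pd D * (∑ R ∈ (Fm Q Y).filter (fun R => D ⊆ R), wt R) / GG (Fm Q Y)

/-- a set of primes -/
def Prs (Q : Finset ℕ) : Prop := ∀ p ∈ Q, p.Prime

lemma Fm_sub {Q : Finset ℕ} {Y : ℕ} (hQ : Prs Q) {D R : Finset ℕ} (hDR : D ⊆ R) (hR : R ∈ Fm Q Y) :
    D ∈ Fm Q Y := by
  unfold Fm at hR ⊢
  rw [mem_filter, mem_powerset] at hR ⊢
  refine ⟨hDR.trans hR.1, le_trans ?_ hR.2⟩
  apply Finset.prod_le_prod_of_subset_of_one_le' hDR
  intro p hp _
  exact (hQ p (hR.1 hp)).one_le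

lemma Fm_prs {Q : Finset ℕ} {Y : ℕ} (hQ : Prs Q) {R : Finset ℕ} (hR : R ∈ Fm Q Y) : Prs R := by
  unfold Fm at hR
  rw [mem_filter, mem_powerset] at hR
  exact fun p hp => hQ p (hR.1 hp)

lemma Fm_subset {Q : Finset ℕ} {Y : ℕ} {R : Finset ℕ} (hR : R ∈ Fm Q Y) : R ⊆ Q := by
  unfold Fm at hR
  rw [mem_filter, mem_powerset] at hR
  exact hR.1

lemma empty_mem_Fm (Q : Finset ℕ) {Y : ℕ} (hY : 1 ≤ Y) : ∅ ∈ Fm Q Y := by
  unfold Fm
  rw [mem_filter, mem_powerset]
  exact ⟨empty_subset _, by simpa using hY⟩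

lemma one_lt_cast {Q : Finset ℕ} (hQ : Prs Q) {p : ℕ} (hp : p ∈ Q) : (1 : ℝ) < p := by
  exact_mod_cast (hQ p hp).one_lt

lemma wt_pos {R : Finset ℕ} (hR : Prs R) : 0 < wt R := by
  unfold wt
  apply prod_pos
  intro p hp
  have := one_lt_cast hR hp
  have : (0 : ℝ) < (p : ℝ) - 1 := by linarith
  positivity

lemma pd_pos {R : Finset ℕ} (hR : Prs R) : 0 < pd R := by
  unfold pd
  apply prod_pos
  intro p hp
  have := one_lt_cast hR hp
  linarith

lemma GG_pos {Q : Finset ℕ} (hQ : Prs Q) {Y : ℕ} (hY : 1 ≤ Y) : 0 < GG (Fm Q Y) := by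
  unfold GG
  apply sum_pos
  · intro R hR
    exact wt_pos (Fm_prs hQ hR)
  · exact ⟨∅, empty_mem_Fm Q hY⟩

lemma GG_ge_one {Q : Finset ℕ} (hQ : Prs Q) {Y : ℕ} (hY : 1 ≤ Y) : 1 ≤ GG (Fm Q Y) := by
  unfold GG
  have h := single_le_sum (f := wt) (s := Fm Q Y) (fun R hR => (wt_pos (Fm_prs hQ hR)).le)
    (empty_mem_Fm Q hY)
  have e : wt ∅ = 1 := by simp [wt]
  rw [e] at h
  exact h

lemma rho_empty {Q : Finset ℕ} (hQ : Prs Q) {Y : ℕ} (hY : 1 ≤ Y) : rho Q Y ∅ = 1 := by
  unfold rho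
  have h : (Fm Q Y).filter (fun R => ∅ ⊆ R) = Fm Q Y := by
    apply filter_true_of_mem
    intro R _
    exact empty_subset R
  rw [h]
  have hG := (GG_pos hQ hY).ne'
  unfold pd
  rw [prod_empty, card_empty, pow_zero, one_mul, one_mul]
  exact div_self hG

lemma sum_sup_le {Q : Finset ℕ} (hQ : Prs Q) {Y : ℕ} (D : Finset ℕ) (hD : Prs D) :
    ∑ R ∈ (Fm Q Y).filter (fun R => D ⊆ R), wt R ≤ wt D * GG (Fm Q Y) := by
  classical
  have h1 : ∀ R ∈ (Fm Q Y).filter (fun R => D ⊆ R), wt R = wt D * wt (R \ D) := by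
    intro R hR
    rw [mem_filter] at hR
    unfold wt
    rw [mul_comm, prod_sdiff hR.2]
  rw [sum_congr rfl h1, ← mul_sum]
  apply mul_le_mul_of_nonneg_left _ (wt_pos hD).le
  have h2 : Set.InjOn (fun R : Finset ℕ => R \ D) ((Fm Q Y).filter (fun R => D ⊆ R)) := by
    intro R hR S hS h
    rw [mem_coe, mem_filter] at hR hS
    simp only at h
    rw [← sdiff_union_of_subset hR.2, ← sdiff_union_of_subset hS.2, h]
  rw [← sum_image (g := fun R : Finset ℕ => R \ D) (f := wt) h2]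
  unfold GG
  apply sum_le_sum_of_subset_of_nonneg
  · intro S hS
    rw [mem_image] at hS
    obtain ⟨R, hR, rfl⟩ := hS
    rw [mem_filter] at hR
    exact Fm_sub hQ sdiff_subset hR.1
  · intro R hR _
    exact (wt_pos (Fm_prs hQ hR)).le

lemma rho_le {Q : Finset ℕ} (hQ : Prs Q) {Y : ℕ} (hY : 1 ≤ Y) (D : Finset ℕ) (hD : Prs D) :
    |rho Q Y D| ≤ 2 ^ D.card := by
  have hG := GG_pos hQ hY
  have h0 : 0 ≤ ∑ R ∈ (Fm Q Y).filter (fun R => D ⊆ R), wt R := by
    apply sum_nonneg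
    intro R hR
    exact (wt_pos (Fm_prs hQ (mem_filter.1 hR).1)).le
  have h1 := sum_sup_le hQ (Y := Y) D hD
  unfold rho
  rw [abs_div, abs_mul, abs_mul, abs_pow, abs_neg, abs_one, one_pow, one_mul, abs_of_pos (pd_pos hD),
    abs_of_nonneg h0, abs_of_pos hG, div_le_iff₀ hG]
  have h2 : pd D * wt D ≤ 2 ^ D.card := by
    unfold pd wt
    rw [← prod_mul_distrib, ← prod_const]
    apply prod_le_prod
    · intro p hp
      have := one_lt_cast hD hp
      have h3 : (0 : ℝ) < (p : ℝ) - 1 := by linarith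
      positivity
    · intro p hp
      have h2' : (2 : ℝ) ≤ p := by exact_mod_cast (hD p hp).two_le
      have h3 : (0 : ℝ) < (p : ℝ) - 1 := by linarith
      rw [mul_one_div, div_le_iff₀ h3]
      linarith
  calc pd D * ∑ R ∈ (Fm Q Y).filter (fun R => D ⊆ R), wt R ≤ pd D * (wt D * GG (Fm Q Y)) :=
        mul_le_mul_of_nonneg_left h1 (pd_pos hD).le
    _ = (pd D * wt D) * GG (Fm Q Y) := by ring
    _ ≤ _ := mul_le_mul_of_nonneg_right h2 hG.le

/-- alternating sum over the interval `[S, R]` -/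
lemma alt_sum (S R : Finset ℕ) (hSR : S ⊆ R) :
    ∑ D ∈ R.powerset.filter (fun D => S ⊆ D), ((-1 : ℝ)) ^ D.card =
      if S = R then (-1) ^ S.card else 0 := by
  classical
  have h1 : R.powerset.filter (fun D => S ⊆ D) = (R \ S).powerset.image (fun E => S ∪ E) := by
    ext D
    simp only [mem_filter, mem_powerset, mem_image]
    constructor
    · rintro ⟨h1, h2⟩
      exact ⟨D \ S, sdiff_subset_sdiff h1 subset_rfl, by rw [union_sdiff_of_subset h2]⟩
    · rintro ⟨E, hE, rfl⟩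
      exact ⟨union_subset hSR (hE.trans sdiff_subset), subset_union_left⟩
  have h2 : Set.InjOn (fun E => S ∪ E) ((R \ S).powerset : Set (Finset ℕ)) := by
    intro E hE E' hE' h
    rw [mem_coe, mem_powerset] at hE hE'
    simp only at h
    have e1 : (S ∪ E) \ S = E := by
      rw [union_sdiff_left]
      exact sdiff_eq_self_of_disjoint (disjoint_of_subset_left hE sdiff_disjoint)
    have e2 : (S ∪ E') \ S = E' := by
      rw [union_sdiff_left]
      exact sdiff_eq_self_of_disjoint (disjoint_of_subset_left hE' sdiff_disjoint)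
    rw [← e1, ← e2, h]
  rw [h1, sum_image h2]
  have h3 : ∀ E ∈ (R \ S).powerset, ((-1 : ℝ)) ^ (S ∪ E).card = (-1) ^ S.card * (-1) ^ E.card := by
    intro E hE
    rw [mem_powerset] at hE
    rw [card_union_of_disjoint, pow_add]
    exact disjoint_of_subset_right hE disjoint_sdiff
  rw [sum_congr rfl h3, ← mul_sum]
  have h4 : ∑ E ∈ (R \ S).powerset, ((-1 : ℝ)) ^ E.card = if R \ S = ∅ then 1 else 0 := by
    have := Finset.sum_powerset_neg_one_pow_card (x := R \ S)
    have h5 : ((∑ m ∈ (R \ S).powerset, (-1 : ℤ) ^ m.card : ℤ) : ℝ) =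
        ((if R \ S = ∅ then 1 else 0 : ℤ) : ℝ) := by rw [this]
    push_cast at h5
    exact h5
  rw [h4]
  by_cases h : S = R
  · rw [if_pos h, if_pos (by rw [h]; simp), mul_one]
  · rw [if_neg h, if_neg, mul_zero]
    intro h5
    exact h (subset_antisymm hSR (sdiff_eq_empty_iff_subset.1 h5))

/-- the transformed weights -/
lemma tr_rho {Q : Finset ℕ} (hQ : Prs Q) {Y : ℕ} (S : Finset ℕ) (hS : S ∈ Fm Q Y) :
    ∑ D ∈ (Fm Q Y).filter (fun D => S ⊆ D), rho Q Y D / pd D = (-1) ^ S.card * wt S / GG (Fm Q Y) := by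
  classical
  have h1 : ∀ D ∈ (Fm Q Y).filter (fun D => S ⊆ D), rho Q Y D / pd D =
      (∑ R ∈ Fm Q Y, if D ⊆ R then (-1) ^ D.card * wt R else 0) / GG (Fm Q Y) := by
    intro D hD
    have hp := (pd_pos (Fm_prs hQ (mem_filter.1 hD).1)).ne'
    unfold rho
    rw [← sum_filter, ← mul_sum]
    field_simp
  rw [sum_congr rfl h1, ← sum_div]
  congr 1
  rw [sum_comm]
  have h2 : ∀ R ∈ Fm Q Y, (∑ D ∈ (Fm Q Y).filter (fun D => S ⊆ D),
      if D ⊆ R then (-1 : ℝ) ^ D.card * wt R else 0) = if S = R then (-1) ^ S.card * wt S else 0 := by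
    intro R hR
    rw [← sum_filter, filter_filter]
    by_cases hSR : S ⊆ R
    · have h3 : (Fm Q Y).filter (fun D => S ⊆ D ∧ D ⊆ R) = R.powerset.filter (fun D => S ⊆ D) := by
        ext D
        simp only [mem_filter, mem_powerset]
        constructor
        · rintro ⟨_, h4, h5⟩; exact ⟨h5, h4⟩
        · rintro ⟨h4, h5⟩; exact ⟨Fm_sub hQ h4 hR, h5, h4⟩
      rw [h3, ← sum_mul, alt_sum S R hSR]
      split_ifs with h
      · rw [h]
      · rw [zero_mul]
    · have h3 : (Fm Q Y).filter (fun D => S ⊆ D ∧ D ⊆ R) = ∅ := by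
        apply filter_false_of_mem
        rintro D _ ⟨h4, h5⟩
        exact hSR (h4.trans h5)
      rw [h3, sum_empty, if_neg]
      intro h
      exact hSR (h ▸ subset_rfl)
  rw [sum_congr rfl h2, sum_ite_eq, if_pos hS]

/-- the quadratic form -/
theorem quad {Q : Finset ℕ} (hQ : Prs Q) {Y : ℕ} (hY : 1 ≤ Y) :
    ∑ D ∈ Fm Q Y, ∑ E ∈ Fm Q Y, rho Q Y D * rho Q Y E / pd (D ∪ E) = 1 / GG (Fm Q Y) := by
  classical
  have hG := (GG_pos hQ hY).ne'
  have h1 : ∀ D ∈ Fm Q Y, ∀ E ∈ Fm Q Y, rho Q Y D * rho Q Y E / pd (D ∪ E) =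
      ∑ S ∈ Fm Q Y, (∏ p ∈ S, ((p : ℝ) - 1)) *
        ((if S ⊆ D then rho Q Y D / pd D else 0) * (if S ⊆ E then rho Q Y E / pd E else 0)) := by
    intro D hD E hE
    have hDp := pd_pos (Fm_prs hQ hD)
    have hEp := pd_pos (Fm_prs hQ hE)
    have hDE : Prs (D ∪ E) := by
      intro p hp
      rcases mem_union.1 hp with h | h
      · exact Fm_prs hQ hD p h
      · exact Fm_prs hQ hE p h
    have hDEp := pd_pos hDE
    have e1 : pd (D ∪ E) * pd (D ∩ E) = pd D * pd E := by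
      unfold pd
      exact prod_union_inter
    have e2 : pd (D ∩ E) = ∑ S ∈ (D ∩ E).powerset, ∏ p ∈ S, ((p : ℝ) - 1) := by
      unfold pd
      rw [← prod_one_add]
      apply prod_congr rfl
      intro p _
      ring
    have e3 : (D ∩ E).powerset = (Fm Q Y).filter (fun S => S ⊆ D ∧ S ⊆ E) := by
      ext S
      rw [mem_powerset, mem_filter, subset_inter_iff]
      constructor
      · intro h; exact ⟨Fm_sub hQ h.1 hD, h⟩
      · intro h; exact h.2
    have e4 : ∀ S ∈ Fm Q Y, (∏ p ∈ S, ((p : ℝ) - 1)) *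
        ((if S ⊆ D then rho Q Y D / pd D else 0) * (if S ⊆ E then rho Q Y E / pd E else 0)) =
        (rho Q Y D / pd D) * (rho Q Y E / pd E) * (if S ⊆ D ∧ S ⊆ E then ∏ p ∈ S, ((p : ℝ) - 1) else 0) := by
      intro S _
      by_cases h1 : S ⊆ D
      · by_cases h2 : S ⊆ E
        · rw [if_pos h1, if_pos h2, if_pos ⟨h1, h2⟩]; ring
        · rw [if_pos h1, if_neg h2, if_neg (fun h => h2 h.2)]; ring
      · have h2 : ¬ (S ⊆ D ∧ S ⊆ E) := fun h => h1 h.1
        rw [if_neg h1, if_neg h2]; ring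
    rw [sum_congr rfl e4, ← mul_sum, ← sum_filter, ← e3, ← e2]
    have e5 : pd (D ∩ E) = pd D * pd E / pd (D ∪ E) := by
      rw [eq_div_iff hDEp.ne', mul_comm]
      exact e1
    rw [e5]
    field_simp
  rw [sum_congr rfl (fun D hD => sum_congr rfl (h1 D hD))]
  have h2 : ∑ D ∈ Fm Q Y, ∑ E ∈ Fm Q Y, ∑ S ∈ Fm Q Y, (∏ p ∈ S, ((p : ℝ) - 1)) *
        ((if S ⊆ D then rho Q Y D / pd D else 0) * (if S ⊆ E then rho Q Y E / pd E else 0)) =
      ∑ S ∈ Fm Q Y, (∏ p ∈ S, ((p : ℝ) - 1)) *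
        ((∑ D ∈ Fm Q Y, if S ⊆ D then rho Q Y D / pd D else 0) *
        (∑ E ∈ Fm Q Y, if S ⊆ E then rho Q Y E / pd E else 0)) := by
    have h3 : ∀ D ∈ Fm Q Y, (∑ E ∈ Fm Q Y, ∑ S ∈ Fm Q Y, (∏ p ∈ S, ((p : ℝ) - 1)) *
        ((if S ⊆ D then rho Q Y D / pd D else 0) * (if S ⊆ E then rho Q Y E / pd E else 0))) =
        ∑ S ∈ Fm Q Y, ∑ E ∈ Fm Q Y, (∏ p ∈ S, ((p : ℝ) - 1)) *
        ((if S ⊆ D then rho Q Y D / pd D else 0) * (if S ⊆ E then rho Q Y E / pd E else 0)) := by
      intro D _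
      rw [sum_comm]
    rw [sum_congr rfl h3, sum_comm]
    apply sum_congr rfl
    intro S _
    rw [sum_mul_sum, mul_sum]
    apply sum_congr rfl
    intro D _
    rw [mul_sum]
  rw [h2]
  have h3 : ∀ S ∈ Fm Q Y, (∏ p ∈ S, ((p : ℝ) - 1)) *
        ((∑ D ∈ Fm Q Y, if S ⊆ D then rho Q Y D / pd D else 0) *
        (∑ E ∈ Fm Q Y, if S ⊆ E then rho Q Y E / pd E else 0)) = wt S / GG (Fm Q Y) ^ 2 := by
    intro S hS
    rw [← sum_filter, tr_rho hQ S hS]
    have e1 : (∏ p ∈ S, ((p : ℝ) - 1)) * wt S = 1 := by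
      unfold wt
      rw [← prod_mul_distrib]
      apply prod_eq_one
      intro p hp
      have := one_lt_cast (Fm_prs hQ hS) hp
      have h3 : ((p : ℝ) - 1) ≠ 0 := by
        have : (0 : ℝ) < (p : ℝ) - 1 := by linarith
        exact this.ne'
      field_simp
    have e2 : ((-1 : ℝ) ^ S.card) * (-1) ^ S.card = 1 := by
      rw [← mul_pow]; norm_num
    calc (∏ p ∈ S, ((p : ℝ) - 1)) * ((-1) ^ S.card * wt S / GG (Fm Q Y) * ((-1) ^ S.card * wt S / GG (Fm Q Y)))
        = (((-1 : ℝ) ^ S.card) * (-1) ^ S.card) * ((∏ p ∈ S, ((p : ℝ) - 1)) * wt S) * wt S / GG (Fm Q Y) ^ 2 := by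
          ring
      _ = _ := by rw [e1, e2]; ring
  rw [sum_congr rfl h3, ← sum_div]
  unfold GG at hG ⊢
  field_simp

/-! ### Absolute sums -/

/-- the majorant of the absolute sums -/
noncomputable def UU (Q : Finset ℕ) : ℝ :=
  ∑ D ∈ Q.powerset, ∑ E ∈ Q.powerset, (2 : ℝ) ^ (D.card + E.card) / pd (D ∪ E)

lemma UU_eq (Q : Finset ℕ) (hQ : Prs Q) : UU Q = ∏ p ∈ Q, (1 + 8 / (p : ℝ)) := by
  classical
  induction Q using Finset.induction_on with
  | empty => simp [UU, pd]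
  | insert a s ha ih =>
    have hs : Prs s := fun p hp => hQ p (mem_insert_of_mem hp)
    have ha1 : (1 : ℝ) < a := one_lt_cast hQ (mem_insert_self a s)
    have ha0 : (a : ℝ) ≠ 0 := by linarith
    rw [prod_insert ha, ← ih hs]
    unfold UU
    rw [sum_powerset_insert ha]
    have h1 : ∀ D ∈ s.powerset, (∑ E ∈ (insert a s).powerset, (2 : ℝ) ^ (D.card + E.card) / pd (D ∪ E)) =
        (1 + 2 / a) * ∑ E ∈ s.powerset, (2 : ℝ) ^ (D.card + E.card) / pd (D ∪ E) := by
      intro D hD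
      rw [mem_powerset] at hD
      rw [sum_powerset_insert ha, add_mul, one_mul, mul_sum]
      congr 1
      apply sum_congr rfl
      intro E hE
      rw [mem_powerset] at hE
      have hnE : a ∉ E := fun h => ha (hE h)
      have hnD : a ∉ D := fun h => ha (hD h)
      have hn : a ∉ D ∪ E := by
        rw [mem_union]; tauto
      have e : pd (D ∪ insert a E) = a * pd (D ∪ E) := by
        unfold pd
        rw [union_insert, prod_insert hn]
      rw [e, card_insert_of_notMem hnE, ← add_assoc, pow_succ]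
      field_simp
    have h2 : ∀ D ∈ s.powerset,
        (∑ E ∈ (insert a s).powerset, (2 : ℝ) ^ ((insert a D).card + E.card) / pd (insert a D ∪ E)) =
        (6 / a) * ∑ E ∈ s.powerset, (2 : ℝ) ^ (D.card + E.card) / pd (D ∪ E) := by
      intro D hD
      rw [mem_powerset] at hD
      rw [sum_powerset_insert ha, ← sum_add_distrib, mul_sum]
      apply sum_congr rfl
      intro E hE
      rw [mem_powerset] at hE
      have hnE : a ∉ E := fun h => ha (hE h)
      have hnD : a ∉ D := fun h => ha (hD h)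
      have hn : a ∉ D ∪ E := by
        rw [mem_union]; tauto
      have e1 : pd (insert a D ∪ E) = a * pd (D ∪ E) := by
        unfold pd
        rw [insert_union, prod_insert hn]
      have e2 : pd (insert a D ∪ insert a E) = a * pd (D ∪ E) := by
        unfold pd
        rw [insert_union, union_insert, insert_idem, prod_insert hn]
      rw [e1, e2, card_insert_of_notMem hnE, card_insert_of_notMem hnD]
      have e3 : (2 : ℝ) ^ (D.card + 1 + E.card) = 2 * 2 ^ (D.card + E.card) := by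
        rw [show D.card + 1 + E.card = D.card + E.card + 1 by ring, pow_succ]; ring
      have e4 : (2 : ℝ) ^ (D.card + 1 + (E.card + 1)) = 4 * 2 ^ (D.card + E.card) := by
        rw [show D.card + 1 + (E.card + 1) = D.card + E.card + 2 by ring, pow_add]; ring
      rw [e3, e4]
      field_simp
      ring
    rw [sum_congr rfl h1, sum_congr rfl h2, ← mul_sum, ← mul_sum, ← add_mul]
    congr 1
    field_simp
    ring

lemma UU_nonneg {Q : Finset ℕ} (hQ : Prs Q) : 0 ≤ UU Q := by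
  rw [UU_eq Q hQ]
  apply prod_nonneg
  intro p _
  positivity

/-- the part of the sum with `p ∈ D ∪ E` -/
lemma UU_part {Q : Finset ℕ} (hQ : Prs Q) {p : ℕ} (hp : p ∈ Q) :
    ∑ D ∈ Q.powerset, ∑ E ∈ Q.powerset, (if p ∈ D ∪ E then (2 : ℝ) ^ (D.card + E.card) / pd (D ∪ E) else 0) ≤
      8 / p * UU Q := by
  classical
  have hs : Prs (Q.erase p) := fun q hq => hQ q (mem_of_mem_erase hq)
  have hp1 := one_lt_cast hQ hp
  have h1 : UU Q = (1 + 8 / p) * UU (Q.erase p) := by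
    rw [UU_eq Q hQ, UU_eq _ hs, ← mul_prod_erase Q _ hp]
  have h2 : UU (Q.erase p) + ∑ D ∈ Q.powerset, ∑ E ∈ Q.powerset,
      (if p ∈ D ∪ E then (2 : ℝ) ^ (D.card + E.card) / pd (D ∪ E) else 0) = UU Q := by
    have h3 : UU (Q.erase p) = ∑ D ∈ Q.powerset, ∑ E ∈ Q.powerset,
      (if p ∈ D ∪ E then 0 else (2 : ℝ) ^ (D.card + E.card) / pd (D ∪ E)) := by
      unfold UU
      have e : (Q.erase p).powerset = Q.powerset.filter (fun D => p ∉ D) := by
        ext D
        simp only [mem_powerset, mem_filter]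
        constructor
        · intro h
          exact ⟨h.trans (erase_subset _ _), fun h1 => notMem_erase p Q (h h1)⟩
        · rintro ⟨h1, h2⟩ q hq
          rw [mem_erase]
          refine ⟨?_, h1 hq⟩
          rintro rfl
          exact h2 hq
      rw [e, sum_filter]
      apply sum_congr rfl
      intro D _
      rw [sum_filter]
      by_cases hD : p ∈ D
      · rw [if_neg (not_not.2 hD)]
        symm
        apply sum_eq_zero
        intro E _
        rw [if_pos (mem_union_left _ hD)]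
      · rw [if_pos hD]
        apply sum_congr rfl
        intro E _
        by_cases hE : p ∈ E
        · rw [if_neg (not_not.2 hE), if_pos (mem_union_right _ hE)]
        · rw [if_pos hE, if_neg (by rw [mem_union]; tauto)]
    rw [h3, ← sum_add_distrib]
    unfold UU
    apply sum_congr rfl
    intro D _
    rw [← sum_add_distrib]
    apply sum_congr rfl
    intro E _
    split_ifs <;> ring
  have h4 : 0 ≤ UU (Q.erase p) := UU_nonneg hs
  have h5 : (0 : ℝ) < 8 / p := by positivity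
  have h6 : UU (Q.erase p) ≤ UU Q := by
    rw [h1]
    nlinarith
  have h7 : ∑ D ∈ Q.powerset, ∑ E ∈ Q.powerset,
      (if p ∈ D ∪ E then (2 : ℝ) ^ (D.card + E.card) / pd (D ∪ E) else 0) = 8 / p * UU (Q.erase p) := by
    have : UU Q = UU (Q.erase p) + 8 / p * UU (Q.erase p) := by rw [h1]; ring
    linarith
  rw [h7]
  exact mul_le_mul_of_nonneg_left h6 h5.le

end Pool.Agent.L0h43.TA
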