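import Pool.Agent.L0h43.TA.Box
import Pool.Agent.L0h43.TA.Rx2

/-!
# Prime triples on average
-/

set_option autoImplicit false

namespace Pool.Agent.L0h43.TA

open Finset Filter Topology Pool.Agent.H387R2

/-- the number of primes `p ≤ N` with `p - d`, `p - d'` prime -/
def p3 (N d' d : ℕ) : ℕ :=
  ((range (N + 1)).filter (fun p => p.Prime ∧ (p - d).Prime ∧ (p - d').Prime)).card

/-- the pairs of even numbers `2 ≤ d' < d ≤ D` -/
def tri (D : ℕ) : Finset (ℕ × ℕ) :=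
  (Icc 2 D ×ˢ Icc 2 D).filter (fun v => Even v.1 ∧ Even v.2 ∧ v.1 < v.2)

/-- the number of the primes `p - d`, `u < d ≤ u + h` -/
def QB (u h p : ℕ) : ℕ := ((Ioc u (u + h)).filter (fun d => (p - d).Prime)).card

lemma QB_le (u h p : ℕ) : QB u h p ≤ NW h (sh (-((u + h : ℕ) : ℤ)) p) := by
  unfold QB NW
  apply card_le_card_of_injOn (fun d => p - d - sh (-((u + h : ℕ) : ℤ)) p)
  · intro d hd
    rw [mem_coe, mem_filter, mem_Ioc] at hd
    rw [mem_coe, mem_filter, mem_range]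
    have hpos := hd.2.pos
    have h1 : p - d - sh (-((u + h : ℕ) : ℤ)) p < h := by unfold sh; omega
    have h2 : sh (-((u + h : ℕ) : ℤ)) p + (p - d - sh (-((u + h : ℕ) : ℤ)) p) = p - d := by unfold sh; omega
    refine ⟨h1, ?_⟩
    show (sh (-((u + h : ℕ) : ℤ)) p + (p - d - sh (-((u + h : ℕ) : ℤ)) p)).Prime
    rw [h2]
    exact hd.2
  · intro a ha b hb hab
    rw [mem_coe, mem_filter, mem_Ioc] at ha hb
    have h1 := ha.2.pos
    have h2 := hb.2.pos
    simp only at hab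
    unfold sh at hab
    omega

lemma box_count (N u h v h' : ℕ) : ∑ x ∈ bx u h v h', (p3 N x.1 x.2 : ℝ) ≤
    ∑ p ∈ pr N, (NW h (sh (-((u + h : ℕ) : ℤ)) p) : ℝ) * NW h' (sh (-((v + h' : ℕ) : ℤ)) p) := by
  classical
  have h1 : ∀ x ∈ bx u h v h', p3 N x.1 x.2 ≤
      ∑ p ∈ pr N, if (p - x.1).Prime ∧ (p - x.2).Prime then 1 else 0 := by
    intro x _
    rw [← card_filter]
    unfold p3 pr
    apply card_le_card
    intro p hp
    rw [mem_filter, mem_range] at hp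
    rw [mem_filter, mem_filter, mem_Icc]
    exact ⟨⟨⟨hp.2.1.one_le, by omega⟩, hp.2.1⟩, hp.2.2.2, hp.2.2.1⟩
  have h2 : ∑ x ∈ bx u h v h', p3 N x.1 x.2 ≤ ∑ p ∈ pr N, QB u h p * QB v h' p := by
    refine (sum_le_sum h1).trans ?_
    rw [sum_comm]
    apply sum_le_sum
    intro p _
    rw [← card_filter]
    unfold QB
    rw [← card_product]
    apply card_le_card
    intro x hx
    unfold bx at hx
    rw [mem_filter, mem_filter, mem_product] at hx
    rw [mem_product, mem_filter, mem_filter]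
    exact ⟨⟨hx.1.1.1, hx.2.1⟩, hx.1.1.2, hx.2.2⟩
  have h3 : ∑ p ∈ pr N, QB u h p * QB v h' p ≤
      ∑ p ∈ pr N, NW h (sh (-((u + h : ℕ) : ℤ)) p) * NW h' (sh (-((v + h' : ℕ) : ℤ)) p) :=
    sum_le_sum fun p _ => Nat.mul_le_mul (QB_le u h p) (QB_le v h' p)
  exact_mod_cast h2.trans h3

/-- **boxes, upper bound** -/
theorem box_up (ε : ℝ) (hε : 0 < ε) : ∃ K : ℝ, 1 ≤ K ∧ ∀ A : ℝ, ∀ᶠ N : ℕ in atTop,
    ∀ u h v h' : ℕ, K * Real.log N ≤ h → K * Real.log N ≤ h' → ((u + h : ℕ) : ℝ) ≤ Real.log N ^ A →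
      ((v + h' : ℕ) : ℝ) ≤ Real.log N ^ A →
      ∑ x ∈ bx u h v h', (p3 N x.1 x.2 : ℝ) ≤
        (16 + ε) * ((∑ x ∈ bx u h v h', Uni.CT {0, x.1, x.2}) * (N / Real.log N ^ 3)) := by
  obtain ⟨e, he⟩ : ∃ e : ℝ, e = ε / (17 + ε) := ⟨_, rfl⟩
  have he0 : 0 < e := by rw [he]; positivity
  have heq : 16 + e = (16 + ε) * (1 - e) := by
    rw [he]; field_simp; ring
  obtain ⟨K, hK, hb⟩ := bil e he0
  obtain ⟨D₀, hD₀⟩ := box_lo e he0
  refine ⟨K, hK, fun A => ?_⟩
  filter_upwards [hb A, ev_log (max 1 D₀), eventually_ge_atTop 1] with N h1 h2 h3 u h v h' g1 g2 g3 g4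
  obtain ⟨L, hL⟩ : ∃ L : ℝ, L = Real.log (N : ℝ) := ⟨_, rfl⟩
  rw [← hL] at h1 h2 g1 g2 g3 g4 ⊢
  have hL1 : 1 ≤ L := (le_max_left _ _).trans h2
  have hLD : (D₀ : ℝ) ≤ L := (le_max_right _ _).trans h2
  have hL0 : 0 < L := by linarith
  have hN0 : (0 : ℝ) < N := by exact_mod_cast h3
  have hLh : L ≤ h := (le_mul_of_one_le_left hL0.le hK).trans g1
  have hLh' : L ≤ h' := (le_mul_of_one_le_left hL0.le hK).trans g2
  have hDh : D₀ ≤ h := by exact_mod_cast hLD.trans hLh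
  have hDh' : D₀ ≤ h' := by exact_mod_cast hLD.trans hLh'
  have g5 := h1 h h' (-((u + h : ℕ) : ℤ)) (-((v + h' : ℕ) : ℤ)) g1 g2 (by
    refine le_trans ?_ g3
    push_cast
    have : (0 : ℝ) ≤ u := Nat.cast_nonneg _
    linarith) (by
    refine le_trans ?_ g4
    push_cast
    have : (0 : ℝ) ≤ v := Nat.cast_nonneg _
    linarith) (by
    rw [Int.natAbs_neg, Int.natAbs_natCast]
    exact g3) (by
    rw [Int.natAbs_neg, Int.natAbs_natCast]
    exact g4)
  have g6 := hD₀ u h v h' hDh hDh'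
  refine (box_count N u h v h').trans (g5.trans ?_)
  rw [heq]
  have g7 := mul_le_mul_of_nonneg_right g6 (show (0 : ℝ) ≤ N / L ^ 3 by positivity)
  calc (16 + ε) * (1 - e) * (N / L * (h / L * (h' / L))) = (16 + ε) * ((1 - e) * ((h : ℝ) * h') * (N / L ^ 3)) := by
        field_simp
    _ ≤ _ := mul_le_mul_of_nonneg_left g7 (by positivity)

/-! ### The whole region -/

lemma p3_swap (N a b : ℕ) : p3 N a b = p3 N b a := by
  unfold p3
  congr 1
  apply filter_congr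
  intro p _
  tauto

lemma tri_box {g : ℕ × ℕ → ℝ} (hg : ∀ a b, g (a, b) = g (b, a)) (D : ℕ) :
    ∑ x ∈ bx 0 D 0 D, g x = 2 * ∑ x ∈ tri D, g x := by
  classical
  have h1 : bx 0 D 0 D = tri D ∪ (tri D).image Prod.swap := by
    ext x
    unfold bx tri
    simp only [mem_filter, mem_product, mem_Ioc, mem_union, mem_image, mem_Icc, Prod.exists]
    constructor
    · rintro ⟨⟨h2, h3⟩, h4, h5, h6⟩
      have h7 : x.1 ≠ 1 := by rintro h; rw [h] at h4; exact absurd h4 (by decide)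
      have h8 : x.2 ≠ 1 := by rintro h; rw [h] at h5; exact absurd h5 (by decide)
      rcases lt_or_gt_of_ne h6 with h | h
      · left
        exact ⟨⟨by omega, by omega⟩, h4, h5, h⟩
      · right
        exact ⟨x.2, x.1, ⟨⟨by omega, by omega⟩, h5, h4, h⟩, rfl⟩
    · rintro (⟨⟨h2, h3⟩, h4, h5, h6⟩ | ⟨a, b, ⟨⟨h2, h3⟩, h4, h5, h6⟩, rfl⟩)
      · exact ⟨⟨by omega, by omega⟩, h4, h5, by omega⟩
      · simp only [Prod.swap_prod_mk]
        exact ⟨⟨by omega, by omega⟩, h5, h4, by omega⟩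
  have h2 : Disjoint (tri D) ((tri D).image Prod.swap) := by
    rw [disjoint_left]
    intro x hx hx2
    rw [mem_image] at hx2
    obtain ⟨y, hy, rfl⟩ := hx2
    unfold tri at hx hy
    rw [mem_filter] at hx hy
    have h3 := hx.2.2.2
    have h4 := hy.2.2.2
    simp only [Prod.fst_swap, Prod.snd_swap] at h3
    omega
  rw [h1, sum_union h2, sum_image (fun x _ y _ h => Prod.swap_injective h)]
  have h3 : ∑ x ∈ tri D, g x.swap = ∑ x ∈ tri D, g x := by
    apply sum_congr rfl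
    intro x _
    exact (hg x.1 x.2).symm
  rw [h3]
  ring

lemma p3_odd {N a b : ℕ} (h : ¬ (Even a ∧ Even b)) : p3 N a b ≤ 1 := by
  classical
  unfold p3
  apply card_le_one.2
  intro p hp q hq
  rw [mem_filter] at hp hq
  have key : ∀ p : ℕ, p.Prime → (p - b).Prime → (p - a).Prime → (¬ Even a → p = a + 2) ∧ (¬ Even b → p = b + 2) := by
    intro p h1 h2 h3
    have aux : ∀ c : ℕ, (p - c).Prime → ¬ Even c → p = c + 2 := by
      intro c hc hodd
      have h4 := hc.two_le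
      have h5 : p ≠ 2 := by
        rintro rfl
        have : c = 0 := by omega
        rw [this] at hodd
        exact hodd (by decide)
      have h6 : ¬ 2 ∣ p := by
        intro h
        exact h5 ((Nat.prime_dvd_prime_iff_eq Nat.prime_two h1).1 h).symm
      have h7 : ¬ 2 ∣ c := fun h => hodd (even_iff_two_dvd.2 h)
      have h8 : 2 ∣ p - c := by omega
      have h9 := (Nat.prime_dvd_prime_iff_eq Nat.prime_two hc).1 h8
      omega
    exact ⟨aux a h3, aux b h2⟩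
  have k1 := key p hp.2.1 hp.2.2.1 hp.2.2.2
  have k2 := key q hq.2.1 hq.2.2.1 hq.2.2.2
  by_cases ha : Even a
  · have hb : ¬ Even b := fun hb => h ⟨ha, hb⟩
    rw [k1.2 hb, k2.2 hb]
  · rw [k1.1 ha, k2.1 ha]

lemma cn_le_p3 {N a b : ℕ} (hab : a < b) : cn N {0, a, b} ≤ p3 N (b - a) b + b := by
  classical
  unfold cn p3
  have h1 : (Icc 1 N).filter (fun m => ∀ t ∈ ({0, a, b} : Finset ℕ), (m + t).Prime) ⊆
      ((range (N + 1)).filter (fun p => p.Prime ∧ (p - b).Prime ∧ (p - (b - a)).Prime)).image (fun p => p - b) ∪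
        Ioc (N - b) N := by
    intro m hm
    rw [mem_filter, mem_Icc] at hm
    rw [mem_union, mem_image, mem_Ioc]
    by_cases h : m + b ≤ N
    · left
      refine ⟨m + b, ?_, by omega⟩
      rw [mem_filter, mem_range]
      have e1 : m + b - b = m := by omega
      have e2 : m + b - (b - a) = m + a := by omega
      rw [e1, e2]
      have h2 := hm.2 0 (by simp)
      have h3 := hm.2 a (by simp)
      have h4 := hm.2 b (by simp)
      rw [add_zero] at h2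
      exact ⟨by omega, h4, h2, h3⟩
    · right; omega
  have h2 := (card_le_card h1).trans (card_union_le _ _)
  have h3 : (((range (N + 1)).filter (fun p => p.Prime ∧ (p - b).Prime ∧ (p - (b - a)).Prime)).image
      (fun p => p - b)).card ≤ _ := card_image_le
  rw [Nat.card_Ioc] at h2
  omega

lemma QA_le_p3 (D N : ℕ) : QA 2 D N ≤ ∑ x ∈ tri D, (p3 N x.1 x.2 : ℝ) + ((D : ℝ) ^ 3 + (D : ℝ) ^ 2) := by
  classical
  -- ordered pairs
  have h1 : QA 2 D N = ∑ x ∈ (Icc 2 D ×ˢ Icc 2 D).filter (fun x => x.1 < x.2), (cn N {0, x.1, x.2} : ℝ) := by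
    have h2 := offDiag_sum (Icc 2 D) (fun T => (cn N (insert 0 T) : ℝ))
    have h3 : ∑ x ∈ (Icc 2 D).offDiag, (cn N (insert 0 {x.1, x.2}) : ℝ) =
        2 * ∑ x ∈ (Icc 2 D ×ˢ Icc 2 D).filter (fun x => x.1 < x.2), (cn N {0, x.1, x.2} : ℝ) := by
      have h4 : (Icc 2 D).offDiag = (Icc 2 D ×ˢ Icc 2 D).filter (fun x => x.1 < x.2) ∪
          ((Icc 2 D ×ˢ Icc 2 D).filter (fun x => x.1 < x.2)).image Prod.swap := by
        ext x
        simp only [mem_offDiag, mem_union, mem_filter, mem_product, mem_image, Prod.exists]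
        constructor
        · rintro ⟨g1, g2, g3⟩
          rcases lt_or_gt_of_ne g3 with h | h
          · left; exact ⟨⟨g1, g2⟩, h⟩
          · right; exact ⟨x.2, x.1, ⟨⟨g2, g1⟩, h⟩, rfl⟩
        · rintro (⟨⟨g1, g2⟩, g3⟩ | ⟨a, b, ⟨⟨g1, g2⟩, g3⟩, rfl⟩)
          · exact ⟨g1, g2, g3.ne⟩
          · exact ⟨g2, g1, g3.ne'⟩
      have h5 : Disjoint ((Icc 2 D ×ˢ Icc 2 D).filter (fun x => x.1 < x.2))
          (((Icc 2 D ×ˢ Icc 2 D).filter (fun x => x.1 < x.2)).image Prod.swap) := by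
        rw [disjoint_left]
        intro x hx hx2
        rw [mem_image] at hx2
        obtain ⟨y, hy, rfl⟩ := hx2
        rw [mem_filter] at hx hy
        have h3 := hx.2
        have h4 := hy.2
        simp only [Prod.fst_swap, Prod.snd_swap] at h3
        omega
      rw [h4, sum_union h5, sum_image (fun x _ y _ h => Prod.swap_injective h), two_mul]
      congr 1
      apply sum_congr rfl
      intro x _
      simp only [Prod.fst_swap, Prod.snd_swap]
      rw [pair_comm]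
    rw [h3] at h2
    unfold QA
    linarith
  rw [h1]
  -- from `m` to `p`
  have h2 : ∑ x ∈ (Icc 2 D ×ˢ Icc 2 D).filter (fun x => x.1 < x.2), (cn N {0, x.1, x.2} : ℝ) ≤
      ∑ x ∈ (Icc 2 D ×ˢ Icc 2 D).filter (fun x => x.1 < x.2), ((p3 N (x.2 - x.1) x.2 : ℝ) + D) := by
    apply sum_le_sum
    intro x hx
    rw [mem_filter, mem_product, mem_Icc, mem_Icc] at hx
    have := (cn_le_p3 (N := N) hx.2).trans (Nat.add_le_add_left hx.1.2.2 _)
    exact_mod_cast this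
  refine h2.trans ?_
  rw [sum_add_distrib, sum_const, nsmul_eq_mul]
  have hc : ((((Icc 2 D ×ˢ Icc 2 D).filter (fun x => x.1 < x.2)).card : ℕ) : ℝ) ≤ (D : ℝ) ^ 2 := by
    have g1 : ((Icc 2 D ×ˢ Icc 2 D).filter (fun x => x.1 < x.2)).card ≤ D * D := by
      refine (card_filter_le _ _).trans ?_
      rw [card_product, Nat.card_Icc]
      exact Nat.mul_le_mul (by omega) (by omega)
    rw [sq]
    exact_mod_cast g1
  have h3 : ∑ x ∈ (Icc 2 D ×ˢ Icc 2 D).filter (fun x => x.1 < x.2), (p3 N (x.2 - x.1) x.2 : ℝ) ≤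
      ∑ x ∈ (Icc 1 D ×ˢ Icc 1 D).filter (fun x => x.1 < x.2), (p3 N x.1 x.2 : ℝ) := by
    have hinj : Set.InjOn (fun x : ℕ × ℕ => (x.2 - x.1, x.2))
        (((Icc 2 D ×ˢ Icc 2 D).filter (fun x => x.1 < x.2) : Finset (ℕ × ℕ)) : Set (ℕ × ℕ)) := by
      intro x hx y hy hxy
      rw [mem_coe, mem_filter] at hx hy
      simp only [Prod.mk.injEq] at hxy
      have h4 := hx.2
      have h5 := hy.2
      apply Prod.ext
      · omega
      · exact hxy.2
    rw [← sum_image (g := fun x : ℕ × ℕ => (x.2 - x.1, x.2)) (f := fun x : ℕ × ℕ => (p3 N x.1 x.2 : ℝ)) hinj]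
    apply sum_le_sum_of_subset_of_nonneg
    · intro x hx
      rw [mem_image] at hx
      obtain ⟨y, hy, rfl⟩ := hx
      rw [mem_filter, mem_product, mem_Icc, mem_Icc] at hy
      rw [mem_filter, mem_product, mem_Icc, mem_Icc]
      simp only
      omega
    · intro x _ _
      exact Nat.cast_nonneg _
  have h4 : ∑ x ∈ (Icc 1 D ×ˢ Icc 1 D).filter (fun x => x.1 < x.2), (p3 N x.1 x.2 : ℝ) ≤
      ∑ x ∈ tri D, (p3 N x.1 x.2 : ℝ) + (D : ℝ) ^ 2 := by
    have hsub : tri D ⊆ (Icc 1 D ×ˢ Icc 1 D).filter (fun x => x.1 < x.2) := by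
      intro x hx
      unfold tri at hx
      rw [mem_filter, mem_product, mem_Icc, mem_Icc] at hx
      rw [mem_filter, mem_product, mem_Icc, mem_Icc]
      omega
    rw [← sum_sdiff hsub, add_comm]
    apply add_le_add le_rfl
    have h5 : ∀ x ∈ (Icc 1 D ×ˢ Icc 1 D).filter (fun x => x.1 < x.2) \ tri D, (p3 N x.1 x.2 : ℝ) ≤ 1 := by
      intro x hx
      rw [Finset.mem_sdiff, mem_filter, mem_product, mem_Icc, mem_Icc] at hx
      have h6 : ¬ (Even x.1 ∧ Even x.2) := by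
        intro h7
        apply hx.2
        unfold tri
        rw [mem_filter, mem_product, mem_Icc, mem_Icc]
        have h8 : x.1 ≠ 1 := by
          intro h
          rw [h] at h7
          exact absurd h7.1 (by decide)
        refine ⟨by omega, h7.1, h7.2, hx.1.2⟩
      exact_mod_cast p3_odd h6
    have h6 := sum_le_sum h5
    rw [sum_const, nsmul_eq_mul, mul_one] at h6
    refine h6.trans ?_
    have g1 : ((Icc 1 D ×ˢ Icc 1 D).filter (fun x => x.1 < x.2) \ tri D).card ≤ D * D := by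
      refine (card_le_card sdiff_subset).trans ((card_filter_le _ _).trans ?_)
      rw [card_product, Nat.card_Icc, Nat.add_sub_cancel]
    rw [sq]
    exact_mod_cast g1
  have h5 := mul_le_mul_of_nonneg_right hc (Nat.cast_nonneg (α := ℝ) D)
  have e : (D : ℝ) ^ 2 * D = (D : ℝ) ^ 3 := by ring
  rw [e] at h5
  linarith

lemma tri_le_SA (D : ℕ) : ∑ x ∈ tri D, Uni.CT {0, x.1, x.2} ≤ SA 2 D := by
  classical
  unfold SA
  have hinj : Set.InjOn (fun x : ℕ × ℕ => ({x.1, x.2} : Finset ℕ)) ((tri D : Finset (ℕ × ℕ)) : Set (ℕ × ℕ)) := by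
    intro x hx y hy hxy
    rw [mem_coe] at hx hy
    unfold tri at hx hy
    rw [mem_filter] at hx hy
    have h1 := hx.2.2.2
    have h2 := hy.2.2.2
    simp only at hxy
    have h3 : x.1 ∈ ({y.1, y.2} : Finset ℕ) := by rw [← hxy]; simp
    have h4 : x.2 ∈ ({y.1, y.2} : Finset ℕ) := by rw [← hxy]; simp
    simp only [mem_insert, mem_singleton] at h3 h4
    apply Prod.ext <;> omega
  rw [← sum_image (g := fun x : ℕ × ℕ => ({x.1, x.2} : Finset ℕ)) (f := fun T : Finset ℕ => Uni.CT (insert 0 T)) hinj]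
  apply sum_le_sum_of_subset_of_nonneg
  · intro T hT
    rw [mem_image] at hT
    obtain ⟨x, hx, rfl⟩ := hT
    unfold tri at hx
    rw [mem_filter, mem_product] at hx
    rw [mem_powersetCard]
    refine ⟨?_, card_pair hx.2.2.2.ne⟩
    intro a ha
    rw [mem_insert, mem_singleton] at ha
    rcases ha with rfl | rfl
    · exact hx.1.1
    · exact hx.1.2
  · intro T _ _
    exact Uni.CT_nonneg _

/-- **the whole region, lower bound** -/
theorem tri_lo (ε : ℝ) (hε : 0 < ε) : ∃ K : ℝ, 1 ≤ K ∧ ∀ A : ℝ, ∀ᶠ N : ℕ in atTop, ∀ D : ℕ,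
    K * Real.log N ≤ D → (D : ℝ) ≤ Real.log N ^ A →
      (lam 4 2 - ε) * ((∑ x ∈ tri D, Uni.CT {0, x.1, x.2}) * (N / Real.log N ^ 3)) ≤
        ∑ x ∈ tri D, (p3 N x.1 x.2 : ℝ) := by
  obtain ⟨K, hK, h⟩ := all_scales2 2 (by norm_num) (ε / 2) (by positivity)
  obtain ⟨D₀, hD₀⟩ := anch_lo 2 (1 / 2) (by norm_num)
  refine ⟨K, hK, fun A => ?_⟩
  filter_upwards [h A, ev_log (max 1 D₀), ev_small (A + (3 : ℕ)) (ε / 16) (by positivity), eventually_ge_atTop 1]
    with N h1 h2 h3 h4 D g1 g2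
  have hS := sum_nonneg (fun x (_ : x ∈ tri D) => Uni.CT_nonneg {0, x.1, x.2})
  rcases le_or_gt (lam 4 2) ε with hle | hgt
  · have : (lam 4 2 - ε) * ((∑ x ∈ tri D, Uni.CT {0, x.1, x.2}) * (N / Real.log N ^ 3)) ≤ 0 := by
      apply mul_nonpos_of_nonpos_of_nonneg (by linarith)
      have : 0 ≤ Real.log (N : ℝ) := Real.log_natCast_nonneg _
      positivity
    exact this.trans (sum_nonneg fun _ _ => Nat.cast_nonneg _)
  obtain ⟨L, hL⟩ : ∃ L : ℝ, L = Real.log (N : ℝ) := ⟨_, rfl⟩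
  rw [← hL] at h1 h2 h3 g1 g2 ⊢
  have hL1 : 1 ≤ L := (le_max_left _ _).trans h2
  have hLD : (D₀ : ℝ) ≤ L := (le_max_right _ _).trans h2
  have hL0 : 0 < L := by linarith
  have hN0 : (0 : ℝ) < N := by exact_mod_cast h4
  have hLD' : L ≤ D := (le_mul_of_one_le_left hL0.le hK).trans g1
  have hD0 : (0 : ℝ) < D := by linarith
  have hD1 : (1 : ℝ) ≤ D := by linarith
  have hDD : D₀ ≤ D := by exact_mod_cast hLD.trans hLD'
  have k1 := h1 D g1 g2
  have e3 : L ^ (2 + 1) = L ^ 3 := by norm_num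
  rw [e3] at k1
  have k2 := QA_le_p3 D N
  have k3 := hD₀ D hDD
  have e2 : ((2 : ℕ).factorial : ℝ) = 2 := by norm_num [Nat.factorial]
  rw [e2] at k3
  have k3' : (D : ℝ) ^ 2 / 4 ≤ SA 2 D := by
    unfold SA
    linarith
  obtain ⟨Y, hY⟩ : ∃ Y : ℝ, Y = N / L ^ 3 := ⟨_, rfl⟩
  have hY0 : 0 < Y := by rw [hY]; positivity
  rw [← hY] at k1 ⊢
  have k4 : (D : ℝ) ^ 3 + (D : ℝ) ^ 2 ≤ ε / 2 * (SA 2 D * Y) := by
    have m1 : (D : ℝ) ≤ ε / 16 * Y := by
      rw [hY, ← mul_div_assoc, le_div_iff₀ (by positivity)]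
      refine le_trans ?_ h3
      rw [Real.rpow_add hL0, Real.rpow_natCast]
      exact mul_le_mul_of_nonneg_right g2 (by positivity)
    have m2 : (D : ℝ) ^ 3 + (D : ℝ) ^ 2 ≤ 2 * (D : ℝ) ^ 3 := by
      have : (D : ℝ) ^ 2 * 1 ≤ (D : ℝ) ^ 2 * D := mul_le_mul_of_nonneg_left hD1 (by positivity)
      have e : (D : ℝ) ^ 3 = (D : ℝ) ^ 2 * D := by ring
      linarith
    refine m2.trans ?_
    have m3 : (D : ℝ) ^ 2 / 4 * Y ≤ SA 2 D * Y := mul_le_mul_of_nonneg_right k3' hY0.le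
    have m4 : (D : ℝ) ^ 2 * D ≤ (D : ℝ) ^ 2 * (ε / 16 * Y) := mul_le_mul_of_nonneg_left m1 (by positivity)
    have e : (D : ℝ) ^ 3 = (D : ℝ) ^ 2 * D := by ring
    have m5 := mul_le_mul_of_nonneg_left m3 (show 0 ≤ ε / 2 by positivity)
    rw [e]
    linarith
  have k5 : (lam 4 2 - ε) * ((∑ x ∈ tri D, Uni.CT {0, x.1, x.2}) * Y) ≤ (lam 4 2 - ε) * (SA 2 D * Y) :=
    mul_le_mul_of_nonneg_left (mul_le_mul_of_nonneg_right (tri_le_SA D) hY0.le) (by linarith)
  have k6 : (lam 4 2 - ε) * (SA 2 D * Y) = (lam 4 2 - ε / 2) * (SA 2 D * Y) - ε / 2 * (SA 2 D * Y) := by ring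
  linarith

/-- **the whole region, upper bound** -/
theorem tri_up (ε : ℝ) (hε : 0 < ε) : ∃ K : ℝ, 1 ≤ K ∧ ∀ A : ℝ, ∀ᶠ N : ℕ in atTop, ∀ D : ℕ,
    K * Real.log N ≤ D → (D : ℝ) ≤ Real.log N ^ A →
      ∑ x ∈ tri D, (p3 N x.1 x.2 : ℝ) ≤
        (16 + ε) * ((∑ x ∈ tri D, Uni.CT {0, x.1, x.2}) * (N / Real.log N ^ 3)) := by
  obtain ⟨K, hK, h⟩ := box_up ε hε
  refine ⟨K, hK, fun A => ?_⟩
  filter_upwards [h A] with N h1 D g1 g2
  have k1 := h1 0 D 0 D g1 g1 (by rw [zero_add]; exact g2) (by rw [zero_add]; exact g2)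
  rw [tri_box (g := fun x => (p3 N x.1 x.2 : ℝ)) (fun a b => by simp only [p3_swap N a b]) D,
    tri_box (g := fun x => Uni.CT {0, x.1, x.2}) (fun a b => by simp only [pair_comm a b]) D] at k1
  linarith

end Pool.Agent.L0h43.TA
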