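import Pool.Agent.L0h43.TA.Tri

/-!
# Prime triples: almost all `d'`, and real `x`
-/

set_option autoImplicit false

namespace Pool.Agent.L0h43.TA

open Finset Filter Topology Pool.Agent.H387R2

lemma prod_bad {S B : Finset ℕ} (hBS : B ⊆ S) {f g : ℕ → ℝ} {C X q q' e : ℝ}
    (hC : 0 < C) (hX : 0 < X) (hq : 0 < q) (hq' : 0 < q') (he : 0 < e)
    (hM : ∑ n ∈ S, f n ^ 4 ≤ C * X * q ^ 4) (hM' : ∑ n ∈ S, g n ^ 4 ≤ C * X * q' ^ 4)
    (hc : (B.card : ℝ) ≤ e ^ 2 / (2 * C) * X) : ∑ n ∈ B, f n * g n ≤ e * (X * (q * q')) := by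
  have g1 : ∑ p ∈ B, (f p * g p) ^ 2 ≤ 2 * C * X * (q * q') ^ 2 := by
    have g2 : ∀ p ∈ B, (f p * g p) ^ 2 ≤ (q * q') ^ 2 * ((f p ^ 4) / q ^ 4 + (g p ^ 4) / q' ^ 4) := by
      intro p _
      have g3 := sq_prod_le (a := f p / q) (b := g p / q')
      have e4 : (f p * g p) ^ 2 = (q * q') ^ 2 * ((f p / q) * (g p / q')) ^ 2 := by
        field_simp
      rw [e4]
      apply mul_le_mul_of_nonneg_left _ (by positivity)
      rw [← div_pow, ← div_pow]
      exact g3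
    refine (sum_le_sum g2).trans ?_
    rw [← mul_sum, sum_add_distrib, ← sum_div, ← sum_div]
    have g4 : (∑ p ∈ B, f p ^ 4) / q ^ 4 ≤ C * X := by
      rw [div_le_iff₀ (by positivity)]
      refine le_trans ?_ hM
      apply sum_le_sum_of_subset_of_nonneg hBS
      intro n _ _
      positivity
    have g5 : (∑ p ∈ B, g p ^ 4) / q' ^ 4 ≤ C * X := by
      rw [div_le_iff₀ (by positivity)]
      refine le_trans ?_ hM'
      apply sum_le_sum_of_subset_of_nonneg hBS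
      intro n _ _
      positivity
    calc (q * q') ^ 2 * ((∑ p ∈ B, f p ^ 4) / q ^ 4 + (∑ p ∈ B, g p ^ 4) / q' ^ 4) ≤
        (q * q') ^ 2 * (C * X + C * X) := mul_le_mul_of_nonneg_left (add_le_add g4 g5) (by positivity)
      _ = _ := by ring
  refine (cs_bad B _ hc g1 (by positivity)).trans (le_of_eq ?_)
  have e5 : e ^ 2 / (2 * C) * X * (2 * C * X * (q * q') ^ 2) = (e * (X * (q * q'))) ^ 2 := by
    field_simp
  rw [e5]
  exact Real.sqrt_sq (by positivity)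

open Classical in
/-- **the excess in the second window, weighted with the first window** -/
theorem bil_exc (ε : ℝ) (hε : 0 < ε) (e : ℝ) (he : 0 < e) : ∃ K : ℝ, 1 ≤ K ∧ ∀ A : ℝ, ∀ᶠ N : ℕ in atTop,
    ∀ (h h' : ℕ) (τ τ' : ℤ), K * Real.log N ≤ h → K * Real.log N ≤ h' → (h : ℝ) ≤ Real.log N ^ A →
      (h' : ℝ) ≤ Real.log N ^ A → (τ.natAbs : ℝ) ≤ Real.log N ^ A → (τ'.natAbs : ℝ) ≤ Real.log N ^ A →
      ∑ p ∈ pr N, (NW h (sh τ p) : ℝ) * max ((NW h' (sh τ' p) : ℝ) - (4 + ε) * (h' / Real.log N)) 0 ≤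
        e * (N / Real.log N * ((h / Real.log N) * (h' / Real.log N))) := by
  obtain ⟨δ, hδd⟩ : ∃ δ : ℝ, δ = min (ε / 3) 1 := ⟨_, rfl⟩
  have hδ : 0 < δ := by rw [hδd]; exact lt_min (by positivity) one_pos
  have hδ1 : δ ≤ 1 := by rw [hδd]; exact min_le_right _ _
  have hδ3 : 3 * δ ≤ ε := by
    have : δ ≤ ε / 3 := by rw [hδd]; exact min_le_left _ _
    linarith
  obtain ⟨C, hC, hmom⟩ := mom_dis 4
  obtain ⟨η, hη, hbad⟩ := bad_dis 4 (by norm_num) le_rfl δ (e ^ 2 / (2 * C)) hδ hδ1 (by positivity)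
  obtain ⟨K, hK, hae⟩ := aeK δ η hδ hη
  refine ⟨K, hK, fun A => ?_⟩
  filter_upwards [hmom A, hbad A, hae (A + 1), rg_add (A := A) hδ, ev_log 1, eventually_ge_atTop 1]
    with N h1 h2 h3 h4 h6 h7 h h' τ τ' hh hh' hA hA' hτ hτ'
  obtain ⟨L, hL⟩ : ∃ L : ℝ, L = Real.log (N : ℝ) := ⟨_, rfl⟩
  rw [← hL] at h1 h2 h3 h4 h6 hh hh' hA hA' hτ hτ' ⊢
  have hL0 : 0 < L := by linarith
  have hN0 : (0 : ℝ) < N := by exact_mod_cast h7
  have hLh : L ≤ h := (le_mul_of_one_le_left hL0.le hK).trans hh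
  have hLh' : L ≤ h' := (le_mul_of_one_le_left hL0.le hK).trans hh'
  have hR : Rg A N h := by unfold Rg; rw [← hL]; exact ⟨hLh, hA⟩
  have hR' : Rg A N h' := by unfold Rg; rw [← hL]; exact ⟨hLh', hA'⟩
  obtain ⟨X, hX⟩ : ∃ X : ℝ, X = N / L := ⟨_, rfl⟩
  have hX0 : 0 < X := by rw [hX]; positivity
  obtain ⟨q, hq⟩ : ∃ q : ℝ, q = h / L := ⟨_, rfl⟩
  obtain ⟨q', hq'⟩ : ∃ q' : ℝ, q' = h' / L := ⟨_, rfl⟩
  have hh0 : (0 : ℝ) < h := by linarith
  have hh0' : (0 : ℝ) < h' := by linarith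
  have hq0 : 0 < q := by rw [hq]; positivity
  have hq0' : 0 < q' := by rw [hq']; positivity
  have hAE' : AEp 4 δ η N (h' + Gx δ h') := h3 _ (by
    push_cast
    have : (0 : ℝ) ≤ Gx δ h' := Nat.cast_nonneg _
    linarith) (h4 h' hA')
  have hB' := h2 h' τ' hR' hτ' hAE'
  have hM := h1 h τ hR hτ
  have hM' := h1 h' τ' hR' hτ'
  rw [← hX] at hB' hM hM'
  rw [← hq] at hM
  rw [← hq'] at hM'
  have e1' : (4 + 3 * δ) * h' / L = (4 + 3 * δ) * q' := by rw [hq']; ring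
  rw [e1'] at hB'
  rw [← hX, ← hq, ← hq']
  set B' := (pr N).filter (fun p => (4 + 3 * δ) * q' < (NW h' (sh τ' p) : ℝ)) with hBdef'
  have hkey := prod_bad (filter_subset _ _) hC hX0 hq0 hq0' he hM hM' hB'
  refine le_trans ?_ hkey
  rw [sum_filter]
  apply sum_le_sum
  intro p _
  have hn0 : (0 : ℝ) ≤ NW h (sh τ p) := Nat.cast_nonneg _
  split_ifs with hb
  · apply mul_le_mul_of_nonneg_left _ hn0
    apply max_le _ (Nat.cast_nonneg _)
    have : 0 ≤ (4 + ε) * q' := by positivity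
    linarith
  · rw [not_lt] at hb
    have h5 : (NW h' (sh τ' p) : ℝ) - (4 + ε) * q' ≤ 0 := by
      have : (4 + 3 * δ) * q' ≤ (4 + ε) * q' := mul_le_mul_of_nonneg_right (by linarith) hq0'.le
      linarith
    rw [max_eq_right h5, mul_zero]

/-- the number of primes `p ≤ N` with `p - d'` prime -/
def p2 (N d' : ℕ) : ℕ := ((range (N + 1)).filter (fun p => p.Prime ∧ (p - d').Prime)).card

/-- the even elements of the window `(v, v + h']` different from `d'` -/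
def ev (v h' d' : ℕ) : Finset ℕ := (Ioc v (v + h')).filter (fun d => Even d ∧ d ≠ d')

lemma exc_le (N u h v h' : ℕ) {c : ℝ} : ∑ d' ∈ (Ioc u (u + h)).filter (fun d => Even d),
      max (∑ d ∈ ev v h' d', (p3 N d' d : ℝ) - c * p2 N d') 0 ≤
    ∑ p ∈ pr N, (NW h (sh (-((u + h : ℕ) : ℤ)) p) : ℝ) *
      max ((NW h' (sh (-((v + h' : ℕ) : ℤ)) p) : ℝ) - c) 0 := by
  classical
  have h1 : ∀ d' : ℕ, max (∑ d ∈ ev v h' d', (p3 N d' d : ℝ) - c * p2 N d') 0 ≤
      ∑ p ∈ pr N, if (p - d').Prime then max ((NW h' (sh (-((v + h' : ℕ) : ℤ)) p) : ℝ) - c) 0 else 0 := by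
    intro d'
    have hpr : (range (N + 1)).filter (fun p => p.Prime ∧ (p - d').Prime) =
        (pr N).filter (fun p => (p - d').Prime) := by
      ext p
      unfold pr
      simp only [mem_filter, mem_range, mem_Icc]
      constructor
      · rintro ⟨h2, h3, h4⟩
        exact ⟨⟨⟨h3.one_le, by omega⟩, h3⟩, h4⟩
      · rintro ⟨⟨⟨h2, h3⟩, h4⟩, h5⟩
        exact ⟨by omega, h4, h5⟩
    have h2 : ∑ d ∈ ev v h' d', (p3 N d' d : ℝ) ≤
        ∑ p ∈ (pr N).filter (fun p => (p - d').Prime), (NW h' (sh (-((v + h' : ℕ) : ℤ)) p) : ℝ) := by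
      have h3 : ∀ d ∈ ev v h' d', p3 N d' d =
          ∑ p ∈ (pr N).filter (fun p => (p - d').Prime), if (p - d).Prime then 1 else 0 := by
        intro d _
        rw [← card_filter, ← hpr, filter_filter]
        unfold p3
        congr 1
        apply filter_congr
        intro p _
        tauto
      have h4 : ∑ d ∈ ev v h' d', p3 N d' d ≤
          ∑ p ∈ (pr N).filter (fun p => (p - d').Prime), NW h' (sh (-((v + h' : ℕ) : ℤ)) p) := by
        rw [sum_congr rfl h3, sum_comm]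
        apply sum_le_sum
        intro p _
        refine le_trans ?_ (QB_le v h' p)
        rw [← card_filter]
        unfold QB ev
        rw [filter_filter]
        apply card_le_card
        intro d hd
        rw [mem_filter] at hd ⊢
        exact ⟨hd.1, hd.2.2⟩
      exact_mod_cast h4
    have h5 : c * (p2 N d' : ℝ) = ∑ _p ∈ (pr N).filter (fun p => (p - d').Prime), c := by
      unfold p2
      rw [hpr, sum_const, nsmul_eq_mul, mul_comm]
    rw [← sum_filter]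
    apply max_le
    · calc ∑ d ∈ ev v h' d', (p3 N d' d : ℝ) - c * p2 N d' ≤
          ∑ p ∈ (pr N).filter (fun p => (p - d').Prime), ((NW h' (sh (-((v + h' : ℕ) : ℤ)) p) : ℝ) - c) := by
            rw [sum_sub_distrib, h5]
            linarith
        _ ≤ _ := sum_le_sum fun p _ => le_max_left _ _
    · exact sum_nonneg fun p _ => le_max_right _ _
  refine (sum_le_sum fun d' _ => h1 d').trans ?_
  rw [sum_comm]
  apply sum_le_sum
  intro p _
  obtain ⟨M, hM⟩ : ∃ M : ℝ, M = max ((NW h' (sh (-((v + h' : ℕ) : ℤ)) p) : ℝ) - c) 0 := ⟨_, rfl⟩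
  have hM0 : 0 ≤ M := by rw [hM]; exact le_max_right _ _
  rw [← hM, ← sum_filter, sum_const, nsmul_eq_mul]
  apply mul_le_mul_of_nonneg_right _ hM0
  have h6 : (((Ioc u (u + h)).filter (fun d => Even d)).filter (fun d' => (p - d').Prime)).card ≤ QB u h p := by
    unfold QB
    rw [filter_filter]
    apply card_le_card
    intro d hd
    rw [mem_filter] at hd ⊢
    exact ⟨hd.1, hd.2.2⟩
  exact_mod_cast h6.trans (QB_le u h p)

open Classical in
/-- **almost all `d'`** -/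
theorem almost_N (ε : ℝ) (hε : 0 < ε) : ∃ K : ℝ, 1 ≤ K ∧ ∀ A : ℝ, ∀ᶠ N : ℕ in atTop,
    ∀ u h v h' : ℕ, K * Real.log N ≤ h → K * Real.log N ≤ h' → ((u + h : ℕ) : ℝ) ≤ Real.log N ^ A →
      ((v + h' : ℕ) : ℝ) ≤ Real.log N ^ A →
      (((Ioc u (u + h)).filter (fun d' => Even d' ∧
        (4 + ε) * (h' / Real.log N) * p2 N d' + ε * (h' * (N / Real.log N ^ 3)) <
          ∑ d ∈ ev v h' d', (p3 N d' d : ℝ))).card : ℝ) ≤ ε * h := by
  obtain ⟨K, hK, hb⟩ := bil_exc ε hε (ε ^ 2) (by positivity)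
  refine ⟨K, hK, fun A => ?_⟩
  filter_upwards [hb A, ev_log 1, eventually_ge_atTop 1] with N h1 h2 h3 u h v h' g1 g2 g3 g4
  obtain ⟨L, hL⟩ : ∃ L : ℝ, L = Real.log (N : ℝ) := ⟨_, rfl⟩
  rw [← hL] at h1 h2 g1 g2 g3 g4 ⊢
  have hL0 : 0 < L := by linarith
  have hN0 : (0 : ℝ) < N := by exact_mod_cast h3
  have hLh : L ≤ h := (le_mul_of_one_le_left hL0.le hK).trans g1
  have hLh' : L ≤ h' := (le_mul_of_one_le_left hL0.le hK).trans g2
  have hh0' : (0 : ℝ) < h' := by linarith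
  have g5 := h1 h h' (-((u + h : ℕ) : ℤ)) (-((v + h' : ℕ) : ℤ)) g1 g2 (by
    refine le_trans ?_ g3
    push_cast
    have : (0 : ℝ) ≤ u := Nat.cast_nonneg _
    linarith) (by
    refine le_trans ?_ g4
    push_cast
    have : (0 : ℝ) ≤ v := Nat.cast_nonneg _
    linarith) (by
    rw [Int.natAbs_neg, Int.natAbs_natCast]
    exact g3) (by
    rw [Int.natAbs_neg, Int.natAbs_natCast]
    exact g4)
  have g6 := (exc_le N u h v h' (c := (4 + ε) * (h' / L))).trans g5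
  set E := (Ioc u (u + h)).filter (fun d' => Even d' ∧
        (4 + ε) * (h' / L) * p2 N d' + ε * (h' * (N / L ^ 3)) < ∑ d ∈ ev v h' d', (p3 N d' d : ℝ)) with hE
  have g7 : (E.card : ℝ) * (ε * (h' * (N / L ^ 3))) ≤ ∑ d' ∈ (Ioc u (u + h)).filter (fun d => Even d),
      max (∑ d ∈ ev v h' d', (p3 N d' d : ℝ) - (4 + ε) * (h' / L) * p2 N d') 0 := by
    rw [← nsmul_eq_mul, ← sum_const]
    have g8 : ∑ d' ∈ E, ε * (h' * (N / L ^ 3)) ≤
        ∑ d' ∈ E, max (∑ d ∈ ev v h' d', (p3 N d' d : ℝ) - (4 + ε) * (h' / L) * p2 N d') 0 := by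
      apply sum_le_sum
      intro d' hd'
      rw [hE, mem_filter] at hd'
      refine le_trans ?_ (le_max_left _ _)
      have := hd'.2.2
      linarith
    refine g8.trans ?_
    apply sum_le_sum_of_subset_of_nonneg
    · intro d' hd'
      rw [hE, mem_filter] at hd'
      rw [mem_filter]
      exact ⟨hd'.1, hd'.2.1⟩
    · intro _ _ _
      exact le_max_right _ _
  have g9 := g7.trans g6
  have e1 : ε ^ 2 * (N / L * (h / L * (h' / L))) = (ε * h) * (ε * (h' * (N / L ^ 3))) := by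
    field_simp
  rw [e1] at g9
  exact le_of_mul_le_mul_right g9 (by positivity)

end Pool.Agent.L0h43.TA
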