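import Pool.Agent.L0h43.TA.Tri2

/-!
# Prime triples on average, real `x`
-/

set_option autoImplicit false

namespace Pool.Agent.L0h43.TA

open Finset Filter Topology Pool.Agent.H387R2

lemma lam_four_two : 5 / 12 < lam 4 2 := by
  have h3 : Real.sqrt 3 < 1.7321 := by
    rw [Real.sqrt_lt' (by norm_num)]
    norm_num
  have h30 : 0 ≤ Real.sqrt 3 := Real.sqrt_nonneg 3
  have e : lam 4 2 = (4 / (1 + 3 * Real.sqrt 3)) ^ 2 := by
    unfold lam tt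
    rw [Real.sqrt_eq_rpow]
    norm_num
  rw [e, div_pow, lt_div_iff₀ (by positivity)]
  have h4 : Real.sqrt 3 * Real.sqrt 3 = 3 := Real.mul_self_sqrt (by norm_num)
  have h5 : (1 + 3 * Real.sqrt 3) ^ 2 = 28 + 6 * Real.sqrt 3 := by
    have : (1 + 3 * Real.sqrt 3) ^ 2 = 1 + 6 * Real.sqrt 3 + 9 * (Real.sqrt 3 * Real.sqrt 3) := by ring
    rw [this, h4]; ring
  rw [h5]
  linarith

/-- comparison of the logarithms -/
lemma log_cmp (c : ℝ) (hc : 1 < c) : ∀ᶠ x : ℝ in atTop,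
    Real.log x ≤ c * Real.log ((⌊x⌋₊ : ℕ) : ℝ) := by
  have h1 := log_ratio.eventually_const_lt (show (1 / c : ℝ) < 1 by
    rw [div_lt_one (by linarith)]; exact hc)
  filter_upwards [h1, eventually_gt_atTop 1] with x h2 hx
  have hl : 0 < Real.log x := Real.log_pos hx
  rw [lt_div_iff₀ hl, div_mul_eq_mul_div, one_mul, div_lt_iff₀ (by linarith)] at h2
  linarith

open Classical in
/-- **almost all `d'`, real `x`** -/
theorem almost_real (ε : ℝ) (hε : 0 < ε) : ∃ K : ℝ, 1 ≤ K ∧ ∀ A : ℝ, ∀ᶠ x : ℝ in atTop,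
    ∀ u h v h' : ℕ, K * Real.log x ≤ h → K * Real.log x ≤ h' → ((u + h : ℕ) : ℝ) ≤ Real.log x ^ A →
      ((v + h' : ℕ) : ℝ) ≤ Real.log x ^ A →
      (((Ioc u (u + h)).filter (fun d' => Even d' ∧
        (4 + ε) * (h' / Real.log x) * p2 ⌊x⌋₊ d' + ε * (h' * (x / Real.log x ^ 3)) <
          ∑ d ∈ ev v h' d', (p3 ⌊x⌋₊ d' d : ℝ))).card : ℝ) ≤ ε * h := by
  obtain ⟨K, hK, h⟩ := almost_N (ε / 2) (by positivity)
  refine ⟨K, hK, fun A => ?_⟩
  filter_upwards [tend_floor.eventually (h (max A 0 + 1)), pow_floor A, eventually_gt_atTop 1,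
    log_cmp ((4 + ε) / (4 + ε / 2)) (by rw [one_lt_div (by positivity)]; linarith), main_bd 3 1 one_pos,
    tend_floor.eventually (ev_log 1)] with x h1 h2 hx h3 h4 h5 u g v g' hg hg' hA hA'
  have hl : 0 < Real.log x := Real.log_pos hx
  have g1 := h1 u g v g'
    ((mul_le_mul_of_nonneg_left (log_floor_le x hx.le) (by linarith)).trans hg)
    ((mul_le_mul_of_nonneg_left (log_floor_le x hx.le) (by linarith)).trans hg') (hA.trans h2) (hA'.trans h2)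
  obtain ⟨M, hM⟩ : ∃ M : ℝ, M = Real.log ((⌊x⌋₊ : ℕ) : ℝ) := ⟨_, rfl⟩
  rw [← hM] at g1 h3 h4 h5
  have hM0 : 0 < M := by linarith
  have hc1 : (((Ioc u (u + g)).filter (fun d' => Even d' ∧
        (4 + ε) * (g' / Real.log x) * p2 ⌊x⌋₊ d' + ε * (g' * (x / Real.log x ^ 3)) <
          ∑ d ∈ ev v g' d', (p3 ⌊x⌋₊ d' d : ℝ))).card : ℝ) ≤
      (((Ioc u (u + g)).filter (fun d' => Even d' ∧
        (4 + ε / 2) * (g' / M) * p2 ⌊x⌋₊ d' + ε / 2 * (g' * (((⌊x⌋₊ : ℕ) : ℝ) / M ^ 3)) <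
          ∑ d ∈ ev v g' d', (p3 ⌊x⌋₊ d' d : ℝ))).card : ℝ) := by
    have : ((Ioc u (u + g)).filter (fun d' => Even d' ∧
        (4 + ε) * (g' / Real.log x) * p2 ⌊x⌋₊ d' + ε * (g' * (x / Real.log x ^ 3)) <
          ∑ d ∈ ev v g' d', (p3 ⌊x⌋₊ d' d : ℝ))).card ≤
      ((Ioc u (u + g)).filter (fun d' => Even d' ∧
        (4 + ε / 2) * (g' / M) * p2 ⌊x⌋₊ d' + ε / 2 * (g' * (((⌊x⌋₊ : ℕ) : ℝ) / M ^ 3)) <
          ∑ d ∈ ev v g' d', (p3 ⌊x⌋₊ d' d : ℝ))).card := by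
      apply card_le_card
      intro d' hd'
      rw [mem_filter] at hd' ⊢
      refine ⟨hd'.1, hd'.2.1, lt_of_le_of_lt ?_ hd'.2.2⟩
      have hg0 : (0 : ℝ) ≤ g' := Nat.cast_nonneg _
      have hp0 : (0 : ℝ) ≤ p2 ⌊x⌋₊ d' := Nat.cast_nonneg _
      have k1 : (4 + ε / 2) * (g' / M) ≤ (4 + ε) * (g' / Real.log x) := by
        rw [mul_div_assoc', mul_div_assoc', div_le_div_iff₀ hM0 hl]
        have k2 : (4 + ε / 2) * Real.log x ≤ (4 + ε) * M := by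
          have := mul_le_mul_of_nonneg_left h3 (show (0 : ℝ) ≤ 4 + ε / 2 by positivity)
          have e : (4 + ε / 2) * ((4 + ε) / (4 + ε / 2) * M) = (4 + ε) * M := by field_simp
          rwa [e] at this
        calc (4 + ε / 2) * (g' : ℝ) * Real.log x = g' * ((4 + ε / 2) * Real.log x) := by ring
          _ ≤ g' * ((4 + ε) * M) := mul_le_mul_of_nonneg_left k2 hg0
          _ = (4 + ε) * (g' : ℝ) * M := by ring
      have k3 : ε / 2 * (g' * (((⌊x⌋₊ : ℕ) : ℝ) / M ^ 3)) ≤ ε * (g' * (x / Real.log x ^ 3)) := by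
        have k4 := h4.2
        calc ε / 2 * (g' * (((⌊x⌋₊ : ℕ) : ℝ) / M ^ 3)) ≤ ε / 2 * (g' * ((1 + 1) * (x / Real.log x ^ 3))) := by
              apply mul_le_mul_of_nonneg_left _ (by positivity)
              exact mul_le_mul_of_nonneg_left k4 hg0
          _ = ε * (g' * (x / Real.log x ^ 3)) := by ring
      exact add_le_add (mul_le_mul_of_nonneg_right k1 hp0) k3
    exact_mod_cast this
  have hg00 : (0 : ℝ) ≤ g := Nat.cast_nonneg _
  refine hc1.trans (g1.trans ?_)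
  exact mul_le_mul_of_nonneg_right (by linarith) hg00

/-- **boxes, real `x`** -/
theorem box_real (ε : ℝ) (hε : 0 < ε) : ∃ K : ℝ, 1 ≤ K ∧ ∀ A : ℝ, ∀ᶠ x : ℝ in atTop,
    ∀ u h v h' : ℕ, K * Real.log x ≤ h → K * Real.log x ≤ h' → ((u + h : ℕ) : ℝ) ≤ Real.log x ^ A →
      ((v + h' : ℕ) : ℝ) ≤ Real.log x ^ A →
      ∑ y ∈ bx u h v h', (p3 ⌊x⌋₊ y.1 y.2 : ℝ) ≤
        (16 + ε) * ((∑ y ∈ bx u h v h', Uni.CT {0, y.1, y.2}) * (x / Real.log x ^ 3)) := by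
  obtain ⟨K, hK, h⟩ := box_up (ε / 2) (by positivity)
  refine ⟨K, hK, fun A => ?_⟩
  filter_upwards [tend_floor.eventually (h (max A 0 + 1)), pow_floor A, eventually_gt_atTop 1,
    up_real (a := 16) (by norm_num) hε 3] with x h1 h2 hx h3 u g v g' hg hg' hA hA'
  exact h3 _ _ (sum_nonneg fun _ _ => Uni.CT_nonneg _) (h1 u g v g'
    ((mul_le_mul_of_nonneg_left (log_floor_le x hx.le) (by linarith)).trans hg)
    ((mul_le_mul_of_nonneg_left (log_floor_le x hx.le) (by linarith)).trans hg') (hA.trans h2) (hA'.trans h2))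

/-- **the region, real `x`** -/
theorem region_real (ε : ℝ) (hε : 0 < ε) : ∃ K : ℝ, 1 ≤ K ∧ ∀ A : ℝ, ∀ᶠ x : ℝ in atTop,
    ∀ D : ℕ, K * Real.log x ≤ D → (D : ℝ) ≤ Real.log x ^ A →
      5 / 12 * ((∑ y ∈ tri D, Uni.CT {0, y.1, y.2}) * (x / Real.log x ^ 3)) ≤
        ∑ y ∈ tri D, (p3 ⌊x⌋₊ y.1 y.2 : ℝ) ∧
      ∑ y ∈ tri D, (p3 ⌊x⌋₊ y.1 y.2 : ℝ) ≤
        (16 + ε) * ((∑ y ∈ tri D, Uni.CT {0, y.1, y.2}) * (x / Real.log x ^ 3)) := by
  obtain ⟨c, hc⟩ : ∃ c : ℝ, c = lam 4 2 - 5 / 12 := ⟨_, rfl⟩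
  have hc0 : 0 < c := by rw [hc]; linarith [lam_four_two]
  obtain ⟨K, hK, h⟩ := tri_lo (c / 2) (by positivity)
  obtain ⟨K', hK', h'⟩ := tri_up (ε / 2) (by positivity)
  refine ⟨K + K', by linarith, fun A => ?_⟩
  filter_upwards [tend_floor.eventually (h (max A 0 + 1)), tend_floor.eventually (h' (max A 0 + 1)),
    pow_floor A, eventually_gt_atTop 1, up_real (a := 16) (by norm_num) hε 3,
    lo_real (b := lam 4 2) (lam_le_one (by norm_num) (by norm_num)) hc0 3]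
    with x h1 h1' h2 hx h3 h4 D hD1 hD2
  have hl : 0 < Real.log x := Real.log_pos hx
  have hm : 0 ≤ Real.log ((⌊x⌋₊ : ℕ) : ℝ) := Real.log_natCast_nonneg _
  have g1 : K * Real.log ((⌊x⌋₊ : ℕ) : ℝ) ≤ D := by
    refine le_trans ?_ hD1
    exact mul_le_mul (by linarith) (log_floor_le x hx.le) hm (by linarith)
  have g2 : K' * Real.log ((⌊x⌋₊ : ℕ) : ℝ) ≤ D := by
    refine le_trans ?_ hD1
    exact mul_le_mul (by linarith) (log_floor_le x hx.le) hm (by linarith)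
  have hS : 0 ≤ ∑ y ∈ tri D, Uni.CT {0, y.1, y.2} := sum_nonneg fun _ _ => Uni.CT_nonneg _
  constructor
  · have := h4 _ _ hS (sum_nonneg fun _ _ => Nat.cast_nonneg _) (h1 D g1 (hD2.trans h2))
    have e : lam 4 2 - c = 5 / 12 := by rw [hc]; ring
    rwa [e] at this
  · exact h3 _ _ hS (h1' D g2 (hD2.trans h2))

/-- `⌊log² x⌋` is in the range -/
lemma sq_range (K : ℝ) (hK : 0 < K) : ∀ᶠ x : ℝ in atTop, K * Real.log x ≤ ((⌊Real.log x ^ 2⌋₊ : ℕ) : ℝ) ∧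
    ((⌊Real.log x ^ 2⌋₊ : ℕ) : ℝ) ≤ Real.log x ^ (2 : ℝ) := by
  filter_upwards [Real.tendsto_log_atTop.eventually_ge_atTop (K + 1)] with x h1
  have hL0 : 0 < Real.log x := by linarith
  have hL1 : 1 ≤ Real.log x := by linarith
  constructor
  · have h2 : Real.log x ^ 2 < ((⌊Real.log x ^ 2⌋₊ : ℕ) : ℝ) + 1 := Nat.lt_floor_add_one _
    have h3 : (K + 1) * Real.log x ≤ Real.log x ^ 2 := by
      rw [sq]
      exact mul_le_mul_of_nonneg_right h1 hL0.le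
    linarith
  · rw [Real.rpow_two]
    exact Nat.floor_le (by positivity)

end Pool.Agent.L0h43.TA
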