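import Pool.Agent.L0h43.TA.Sec
import Pool.Agent.TH891.SG.Gal4

/-!
# The variance of the majorant in short windows
-/

set_option autoImplicit false

namespace Pool.Agent.L0h43.TA

open Finset Pool.Agent.H387R2
open Pool.Agent.H410R2.AC (wt GG)
open Pool.Agent.H386R2.HL (sy localFactor)

/-! ### Sizes -/

lemma pow_card_le {J : ℕ} {A : Finset ℕ} (hJ : Big J A) : (2 ^ 2 ^ J) ^ A.card ≤ ∏ p ∈ A, p := by
  rw [← prod_const]
  exact prod_le_prod' hJ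

lemma card_le_of_lt {J k m : ℕ} {A : Finset ℕ} (hJ : Big J A) (h : ∏ p ∈ A, p ≤ m)
    (hm : m < (2 ^ 2 ^ J) ^ (k + 1)) : A.card ≤ k := by
  by_contra hc
  have h1 : k + 1 ≤ A.card := by omega
  have h2 : (2 ^ 2 ^ J) ^ (k + 1) ≤ (2 ^ 2 ^ J) ^ A.card := Nat.pow_le_pow_right (by positivity) h1
  have h3 := pow_card_le hJ
  omega

lemma Fm_card {Q : Finset ℕ} (hQ : Prs Q) (Y : ℕ) : (Fm Q Y).card ≤ Y := by
  have h1 : ((Fm Q Y).image (fun D => ∏ p ∈ D, p)).card = (Fm Q Y).card := by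
    apply card_image_of_injOn
    intro D hD E hE h
    simp only at h
    rw [← Nat.primeFactors_prod (Fm_prs hQ hD), ← Nat.primeFactors_prod (Fm_prs hQ hE), h]
  rw [← h1]
  have h2 : (Fm Q Y).image (fun D => ∏ p ∈ D, p) ⊆ Icc 1 Y := by
    intro m hm
    rw [mem_image] at hm
    obtain ⟨D, hD, rfl⟩ := hm
    rw [mem_Icc]
    refine ⟨prod_pos' (Fm_prs hQ hD), ?_⟩
    unfold Fm at hD
    exact (mem_filter.1 hD).2
  have := card_le_card h2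
  rwa [Nat.card_Icc, Nat.add_sub_cancel] at this

lemma AA_le {J k Y : ℕ} {Q : Finset ℕ} (hQ : Prs Q) (hJ : Big J Q) (hY : 1 ≤ Y)
    (hk : Y < (2 ^ 2 ^ J) ^ (k + 1)) : AA Q Y ≤ 2 ^ k * Y := by
  unfold AA
  have h1 : ∀ D ∈ Fm Q Y, |rho Q Y D| ≤ 2 ^ k := by
    intro D hD
    refine (rho_le hQ hY D (Fm_prs hQ hD)).trans ?_
    apply pow_le_pow_right₀ (by norm_num)
    apply card_le_of_lt (J := J) (m := Y) (fun p hp => hJ p (Fm_subset hD hp)) _ hk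
    unfold Fm at hD
    exact (mem_filter.1 hD).2
  refine (sum_le_sum h1).trans ?_
  rw [sum_const, nsmul_eq_mul, mul_comm]
  apply mul_le_mul_of_nonneg_left _ (by positivity)
  exact_mod_cast Fm_card hQ Y

lemma Lam_le {J k Y m : ℕ} {Q : Finset ℕ} (hQ : Prs Q) (hJ : Big J Q) (hY : 1 ≤ Y) (hm : 1 ≤ m)
    (hk : m < (2 ^ 2 ^ J) ^ (k + 1)) : |Lam Q Y m| ≤ 3 ^ k := by
  classical
  have h1 : |Lam Q Y m| ≤ ∑ D ∈ (Q.filter (fun p => p ∣ m)).powerset, (2 : ℝ) ^ D.card := by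
    unfold Lam
    refine (abs_sum_le_sum_abs _ _).trans ?_
    have h2 : ∀ D ∈ Fm Q Y, |if (∀ p ∈ D, p ∣ m) then rho Q Y D else 0| ≤
        if (∀ p ∈ D, p ∣ m) then (2 : ℝ) ^ D.card else 0 := by
      intro D hD
      by_cases h : ∀ p ∈ D, p ∣ m
      · rw [if_pos h, if_pos h]
        exact rho_le hQ hY D (Fm_prs hQ hD)
      · rw [if_neg h, if_neg h, abs_zero]
    refine (sum_le_sum h2).trans ?_
    rw [← sum_filter]
    apply sum_le_sum_of_subset_of_nonneg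
    · intro D hD
      rw [mem_filter] at hD
      rw [mem_powerset]
      intro p hp
      rw [mem_filter]
      exact ⟨Fm_subset hD.1 hp, hD.2 p hp⟩
    · intro D _ _
      positivity
  refine h1.trans ?_
  have h3 : ∑ D ∈ (Q.filter (fun p => p ∣ m)).powerset, (2 : ℝ) ^ D.card =
      3 ^ (Q.filter (fun p => p ∣ m)).card := by
    have h4 := prod_one_add (Q.filter (fun p => p ∣ m)) (f := fun _ => (2 : ℝ))
    rw [prod_const] at h4
    rw [show (3 : ℝ) = 1 + 2 by norm_num, h4]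
    apply sum_congr rfl
    intro D _
    rw [prod_const]
  rw [h3]
  apply pow_le_pow_right₀ (by norm_num)
  apply card_le_of_lt (J := J) (m := m) (fun p hp => hJ p (mem_filter.1 hp).1) _ hk
  apply Nat.le_of_dvd hm
  rw [prod_dvd_iff (fun p hp => hQ p (mem_filter.1 hp).1)]
  intro p hp
  exact (mem_filter.1 hp).2

/-! ### The densities of pairs -/

lemma Ps_eq (J : ℕ) : (2 ^ 2 ^ J - 1 + 1).primesBelow = Ps J := by
  rw [Nat.sub_add_cancel Nat.one_le_two_pow]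
  rfl

lemma VT_eq (J : ℕ) (T : Finset ℕ) : VT J T = V1 J ^ T.card * sy (Uni.en T) (2 ^ 2 ^ J - 1) := by
  unfold sy
  rw [Ps_eq]
  unfold VT V1
  rw [← prod_pow, ← prod_mul_distrib]
  apply prod_congr rfl
  intro p hp
  rw [Uni.loc_en]
  unfold Uni.locT
  have : (1 : ℝ) < p := by exact_mod_cast (mem_filter.1 hp).2.one_lt
  have h2 : (1 - 1 / (p : ℝ)) ≠ 0 := by
    have : 1 / (p : ℝ) < 1 := by rw [div_lt_one (by linarith)]; exact this
    linarith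
  rw [mul_div_assoc', mul_div_cancel_left₀ _ (pow_ne_zero _ h2)]

lemma VT_le {J : ℕ} {T : Finset ℕ} (hT : T.card = 2) (hJ : 9 ≤ 2 ^ 2 ^ J) :
    VT J T ≤ V1 J ^ 2 * (Uni.CT T * (1 + 8 / ((2 : ℝ) ^ 2 ^ J - 1))) := by
  obtain ⟨y, hy⟩ : ∃ y : ℕ, y = 2 ^ 2 ^ J - 1 := ⟨_, rfl⟩
  have hy8 : 8 ≤ y := by omega
  have hyR : (y : ℝ) = (2 : ℝ) ^ 2 ^ J - 1 := by
    rw [hy, Nat.cast_sub (by omega)]
    push_cast
    ring
  have h := Helper22K9.Trp.CT_ge' T y (by omega) (by omega)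
  rw [← Uni.sy_en] at h
  have hsy := Pool.Agent.H386R2.HL.sy_nonneg (Uni.en T) y
  rw [VT_eq, ← hy, ← hyR]
  obtain ⟨s, hs⟩ : ∃ s, s = sy (Uni.en T) y := ⟨_, rfl⟩
  rw [← hs] at h hsy ⊢
  rw [hT] at h ⊢
  apply mul_le_mul_of_nonneg_left _ (by have := V1_pos J; positivity)
  have hy0 : (8 : ℝ) ≤ y := by exact_mod_cast hy8
  have hCT := Uni.CT_nonneg T
  push_cast at h
  have h1 : (1 : ℝ) ≤ (1 + 8 / y) * (1 - 2 ^ 2 / y) := by
    have e : (1 + 8 / (y : ℝ)) * (1 - 2 ^ 2 / y) = 1 + 4 * (y - 8) / y ^ 2 := by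
      field_simp
      ring
    rw [e]
    have : 0 ≤ 4 * ((y : ℝ) - 8) / y ^ 2 := div_nonneg (by linarith) (by positivity)
    linarith
  calc s = 1 * s := (one_mul _).symm
    _ ≤ ((1 + 8 / y) * (1 - 2 ^ 2 / y)) * s := mul_le_mul_of_nonneg_right h1 hsy
    _ = (1 + 8 / y) * ((1 - 2 ^ 2 / y) * s) := by ring
    _ ≤ (1 + 8 / y) * Uni.CT T := mul_le_mul_of_nonneg_left h (by positivity)
    _ = _ := by ring

/-- ordered pairs and sets of two elements -/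
lemma offDiag_sum (R : Finset ℕ) (f : Finset ℕ → ℝ) :
    ∑ x ∈ R.offDiag, f {x.1, x.2} = 2 * ∑ T ∈ R.powersetCard 2, f T := by
  classical
  have hmap : ∀ x ∈ R.offDiag, ({x.1, x.2} : Finset ℕ) ∈ R.powersetCard 2 := by
    intro x hx
    rw [mem_offDiag] at hx
    rw [mem_powersetCard]
    refine ⟨?_, card_pair hx.2.2⟩
    intro a ha
    rw [mem_insert, mem_singleton] at ha
    rcases ha with rfl | rfl
    · exact hx.1
    · exact hx.2.1
  rw [← sum_fiberwise_of_maps_to hmap, mul_sum]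
  apply sum_congr rfl
  intro T hT
  rw [mem_powersetCard] at hT
  have h1 : ∑ x ∈ R.offDiag.filter (fun x => ({x.1, x.2} : Finset ℕ) = T), f {x.1, x.2} =
      ∑ x ∈ R.offDiag.filter (fun x => ({x.1, x.2} : Finset ℕ) = T), f T := by
    apply sum_congr rfl
    intro x hx
    rw [(mem_filter.1 hx).2]
  rw [h1, sum_const, nsmul_eq_mul]
  congr 1
  have h2 : R.offDiag.filter (fun x => ({x.1, x.2} : Finset ℕ) = T) = T.offDiag := by
    ext x
    rw [mem_filter, mem_offDiag, mem_offDiag]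
    constructor
    · rintro ⟨h3, rfl⟩
      exact ⟨mem_insert_self _ _, mem_insert_of_mem (mem_singleton_self _), h3.2.2⟩
    · rintro ⟨h3, h4, h5⟩
      refine ⟨⟨hT.1 h3, hT.1 h4, h5⟩, ?_⟩
      apply eq_of_subset_of_card_le
      · intro a ha
        rw [mem_insert, mem_singleton] at ha
        rcases ha with rfl | rfl
        · exact h3
        · exact h4
      · rw [hT.2, card_pair h5]
  rw [h2, offDiag_card, hT.2]
  norm_num

/-- the main term of the second moment -/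
theorem S2_le : ∃ C : ℝ, 0 < C ∧ ∀ J H : ℕ, 9 ≤ 2 ^ 2 ^ J → 1 ≤ H →
    ∑ x ∈ (range H).offDiag, VT J {x.1, x.2} ≤
      V1 J ^ 2 * ((H : ℝ) * (H + C * (H : ℝ) ^ (1 / 4 : ℝ)) * (1 + 8 / ((2 : ℝ) ^ 2 ^ J - 1))) := by
  obtain ⟨C, hC, h⟩ := Pool.Agent.TH891.SG.CT_avg 1
  refine ⟨C, hC, ?_⟩
  intro J H hJ hH
  rw [offDiag_sum (range H) (VT J)]
  have h1 := h H hH
  have hz : (0 : ℝ) ≤ 1 + 8 / ((2 : ℝ) ^ 2 ^ J - 1) := by
    have : (9 : ℝ) ≤ (2 : ℝ) ^ 2 ^ J := by exact_mod_cast hJ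
    have h2 : (0 : ℝ) < (2 : ℝ) ^ 2 ^ J - 1 := by linarith
    positivity
  have h2 : ∑ T ∈ (range H).powersetCard 2, VT J T ≤
      ∑ T ∈ (range H).powersetCard 2, V1 J ^ 2 * (Uni.CT T * (1 + 8 / ((2 : ℝ) ^ 2 ^ J - 1))) :=
    sum_le_sum fun T hT => VT_le (mem_powersetCard.1 hT).2 hJ
  rw [← mul_sum, ← sum_mul] at h2
  have e : (((1 + 1).factorial : ℕ) : ℝ) = 2 := by norm_num [Nat.factorial]
  rw [e, pow_one] at h1
  have hV := V1_pos J
  calc 2 * ∑ T ∈ (range H).powersetCard 2, VT J T ≤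
      2 * (V1 J ^ 2 * ((∑ T ∈ (range H).powersetCard 2, Uni.CT T) * (1 + 8 / ((2 : ℝ) ^ 2 ^ J - 1)))) := by
        linarith
    _ ≤ 2 * (V1 J ^ 2 * (((H : ℝ) * (H + C * (H : ℝ) ^ (1 / 4 : ℝ)) / 2) * (1 + 8 / ((2 : ℝ) ^ 2 ^ J - 1)))) := by
        apply mul_le_mul_of_nonneg_left _ (by norm_num)
        apply mul_le_mul_of_nonneg_left _ (by positivity)
        exact mul_le_mul_of_nonneg_right h1 hz
    _ = _ := by ring

/-! ### The diagonal -/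

lemma diag_le {C b J k : ℕ} (hC : CT2 C) (hb : 3 * C ≤ b) {Q : Finset ℕ} (hQ : Prs Q) (hJ : Big J Q)
    {Y : ℕ} (hY : 1 ≤ Y) (N h : ℕ) (hk : N + h < (2 ^ 2 ^ J) ^ (k + 1)) :
    ∑ n ∈ Ioc 0 N, nu J Q Y (n + h) * nu J Q Y (n + h) ≤ (3 ^ k) ^ 4 * (2 * (N * V1 J) + Er C b J) := by
  classical
  have hP : Prs (∅ : Finset ℕ) := fun p hp => absurd hp (notMem_empty p)
  have hBg : Big J (∅ : Finset ℕ) := fun p hp => absurd hp (notMem_empty p)
  have h1 : ∀ n ∈ Ioc 0 N, nu J Q Y (n + h) * nu J Q Y (n + h) ≤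
      (3 ^ k) ^ 4 * (if ((∀ p ∈ (∅ : Finset ℕ), p ∣ n + h) ∧ Ro J (n + h)) ∧
        ((∀ p ∈ (∅ : Finset ℕ), p ∣ n + h) ∧ Ro J (n + h)) then 1 else 0) := by
    intro n hn
    rw [mem_Ioc] at hn
    unfold nu
    by_cases hR : Ro J (n + h)
    · rw [if_pos hR, if_pos, mul_one]
      · have h2 := Lam_le hQ hJ hY (m := n + h) (by omega) (lt_of_le_of_lt (by omega) hk)
        calc Lam Q Y (n + h) ^ 2 * Lam Q Y (n + h) ^ 2 = |Lam Q Y (n + h)| ^ 4 := by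
              rw [← pow_add, show 2 + 2 = 4 from rfl]
              have : |Lam Q Y (n + h)| ^ 4 = (|Lam Q Y (n + h)| ^ 2) ^ 2 := by ring
              rw [this, sq_abs]; ring
          _ ≤ (3 ^ k) ^ 4 := pow_le_pow_left₀ (abs_nonneg _) h2 4
      · exact ⟨⟨fun p hp => absurd hp (notMem_empty p), hR⟩, ⟨fun p hp => absurd hp (notMem_empty p), hR⟩⟩
    · rw [if_neg hR, zero_mul]
      split_ifs <;> positivity
  refine (sum_le_sum h1).trans ?_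
  rw [← mul_sum]
  apply mul_le_mul_of_nonneg_left _ (by positivity)
  rw [sum_boole]
  have h2 := hC b J N h h ∅ ∅ hb hP hP hBg hBg (disjoint_empty_right _)
  rw [VT_same] at h2
  have e : pd (∅ : Finset ℕ) = 1 := by simp [pd]
  rw [e, mul_one, div_one] at h2
  have h3 := (abs_le.1 h2).2
  unfold cc at h3
  have h4 : (1 / 2 : ℝ) ^ b ≤ 1 := pow_le_one₀ (by norm_num) (by norm_num)
  have h5 : 0 ≤ (N : ℝ) * V1 J := mul_nonneg (Nat.cast_nonneg _) (V1_pos J).le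
  have h6 := mul_le_mul_of_nonneg_right h4 h5
  linarith

/-! ### The variance -/

/-- the window sum -/
noncomputable def Yw (J : ℕ) (Q : Finset ℕ) (Y H n : ℕ) : ℝ := ∑ h ∈ range H, nu J Q Y (n + h)

theorem var_le {C b J k : ℕ} (hC : CT2 C) (hb : 3 * C ≤ b) {Q : Finset ℕ} (hQ : Prs Q) (hJ : Big J Q)
    {Y : ℕ} (hY : 1 ≤ Y) (N H : ℕ) (hH : H ≤ 2 ^ 2 ^ J) (hk : N + H < (2 ^ 2 ^ J) ^ (k + 1))
    {g U e1 S : ℝ} (hg : g = 1 / GG (Fm Q Y)) (hU : U = UU Q)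
    (he1 : ∑ p ∈ Q, (8 / p * UU Q) ^ 2 + (1 / 2) ^ b * UU Q ^ 2 ≤ e1)
    (hS : ∑ x ∈ (range H).offDiag, VT J {x.1, x.2} ≤ V1 J ^ 2 * (H ^ 2 * (1 + S))) (_hS0 : 0 ≤ S)
    (he0 : 0 ≤ e1) :
    ∑ n ∈ Ioc 0 N, (Yw J Q Y H n - H * V1 J * g) ^ 2 ≤
      N * (H * V1 J) ^ 2 * (S * g ^ 2 + (1 + S) * e1 + 2 * g * ((1 / 2) ^ b * U)) +
      H ^ 2 * (Er C b J * AA Q Y ^ 4) + H * ((3 ^ k) ^ 4 * (2 * (N * V1 J) + Er C b J)) +
      2 * (H * V1 J * g) * (H * (Er C b J * AA Q Y ^ 2)) := by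
  classical
  have hV := V1_pos J
  have hG : 0 < GG (Fm Q Y) := GG_pos hQ hY
  have hg0 : 0 < g := by rw [hg]; positivity
  have hE := Er_nonneg C b J
  have hN : (0 : ℝ) ≤ N := Nat.cast_nonneg _
  have hH0 : (0 : ℝ) ≤ H := Nat.cast_nonneg _
  set m : ℝ := H * V1 J * g with hm
  have hm0 : 0 ≤ m := by positivity
  have e0 : ∑ n ∈ Ioc 0 N, (Yw J Q Y H n - m) ^ 2 = ∑ n ∈ Ioc 0 N, Yw J Q Y H n ^ 2 -
      2 * m * ∑ n ∈ Ioc 0 N, Yw J Q Y H n + N * m ^ 2 := by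
    have : ∀ n ∈ Ioc 0 N, (Yw J Q Y H n - m) ^ 2 = Yw J Q Y H n ^ 2 - 2 * m * Yw J Q Y H n + m ^ 2 := by
      intro n _; ring
    rw [sum_congr rfl this, sum_add_distrib, sum_sub_distrib, ← mul_sum, sum_const, nsmul_eq_mul,
      Nat.card_Ioc, Nat.sub_zero]
  -- first moment
  have e1' : ∑ n ∈ Ioc 0 N, Yw J Q Y H n = ∑ h ∈ range H, ∑ n ∈ Ioc 0 N, nu J Q Y (n + h) := by
    unfold Yw
    rw [sum_comm]
  have f1 : H * (N * V1 J * (g - (1 / 2) ^ b * U) - Er C b J * AA Q Y ^ 2) ≤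
      ∑ n ∈ Ioc 0 N, Yw J Q Y H n := by
    rw [e1', hg, hU]
    have := sum_le_sum (fun h (_ : h ∈ range H) => first_low hC hb hQ hJ hY N h)
    rw [sum_const, card_range, nsmul_eq_mul] at this
    exact this
  -- second moment
  have e2 : ∑ n ∈ Ioc 0 N, Yw J Q Y H n ^ 2 =
      ∑ x ∈ (range H) ×ˢ (range H), ∑ n ∈ Ioc 0 N, nu J Q Y (n + x.1) * nu J Q Y (n + x.2) := by
    rw [sum_comm]
    apply sum_congr rfl
    intro n _
    unfold Yw
    rw [sq, sum_mul_sum, sum_product]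
  have f2 : ∑ x ∈ (range H).offDiag, ∑ n ∈ Ioc 0 N, nu J Q Y (n + x.1) * nu J Q Y (n + x.2) ≤
      N * (V1 J ^ 2 * (H ^ 2 * (1 + S))) * (g ^ 2 + e1) + H ^ 2 * (Er C b J * AA Q Y ^ 4) := by
    have h1 : ∀ x ∈ (range H).offDiag, ∑ n ∈ Ioc 0 N, nu J Q Y (n + x.1) * nu J Q Y (n + x.2) ≤
        VT J {x.1, x.2} * (N * (g ^ 2 + e1)) + Er C b J * AA Q Y ^ 4 := by
      intro x hx
      rw [mem_offDiag, mem_range, mem_range] at hx
      refine (pair_up hC hb hQ hJ hY N x.1 x.2 hx.2.2 (by omega) (by omega)).trans ?_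
      have h2 : 1 / GG (Fm Q Y) ^ 2 = g ^ 2 := by rw [hg, div_pow, one_pow]
      have h3 := VT_nonneg J {x.1, x.2}
      rw [h2]
      have h4 : N * VT J {x.1, x.2} *
          (g ^ 2 + ∑ p ∈ Q, (8 / (p : ℝ) * UU Q) ^ 2 + (1 / 2) ^ b * UU Q ^ 2) ≤
          N * VT J {x.1, x.2} * (g ^ 2 + e1) := by
        apply mul_le_mul_of_nonneg_left _ (mul_nonneg hN h3)
        linarith
      linarith
    refine (sum_le_sum h1).trans ?_
    rw [sum_add_distrib, ← sum_mul, sum_const, nsmul_eq_mul]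
    have h5 : (((range H).offDiag.card : ℕ) : ℝ) ≤ (H : ℝ) ^ 2 := by
      have : (range H).offDiag.card ≤ H * H := by
        rw [offDiag_card, card_range]; omega
      have h6 : (((range H).offDiag.card : ℕ) : ℝ) ≤ ((H * H : ℕ) : ℝ) := by exact_mod_cast this
      rw [sq]; exact_mod_cast h6
    have h7 : 0 ≤ Er C b J * AA Q Y ^ 4 := by have := AA_nonneg Q Y; positivity
    have h8 := mul_le_mul_of_nonneg_right h5 h7
    have h9 := mul_le_mul_of_nonneg_right hS (show 0 ≤ (N : ℝ) * (g ^ 2 + e1) by positivity)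
    have e3 : N * (V1 J ^ 2 * (H ^ 2 * (1 + S))) * (g ^ 2 + e1) =
        V1 J ^ 2 * (H ^ 2 * (1 + S)) * (N * (g ^ 2 + e1)) := by ring
    rw [e3]
    linarith
  have f3 : ∑ x ∈ (range H).diag, ∑ n ∈ Ioc 0 N, nu J Q Y (n + x.1) * nu J Q Y (n + x.2) ≤
      H * ((3 ^ k) ^ 4 * (2 * (N * V1 J) + Er C b J)) := by
    rw [sum_diag]
    have := sum_le_sum (fun h (hh : h ∈ range H) => diag_le (k := k) hC hb hQ hJ hY N h (by
      have := mem_range.1 hh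
      omega))
    rw [sum_const, card_range, nsmul_eq_mul] at this
    exact this
  have f4 : ∑ n ∈ Ioc 0 N, Yw J Q Y H n ^ 2 ≤
      (N * (V1 J ^ 2 * (H ^ 2 * (1 + S))) * (g ^ 2 + e1) + H ^ 2 * (Er C b J * AA Q Y ^ 4)) +
      H * ((3 ^ k) ^ 4 * (2 * (N * V1 J) + Er C b J)) := by
    rw [e2, ← diag_union_offDiag, sum_union (disjoint_diag_offDiag _)]
    linarith
  rw [e0]
  have f5 := mul_le_mul_of_nonneg_left f1 (show 0 ≤ 2 * m by positivity)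
  have e4 : (N * (V1 J ^ 2 * (H ^ 2 * (1 + S))) * (g ^ 2 + e1) + H ^ 2 * (Er C b J * AA Q Y ^ 4)) +
      H * ((3 ^ k) ^ 4 * (2 * (N * V1 J) + Er C b J)) -
      2 * m * (H * (N * V1 J * (g - (1 / 2) ^ b * U) - Er C b J * AA Q Y ^ 2)) + N * m ^ 2 =
      N * (H * V1 J) ^ 2 * (S * g ^ 2 + (1 + S) * e1 + 2 * g * ((1 / 2) ^ b * U)) +
      H ^ 2 * (Er C b J * AA Q Y ^ 4) + H * ((3 ^ k) ^ 4 * (2 * (N * V1 J) + Er C b J)) +
      2 * m * (H * (Er C b J * AA Q Y ^ 2)) := by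
    rw [hm]; ring
  linarith

end Pool.Agent.L0h43.TA
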